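import Pool.Agent.Lib.MP_adb013_pr.Grid

set_option autoImplicit false
set_option linter.unusedSectionVars false

open MeasureTheory
open scoped ENNReal

namespace Pool.Agent.Lib.MP_adb013_pr

/-- Vertex sets of the walks of length `L` starting from `b`. -/
def animWalk {α : Type} [DecidableEq α] [Fintype α] (r : α → α → Prop) [DecidableRel r] :
    ℕ → α → Finset (Finset α)
  | 0, b => {{b}}
  | L + 1, b => (Finset.univ.filter fun b' => r b b').biUnion
      fun b' => (animWalk r L b').image (insert b)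

section Anim

variable {α : Type} [DecidableEq α] [Fintype α] {r : α → α → Prop} [DecidableRel r]

theorem animWalk_succ {L : ℕ} {b : α} {S : Finset α} :
    S ∈ animWalk r (L + 1) b ↔ ∃ b', r b b' ∧ ∃ S' ∈ animWalk r L b', insert b S' = S := by
  simp [animWalk]

theorem animWalk_card {Δ : ℕ} (hΔ : ∀ a, (Finset.univ.filter fun a' => r a a').card ≤ Δ) :
    ∀ (L : ℕ) (b : α), (animWalk r L b).card ≤ Δ ^ L := by
  intro L
  induction L with
  | zero => intro b; simp [animWalk]
  | succ L ih =>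
    intro b
    calc (animWalk r (L + 1) b).card
        ≤ (Finset.univ.filter fun b' => r b b').card * Δ ^ L :=
          Finset.card_biUnion_le_card_mul _ _ _ fun b' _ => Finset.card_image_le.trans (ih b')
      _ ≤ Δ * Δ ^ L := Nat.mul_le_mul_right _ (hΔ b)
      _ = Δ ^ (L + 1) := by ring

theorem animWalk_root : ∀ {L : ℕ} {b : α} {S : Finset α}, S ∈ animWalk r L b → b ∈ S := by
  intro L b S hS
  cases L with
  | zero =>
    have : S = {b} := by simpa [animWalk] using hS
    simp [this]
  | succ L =>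
    obtain ⟨b', -, S', -, rfl⟩ := animWalk_succ.mp hS
    exact Finset.mem_insert_self _ _

theorem animWalk_lazy (hrefl : ∀ a, r a a) {L : ℕ} {b : α} {S : Finset α}
    (hS : S ∈ animWalk r L b) (k : ℕ) : S ∈ animWalk r (L + k) b := by
  induction k with
  | zero => exact hS
  | succ k ih =>
    exact animWalk_succ.mpr ⟨b, hrefl b, S, ih, Finset.insert_eq_of_mem (animWalk_root hS)⟩

theorem animWalk_detour (hsymm : ∀ a a', r a a' → r a' a) {a y : α} (hay : r a y) :
    ∀ (L : ℕ) (b : α) (S : Finset α), S ∈ animWalk r L b → a ∈ S →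
      insert y S ∈ animWalk r (L + 2) b := by
  have hroot : ∀ (L : ℕ) (S : Finset α), S ∈ animWalk r L a →
      insert y S ∈ animWalk r (L + 2) a := by
    intro L S hS
    refine animWalk_succ.mpr ⟨y, hay, insert y S, animWalk_succ.mpr ⟨a, hsymm _ _ hay, S, hS, rfl⟩, ?_⟩
    exact Finset.insert_eq_of_mem (Finset.mem_insert_of_mem (animWalk_root hS))
  intro L
  induction L with
  | zero =>
    intro b S hS ha
    have h1 : S = {b} := by simpa [animWalk] using hS
    have h2 : a = b := by simpa [h1] using ha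
    subst h2
    exact hroot 0 S hS
  | succ L ih =>
    intro b S hS ha
    by_cases hab : a = b
    · subst hab
      exact hroot _ S hS
    · obtain ⟨b', hb', S', hS', rfl⟩ := animWalk_succ.mp hS
      have ha' : a ∈ S' := by
        rcases Finset.mem_insert.mp ha with h | h
        · exact absurd h hab
        · exact h
      exact animWalk_succ.mpr ⟨b', hb', insert y S', ih b' S' hS' ha', Finset.insert_comm _ _ _⟩

theorem anim_exit {W S : Finset α} {b : α} (hW : Conn r W b) (hb : b ∈ S) {y : α} (hy : y ∈ W)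
    (hyS : y ∉ S) : ∃ a ∈ S, ∃ z ∈ W, z ∉ S ∧ r a z := by
  by_contra hcon
  push Not at hcon
  apply hyS
  have h := hW.2 y hy
  clear hy hyS
  induction h with
  | refl => exact hb
  | tail _ hstep ih =>
    by_contra hz
    exact hcon _ ih _ hstep.2.1 hz hstep.2.2

theorem anim_grow (hsymm : ∀ a a', r a a' → r a' a) {W : Finset α} {b : α} (hW : Conn r W b) :
    ∀ k : ℕ, k + 1 ≤ W.card → ∃ S ⊆ W, S.card = k + 1 ∧ S ∈ animWalk r (2 * k) b := by
  intro k
  induction k with
  | zero =>
    intro _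
    exact ⟨{b}, by simpa using hW.1, by simp, by simp [animWalk]⟩
  | succ k ih =>
    intro hk
    obtain ⟨S, hSW, hcard, hS⟩ := ih (by omega)
    have hex : ∃ y ∈ W, y ∉ S := by
      by_contra hcon
      push Not at hcon
      have := Finset.card_le_card (show W ⊆ S from hcon)
      omega
    obtain ⟨y, hy, hyS⟩ := hex
    obtain ⟨a, ha, z, hz, hzS, haz⟩ := anim_exit hW (animWalk_root hS) hy hyS
    refine ⟨insert z S, Finset.insert_subset hz hSW, ?_, ?_⟩
    · rw [Finset.card_insert_of_notMem hzS, hcard]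
    · exact animWalk_detour hsymm haz _ b S hS ha

end Anim

/-- Counting connected sets. -/
theorem animals {α : Type} [DecidableEq α] [Fintype α] (r : α → α → Prop) [DecidableRel r]
    (hrefl : ∀ a, r a a) (hsymm : ∀ a a', r a a' → r a' a) (Δ : ℕ)
    (hΔ : ∀ a, (Finset.univ.filter fun a' => r a a').card ≤ Δ) (b : α) (w : ℕ) :
    ∃ 𝒲 : Finset (Finset α), 𝒲.card ≤ Δ ^ (2 * w) ∧
      ∀ W, Conn r W b → W.card ≤ w → W ∈ 𝒲 := by
  refine ⟨animWalk r (2 * w) b, animWalk_card hΔ _ _, fun W hW hw => ?_⟩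
  have hpos : 0 < W.card := Finset.card_pos.mpr ⟨b, hW.1⟩
  obtain ⟨S, hSW, hcard, hS⟩ := anim_grow hsymm hW (W.card - 1) (by omega)
  have hSW' : S = W := Finset.eq_of_subset_of_card_le hSW (by omega)
  have := animWalk_lazy hrefl hS (2 * w - 2 * (W.card - 1))
  rw [show 2 * (W.card - 1) + (2 * w - 2 * (W.card - 1)) = 2 * w by omega, hSW'] at this
  exact this

/-- Total weight of the sets that fill a fixed proportion of a connected set containing `b`. -/
theorem witness_sum (d C : ℕ) : ∃ q : ℝ, 0 < q ∧ q ≤ 1 ∧ ∀ (m : ℕ) (b : Cell d m) (k : ℕ), 1 ≤ k →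
    ∃ 𝒜 : Finset (Finset (Cell d m)),
      ∑ A ∈ 𝒜, q ^ A.card ≤ (1 / 2) * Real.exp (-(k : ℝ)) ∧
      ∀ A W : Finset (Cell d m), Conn Near W b → A ⊆ W → W.card ≤ C * A.card → k ≤ A.card →
        A ∈ 𝒜 := by
  classical
  set D : ℕ := ((3 ^ d) ^ 2 * 2) ^ C with hD
  have hD1 : (1 : ℝ) ≤ D := by
    rw [hD]
    exact_mod_cast Nat.one_le_pow _ _ (by positivity)
  have he1 : Real.exp (-1) ≤ 1 := Real.exp_le_one_iff.mpr (by norm_num)
  have he0 : 0 < Real.exp (-1) := Real.exp_pos _
  refine ⟨Real.exp (-1) / (8 * D), by positivity, ?_, fun m b k hk => ?_⟩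
  · rw [div_le_one (by positivity)]; linarith
  let 𝒜 : Finset (Finset (Cell d m)) := Finset.univ.filter fun A =>
    k ≤ A.card ∧ ∃ W, Conn Near W b ∧ A ⊆ W ∧ W.card ≤ C * A.card
  refine ⟨𝒜, ?_, fun A W hW hAW hc hkA => ?_⟩
  swap
  · exact Finset.mem_filter.mpr ⟨Finset.mem_univ _, hkA, W, hW, hAW, hc⟩
  have hcount : ∀ a : ℕ, (𝒜.filter fun A => A.card = a).card ≤ D ^ a := by
    intro a
    obtain ⟨𝒲, h𝒲, hmem⟩ := animals (Near (d := d) (m := m)) Near.refl (fun _ _ h => h.symm)
      (3 ^ d) card_near_le b (C * a)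
    calc (𝒜.filter fun A => A.card = a).card
        ≤ ((𝒲.filter fun W => W.card ≤ C * a).biUnion fun W => W.powerset).card := by
          refine Finset.card_le_card fun A hA => ?_
          obtain ⟨hA1, hA2⟩ := Finset.mem_filter.mp hA
          obtain ⟨-, -, W, hW, hAW, hc⟩ := Finset.mem_filter.mp hA1
          rw [hA2] at hc
          exact Finset.mem_biUnion.mpr ⟨W, Finset.mem_filter.mpr ⟨hmem W hW hc, hc⟩,
            Finset.mem_powerset.mpr hAW⟩
      _ ≤ (𝒲.filter fun W => W.card ≤ C * a).card * 2 ^ (C * a) := by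
          refine Finset.card_biUnion_le_card_mul _ _ _ fun W hW => ?_
          rw [Finset.card_powerset]
          exact Nat.pow_le_pow_right (by norm_num) (Finset.mem_filter.mp hW).2
      _ ≤ (3 ^ d) ^ (2 * (C * a)) * 2 ^ (C * a) :=
          Nat.mul_le_mul_right _ ((Finset.card_filter_le _ _).trans h𝒲)
      _ = D ^ a := by
          rw [hD, ← pow_mul ((3 ^ d) ^ 2 * 2), mul_pow, ← pow_mul (3 ^ d)]
  have hmaps : ∀ A ∈ 𝒜, A.card ∈ Finset.range (Fintype.card (Cell d m) + 1) := fun A _ =>
    Finset.mem_range.mpr (Nat.lt_succ_of_le (Finset.card_le_univ A))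
  rw [← Finset.sum_fiberwise_of_maps_to hmaps]
  have hterm : ∀ a ∈ Finset.range (Fintype.card (Cell d m) + 1),
      ∑ A ∈ 𝒜.filter (fun A => A.card = a), (Real.exp (-1) / (8 * D)) ^ A.card ≤
        (1 / 4) * Real.exp (-(k : ℝ)) * (1 / 2) ^ a := by
    intro a _
    by_cases hka : k ≤ a
    · have h1 : ∑ A ∈ 𝒜.filter (fun A => A.card = a), (Real.exp (-1) / (8 * D)) ^ A.card =
          (𝒜.filter fun A => A.card = a).card * (Real.exp (-1) / (8 * D)) ^ a := by
        rw [Finset.sum_congr rfl (g := fun _ => (Real.exp (-1) / (8 * D)) ^ a)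
          (fun A hA => by rw [(Finset.mem_filter.mp hA).2])]
        simp
      have h2 : ((𝒜.filter fun A => A.card = a).card : ℝ) ≤ (D : ℝ) ^ a := by
        exact_mod_cast hcount a
      have h3 : (D : ℝ) ^ a * (Real.exp (-1) / (8 * D)) ^ a =
          Real.exp (-1) ^ a * (1 / 4) ^ a * (1 / 2) ^ a := by
        rw [← mul_pow, ← mul_pow, ← mul_pow]
        congr 1
        field_simp
        norm_num
      have h4 : Real.exp (-1) ^ a ≤ Real.exp (-(k : ℝ)) := by
        rw [← Real.exp_nat_mul]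
        apply Real.exp_le_exp.mpr
        have : (k : ℝ) ≤ a := by exact_mod_cast hka
        linarith
      have h5 : ((1 : ℝ) / 4) ^ a ≤ 1 / 4 :=
        pow_le_of_le_one (by norm_num) (by norm_num) (by omega)
      rw [h1]
      calc _ ≤ (D : ℝ) ^ a * (Real.exp (-1) / (8 * D)) ^ a :=
            mul_le_mul_of_nonneg_right h2 (by positivity)
        _ = Real.exp (-1) ^ a * (1 / 4) ^ a * (1 / 2) ^ a := h3
        _ ≤ Real.exp (-(k : ℝ)) * (1 / 4) * (1 / 2) ^ a := by gcongr
        _ = _ := by ring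
    · have : 𝒜.filter (fun A => A.card = a) = ∅ := by
        refine Finset.filter_eq_empty_iff.mpr fun A hA h => hka ?_
        rw [← h]
        exact (Finset.mem_filter.mp hA).2.1
      rw [this, Finset.sum_empty]
      positivity
  refine (Finset.sum_le_sum hterm).trans ?_
  rw [← Finset.mul_sum]
  have hg := sum_geometric_two_le (Fintype.card (Cell d m) + 1)
  have he : 0 < Real.exp (-(k : ℝ)) := Real.exp_pos _
  nlinarith

end Pool.Agent.Lib.MP_adb013_pr
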