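import Pool.Agent.Lib.MP_adb013_pr.Defs

set_option autoImplicit false
set_option linter.unusedSectionVars false

open MeasureTheory
open scoped ENNReal

namespace Pool.Agent.Lib.MP_adb013_pr

open Filter Topology

/-- The scale `(log (n+1))^(1/d)`. -/
noncomputable def scl (d n : ℕ) : ℝ := Real.log ((n : ℝ) + 1) ^ ((1 : ℝ) / d)

/-- Half side of the boxes used for the lower bound. -/
noncomputable def ell (d n : ℕ) : ℕ := ⌈scl d n / 10⌉₊

private theorem asym_log_nonneg (n : ℕ) : 0 ≤ Real.log ((n : ℝ) + 1) :=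
  Real.log_nonneg (by have : (0 : ℝ) ≤ n := Nat.cast_nonneg n; linarith)

theorem scl_nonneg (d n : ℕ) : 0 ≤ scl d n :=
  Real.rpow_nonneg (asym_log_nonneg n) _

private theorem asym_scl_pow {d : ℕ} (hd : 1 ≤ d) (n : ℕ) :
    scl d n ^ d = Real.log ((n : ℝ) + 1) := by
  rw [scl, one_div]
  exact Real.rpow_inv_natCast_pow (asym_log_nonneg n) (by omega)

private theorem asym_succ_tendsto : Tendsto (fun n : ℕ => (n : ℝ) + 1) atTop atTop :=
  tendsto_atTop_add_const_right _ _ tendsto_natCast_atTop_atTop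

private theorem asym_log_tendsto : Tendsto (fun n : ℕ => Real.log ((n : ℝ) + 1)) atTop atTop :=
  Real.tendsto_log_atTop.comp asym_succ_tendsto

private theorem asym_scl_tendsto {d : ℕ} (hd : 1 ≤ d) : Tendsto (scl d) atTop atTop := by
  have h : (0 : ℝ) < (1 : ℝ) / d := by
    have : (0 : ℝ) < d := by exact_mod_cast hd
    positivity
  exact (tendsto_rpow_atTop h).comp asym_log_tendsto

private theorem asym_scl_le {d : ℕ} (hd : 1 ≤ d) {n : ℕ} (h : 1 ≤ scl d n) :
    scl d n ≤ Real.log ((n : ℝ) + 1) := by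
  rw [← asym_scl_pow hd n]
  exact le_self_pow₀ h (by omega)

theorem asym_upper {d : ℕ} (hd : 1 ≤ d) {c C : ℝ} (hc : 0 < c) : ∃ K : ℝ, 0 < K ∧
    (∀ᶠ n : ℕ in atTop, K * scl d n ≤ ((2 * n + 2 : ℕ) : ℝ)) ∧
    Tendsto (fun n : ℕ => ((2 * n + 2 : ℕ) : ℝ) ^ d * (C * Real.exp (-(c * (K * scl d n) ^ d))))
      atTop (𝓝 0) := by
  obtain ⟨K, hK1, hK2⟩ : ∃ K : ℝ, 1 ≤ K ∧ ((d : ℝ) + 1) / c ≤ K :=
    ⟨max 1 (((d : ℝ) + 1) / c), le_max_left _ _, le_max_right _ _⟩
  have hK0 : 0 < K := by linarith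
  refine ⟨K, hK0, ?_, ?_⟩
  · have h1 := asym_succ_tendsto.eventually
      (Real.isLittleO_log_id_atTop.bound (c := K⁻¹) (by positivity))
    filter_upwards [h1, (asym_scl_tendsto hd).eventually_ge_atTop 1] with n hn h2
    have h3 := asym_scl_le hd h2
    have hn0 : (0 : ℝ) ≤ n := Nat.cast_nonneg n
    simp only [id, Real.norm_eq_abs] at hn
    rw [abs_of_nonneg (asym_log_nonneg n), abs_of_nonneg (by linarith)] at hn
    have h4 : K * scl d n ≤ K * (K⁻¹ * ((n : ℝ) + 1)) :=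
      mul_le_mul_of_nonneg_left (h3.trans hn) hK0.le
    rw [← mul_assoc, mul_inv_cancel₀ hK0.ne', one_mul] at h4
    push_cast
    linarith
  · have key : Tendsto (fun n : ℕ => ((2 * n + 2 : ℕ) : ℝ) ^ d *
        Real.exp (-(c * (K * scl d n) ^ d))) atTop (𝓝 0) := by
      have h0 : Tendsto (fun n : ℕ => (2 : ℝ) ^ d * ((n : ℝ) + 1)⁻¹) atTop (𝓝 0) := by
        simpa using (tendsto_inv_atTop_zero.comp asym_succ_tendsto).const_mul ((2 : ℝ) ^ d)
      refine squeeze_zero (fun n => by positivity) (fun n => ?_) h0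
      have hx : (0 : ℝ) < (n : ℝ) + 1 := by positivity
      have hL := asym_log_nonneg n
      have hKd : K ≤ K ^ d := le_self_pow₀ hK1 (by omega)
      have h1 : (d : ℝ) + 1 ≤ c * K ^ d := by
        rw [div_le_iff₀ hc] at hK2
        nlinarith
      have h2 : Real.exp (-(c * (K * scl d n) ^ d)) ≤ (((n : ℝ) + 1) ^ (d + 1))⁻¹ := by
        rw [mul_pow, asym_scl_pow hd, ← Real.exp_log (pow_pos hx (d + 1)), ← Real.exp_neg,
          Real.log_pow]
        apply Real.exp_le_exp.2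
        push_cast
        nlinarith
      calc ((2 * n + 2 : ℕ) : ℝ) ^ d * Real.exp (-(c * (K * scl d n) ^ d))
          ≤ ((2 * n + 2 : ℕ) : ℝ) ^ d * (((n : ℝ) + 1) ^ (d + 1))⁻¹ :=
            mul_le_mul_of_nonneg_left h2 (by positivity)
        _ = (2 : ℝ) ^ d * ((n : ℝ) + 1)⁻¹ := by
            have : ((2 * n + 2 : ℕ) : ℝ) = 2 * ((n : ℝ) + 1) := by push_cast; ring
            rw [this, mul_pow, pow_succ]
            field_simp
    have h := key.const_mul C
    rw [mul_zero] at h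
    refine h.congr fun n => ?_
    ring

private theorem asym_ell_tendsto {d : ℕ} (hd : 1 ≤ d) : Tendsto (ell d) atTop atTop :=
  tendsto_nat_ceil_atTop.comp ((asym_scl_tendsto hd).atTop_div_const (by norm_num))

private theorem asym_ell_le {d n : ℕ} (h : 10 ≤ scl d n) : (ell d n : ℝ) ≤ scl d n / 5 := by
  have := Nat.ceil_lt_add_one (a := scl d n / 10) (by linarith)
  rw [ell]
  linarith

private theorem asym_first {d : ℕ} (hd : 1 ≤ d) {c : ℝ} (hc : 0 < c) :
    Tendsto (fun l : ℕ => (2 * (l : ℝ) + 1) ^ d * Real.exp (-(c * ((l : ℝ) / 2) ^ d)))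
      atTop (𝓝 0) := by
  have hr : |Real.exp (-(c / 2))| < 1 := by
    rw [abs_of_pos (Real.exp_pos _)]
    exact Real.exp_lt_one_iff.2 (by linarith)
  have h0 := (tendsto_pow_const_mul_const_pow_of_abs_lt_one d hr).const_mul ((3 : ℝ) ^ d)
  rw [mul_zero] at h0
  refine squeeze_zero' (Eventually.of_forall fun l => by positivity) ?_ h0
  filter_upwards [eventually_ge_atTop 2] with l hl
  have hl' : (2 : ℝ) ≤ l := by exact_mod_cast hl
  have h1 : (l : ℝ) / 2 ≤ ((l : ℝ) / 2) ^ d := le_self_pow₀ (by linarith) (by omega)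
  rw [← mul_assoc, ← mul_pow, ← Real.exp_nat_mul]
  refine mul_le_mul (pow_le_pow_left₀ (by positivity) (by linarith) d) ?_ (by positivity)
    (by positivity)
  apply Real.exp_le_exp.2
  nlinarith

private theorem asym_second {d : ℕ} (hd : 1 ≤ d) :
    Tendsto (fun n : ℕ => (((2 * n + 1) / (2 * ell d n) : ℕ) : ℝ) ^ d *
      (1 / 5 : ℝ) ^ ((2 * ell d n) ^ d) / 2) atTop atTop := by
  have h0 : Tendsto (fun n : ℕ => Real.exp (Real.log ((n : ℝ) + 1) / 5) /
      (Real.log ((n : ℝ) + 1) / 5) ^ 1 / 20) atTop atTop :=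
    ((Real.tendsto_exp_div_pow_atTop 1).comp
      (asym_log_tendsto.atTop_div_const (by norm_num))).atTop_div_const (by norm_num)
  refine tendsto_atTop_mono' _ ?_ h0
  filter_upwards [(asym_scl_tendsto hd).eventually_ge_atTop 10,
    (asym_ell_tendsto hd).eventually_ge_atTop 1] with n hn hl
  have hle := asym_ell_le hn
  have hsL := asym_scl_le hd (show 1 ≤ scl d n by linarith)
  have hpow := asym_scl_pow hd n
  have hx : (0 : ℝ) < (n : ℝ) + 1 := by positivity
  have hLx : Real.log ((n : ℝ) + 1) ≤ (n : ℝ) + 1 - 1 := Real.log_le_sub_one_of_pos hx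
  have hexp : Real.exp (Real.log ((n : ℝ) + 1)) = (n : ℝ) + 1 := Real.exp_log hx
  generalize Real.log ((n : ℝ) + 1) = L at *
  generalize ell d n = l at *
  generalize scl d n = s at *
  have hl' : (1 : ℝ) ≤ l := by exact_mod_cast hl
  have hL : 10 ≤ L := by linarith
  -- the integer quotient
  have hm : ((n : ℝ) + 1) / L ≤ (((2 * n + 1) / (2 * l) : ℕ) : ℝ) := by
    have h1 : 2 * n + 1 < (2 * l) * ((2 * n + 1) / (2 * l) + 1) :=
      Nat.lt_mul_div_succ _ (by omega)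
    have h2 : (2 * (n : ℝ) + 1) < (2 * l) * ((((2 * n + 1) / (2 * l) : ℕ) : ℝ) + 1) := by
      exact_mod_cast h1
    generalize (((2 * n + 1) / (2 * l) : ℕ)) = k at *
    have hk : (0 : ℝ) ≤ k := Nat.cast_nonneg k
    rw [div_le_iff₀ (by linarith)]
    nlinarith
  have hm1 : (1 : ℝ) ≤ (((2 * n + 1) / (2 * l) : ℕ) : ℝ) := by
    refine le_trans ?_ hm
    rw [le_div_iff₀ (by linarith)]
    linarith
  have hm2 : ((n : ℝ) + 1) / L ≤ (((2 * n + 1) / (2 * l) : ℕ) : ℝ) ^ d :=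
    hm.trans (le_self_pow₀ hm1 (by omega))
  have h5 : Real.exp (-2) ≤ (1 / 5 : ℝ) := by
    have := Real.quadratic_le_exp_of_nonneg (x := 2) (by norm_num)
    rw [Real.exp_neg, one_div]
    exact inv_anti₀ (by norm_num) (by linarith)
  have h6 : (((2 * l) ^ d : ℕ) : ℝ) ≤ 2 / 5 * L := by
    have h7 : (2 * (l : ℝ)) ^ d ≤ (2 / 5 * s) ^ d :=
      pow_le_pow_left₀ (by positivity) (by linarith) d
    have h8 : (2 / 5 : ℝ) ^ d ≤ 2 / 5 := pow_le_of_le_one (by norm_num) (by norm_num) (by omega)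
    rw [mul_pow (2 / 5 : ℝ), hpow] at h7
    push_cast
    nlinarith
  have h9 : Real.exp (-(4 / 5 * L)) ≤ (1 / 5 : ℝ) ^ ((2 * l) ^ d) := by
    refine le_trans ?_ (pow_le_pow_left₀ (Real.exp_pos _).le h5 _)
    rw [← Real.exp_nat_mul]
    apply Real.exp_le_exp.2
    linarith
  have h10 : Real.exp (L / 5) = ((n : ℝ) + 1) * Real.exp (-(4 / 5 * L)) := by
    rw [← hexp, ← Real.exp_add]
    congr 1
    ring
  calc Real.exp (L / 5) / (L / 5) ^ 1 / 20
      = ((n : ℝ) + 1) / L * Real.exp (-(4 / 5 * L)) / 4 := by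
        rw [h10]; field_simp; ring
    _ ≤ (((2 * n + 1) / (2 * l) : ℕ) : ℝ) ^ d * (1 / 5 : ℝ) ^ ((2 * l) ^ d) / 4 := by
        gcongr
    _ ≤ _ := by
        have : 0 ≤ (((2 * n + 1) / (2 * l) : ℕ) : ℝ) ^ d * (1 / 5 : ℝ) ^ ((2 * l) ^ d) := by
          positivity
        linarith

theorem asym_lower {d : ℕ} (hd : 1 ≤ d) {c C : ℝ} (hc : 0 < c) :
    (∀ᶠ n : ℕ in atTop, 1 ≤ ell d n ∧ ell d n ≤ 2 * n + 2) ∧
    Tendsto (fun n : ℕ =>
      2 * (2 * (ell d n) + 1 : ℝ) ^ d * (C * Real.exp (-(c * ((ell d n : ℝ) / 2) ^ d))) +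
        Real.exp (-((((2 * n + 1) / (2 * ell d n) : ℕ) : ℝ) ^ d *
          (1 / 5 : ℝ) ^ ((2 * ell d n) ^ d) / 2))) atTop (𝓝 0) := by
  constructor
  · filter_upwards [(asym_scl_tendsto hd).eventually_ge_atTop 10,
      (asym_ell_tendsto hd).eventually_ge_atTop 1] with n hn hl
    refine ⟨hl, ?_⟩
    have hle := asym_ell_le hn
    have hsL := asym_scl_le hd (show 1 ≤ scl d n by linarith)
    have hx : (0 : ℝ) < (n : ℝ) + 1 := by positivity
    have hLx : Real.log ((n : ℝ) + 1) ≤ (n : ℝ) + 1 - 1 := Real.log_le_sub_one_of_pos hx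
    have : (ell d n : ℝ) ≤ 2 * n + 2 := by linarith
    exact_mod_cast this
  · have h1 := ((asym_first hd hc).comp (asym_ell_tendsto hd)).const_mul (2 * C)
    have h2 := Real.tendsto_exp_neg_atTop_nhds_zero.comp (asym_second hd)
    have h3 := h1.add h2
    rw [mul_zero, add_zero] at h3
    refine h3.congr fun n => ?_
    simp only [Function.comp]
    ring

end Pool.Agent.Lib.MP_adb013_pr
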