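import Pool.Agent.Lib.MP_adb013_pr.Defs

set_option autoImplicit false
set_option linter.unusedSectionVars false

open MeasureTheory
open scoped ENNReal

namespace Pool.Agent.Lib.MP_adb013_pr

/-- Discrete form of the Loomis-Whitney type inequality. -/
theorem iso_lw {d m : ℕ} (hd : 2 ≤ d) (U : Finset (Cell d m)) (f : Cell d m → NNReal)
    (h : ∀ x ∈ U, ∀ i, 1 ≤ ∑ t : Fin m, f (Function.update x i t)) :
    (U.card : ℝ) ^ (d - 1) ≤ (∑ x, (f x : ℝ)) ^ d := by
  have hd1 : (1 : ℝ) < d := by exact_mod_cast hd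
  have hd0 : (0 : ℝ) < (d : ℝ) - 1 := by linarith
  have hp : Real.HolderConjugate ((Fintype.card (Fin d) : ℕ) : ℝ) ((d : ℝ) / ((d : ℝ) - 1)) := by
    rw [Fintype.card_fin]
    exact Real.HolderConjugate.conjExponent hd1
  have key := MeasureTheory.lintegral_prod_lintegral_pow_le
    (fun _ : Fin d => (Measure.count : Measure (Fin m))) hp
    (f := fun x : Cell d m => (f x : ℝ≥0∞)) (measurable_of_finite _)
  have hone : ∀ x : Cell d m,
      (Measure.pi (fun _ : Fin d => (Measure.count : Measure (Fin m)))) {x} = 1 := by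
    intro x
    rw [Measure.pi_singleton]
    simp
  rw [lintegral_fintype, lintegral_fintype] at key
  simp only [hone, mul_one] at key
  have hU : (U.card : ℝ≥0∞) ≤ (∑ x, (f x : ℝ≥0∞)) ^ ((d : ℝ) / ((d : ℝ) - 1)) := by
    refine le_trans ?_ key
    calc (U.card : ℝ≥0∞) = ∑ _x ∈ U, (1 : ℝ≥0∞) := by simp
      _ ≤ ∑ x ∈ U, ∏ i, (∫⁻ t, (f (Function.update x i t) : ℝ≥0∞) ∂Measure.count) ^
            ((1 : ℝ) / (((Fintype.card (Fin d) : ℕ) : ℝ) - 1)) := by
          refine Finset.sum_le_sum fun x hx => ?_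
          refine Finset.one_le_prod' fun i _ => ?_
          refine ENNReal.one_le_rpow ?_ ?_
          · rw [lintegral_fintype]
            simp only [Measure.count_singleton, mul_one]
            have := h x hx i
            exact_mod_cast this
          · rw [Fintype.card_fin]; positivity
      _ ≤ _ := Finset.sum_le_sum_of_subset (Finset.subset_univ _)
  have hS : (∑ x, (f x : ℝ≥0∞)) = ((∑ x, f x : NNReal) : ℝ≥0∞) := by simp
  have hpos : 0 ≤ (d : ℝ) / ((d : ℝ) - 1) := by positivity
  rw [hS, ← ENNReal.coe_rpow_of_nonneg _ hpos] at hU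
  have hU2 : (U.card : NNReal) ≤ (∑ x, f x) ^ ((d : ℝ) / ((d : ℝ) - 1)) := by exact_mod_cast hU
  have hU3 : (U.card : ℝ) ≤ (∑ x, (f x : ℝ)) ^ ((d : ℝ) / ((d : ℝ) - 1)) := by
    have := NNReal.coe_le_coe.mpr hU2
    simpa [NNReal.coe_rpow] using this
  have hS0 : 0 ≤ ∑ x, (f x : ℝ) := Finset.sum_nonneg fun x _ => (f x).2
  calc (U.card : ℝ) ^ (d - 1) ≤ ((∑ x, (f x : ℝ)) ^ ((d : ℝ) / ((d : ℝ) - 1))) ^ (d - 1) :=
        pow_le_pow_left₀ (by positivity) hU3 _
    _ = (∑ x, (f x : ℝ)) ^ d := by
        rw [← Real.rpow_natCast, ← Real.rpow_mul hS0, ← Real.rpow_natCast]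
        have : ((d - 1 : ℕ) : ℝ) = (d : ℝ) - 1 := by
          rw [Nat.cast_sub (by omega)]; simp
        rw [this, div_mul_cancel₀ _ hd0.ne']

/-- The points of `U` lying on a boundary edge. -/
def isoE {d m : ℕ} (U : Finset (Cell d m)) : Finset (Cell d m) :=
  (bdry U).image fun p => if p.1 ∈ U then p.1 else p.2

theorem iso_line {d m : ℕ} (U : Finset (Cell d m)) (x : Cell d m) (hx : x ∈ U) (i : Fin d)
    (t : Fin m) (ht : Function.update x i t ∉ U) :
    ∃ s : Fin m, Function.update x i s ∈ isoE U := by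
  classical
  by_contra hcon
  push Not at hcon
  -- membership in `U` is constant along the line
  have hstep : ∀ (k : ℕ) (hk : k + 1 < m),
      (Function.update x i ⟨k, by omega⟩ ∈ U ↔ Function.update x i ⟨k + 1, hk⟩ ∈ U) := by
    intro k hk
    by_contra hne
    have hmem : (Function.update x i ⟨k, by omega⟩, Function.update x i ⟨k + 1, hk⟩) ∈ bdry U := by
      unfold bdry
      rw [Finset.mem_filter]
      refine ⟨Finset.mem_univ _, ⟨i, by simp, fun j hj => by simp [Function.update_of_ne hj]⟩, hne⟩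
    by_cases h1 : Function.update x i ⟨k, by omega⟩ ∈ U
    · exact hcon ⟨k, by omega⟩ (Finset.mem_image.mpr ⟨_, hmem, by simp [h1]⟩)
    · exact hcon ⟨k + 1, hk⟩ (Finset.mem_image.mpr ⟨_, hmem, by simp [h1]⟩)
  have hall : ∀ (k : ℕ) (hk : k < m),
      (Function.update x i ⟨0, by omega⟩ ∈ U ↔ Function.update x i ⟨k, hk⟩ ∈ U) := by
    intro k
    induction k with
    | zero => intro hk; exact Iff.rfl
    | succ k ih => intro hk; exact (ih (by omega)).trans (hstep k hk)
  have h1 := hall (x i).1 (x i).2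
  have h2 := hall t.1 t.2
  apply ht
  have h3 : Function.update x i ⟨(x i).1, (x i).2⟩ = x := by simp
  rw [h3] at h1
  exact h2.mp (h1.mpr hx)

/-- Relative isoperimetric inequality in the grid `[m]^d`. -/
theorem iso {d m : ℕ} (hd : 2 ≤ d) (U : Finset (Cell d m)) (hU : 2 * U.card ≤ m ^ d) :
    U.card ^ (d - 1) ≤ (2 * d * (bdry U).card) ^ d := by
  classical
  rcases Nat.eq_zero_or_pos U.card with h0 | hpos
  · rw [h0, zero_pow (by omega)]; exact Nat.zero_le _
  have hm : 0 < m := by
    rcases Nat.eq_zero_or_pos m with h | h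
    · have h1 : m ^ d = 0 := by rw [h, zero_pow (by omega)]
      omega
    · exact h
  have hmR : (0 : ℝ) < m := by exact_mod_cast hm
  have hmN : (m : NNReal) ≠ 0 := by exact_mod_cast hm.ne'
  let f : Cell d m → NNReal := fun x =>
    (if x ∈ isoE U then 1 else 0) + (if x ∈ U then (m : NNReal)⁻¹ else 0)
  have hlw := iso_lw hd U f (by
    intro x hx i
    by_cases hfull : ∀ t : Fin m, Function.update x i t ∈ U
    · calc (1 : NNReal) = ∑ _t : Fin m, (m : NNReal)⁻¹ := by
            simp [mul_inv_cancel₀ hmN]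
        _ ≤ _ := Finset.sum_le_sum fun t _ => by
            simp only [f, hfull t, if_true]
            exact le_add_self
    · push Not at hfull
      obtain ⟨t, ht⟩ := hfull
      obtain ⟨s, hs⟩ := iso_line U x hx i t ht
      calc (1 : NNReal) ≤ f (Function.update x i s) := by
            simp only [f, hs, if_true]
            exact le_self_add
        _ ≤ _ := Finset.single_le_sum (f := fun t => f (Function.update x i t))
            (fun _ _ => zero_le) (Finset.mem_univ s))
  have hsum : ∑ x, (f x : ℝ) = (isoE U).card + U.card / m := by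
    have : ∀ x, (f x : ℝ) = (if x ∈ isoE U then (1 : ℝ) else 0) +
        (if x ∈ U then (m : ℝ)⁻¹ else 0) := by
      intro x
      simp only [f]
      split_ifs <;> simp
    simp only [this, Finset.sum_add_distrib]
    simp [Finset.sum_ite_mem, div_eq_mul_inv]
  have hE : ((isoE U).card : ℝ) ≤ (bdry U).card := by
    exact_mod_cast Finset.card_image_le
  set u : ℝ := (U.card : ℝ) with hu
  set B : ℝ := ((bdry U).card : ℝ) with hB
  have hu0 : 0 < u := by rw [hu]; exact_mod_cast hpos
  have hB0 : 0 ≤ B := by rw [hB]; positivity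
  have hlw2 : u ^ (d - 1) ≤ (B + u / m) ^ d := by
    refine hlw.trans ?_
    rw [hsum]
    exact pow_le_pow_left₀ (by positivity) (by linarith) _
  have hUR : 2 * u ≤ (m : ℝ) ^ d := by rw [hu]; exact_mod_cast hU
  have hx : (u / m) ^ d ≤ u ^ (d - 1) / 2 := by
    have hud : u ^ d = u ^ (d - 1) * u := by
      rw [← pow_succ]; congr 1; omega
    rw [div_pow, hud, div_le_div_iff₀ (by positivity) (by positivity)]
    have : 0 ≤ u ^ (d - 1) := by positivity
    nlinarith
  have hdR : (2 : ℝ) ≤ d := by exact_mod_cast hd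
  have hgoal : u ^ (d - 1) ≤ (2 * d * B) ^ d := by
    by_contra hcon
    push Not at hcon
    -- let S = B + u/m
    set S : ℝ := B + u / m with hS
    have hS0 : 0 < S := by positivity
    have h1 : 2 * d * B < S := by
      exact lt_of_pow_lt_pow_left₀ d hS0.le (lt_of_lt_of_le hcon hlw2)
    have hθ : (0 : ℝ) < 1 - 1 / (2 * d) := by
      rw [sub_pos, div_lt_one (by positivity)]; linarith
    have h2 : S * (1 - 1 / (2 * d)) < u / m := by
      have : B < S / (2 * d) := by
        rw [lt_div_iff₀ (by positivity)]; linarith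
      have h3 : S * (1 - 1 / (2 * d)) = S - S / (2 * d) := by ring
      rw [h3]; linarith
    have h3 : (S * (1 - 1 / (2 * d))) ^ d < (u / m) ^ d :=
      pow_lt_pow_left₀ h2 (by positivity) (by omega)
    have h4 : (1 : ℝ) / 2 ≤ (1 - 1 / (2 * d)) ^ d := by
      have := one_add_mul_le_pow (a := -(1 / (2 * (d : ℝ)))) (by linarith) d
      have h5 : (1 : ℝ) + d * -(1 / (2 * d)) = 1 / 2 := by field_simp; ring
      rw [h5] at this
      simpa [sub_eq_add_neg] using this
    rw [mul_pow] at h3
    have h6 : 0 < S ^ d := by positivity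
    nlinarith
  rw [hu, hB] at hgoal
  exact_mod_cast hgoal

end Pool.Agent.Lib.MP_adb013_pr
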