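import Pool.Agent.Lib.MP_adb013_pr.Grid

set_option autoImplicit false
set_option linter.unusedSectionVars false

open MeasureTheory
open scoped ENNReal

namespace Pool.Agent.Lib.MP_adb013_pr

variable {d m : ℕ}

theorem timar_up_sum {x y : Cell d m} (h : Up x y) :
    ∑ j, (y j : ℕ) = ∑ j, (x j : ℕ) + 1 := by
  classical
  obtain ⟨i, h1, h2⟩ := h
  rw [← Finset.add_sum_erase _ _ (Finset.mem_univ i),
    ← Finset.add_sum_erase _ (fun j => (x j : ℕ)) (Finset.mem_univ i)]
  have : ∑ j ∈ Finset.univ.erase i, (y j : ℕ) = ∑ j ∈ Finset.univ.erase i, (x j : ℕ) :=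
    Finset.sum_congr rfl fun j hj => by rw [h2 j (Finset.ne_of_mem_erase hj)]
  omega

theorem timar_common {x x' y : Cell d m} (h : Up x y) (h' : Up x' y) (hne : x ≠ x') :
    ∃ w, Up w x ∧ Up w x' := by
  classical
  obtain ⟨i, h1, h2⟩ := h
  obtain ⟨k, h3, h4⟩ := h'
  have hik : i ≠ k := by
    rintro rfl
    apply hne
    funext j
    by_cases e : j = i
    · subst e; apply Fin.ext; omega
    · rw [← h2 j e, ← h4 j e]
  refine ⟨Function.update x k (x' k), ⟨k, ?_, ?_⟩, ⟨i, ?_, ?_⟩⟩
  · rw [Function.update_self, ← h2 k hik.symm, h3]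
  · intro j hj; rw [Function.update_of_ne hj]
  · rw [Function.update_of_ne hik, ← h4 i hik, h1]
  · intro j hj
    by_cases e : j = k
    · subst e; rw [Function.update_self]
    · rw [Function.update_of_ne e, ← h2 j hj, ← h4 j e]

theorem timar_near {x a a' : Cell d m} (h : Up x a) (h' : Up x a') : Near a a' := by
  obtain ⟨i, h1, h2⟩ := h
  obtain ⟨k, h3, h4⟩ := h'
  intro j
  have e1 : (x j : ℕ) ≤ a j ∧ (a j : ℕ) ≤ x j + 1 := by
    by_cases e : j = i
    · subst e; omega
    · rw [h2 j e]; omega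
  have e2 : (x j : ℕ) ≤ a' j ∧ (a' j : ℕ) ≤ x j + 1 := by
    by_cases e : j = k
    · subst e; omega
    · rw [h4 j e]; omega
  omega

/-- Closed `ZMod 2`-valued one-cochains on the grid are exact. -/
theorem exact_of_closed (ω : Cell d m → Cell d m → ZMod 2)
    (hω : ∀ x a a' y : Cell d m, Up x a → Up x a' → Up a y → Up a' y →
      ω x a + ω a y = ω x a' + ω a' y) :
    ∃ h : Cell d m → ZMod 2, ∀ x y, Up x y → h y = h x + ω x y := by
  classical
  have key : ∀ n : ℕ, ∃ h : Cell d m → ZMod 2, ∀ x y, Up x y → ∑ j, (y j : ℕ) ≤ n →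
      h y = h x + ω x y := by
    intro n
    induction n with
    | zero =>
      refine ⟨fun _ => 0, fun x y hxy hs => ?_⟩
      have := timar_up_sum hxy
      omega
    | succ n ih =>
      obtain ⟨h, hh⟩ := ih
      have hp : ∀ y : Cell d m, ∃ x, (∃ x', Up x' y) → Up x y := by
        intro y
        by_cases e : ∃ x', Up x' y
        · obtain ⟨x', hx'⟩ := e
          exact ⟨x', fun _ => hx'⟩
        · exact ⟨y, fun h => absurd h e⟩
      choose p hp using hp
      refine ⟨fun y => if ∑ j, (y j : ℕ) = n + 1 then h (p y) + ω (p y) y else h y, ?_⟩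
      intro x y hxy hs
      have e1 := timar_up_sum hxy
      have e2 : ¬ ∑ j, (x j : ℕ) = n + 1 := by omega
      simp only [e2, if_false]
      split_ifs with e3
      · have hpy := hp y ⟨x, hxy⟩
        by_cases e4 : x = p y
        · rw [← e4]
        · obtain ⟨w, hw1, hw2⟩ := timar_common hxy hpy e4
          have e5 := timar_up_sum hpy
          rw [hh w x hw1 (by omega), hh w (p y) hw2 (by omega), add_assoc, add_assoc,
            hω w x (p y) y hw1 hw2 hxy hpy]
      · exact hh x y hxy (by omega)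
  obtain ⟨h, hh⟩ := key (d * m)
  refine ⟨h, fun x y hxy => hh x y hxy ?_⟩
  calc ∑ j, (y j : ℕ) ≤ ∑ _j : Fin d, m := Finset.sum_le_sum fun j _ => (y j).2.le
    _ = d * m := by simp

/-- Minimal cutsets are connected (Timar). -/
theorem bdry_conn (U : Finset (Cell d m)) {a a' : Cell d m} (hU : Conn Nb U a)
    (hUc : Conn Nb Uᶜ a') {e : Cell d m × Cell d m} (he : e ∈ bdry U) :
    Conn Near ((bdry U).image Prod.fst) e.1 := by
  classical
  set W := (bdry U).image Prod.fst with hW
  have hmem : ∀ x y, (x, y) ∈ bdry U ↔ Up x y ∧ ¬ (x ∈ U ↔ y ∈ U) := by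
    intro x y; simp [bdry]
  have hWm : ∀ x y, (x, y) ∈ bdry U → x ∈ W := fun x y h => Finset.mem_image.2 ⟨(x, y), h, rfl⟩
  let R : Cell d m → Prop :=
    Relation.ReflTransGen (fun a a' => a ∈ W ∧ a' ∈ W ∧ Near a a') e.1
  have hR : ∀ x y x' y', (x, y) ∈ bdry U → (x', y') ∈ bdry U → Near x x' → R x → R x' :=
    fun x y x' y' h h' hn hr => Relation.ReflTransGen.tail hr ⟨hWm _ _ h, hWm _ _ h', hn⟩
  obtain ⟨h, hh⟩ := exact_of_closed (fun x y => if (x, y) ∈ bdry U ∧ R x then 1 else 0) (by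
    intro x c c' y h1 h2 h3 h4
    have n1 := h1.near
    have n2 := h2.near
    have n3 := timar_near h1 h2
    have r1 := hR x c c y
    have r2 := hR x c' c y
    have r3 := hR x c c' y
    have r4 := hR x c' c' y
    have r5 := hR c y x c
    have r6 := hR c y x c'
    have r7 := hR c' y x c
    have r8 := hR c' y x c'
    have r9 := hR c y c' y
    have r10 := hR c' y c y
    simp only [hmem, h1, h2, h3, h4, n1, n2, n3, n1.symm, n2.symm, n3.symm, true_and,
      forall_const] at r1 r2 r3 r4 r5 r6 r7 r8 r9 r10 ⊢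
    by_cases u1 : x ∈ U <;> by_cases u2 : c ∈ U <;> by_cases u3 : c' ∈ U <;> by_cases u4 : y ∈ U <;>
      by_cases v1 : R x <;> by_cases v2 : R c <;> by_cases v3 : R c' <;>
      simp [u1, u2, u3, u4, v1, v2, v3] at r1 r2 r3 r4 r5 r6 r7 r8 r9 r10 ⊢ <;> decide)
  have c1 : ∀ x ∈ U, h x = h a := hU.induction (fun x => h x = h a) rfl (by
    intro x hx y hy hn hxa
    rcases hn with hn | hn
    · rw [hh x y hn, if_neg (by simp [hmem, hx, hy]), add_zero, hxa]
    · rw [hh y x hn, if_neg (by simp [hmem, hx, hy]), add_zero] at hxa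
      exact hxa)
  have c2 : ∀ x ∈ Uᶜ, h x = h a' := hUc.induction (fun x => h x = h a') rfl (by
    intro x hx y hy hn hxa
    rw [Finset.mem_compl] at hx hy
    rcases hn with hn | hn
    · rw [hh x y hn, if_neg (by simp [hmem, hx, hy]), add_zero, hxa]
    · rw [hh y x hn, if_neg (by simp [hmem, hx, hy]), add_zero] at hxa
      exact hxa)
  have c3 : ∀ x y, (x, y) ∈ bdry U → (h x = h y ↔ h a = h a') := by
    intro x y hxy
    have h2 := ((hmem x y).1 hxy).2
    by_cases hx : x ∈ U
    · have hy : y ∉ U := fun hy => h2 ⟨fun _ => hy, fun _ => hx⟩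
      rw [c1 x hx, c2 y (Finset.mem_compl.2 hy)]
    · have hy : y ∈ U := by
        by_contra hy
        exact h2 ⟨fun h => absurd h hx, fun h => absurd h hy⟩
      rw [c1 y hy, c2 x (Finset.mem_compl.2 hx)]
      exact eq_comm
  have hne : h a ≠ h a' := by
    intro h0
    have h1 := (c3 e.1 e.2 he).2 h0
    rw [hh e.1 e.2 ((hmem _ _).1 he).1, if_pos ⟨he, Relation.ReflTransGen.refl⟩] at h1
    simp at h1
  refine ⟨hWm e.1 e.2 he, fun x hx => ?_⟩
  obtain ⟨⟨x', y⟩, hxy, rfl⟩ := Finset.mem_image.1 hx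
  by_contra hcon
  apply hne
  rw [← c3 x' y hxy, hh x' y ((hmem _ _).1 hxy).1, if_neg (fun h => hcon h.2), add_zero]

end Pool.Agent.Lib.MP_adb013_pr
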