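import Pool.Agent.Lib.MP_adb013_pr.Levels
import Pool.Agent.Lib.MP_adb013_pr.Iso
import Pool.Agent.Lib.MP_adb013_pr.Timar

set_option autoImplicit false
set_option linter.unusedSectionVars false

open MeasureTheory
open scoped ENNReal

namespace Pool.Agent.Lib.MP_adb013_pr

theorem witness_piece {d m : ℕ} (hd : 2 ≤ d) (U : Finset (Cell d m)) {b a : Cell d m}
    (hU : Conn Nb U b) (hUc : Conn Nb Uᶜ a) (hs : 2 * U.card ≤ m ^ d) :
    ∃ W : Finset (Cell d m), Conn Near W b ∧ (∀ p ∈ bdry U, p.1 ∈ W) ∧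
      W.card ≤ (2 * d + 3) * (bdry U).card := by
  classical
  have hm : 1 ≤ m := (b ⟨0, by omega⟩).pos
  have hU1 : 1 ≤ U.card := Finset.card_pos.2 ⟨b, hU.1⟩
  have hiso := iso hd U hs
  set ρ := min m (2 * d * (bdry U).card + 1) with hρ
  obtain ⟨Q, q1, q2, q3⟩ := exists_subcube (r := ρ) (by omega) (by omega) b
  have hlt : U.card < Q.card := by
    rw [q2]
    rcases le_total m (2 * d * (bdry U).card + 1) with h | h
    · rw [hρ, min_eq_left h]; omega
    · rw [hρ, min_eq_right h]
      have h1 : U.card ≤ U.card ^ (d - 1) := Nat.le_self_pow (by omega) _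
      have h2 : (2 * d * (bdry U).card) ^ d < (2 * d * (bdry U).card + 1) ^ d :=
        Nat.pow_lt_pow_left (by omega) (by omega)
      omega
  have hex : ∃ e ∈ bdry U, e.1 ∈ Q := by
    by_contra hcon
    push Not at hcon
    have : Q ⊆ U := by
      intro y hy
      refine q1.induction (fun y => y ∈ U) hU.1 ?_ y hy
      intro x hx x' hx' hn hxU
      by_contra hx'U
      rcases hn with hn | hn
      · exact hcon (x, x') (by simp [bdry, hn, hxU, hx'U]) hx
      · exact hcon (x', x) (by simp [bdry, hn, hxU, hx'U]) hx'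
    have := Finset.card_le_card this
    omega
  obtain ⟨e, he, heQ⟩ := hex
  obtain ⟨W, w1, w2, w3⟩ := exists_near_path ρ b e.1 fun j => by
    have := q3 _ heQ j
    omega
  refine ⟨W ∪ (bdry U).image Prod.fst, w1.union (bdry_conn U hU hUc he) w2,
    fun p hp => Finset.mem_union_right _ (Finset.mem_image_of_mem _ hp), ?_⟩
  have h1 := Finset.card_union_le W ((bdry U).image Prod.fst)
  have h2 : ((bdry U).image Prod.fst).card ≤ (bdry U).card := Finset.card_image_le
  have h3 : 1 ≤ (bdry U).card := Finset.card_pos.2 ⟨e, he⟩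
  have h4 : ρ ≤ 2 * d * (bdry U).card + 1 := min_le_right _ _
  nlinarith

/-- Many bad cutsets give many bad cells filling a fixed proportion of a connected set. -/
theorem bad_witness {d m r : ℕ} (hd : 2 ≤ d) (hr : 1 ≤ r) (g : Cell d m → ℝ)
    (hg : ∀ b b', Up b b' → |g b' - g b| ≤ 1) (B : Finset (Cell d m)) (b : Cell d m) (s0 : ℝ)
    (U : ℝ → Finset (Cell d m)) (hU : Cuts g r b s0 U) (σ : ℝ) (hσ : σ ∈ Set.Ico (0 : ℝ) 1)
    (hbad : 2 * ((Finset.range r).filter fun j : ℕ => GoodCut B (U (s0 + σ + j))).card < r) :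
    ∃ A W : Finset (Cell d m), A ⊆ B ∧ Conn Near W b ∧ A ⊆ W ∧
      W.card ≤ (4 * d * (2 * d + 3) + 1) * A.card ∧ r ^ d ≤ 16 * d ^ 2 * A.card := by
  classical
  set J := (Finset.range r).filter fun j : ℕ => ¬ GoodCut B (U (s0 + σ + j)) with hJ
  have hJc : r < 2 * J.card := by
    have := Finset.card_filter_add_card_filter_not (s := Finset.range r)
      (fun j : ℕ => GoodCut B (U (s0 + σ + j)))
    rw [Finset.card_range] at this
    rw [hJ]
    omega
  have hI : ∀ j ∈ J, s0 + σ + j ∈ Set.Ico s0 (s0 + r) := by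
    intro j hj
    have h1 : j + 1 ≤ r := Finset.mem_range.1 (Finset.mem_filter.1 hj).1
    have h2 : (j : ℝ) + 1 ≤ r := by exact_mod_cast h1
    have h3 : (0 : ℝ) ≤ j := Nat.cast_nonneg j
    constructor <;> linarith [hσ.1, hσ.2]
  set P : ℕ → Finset (Cell d m × Cell d m) := fun j => bdry (U (s0 + σ + j)) with hP
  have hup : ∀ j, ∀ p ∈ P j, Up p.1 p.2 := fun j p hp => by
    simp only [hP, bdry, Finset.mem_filter] at hp
    exact hp.2.1
  have hdisj : ∀ i ∈ J, ∀ j ∈ J, i < j → Disjoint (P i) (P j) := by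
    intro i hi j hj hij
    rw [Finset.disjoint_left]
    intro p hp hp'
    have h1 := (hU.cross _ (hI i hi) p hp).1
    have h2 := (hU.cross _ (hI j hj) p hp').2
    have h3 := hg _ _ (hup i p hp)
    have h4 : (i : ℝ) + 1 ≤ j := by exact_mod_cast hij
    rw [abs_le] at h3
    rcases le_total (g p.1) (g p.2) with h | h
    · rw [min_eq_left h] at h1; rw [max_eq_right h] at h2; linarith
    · rw [min_eq_right h] at h1; rw [max_eq_left h] at h2; linarith
  set A := B.filter fun x => ∃ j ∈ J, ∃ p ∈ P j, x = p.1 ∨ x = p.2 with hA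
  set Bad : ℕ → Finset (Cell d m × Cell d m) :=
    fun j => (P j).filter fun p => ¬ (p.1 ∉ B ∧ p.2 ∉ B) with hBad
  have hsum : ∑ j ∈ J, (P j).card ≤ 4 * d * A.card := by
    have h1 : ∀ j ∈ J, (P j).card ≤ 2 * (Bad j).card := by
      intro j hj
      have h2 := (Finset.mem_filter.1 hj).2
      have h3 := Finset.card_filter_add_card_filter_not (s := P j) (fun p => p.1 ∉ B ∧ p.2 ∉ B)
      unfold GoodCut at h2
      simp only [hP, hBad] at h3 ⊢
      omega
    have h2 : ∑ j ∈ J, (Bad j).card = (J.biUnion Bad).card := by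
      rw [Finset.card_biUnion]
      intro i hi j hj hij
      rcases lt_or_gt_of_ne hij with h | h
      · exact (hdisj i hi j hj h).mono (Finset.filter_subset _ _) (Finset.filter_subset _ _)
      · exact (hdisj j hj i hi h).symm.mono (Finset.filter_subset _ _) (Finset.filter_subset _ _)
    have h3 : (J.biUnion Bad).card ≤ 2 * d * A.card := by
      refine le_trans (Finset.card_le_card ?_) (card_edges_le A)
      intro p hp
      obtain ⟨j, hj, hp⟩ := Finset.mem_biUnion.1 hp
      obtain ⟨hp1, hp2⟩ := Finset.mem_filter.1 hp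
      refine Finset.mem_filter.2 ⟨Finset.mem_univ _, hup j p hp1, ?_⟩
      by_cases h : p.1 ∈ B
      · exact Or.inl (Finset.mem_filter.2 ⟨h, j, hj, p, hp1, Or.inl rfl⟩)
      · have h' : p.2 ∈ B := by
          by_contra h'
          exact hp2 ⟨h, h'⟩
        exact Or.inr (Finset.mem_filter.2 ⟨h', j, hj, p, hp1, Or.inr rfl⟩)
    calc ∑ j ∈ J, (P j).card ≤ ∑ j ∈ J, 2 * (Bad j).card := Finset.sum_le_sum h1
      _ = 2 * (J.biUnion Bad).card := by rw [← Finset.mul_sum, h2]
      _ ≤ 4 * d * A.card := by nlinarith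
  have hpiece : ∀ j ∈ J, ∃ W : Finset (Cell d m), Conn Near W b ∧ (∀ p ∈ P j, p.1 ∈ W) ∧
      W.card ≤ (2 * d + 3) * (P j).card := by
    intro j hj
    obtain ⟨a, ha⟩ := hU.connc _ (hI j hj)
    exact witness_piece hd _ (hU.conn _ (hI j hj)) ha (hU.small _ (hI j hj))
  choose! W w1 w2 w3 using hpiece
  have hJne : J.Nonempty := Finset.card_pos.1 (by omega)
  refine ⟨A, J.biUnion W ∪ A, Finset.filter_subset _ _,
    (Conn.biUnion J hJne W w1).union_adj ?_, Finset.subset_union_right, ?_, ?_⟩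
  · intro x hx
    obtain ⟨-, j, hj, p, hp, h⟩ := Finset.mem_filter.1 hx
    have hp1 : p.1 ∈ J.biUnion W := Finset.mem_biUnion.2 ⟨j, hj, w2 j hj p hp⟩
    rcases h with h | h
    · exact Or.inl (h ▸ hp1)
    · exact Or.inr ⟨p.1, hp1, h ▸ (hup j p hp).near⟩
  · have h1 := Finset.card_union_le (J.biUnion W) A
    have h2 : (J.biUnion W).card ≤ ∑ j ∈ J, (W j).card := Finset.card_biUnion_le
    have h3 : ∑ j ∈ J, (W j).card ≤ ∑ j ∈ J, (2 * d + 3) * (P j).card := Finset.sum_le_sum w3
    rw [← Finset.mul_sum] at h3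
    have h4 := Nat.mul_le_mul_left (2 * d + 3) hsum
    nlinarith
  · have h1 : ∀ j ∈ J, r ^ (d - 1) ≤ 2 * d * (P j).card := by
      intro j hj
      have k1 := iso hd _ (hU.small _ (hI j hj))
      have k2 := Nat.pow_le_pow_left (hU.big _ (hI j hj)) (d - 1)
      have k3 : (r ^ (d - 1)) ^ d ≤ (2 * d * (P j).card) ^ d := by
        rw [← pow_mul, mul_comm, pow_mul]
        exact k2.trans k1
      exact (Nat.pow_le_pow_iff_left (by omega)).1 k3
    have h2 : J.card * r ^ (d - 1) ≤ 2 * d * ∑ j ∈ J, (P j).card := by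
      rw [Finset.mul_sum, ← smul_eq_mul, ← Finset.sum_const]
      exact Finset.sum_le_sum h1
    have h3 : r ^ d = r * r ^ (d - 1) := by
      rw [← pow_succ']
      congr 1
      omega
    have h4 := Nat.mul_le_mul_left (2 * d) hsum
    have h5 := Nat.mul_le_mul_right (r ^ (d - 1)) hJc.le
    nlinarith

end Pool.Agent.Lib.MP_adb013_pr
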