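import Pool.Agent.Lib.MP_adb013_pr.Energy
import Pool.Agent.Lib.MP_adb013_pr.Witness
import Pool.Agent.Lib.MP_adb013_pr.Animals

set_option autoImplicit false
set_option linter.unusedSectionVars false

open MeasureTheory
open scoped ENNReal

namespace Pool.Agent.Lib.MP_adb013_pr

/-- Capacity estimate in a sparse random environment (deterministic form). -/
theorem cap {d : ℕ} (hd : 3 ≤ d) : ∃ q c : ℝ, 0 < q ∧ 0 < c ∧ ∀ (m r : ℕ), 1 ≤ r → r ≤ m →
    ∀ b0 b1 : Cell d m, ∃ 𝒜 : Finset (Finset (Cell d m)),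
      ∑ A ∈ 𝒜, q ^ A.card ≤ Real.exp (-(c * (r : ℝ) ^ d)) ∧
      ∀ (B : Finset (Cell d m)) (g : Cell d m → ℝ), (∀ b b', Up b b' → |g b' - g b| ≤ 1) →
        (5 * d * r : ℝ) ≤ g b1 - g b0 → (∀ A ∈ 𝒜, ¬ A ⊆ B) →
          c * (r : ℝ) ^ d ≤ energy B g := by
  classical
  obtain ⟨cE, hcE, hE⟩ := energy_lower hd
  obtain ⟨q, hq0, -, hq⟩ := witness_sum d (4 * d * (2 * d + 3) + 1)
  have hd' : (3 : ℝ) ≤ d := by exact_mod_cast hd
  have hD : (0 : ℝ) < 16 * (d : ℝ) ^ 2 := by positivity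
  refine ⟨q, min cE (1 / (16 * (d : ℝ) ^ 2)), hq0, lt_min hcE (by positivity), ?_⟩
  intro m r hr hrm b0 b1
  have hr' : (0 : ℝ) < (r : ℝ) ^ d := by
    have : (0 : ℝ) < r := by exact_mod_cast hr
    positivity
  set k := ⌈(r : ℝ) ^ d / (16 * (d : ℝ) ^ 2)⌉₊ with hk
  have hk1 : 1 ≤ k := Nat.ceil_pos.2 (by positivity)
  obtain ⟨A0, s0, a0⟩ := hq m b0 k hk1
  obtain ⟨A1, s1, a1⟩ := hq m b1 k hk1
  refine ⟨A0 ∪ A1, ?_, ?_⟩
  · have h1 : ∑ A ∈ A0 ∪ A1, q ^ A.card ≤ ∑ A ∈ A0, q ^ A.card + ∑ A ∈ A1, q ^ A.card := by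
      rw [← Finset.sum_union_inter]
      have : 0 ≤ ∑ A ∈ A0 ∩ A1, q ^ A.card := Finset.sum_nonneg fun _ _ => by positivity
      linarith
    have h2 : Real.exp (-(k : ℝ)) ≤
        Real.exp (-(min cE (1 / (16 * (d : ℝ) ^ 2)) * (r : ℝ) ^ d)) := by
      apply Real.exp_le_exp.2
      have h3 := Nat.le_ceil ((r : ℝ) ^ d / (16 * (d : ℝ) ^ 2))
      have h4 := mul_le_mul_of_nonneg_right (min_le_right cE (1 / (16 * (d : ℝ) ^ 2))) hr'.le
      rw [one_div_mul_eq_div] at h4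
      linarith
    linarith
  · intro B g hg ht hB
    obtain ⟨b, s, U, hb, hU⟩ := levels (by omega) g hg b0 b1 hr hrm ht
    refine le_trans (mul_le_mul_of_nonneg_right (min_le_left _ _) hr'.le)
      (hE m r hr g B b s U hU fun σ hσ => ?_)
    by_contra hlt
    obtain ⟨A, W, h1, h2, h3, h4, h5⟩ :=
      bad_witness (by omega) hr g hg B b s U hU σ hσ (not_le.1 hlt)
    have hkA : k ≤ A.card := by
      rw [hk, Nat.ceil_le, div_le_iff₀ hD]
      have : ((r ^ d : ℕ) : ℝ) ≤ ((16 * d ^ 2 * A.card : ℕ) : ℝ) := by exact_mod_cast h5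
      push_cast at this
      linarith
    rcases hb with rfl | rfl
    · exact hB A (Finset.mem_union_left _ (a0 A W h2 h3 h4 hkA)) h1
    · exact hB A (Finset.mem_union_right _ (a1 A W h2 h3 h4 hkA)) h1

end Pool.Agent.Lib.MP_adb013_pr
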