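import Pool.Agent.Lib.MP_adb013_pr.Defs

set_option autoImplicit false
set_option linter.unusedSectionVars false

open MeasureTheory
open scoped ENNReal

namespace Pool.Agent.Lib.MP_adb013_pr

/-- Run doubling: a nonempty set in a class closed under reflections can be made dense. -/
theorem dense_of_refl {d N : ℕ} [NeZero N] (h : Fin d → ℕ) (hh : ∀ j, h j = 1 ∨ h j = 2)
    (Gd : Finset (T d N) → Prop)
    (hstep : ∀ F, Gd F → ∀ (j : Fin d) (t : ZMod N), ∃ F', Gd F' ∧ ∀ x ∈ F, ∀ r : ℕ,
      r + 1 < N / 2 → x j = t + (r : ZMod N) →
        x ∈ F' ∧ Function.update x j (t - (h j : ZMod N) - (r : ZMod N)) ∈ F')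
    (F : Finset (T d N)) (hF : Gd F) (hne : F.Nonempty) :
    ∃ F', Gd F' ∧ (N / 4) ^ d ≤ F'.card := by
  classical
  have key : ∀ (m : ℕ) (l : Fin d → ℕ), ∑ j, l j = m → (∀ j, 1 ≤ l j) →
      (∀ j, l j ≤ max 1 (N / 4)) → ∃ (F' : Finset (T d N)) (t : T d N), Gd F' ∧
        ∀ s : Fin d → ℕ, (∀ j, s j < l j) →
          (fun j => t j + ((h j * s j : ℕ) : ZMod N)) ∈ F' := by
    intro m
    induction m using Nat.strong_induction_on with
    | _ m ih =>
      intro l hl h1 hL
      by_cases hall : ∀ j, l j = 1
      · obtain ⟨t, ht⟩ := hne
        refine ⟨F, t, hF, fun s hs => ?_⟩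
        have : (fun j => t j + ((h j * s j : ℕ) : ZMod N)) = t := by
          funext j
          have h0 : s j = 0 := by have := hs j; rw [hall j] at this; omega
          simp [h0]
        rw [this]; exact ht
      · push Not at hall
        obtain ⟨j, hj⟩ := hall
        have hj2 : 2 ≤ l j := by have := h1 j; omega
        have hsum : ∑ i, Function.update l j (l j - 1) i < m := by
          rw [← hl]
          refine Finset.sum_lt_sum (fun i _ => ?_) ⟨j, Finset.mem_univ _, ?_⟩
          · by_cases hi : i = j
            · subst hi; simp
            · simp [hi]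
          · simp only [Function.update_self]; omega
        obtain ⟨F1, t, hF1, hs1⟩ := ih _ hsum (Function.update l j (l j - 1)) rfl
          (fun i => by
            by_cases hi : i = j
            · subst hi; simp only [Function.update_self]; omega
            · simp only [Function.update_of_ne hi]; exact h1 i)
          (fun i => by
            by_cases hi : i = j
            · subst hi; simp only [Function.update_self]; have := hL i; omega
            · simp only [Function.update_of_ne hi]; exact hL i)
        obtain ⟨F2, hF2, hs2⟩ := hstep F1 hF1 j (t j)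
        refine ⟨F2, Function.update t j (t j - (h j : ZMod N)), hF2, fun s hs => ?_⟩
        have hLj := hL j
        have hlt : ∀ i, Function.update s j (s j - 1) i < Function.update l j (l j - 1) i := by
          intro i
          by_cases hi : i = j
          · subst hi; simp only [Function.update_self]; have := hs i; omega
          · simp only [Function.update_of_ne hi]; exact hs i
        have hmem := hs1 _ hlt
        have hr : h j * (s j - 1) + 1 < N / 2 := by
          have := hs j
          rcases hh j with h0 | h0 <;> rw [h0] <;> omega
        obtain ⟨ha, hb⟩ := hs2 _ hmem (h j * (s j - 1)) hr (by simp)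
        by_cases h0 : s j = 0
        · have e : (fun i => Function.update t j (t j - (h j : ZMod N)) i +
              ((h i * s i : ℕ) : ZMod N)) =
              Function.update (fun i => t i + ((h i * Function.update s j (s j - 1) i : ℕ) : ZMod N))
                j (t j - (h j : ZMod N) - ((h j * (s j - 1) : ℕ) : ZMod N)) := by
            funext i
            by_cases hi : i = j
            · subst hi; simp [h0]
            · simp [hi]
          rw [e]; exact hb
        · have e : (fun i => Function.update t j (t j - (h j : ZMod N)) i +
              ((h i * s i : ℕ) : ZMod N)) =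
              fun i => t i + ((h i * Function.update s j (s j - 1) i : ℕ) : ZMod N) := by
            funext i
            by_cases hi : i = j
            · subst hi
              obtain ⟨u, hu⟩ : ∃ u, s i = u + 1 := ⟨s i - 1, by omega⟩
              simp only [Function.update_self, hu, Nat.add_sub_cancel]
              push_cast
              ring
            · simp [hi]
          rw [e]; exact ha
  obtain ⟨F', t, hF', hs⟩ := key _ (fun _ => max 1 (N / 4)) rfl (fun _ => le_max_left _ _)
    fun _ => le_rfl
  refine ⟨F', hF', ?_⟩
  have hc : (Finset.univ : Finset (Fin d → Fin (N / 4))).card = (N / 4) ^ d := by simp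
  rw [← hc]
  refine Finset.card_le_card_of_injOn
    (fun s j => t j + ((h j * (s j : ℕ) : ℕ) : ZMod N)) (fun s _ => ?_) fun s _ s' _ he => ?_
  · exact hs (fun j => s j) fun j => (s j).2.trans_le (le_max_right _ _)
  · funext j
    have h1 := add_left_cancel (congrFun he j)
    have h2 := (s j).2
    have h3 := (s' j).2
    have h4 := (ZMod.natCast_eq_natCast_iff' _ _ _).1 h1
    rw [Nat.mod_eq_of_lt (by rcases hh j with h0 | h0 <;> rw [h0] <;> omega),
      Nat.mod_eq_of_lt (by rcases hh j with h0 | h0 <;> rw [h0] <;> omega)] at h4
    apply Fin.ext
    rcases hh j with h0 | h0 <;> rw [h0] at h4 <;> omega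

end Pool.Agent.Lib.MP_adb013_pr
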