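import Pool.Agent.Lib.MP_adb013_pr.ChessRP
import Pool.Agent.Lib.MP_adb013_pr.ChessComb

set_option autoImplicit false
set_option linter.unusedSectionVars false

open MeasureTheory
open scoped ENNReal

namespace Pool.Agent.Lib.MP_adb013_pr

variable {d N : ℕ} [NeZero N]

/-- All edges in direction `i` based at points of `F` are almost extremal. -/
def ExtD (δ : ℝ) (i : Fin d) (F : Finset (T d N)) : Set (T d N → ℝ) :=
  {ψ | ∀ x ∈ F, 1 - δ ≤ |ψ (x + ev i) - ψ x|}

theorem measurableSet_ExtD (δ : ℝ) (i : Fin d) (F : Finset (T d N)) :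
    MeasurableSet (ExtD δ i F) := by
  have : ExtD δ i F = ⋂ x ∈ F, {ψ : T d N → ℝ | 1 - δ ≤ |ψ (x + ev i) - ψ x|} := by
    ext ψ
    simp [ExtD]
  rw [this]
  exact Finset.measurableSet_biInter _ fun x _ =>
    (isClosed_le continuous_const (by fun_prop)).measurableSet

private theorem chess_half (hN : Even N) (h4 : 4 ≤ N) (u c : ZMod N) (hc : c = 0 ∨ c = 1) :
    (u.val ≤ N / 2 ∧ (u + c).val ≤ N / 2) ∨ ((-u - c).val ≤ N / 2 ∧ (-u).val ≤ N / 2) := by
  obtain ⟨M, hM⟩ := hN
  have hu := ZMod.val_lt u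
  have h1 := ZMod.neg_val u
  have h0 : u = 0 ↔ u.val = 0 := (ZMod.val_eq_zero u).symm
  rcases hc with rfl | rfl
  · rw [add_zero, sub_zero, h1]
    split_ifs <;> omega
  · have : Fact (1 < N) := ⟨by omega⟩
    have h2 := ZMod.val_add u 1
    rw [ZMod.val_one] at h2
    have h3 := ZMod.neg_val (u + 1)
    rw [neg_add'] at h3
    rw [h3, h1, h2]
    by_cases h5 : u.val + 1 < N
    · rw [Nat.mod_eq_of_lt h5]
      split_ifs <;> omega
    · have h6 : u.val + 1 = N := by omega
      have h7 : u + 1 = 0 := by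
        rw [← ZMod.val_eq_zero, h2, h6, Nat.mod_self]
      rw [if_pos h7]
      split_ifs <;> omega

/-- One reflection step for the events `ExtD`. -/
theorem chess_step (hN : Even N) (h4 : 4 ≤ N) (δ : ℝ) (i : Fin d) (F : Finset (T d N))
    (j : Fin d) (t : ZMod N) :
    ∃ F1 F2 : Finset (T d N),
      mu TAdj 0 (ExtD δ i F) ^ 2 ≤ mu TAdj 0 (ExtD δ i F1) * mu TAdj 0 (ExtD δ i F2) ∧
      2 * F.card ≤ F1.card + F2.card ∧
      ∀ x ∈ F, ∀ r : ℕ, r + 1 < N / 2 → x j = t + (r : ZMod N) →
        x ∈ F1 ∧ Function.update x j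
          (t - (((if j = i then 1 else 2 : ℕ)) : ZMod N) - (r : ZMod N)) ∈ F1 := by
  classical
  let c : ZMod N := if j = i then 1 else 0
  let k : ZMod N := t - 1 + c
  let σ : T d N → T d N := fun x => Function.update x j (2 * k - c - x j)
  have hc : ∀ x : T d N, (x + ev i : T d N) j = x j + c := fun x => by
    simp [ev, c, Pi.single_apply]
  have hσ : ∀ x, σ (σ x) = x := fun x => by simp [σ]
  have hinj : Function.Injective σ := Function.LeftInverse.injective hσ
  have hA : ∀ (ψ : T d N → ℝ) (x : T d N),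
      |ψ (refl j k (σ x + ev i)) - ψ (refl j k (σ x))| = |ψ (x + ev i) - ψ x| := by
    intro ψ x
    by_cases h : j = i
    · have e1 : refl j k (σ x + ev i) = x := by
        funext l
        by_cases hl : l = j
        · subst hl
          simp only [refl, Function.update_self, hc, σ]
          ring
        · have : l ≠ i := h ▸ hl
          simp [refl, σ, hl, ev, this]
      have e2 : refl j k (σ x) = x + ev i := by
        funext l
        by_cases hl : l = j
        · subst hl
          simp only [refl, Function.update_self, hc, σ]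
          ring
        · have : l ≠ i := h ▸ hl
          simp [refl, σ, hl, ev, this]
      rw [e1, e2, abs_sub_comm]
    · have hc0 : c = 0 := if_neg h
      have e1 : refl j k (σ x + ev i) = x + ev i := by
        funext l
        by_cases hl : l = j
        · subst hl
          simp only [refl, Function.update_self, hc, σ, hc0]
          ring
        · simp [refl, σ, hl]
      have e2 : refl j k (σ x) = x := by
        funext l
        by_cases hl : l = j
        · subst hl
          simp only [refl, Function.update_self, σ, hc0]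
          ring
        · simp [refl, σ, hl]
      rw [e1, e2]
  let Hp : T d N → Prop := fun x => x ∈ half j k ∧ x + ev i ∈ half j k
  have hHp : ∀ x, Hp x ↔ (x j - k).val ≤ N / 2 ∧ (x j - k + c).val ≤ N / 2 := fun x => by
    simp only [Hp, half, Finset.mem_filter, Finset.mem_univ, true_and, hc]
    rw [show x j + c - k = x j - k + c by ring]
  have H1 : ∀ x, Hp x ∨ Hp (σ x) := fun x => by
    rw [hHp, hHp]
    simp only [σ, Function.update_self]
    rw [show 2 * k - c - x j - k + c = -(x j - k) by ring,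
      show 2 * k - c - x j - k = -(x j - k) - c by ring]
    exact chess_half hN h4 _ _ (by simp only [c]; split_ifs <;> simp)
  let Fp := F.filter Hp
  let Fq := F.filter fun x => Hp (σ x)
  have hind : ∀ G : Finset (T d N), (∀ x ∈ G, Hp x) →
      Indep (half j k)ᶜ fun ψ => ψ ∈ ExtD δ i G := by
    intro G hG
    refine indep_of_imp fun ψ ψ' h hψ x hx => ?_
    rw [← h x (by simpa using (hG x hx).1), ← h _ (by simpa using (hG x hx).2)]
    exact hψ x hx
  have hsh : ∀ G : Finset (T d N), ShiftInv (ExtD δ i G) := fun G ψ a hψ x hx => by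
    simpa using hψ x hx
  have key := rp hN h4 j k (ExtD δ i Fp) (ExtD δ i (Fq.image σ)) (measurableSet_ExtD _ _ _)
    (measurableSet_ExtD _ _ _) (hsh _) (hsh _) (hind _ fun x hx => (Finset.mem_filter.1 hx).2)
    (hind _ fun x hx => by
      obtain ⟨y, hy, rfl⟩ := Finset.mem_image.1 hx
      exact (Finset.mem_filter.1 hy).2)
  refine ⟨Fp ∪ Fp.image σ, Fq ∪ Fq.image σ, ?_, ?_, ?_⟩
  · refine le_trans (pow_le_pow_left' (measure_mono fun ψ hψ => ?_) 2)
      (key.trans (mul_le_mul' (measure_mono fun ψ hψ x hx => ?_)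
        (measure_mono fun ψ hψ x hx => ?_)))
    · refine ⟨fun x hx => hψ x (Finset.mem_filter.1 hx).1, fun x hx => ?_⟩
      obtain ⟨y, hy, rfl⟩ := Finset.mem_image.1 hx
      rw [hA]
      exact hψ y (Finset.mem_filter.1 hy).1
    · rcases Finset.mem_union.1 hx with hx | hx
      · exact hψ.1 x hx
      · obtain ⟨y, hy, rfl⟩ := Finset.mem_image.1 hx
        rw [← hA, hσ]
        exact hψ.2 y hy
    · rcases Finset.mem_union.1 hx with hx | hx
      · rw [← hA]
        exact hψ.2 _ (Finset.mem_image_of_mem _ hx)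
      · exact hψ.1 x hx
  · have a1 := Finset.card_union_add_card_inter Fp (Fp.image σ)
    have a2 := Finset.card_union_add_card_inter Fq (Fq.image σ)
    have a3 := Finset.card_union_add_card_inter Fp Fq
    rw [Finset.card_image_of_injective _ hinj] at a1 a2
    have a4 : (Fp ∩ Fp.image σ).card ≤ (Fp ∩ Fq).card := by
      refine Finset.card_le_card fun x hx => ?_
      obtain ⟨h1, h2⟩ := Finset.mem_inter.1 hx
      obtain ⟨y, hy, rfl⟩ := Finset.mem_image.1 h2
      refine Finset.mem_inter.2 ⟨h1, Finset.mem_filter.2 ⟨(Finset.mem_filter.1 h1).1, ?_⟩⟩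
      rw [hσ]
      exact (Finset.mem_filter.1 hy).2
    have a5 : (Fq ∩ Fq.image σ).card ≤ (Fp ∩ Fq).card := by
      refine Finset.card_le_card fun x hx => ?_
      obtain ⟨h1, h2⟩ := Finset.mem_inter.1 hx
      obtain ⟨y, hy, rfl⟩ := Finset.mem_image.1 h2
      exact Finset.mem_inter.2 ⟨Finset.mem_filter.2
        ⟨(Finset.mem_filter.1 h1).1, (Finset.mem_filter.1 hy).2⟩, h1⟩
    have a6 : F.card ≤ (Fp ∪ Fq).card := by
      refine Finset.card_le_card fun x hx => Finset.mem_union.2 ?_
      exact (H1 x).imp (fun h => Finset.mem_filter.2 ⟨hx, h⟩) fun h => Finset.mem_filter.2 ⟨hx, h⟩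
    omega
  · intro x hx r hr hxr
    have hv : ∀ s : ℕ, s ≤ r + 1 → ((s : ℕ) : ZMod N).val ≤ N / 2 := fun s hs => by
      rw [ZMod.val_cast_of_lt (by omega)]
      omega
    have hx' : x ∈ Fp := by
      refine Finset.mem_filter.2 ⟨hx, (hHp x).2 ⟨?_, ?_⟩⟩
      · by_cases h : j = i
        · rw [show x j - k = ((r : ℕ) : ZMod N) by simp only [k, c, if_pos h, hxr]; ring]
          exact hv r (by omega)
        · rw [show x j - k = ((r + 1 : ℕ) : ZMod N) by
            simp only [k, c, if_neg h, hxr]; push_cast; ring]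
          exact hv _ le_rfl
      · rw [show x j - k + c = ((r + 1 : ℕ) : ZMod N) by simp only [k, hxr]; push_cast; ring]
        exact hv _ le_rfl
    refine ⟨Finset.mem_union_left _ hx', Finset.mem_union_right _
      (Finset.mem_image.2 ⟨x, hx', ?_⟩)⟩
    simp only [σ, k, c, hxr]
    congr 1
    split_ifs <;> push_cast <;> ring

/-- Spanning tree bound for the volume of `ExtD`. -/
theorem extD_vol (δ : ℝ) (h0 : 0 < δ) (h1 : δ ≤ 1) (i : Fin d) (F : Finset (T d N)) :
    mu TAdj 0 (ExtD δ i F) ≤ ENNReal.ofReal (δ ^ (F.card - N ^ (d - 1)) * 2 ^ (N ^ d)) := by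
  classical
  let π : T d N → T d N := fun x => if 0 < (x i).val then x - ev i else
    if h : ∃ j, 0 < (x j).val then x - ev h.choose else x
  let C : T d N → Prop := fun x => 0 < (x i).val ∧ x - ev i ∈ F
  let S : T d N → Set ℝ := fun x =>
    if C x then Set.Icc (1 - δ) 1 ∪ Set.Icc (-1) (δ - 1) else Set.Icc (-1) 1
  let W : Finset (T d N) := {0}ᶜ
  have hπ : ∀ x ∈ W, ∃ j, 0 < (x j).val ∧ π x = x - ev j := by
    intro x hx
    by_cases h : 0 < (x i).val
    · exact ⟨i, h, if_pos h⟩
    · have h' : ∃ j, 0 < (x j).val := by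
        by_contra h'
        push Not at h'
        have : x = 0 := funext fun j => (ZMod.val_eq_zero _).1 (Nat.le_zero.1 (h' j))
        simp [W, this] at hx
      exact ⟨h'.choose, h'.choose_spec, by simp only [π, if_neg h, dif_pos h']⟩
  have hr : ∀ x ∈ W, ∑ k, (π x k).val < ∑ k, (x k).val := by
    intro x hx
    obtain ⟨j, hj, e⟩ := hπ x hx
    rw [e, ← Finset.sum_congr rfl fun k _ => val_sub_ev x j k hj, Finset.sum_add_distrib]
    simp
  have hS : ∀ x, MeasurableSet (S x) := fun x => by
    simp only [S]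
    split_ifs
    · exact measurableSet_Icc.union measurableSet_Icc
    · exact measurableSet_Icc
  let p : (T d N → ℝ) → Prop := fun ψ => ψ 0 ∈ Set.Icc (0 : ℝ) 1
  let q : (T d N → ℝ) → Prop := fun ψ => ∀ x ∈ W, ψ x - ψ (π x) ∈ S x
  have hp : MeasurableSet {ψ | p ψ} := measurable_pi_apply 0 measurableSet_Icc
  have hq : MeasurableSet {ψ | q ψ} := by
    have : {ψ | q ψ} = ⋂ x ∈ W, (fun ψ : T d N → ℝ => ψ x - ψ (π x)) ⁻¹' S x := by
      ext ψ
      simp [q]
    rw [this]
    exact Finset.measurableSet_biInter _ fun x _ => (hS x).preimage (by fun_prop)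
  have h2 : mu TAdj 0 (ExtD δ i F) ≤ volume {ψ | p ψ ∧ q ψ} := by
    rw [mu_apply]
    refine measure_mono fun ψ hψ => ⟨⟨hψ.1.1, hψ.1.2.1⟩, fun x hx => ?_⟩
    obtain ⟨j, hj, e⟩ := hπ x hx
    have h3 : |ψ x - ψ (π x)| ≤ 1 := hψ.1.2.2 _ _ ⟨j, Or.inr (by rw [e, sub_add_cancel])⟩
    simp only [S]
    split_ifs with hC
    · have h4 := hψ.2 _ hC.2
      have e' : π x = x - ev i := if_pos hC.1
      rw [sub_add_cancel, ← e'] at h4
      rcases abs_cases (ψ x - ψ (π x)) with h5 | h5
      · exact Or.inl ⟨by linarith, by linarith⟩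
      · exact Or.inr ⟨by linarith, by linarith⟩
    · exact abs_le.1 h3
  have h3 : volume {ψ | p ψ ∧ q ψ} = ∏ x ∈ W, volume (S x) := by
    have hm : Measurable fun ψ => ind p ψ * ind q ψ :=
      (measurable_ind hp).mul (measurable_ind hq)
    rw [← lintegral_ind volume (p := fun ψ => p ψ ∧ q ψ) (hp.inter hq)]
    simp only [← ind_mul]
    rw [lintegral_eq_marg_compl W hm 0]
    have e : marg W (fun ψ => ind p ψ * ind q ψ) =
        fun ψ => ind p ψ * ∏ x ∈ W, volume (S x) := by
      funext ψ
      rw [marg_mul_indep W (Indep.ind (indep_of_imp fun ψ ψ' h hψ => by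
        simp only [p]
        rw [← h 0 (by simp [W])]
        exact hψ)) (measurable_ind hq), marg_tree W π (fun x => ∑ k, (x k).val) hr S hS]
    rw [e, show Wᶜ = {0} from compl_compl _, marg_singleton]
    have e2 : ∀ a : ℝ, ind p (Function.update (0 : T d N → ℝ) 0 a) =
        ind (fun a : ℝ => a ∈ Set.Icc (0 : ℝ) 1) a := fun a => by
      by_cases ha : a ∈ Set.Icc (0 : ℝ) 1
      · rw [ind_pos (p := fun a : ℝ => a ∈ Set.Icc (0 : ℝ) 1) ha, ind_pos]
        simpa only [p, Function.update_self] using ha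
      · rw [ind_neg (p := fun a : ℝ => a ∈ Set.Icc (0 : ℝ) 1) ha, ind_neg]
        simpa only [p, Function.update_self] using ha
    simp only [e2]
    have hI : MeasurableSet {a : ℝ | a ∈ Set.Icc (0 : ℝ) 1} := measurableSet_Icc
    rw [lintegral_mul_const _ (measurable_ind hI), lintegral_ind volume hI, Set.ofPred_mem_eq]
    simp
  have h4 : ∀ x ∈ W, volume (S x) ≤ ENNReal.ofReal ((if C x then δ else 1) * 2) := by
    intro x _
    simp only [S]
    split_ifs
    · refine (measure_union_le _ _).trans (le_of_eq ?_)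
      rw [Real.volume_Icc, Real.volume_Icc, ← ENNReal.ofReal_add (by linarith) (by linarith)]
      congr 1
      ring
    · rw [Real.volume_Icc]
      norm_num
  refine h2.trans (h3.le.trans ((Finset.prod_le_prod' h4).trans ?_))
  rw [← ENNReal.ofReal_prod_of_nonneg fun x _ => by split_ifs <;> positivity]
  refine ENNReal.ofReal_le_ofReal ?_
  rw [Finset.prod_mul_distrib, Finset.prod_ite, Finset.prod_const, Finset.prod_const_one, mul_one,
    Finset.prod_const]
  refine mul_le_mul (pow_le_pow_of_le_one h0.le h1 ?_) (pow_le_pow_right₀ one_le_two ?_)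
    (by positivity) (by positivity)
  · have a1 : (Finset.univ.filter fun x : T d N => x i = 0).card ≤ N ^ (d - 1) := by
      have := Finset.card_le_card_of_injOn (s := Finset.univ.filter fun x : T d N => x i = 0)
        (t := (Finset.univ : Finset ({j // j ≠ i} → ZMod N))) (fun x j => x j.1)
        (fun _ _ => by simp) (fun x hx y hy h => funext fun j => by
          by_cases hj : j = i
          · rw [hj, (Finset.mem_filter.1 hx).2, (Finset.mem_filter.1 hy).2]
          · exact congrFun h ⟨j, hj⟩)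
      simpa using this
    have a2 : F.card ≤ (W.filter C ∪ Finset.univ.filter fun x : T d N => x i = 0).card := by
      refine Finset.card_le_card_of_injOn (fun x => x + ev i) (fun x hx => ?_)
        (fun _ _ _ _ h => add_right_cancel h)
      rw [Finset.mem_coe, Finset.mem_union]
      by_cases h : (x + ev i : T d N) i = 0
      · exact Or.inr (Finset.mem_filter.2 ⟨Finset.mem_univ _, h⟩)
      · refine Or.inl (Finset.mem_filter.2 ⟨?_, Nat.pos_of_ne_zero fun h' =>
          h ((ZMod.val_eq_zero _).1 h'), by simpa using hx⟩)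
        simp only [W, Finset.mem_compl, Finset.mem_singleton]
        intro h'
        exact h (by rw [h']; rfl)
    have a3 := Finset.card_union_le (W.filter C) (Finset.univ.filter fun x : T d N => x i = 0)
    have a4 : F.card - N ^ (d - 1) ≤ (W.filter C).card := by omega
    exact a4.trans (Finset.card_le_card fun x hx => by simpa using hx)
  · simpa using Finset.card_le_univ W

/-- Chessboard estimate in one direction. -/
theorem extD_bound (d : ℕ) (ρ : ℝ) (hρ : 0 < ρ) :
    ∃ δ : ℝ, 0 < δ ∧ δ ≤ 1 ∧ ∃ N0 : ℕ, ∀ (N : ℕ) [NeZero N], Even N → N0 ≤ N →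
      ∀ (i : Fin d) (F : Finset (T d N)), mu TAdj 0 (ExtD δ i F) ≤
        ENNReal.ofReal (ρ ^ F.card) * mu (TAdj (d := d) (N := N)) 0 Set.univ := by
  have hη : (1 : ℝ) ≤ 2 ^ (8 ^ d) := one_le_pow₀ one_le_two
  set ρ' := min ρ 1 with hρ'
  have r0 : 0 < ρ' := lt_min hρ one_pos
  have r1 : ρ' ≤ 1 := min_le_right _ _
  set η := ρ' / 2 ^ (8 ^ d) with hη'
  have e0 : 0 < η := by positivity
  have e1 : η ≤ 1 := (div_le_one (by positivity)).2 (r1.trans hη)
  refine ⟨η ^ 2, by positivity, pow_le_one₀ e0.le e1, 2 * 8 ^ d + 8, fun N _ hN hN0 i F => ?_⟩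
  have hZ := mu_univ_ne_top (d := d) (N := N)
  set Z := mu (TAdj (d := d) (N := N)) 0 Set.univ with hZ'
  have hfin : ∀ G, mu TAdj 0 (ExtD (η ^ 2) i G) ≠ ⊤ := fun G : Finset (T d N) =>
    ne_top_of_le_ne_top hZ (measure_mono (Set.subset_univ _))
  let Φ : Finset (T d N) → ℝ := fun G => (mu TAdj 0 (ExtD (η ^ 2) i G)).toReal / ρ' ^ G.card
  obtain ⟨G, -, hG⟩ := Finset.exists_max_image Finset.univ Φ Finset.univ_nonempty
  have hZ1 : 1 ≤ Z.toReal := by
    rw [← ENNReal.toReal_one]
    exact ENNReal.toReal_mono hZ (one_le_mu_univ _ _)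
  have hM : Φ G ≤ Z.toReal := by
    by_contra hlt
    push Not at hlt
    have hne : G.Nonempty := by
      rw [Finset.nonempty_iff_ne_empty]
      rintro rfl
      have : ExtD (η ^ 2) i (∅ : Finset (T d N)) = Set.univ := by
        ext ψ
        simp [ExtD]
      simp [Φ, this, hZ'] at hlt
    obtain ⟨G', hG', hc⟩ := dense_of_refl (fun j => if j = i then 1 else 2)
      (fun j => by split_ifs <;> simp) (fun G' => Φ G ≤ Φ G') (by
        intro G' hG' j t
        obtain ⟨F1, F2, h1, h2, h3⟩ := chess_step hN (by omega) (η ^ 2) i G' j t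
        refine ⟨F1, ?_, h3⟩
        have a0 : 0 < Φ G := by linarith
        have a1 : Φ G' ^ 2 ≤ Φ F1 * Φ F2 := by
          have b1 := ENNReal.toReal_mono (ENNReal.mul_ne_top (hfin F1) (hfin F2)) h1
          rw [ENNReal.toReal_pow, ENNReal.toReal_mul] at b1
          simp only [Φ]
          rw [div_pow, div_mul_div_comm, ← pow_mul, ← pow_add]
          exact div_le_div₀ (by positivity) b1 (by positivity)
            (pow_le_pow_of_le_one r0.le r1 (by omega))
        have a2 : 0 ≤ Φ F1 := by positivity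
        have a3 := hG F2 (Finset.mem_univ _)
        have a4 : Φ G * Φ G ≤ Φ F1 * Φ G := by nlinarith
        exact le_of_mul_le_mul_right a4 a0) G le_rfl hne
    have b1 : N ^ d ≤ 8 ^ d * G'.card := by
      refine le_trans ?_ (Nat.mul_le_mul_left _ hc)
      rw [← mul_pow]
      exact Nat.pow_le_pow_left (by omega) _
    have b2 : 2 * N ^ (d - 1) ≤ G'.card := by
      have c1 : N ^ d = N * N ^ (d - 1) := by
        rw [← pow_succ']
        congr 1
        have := i.pos
        omega
      have c2 : 8 ^ d * (2 * N ^ (d - 1)) ≤ 8 ^ d * G'.card := by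
        have := Nat.mul_le_mul_right (N ^ (d - 1)) (show 2 * 8 ^ d ≤ N by omega)
        nlinarith
      exact Nat.le_of_mul_le_mul_left c2 (by positivity)
    have b3 := ENNReal.toReal_le_of_le_ofReal (by positivity)
      (extD_vol (η ^ 2) (by positivity) (pow_le_one₀ e0.le e1) i G')
    have b4 : Φ G' ≤ 1 := by
      simp only [Φ]
      rw [div_le_one (by positivity)]
      refine b3.trans ?_
      have c1 : (η ^ 2) ^ (G'.card - N ^ (d - 1)) ≤ η ^ G'.card := by
        rw [← pow_mul]
        exact pow_le_pow_of_le_one e0.le e1 (by omega)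
      have c2 : (2 : ℝ) ^ (N ^ d) ≤ (2 ^ (8 ^ d)) ^ G'.card := by
        rw [← pow_mul]
        exact pow_le_pow_right₀ one_le_two b1
      refine (mul_le_mul c1 c2 (by positivity) (by positivity)).trans (le_of_eq ?_)
      rw [← mul_pow, hη', div_mul_cancel₀ _ (by positivity)]
    linarith
  have h1 := (hG F (Finset.mem_univ _)).trans hM
  simp only [Φ] at h1
  rw [div_le_iff₀ (by positivity)] at h1
  rw [← ENNReal.ofReal_toReal (hfin F), ← ENNReal.ofReal_toReal hZ,
    ← ENNReal.ofReal_mul (by positivity)]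
  refine ENNReal.ofReal_le_ofReal (h1.trans ?_)
  rw [mul_comm]
  exact mul_le_mul_of_nonneg_right (pow_le_pow_left₀ r0.le (min_le_left _ _) _) (by positivity)

/-- Chessboard estimate. -/
theorem ext_bound (d : ℕ) (ρ : ℝ) (hρ : 0 < ρ) :
    ∃ δ : ℝ, 0 < δ ∧ δ ≤ 1 ∧ ∃ N0 : ℕ, ∀ (N : ℕ) [NeZero N], Even N → N0 ≤ N →
      ∀ F : Finset (T d N × Fin d), mu TAdj 0 (Ext δ F) ≤
        ENNReal.ofReal (ρ ^ F.card) * mu (TAdj (d := d) (N := N)) 0 Set.univ := by
  classical
  have r0 : 0 < min ρ 1 := lt_min hρ one_pos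
  obtain ⟨δ, h0, h1, N0, h⟩ := extD_bound d (min ρ 1 ^ d) (by positivity)
  refine ⟨δ, h0, h1, N0, fun N _ hN hN0 F => ?_⟩
  rcases F.eq_empty_or_nonempty with rfl | ⟨p, _⟩
  · simpa using measure_mono (Set.subset_univ _)
  · obtain ⟨i, -, hi⟩ := Finset.exists_max_image Finset.univ
      (fun i : Fin d => (F.filter fun q => q.2 = i).card) ⟨p.2, Finset.mem_univ _⟩
    have a1 : F.card ≤ d * (F.filter fun q => q.2 = i).card := by
      rw [Finset.card_eq_sum_card_fiberwise (f := Prod.snd) (t := Finset.univ)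
        (fun _ _ => by simp)]
      simpa using Finset.sum_le_card_nsmul _ _ _ hi
    have a2 : ((F.filter fun q => q.2 = i).image Prod.fst).card =
        (F.filter fun q => q.2 = i).card :=
      Finset.card_image_of_injOn fun x hx y hy e => Prod.ext e
        ((Finset.mem_filter.1 hx).2.trans (Finset.mem_filter.1 hy).2.symm)
    refine le_trans (measure_mono ?_)
      ((h N hN hN0 i ((F.filter fun q => q.2 = i).image Prod.fst)).trans
        (mul_le_mul_left (ENNReal.ofReal_le_ofReal ?_) _))
    · intro ψ hψ x hx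
      obtain ⟨q, hq, rfl⟩ := Finset.mem_image.1 hx
      rw [← (Finset.mem_filter.1 hq).2]
      exact hψ q (Finset.mem_filter.1 hq).1
    · rw [a2, ← pow_mul]
      exact (pow_le_pow_of_le_one r0.le (min_le_right _ _) a1).trans
        (pow_le_pow_left₀ r0.le (min_le_left _ _) _)

end Pool.Agent.Lib.MP_adb013_pr
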