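import Pool.Agent.Lib.MP_adb013_pr.Torus

set_option autoImplicit false
set_option linter.unusedSectionVars false

open MeasureTheory
open scoped ENNReal

namespace Pool.Agent.Lib.MP_adb013_pr

variable {d N : ℕ} [NeZero N]

/-- Reflection in the planes `x j = k` and `x j = k + N / 2`. -/
def refl (j : Fin d) (k : ZMod N) (x : T d N) : T d N := Function.update x j (2 * k - x j)

/-- The closed half torus between the two planes. -/
def half (j : Fin d) (k : ZMod N) : Finset (T d N) :=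
  Finset.univ.filter fun x => (x j - k).val ≤ N / 2

theorem rp_refl_refl (j : Fin d) (k : ZMod N) (x : T d N) : refl j k (refl j k x) = x := by
  simp [refl]

theorem rp_refl_inj (j : Fin d) (k : ZMod N) : Function.Injective (refl (d := d) j k) :=
  Function.Involutive.injective (rp_refl_refl j k)

theorem rp_mem_half (j : Fin d) (k : ZMod N) (x : T d N) :
    x ∈ half j k ↔ (x j - k).val ≤ N / 2 := by simp [half]

theorem rp_val_refl (j : Fin d) (k : ZMod N) (x : T d N) :
    (refl j k x j - k).val = if (x j - k).val = 0 then 0 else N - (x j - k).val := by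
  have h : refl j k x j - k = -(x j - k) := by simp [refl]; ring
  rw [h, ZMod.neg_val]
  simp only [ZMod.val_eq_zero]

theorem rp_refl_mem (hN : Even N) (j : Fin d) (k : ZMod N) (x : T d N) :
    refl j k x ∈ half j k ↔ (x j - k).val = 0 ∨ N / 2 ≤ (x j - k).val := by
  rw [rp_mem_half, rp_val_refl]
  have h1 := ZMod.val_lt (x j - k)
  obtain ⟨r, hr⟩ := hN
  split_ifs with h <;> omega

theorem rp_fix (hN : Even N) (j : Fin d) (k : ZMod N) (x : T d N) (h1 : x ∈ half j k)
    (h2 : refl j k x ∈ half j k) : refl j k x = x := by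
  have h3 : (refl j k x j - k).val = (x j - k).val := by
    rw [rp_refl_mem hN] at h2
    rw [rp_mem_half] at h1
    rw [rp_val_refl]
    obtain ⟨r, hr⟩ := hN
    split_ifs with h <;> omega
  have h4 : refl j k x j = x j := sub_left_injective (ZMod.val_injective N h3)
  funext i
  by_cases hi : i = j
  · subst hi; exact h4
  · simp [refl, hi]

theorem rp_adj (j : Fin d) (k : ZMod N) {x y : T d N} (h : TAdj x y) :
    TAdj (refl j k x) (refl j k y) := by
  have key : ∀ (x : T d N) (i : Fin d), TAdj (refl j k x) (refl j k (x + ev i)) := by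
    intro x i
    refine ⟨i, ?_⟩
    by_cases hi : i = j
    · subst hi
      refine Or.inr ?_
      funext l
      by_cases hl : l = i
      · subst hl; simp [refl, ev]; ring
      · simp [refl, ev, hl]
    · refine Or.inl ?_
      funext l
      by_cases hl : l = j
      · subst hl; simp [refl, ev, Pi.single_eq_of_ne (Ne.symm hi)]
      · simp [refl, ev, hl]
  obtain ⟨i, h | h⟩ := h
  · rw [h]; exact key x i
  · rw [h]; exact (key y i).symm

theorem rp_edge (hN : Even N) (h4 : 4 ≤ N) (j : Fin d) (k : ZMod N) (x : T d N) (i : Fin d) :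
    (x ∈ half j k ∧ x + ev i ∈ half j k) ∨
      (refl j k x ∈ half j k ∧ refl j k (x + ev i) ∈ half j k) := by
  rw [rp_refl_mem hN, rp_refl_mem hN, rp_mem_half, rp_mem_half]
  by_cases hi : i = j
  · subst hi
    have h1 : (x + ev i : T d N) i - k = (x i - k) + 1 := by simp [ev]; ring
    have : Fact (1 < N) := ⟨by omega⟩
    have h2 := ZMod.val_lt (x i - k)
    rw [h1, ZMod.val_add, ZMod.val_one]
    by_cases h3 : (x i - k).val + 1 < N
    · rw [Nat.mod_eq_of_lt h3]; omega
    · have h5 : (x i - k).val + 1 = N := by omega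
      rw [h5, Nat.mod_self]; omega
  · have h1 : (x + ev i : T d N) j = x j := by simp [ev, Pi.single_eq_of_ne (Ne.symm hi)]
    rw [h1]; omega

/-- Lipschitz along the edges inside the half torus. -/
def rpLipH (j : Fin d) (k : ZMod N) (ψ : T d N → ℝ) : Prop :=
  Lip (fun x y => TAdj x y ∧ x ∈ half j k ∧ y ∈ half j k) ψ

theorem rp_lip_iff (hN : Even N) (h4 : 4 ≤ N) (j : Fin d) (k : ZMod N) (ψ : T d N → ℝ) :
    Lip TAdj ψ ↔ rpLipH j k ψ ∧ rpLipH j k fun x => ψ (refl j k x) := by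
  constructor
  · intro h
    exact ⟨fun x y hxy => h x y hxy.1, fun x y hxy => h _ _ (rp_adj j k hxy.1)⟩
  · rintro ⟨h1, h2⟩
    have key : ∀ (x : T d N) (i : Fin d), |ψ x - ψ (x + ev i)| ≤ 1 := by
      intro x i
      have ha : TAdj x (x + ev i) := ⟨i, Or.inl rfl⟩
      rcases rp_edge hN h4 j k x i with h | h
      · exact h1 _ _ ⟨ha, h⟩
      · have := h2 _ _ ⟨rp_adj j k ha, h⟩
        simpa only [rp_refl_refl] using this
    rintro x y ⟨i, h | h⟩
    · rw [h]; exact key x i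
    · rw [h, abs_sub_comm]; exact key y i

/-- The one-sided weight. -/
noncomputable def rpW (j : Fin d) (k : ZMod N) (P : Set (T d N → ℝ)) : (T d N → ℝ) → ℝ≥0∞ :=
  ind fun ψ => Pinned (fun x y => TAdj x y ∧ x ∈ half j k ∧ y ∈ half j k)
    (Function.update 0 j k) ψ ∧ ψ ∈ P

theorem rp_meas (j : Fin d) (k : ZMod N) {P : Set (T d N → ℝ)} (hP : MeasurableSet P) :
    Measurable (rpW j k P) :=
  measurable_ind ((measurableSet_Pinned _ _).inter hP)

theorem rp_o_mem (j : Fin d) (k : ZMod N) : (Function.update 0 j k : T d N) ∈ half j k := by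
  simp [rp_mem_half]

theorem rp_o_fix (j : Fin d) (k : ZMod N) :
    refl j k (Function.update (0 : T d N) j k) = Function.update (0 : T d N) j k := by
  simp [refl, two_mul]

theorem rp_indep (j : Fin d) (k : ZMod N) {P : Set (T d N → ℝ)}
    (hPi : Indep (half j k)ᶜ fun ψ => ψ ∈ P) : Indep (half j k)ᶜ (rpW j k P) := by
  refine Indep.ind (indep_of_imp fun x y hxy h => ?_)
  have he : ∀ v ∈ half j k, x v = y v := fun v hv => hxy v (by simpa using hv)
  refine ⟨⟨?_, ?_, fun u v huv => ?_⟩, (hPi x y hxy).mp h.2⟩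
  · rw [← he _ (rp_o_mem j k)]; exact h.1.1
  · rw [← he _ (rp_o_mem j k)]; exact h.1.2.1
  · rw [← he _ huv.2.1, ← he _ huv.2.2]; exact h.1.2.2 u v huv

theorem rp_formula (hN : Even N) (h4 : 4 ≤ N) (j : Fin d) (k : ZMod N) (P Q : Set (T d N → ℝ))
    (hP : MeasurableSet P) (hQ : MeasurableSet Q) (hPs : ShiftInv P) (hQs : ShiftInv Q)
    (hPi : Indep (half j k)ᶜ fun ψ => ψ ∈ P) (hQi : Indep (half j k)ᶜ fun ψ => ψ ∈ Q) :
    mu TAdj 0 {ψ | ψ ∈ P ∧ (fun x => ψ (refl j k x)) ∈ Q} =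
      marg (((half j k)ᶜ).image (refl j k) ∪ (half j k)ᶜ)ᶜ
        (fun ψ => marg (((half j k)ᶜ).image (refl j k)) (rpW j k P) ψ *
          marg (((half j k)ᶜ).image (refl j k)) (rpW j k Q) ψ) 0 := by
  set Im : Finset (T d N) := (half j k)ᶜ with hIm
  set Ip : Finset (T d N) := Im.image (refl j k) with hIp
  have hmemp : ∀ x, x ∈ Ip ↔ refl j k x ∉ half j k := by
    intro x
    rw [hIp, Finset.mem_image]
    constructor
    · rintro ⟨y, hy, rfl⟩
      rw [rp_refl_refl]; simpa [hIm] using hy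
    · intro h
      exact ⟨refl j k x, by simpa [hIm] using h, rp_refl_refl j k x⟩
  have hmemm : ∀ x, x ∈ Im ↔ x ∉ half j k := fun x => by simp [hIm]
  have himg : Ip.image (refl j k) = Im := by
    rw [hIp, Finset.image_image]
    have : refl j k ∘ refl (d := d) j k = id := funext (rp_refl_refl j k)
    rw [this, Finset.image_id]
  have hdisj : Disjoint Ip Im := by
    rw [Finset.disjoint_left]
    intro x h1 h2
    rw [hmemp, rp_refl_mem hN] at h1
    rw [hmemm, rp_mem_half] at h2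
    omega
  have hρ : Measurable fun (ψ : T d N → ℝ) (x : T d N) => ψ (refl j k x) :=
    measurable_pi_iff.mpr fun x => measurable_pi_apply _
  have hE : MeasurableSet {ψ : T d N → ℝ | ψ ∈ P ∧ (fun x => ψ (refl j k x)) ∈ Q} :=
    hP.inter (hρ hQ)
  have hEs : ShiftInv {ψ : T d N → ℝ | ψ ∈ P ∧ (fun x => ψ (refl j k x)) ∈ Q} :=
    fun ψ c h => ⟨hPs ψ c h.1, hQs _ c h.2⟩
  set g : (T d N → ℝ) → ℝ≥0∞ := fun ψ => rpW j k Q fun x => ψ (refl j k x) with hg
  have hgm : Measurable g := (rp_meas j k hQ).comp hρ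
  have hgi : Indep Ip g := by
    intro x y hxy
    refine rp_indep j k hQi _ _ fun v hv => hxy _ ?_
    rw [hmemp, rp_refl_refl]
    simpa using hv
  have hprod : ∀ ψ : T d N → ℝ,
      ind (fun ψ => Pinned TAdj (Function.update 0 j k) ψ ∧
        ψ ∈ {ψ : T d N → ℝ | ψ ∈ P ∧ (fun x => ψ (refl j k x)) ∈ Q}) ψ = rpW j k P ψ * g ψ := by
    intro ψ
    have e : g ψ = ind (fun ψ : T d N → ℝ =>
        Pinned (fun x y => TAdj x y ∧ x ∈ half j k ∧ y ∈ half j k)
          (Function.update 0 j k) (fun x => ψ (refl j k x)) ∧ (fun x => ψ (refl j k x)) ∈ Q) ψ :=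
      ind_congr Iff.rfl
    rw [e, rpW, ind_mul]
    refine ind_congr ?_
    simp only [Pinned, rp_o_fix, rp_lip_iff hN h4 j k ψ, rpLipH, Set.mem_ofPred_eq]
    tauto
  rw [mu_pin TAdj 0 (Function.update 0 j k) hE hEs, mu_apply,
    ← lintegral_ind volume (p := fun ψ => Pinned TAdj (Function.update 0 j k) ψ ∧
        ψ ∈ {ψ : T d N → ℝ | ψ ∈ P ∧ (fun x => ψ (refl j k x)) ∈ Q})
      ((measurableSet_Pinned _ _).inter hE)]
  simp_rw [hprod]
  have hm : Measurable fun ψ => rpW j k P ψ * g ψ := (rp_meas j k hP).mul hgm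
  rw [lintegral_eq_marg_compl (Ip ∪ Im) hm 0]
  congr 1
  funext ψ
  rw [marg_union hm hdisj]
  have e1 : marg Im (fun ψ => rpW j k P ψ * g ψ) = fun ψ => marg Im g ψ * rpW j k P ψ := by
    funext ψ
    rw [marg_mul_indep Im (rp_indep j k hPi) hgm, mul_comm]
  rw [e1, marg_mul_indep Ip (hgi.marg Im) (rp_meas j k hP), mul_comm]
  congr 1
  have e2 : marg Im g ψ = marg Ip (rpW j k Q) fun x => ψ (refl j k x) := by
    rw [← himg]
    exact lmarginal_image (μ := fun _ => (volume : Measure ℝ)) (rp_refl_inj j k) Ip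
      (rp_meas j k hQ) ψ
  rw [e2]
  refine ((marg_indep Ip _).union ((rp_indep j k hQi).marg Ip)) _ _ fun v hv => ?_
  rw [Finset.mem_union, not_or, hmemp] at hv
  rw [rp_fix hN j k v (by simpa using hv.2) (by simpa using hv.1)]

/-- Reflection positivity. -/
theorem rp (hN : Even N) (h4 : 4 ≤ N) (j : Fin d) (k : ZMod N) (P Q : Set (T d N → ℝ))
    (hP : MeasurableSet P) (hQ : MeasurableSet Q) (hPs : ShiftInv P) (hQs : ShiftInv Q)
    (hPi : Indep (half j k)ᶜ fun ψ => ψ ∈ P) (hQi : Indep (half j k)ᶜ fun ψ => ψ ∈ Q) :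
    mu TAdj 0 {ψ | ψ ∈ P ∧ (fun x => ψ (refl j k x)) ∈ Q} ^ 2 ≤
      mu TAdj 0 {ψ | ψ ∈ P ∧ (fun x => ψ (refl j k x)) ∈ P} *
        mu TAdj 0 {ψ | ψ ∈ Q ∧ (fun x => ψ (refl j k x)) ∈ Q} := by
  rw [rp_formula hN h4 j k P Q hP hQ hPs hQs hPi hQi,
    rp_formula hN h4 j k P P hP hP hPs hPs hPi hPi, rp_formula hN h4 j k Q Q hQ hQ hQs hQs hQi hQi]
  exact marg_mul_sq_le _ (measurable_marg _ (rp_meas j k hP)) (measurable_marg _ (rp_meas j k hQ)) 0

end Pool.Agent.Lib.MP_adb013_pr
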