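import Mathlib

/-!
Definitions for the proof that the maximum of a uniform random Lipschitz function on the
`d`-dimensional torus (`d ≥ 3`) has order `(log n)^(1/d)`.
-/

set_option autoImplicit false

open MeasureTheory
open scoped ENNReal

namespace Pool.Agent.Lib.MP_adb013_pr

/-! ### Marginals -/

section Marg

variable {V : Type} [DecidableEq V]

/-- Integrate out (Lebesgue measure) the coordinates in `s`. -/
noncomputable def marg (s : Finset V) (f : (V → ℝ) → ℝ≥0∞) : (V → ℝ) → ℝ≥0∞ :=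
  lmarginal (fun _ => (volume : Measure ℝ)) s f

open Classical in
/-- Indicator of a predicate. -/
noncomputable def ind {Ω : Type} (p : Ω → Prop) : Ω → ℝ≥0∞ := fun x => if p x then 1 else 0

/-- `x` and `y` agree outside `s`. -/
def Agree (s : Finset V) (x y : V → ℝ) : Prop := ∀ i, i ∉ s → x i = y i

/-- `f` does not depend on the coordinates in `s`. -/
def Indep {β : Type} (s : Finset V) (f : (V → ℝ) → β) : Prop := ∀ x y, Agree s x y → f x = f y

/-- Midpoint. -/
noncomputable def mid (x y : V → ℝ) : V → ℝ := fun i => (x i + y i) / 2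

end Marg

/-! ### Lipschitz functions on an abstract finite graph -/

section Graph

variable {V : Type} [DecidableEq V]

/-- 1-Lipschitz along all edges. -/
def Lip (A : V → V → Prop) (ψ : V → ℝ) : Prop := ∀ x y, A x y → |ψ x - ψ y| ≤ 1

/-- 1-Lipschitz along the edges meeting `I`. -/
def LipOn (A : V → V → Prop) (I : Finset V) (ψ : V → ℝ) : Prop :=
  ∀ x y, A x y → (x ∈ I ∨ y ∈ I) → |ψ x - ψ y| ≤ 1

/-- 1-Lipschitz along the edges not meeting `I`. -/
def LipOff (A : V → V → Prop) (I : Finset V) (ψ : V → ℝ) : Prop :=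
  ∀ x y, A x y → x ∉ I → y ∉ I → |ψ x - ψ y| ≤ 1

/-- The pinned polytope. -/
def Pinned (A : V → V → Prop) (o : V) (ψ : V → ℝ) : Prop := 0 ≤ ψ o ∧ ψ o ≤ 1 ∧ Lip A ψ

/-- Lebesgue measure on the pinned polytope. -/
noncomputable def mu [Fintype V] (A : V → V → Prop) (o : V) : Measure (V → ℝ) :=
  volume.restrict {ψ | Pinned A o ψ}

/-- Local partition function: volume of the Lipschitz fillings of `I`. -/
noncomputable def Zl (A : V → V → Prop) (I : Finset V) : (V → ℝ) → ℝ≥0∞ :=
  marg I (ind (LipOn A I))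

/-- All neighbours of `v` have values between those of `u` and `u'`. -/
def Btw (A : V → V → Prop) (v u u' : V) (ψ : V → ℝ) : Prop :=
  ∀ w, A v w → min (ψ u) (ψ u') ≤ ψ w ∧ ψ w ≤ max (ψ u) (ψ u')

/-- Volume of the Lipschitz fillings of `I` satisfying `Btw`. -/
noncomputable def Zb (A : V → V → Prop) (I : Finset V) (v u u' : V) : (V → ℝ) → ℝ≥0∞ :=
  marg I (ind fun ψ => LipOn A I ψ ∧ Btw A v u u' ψ)

/-- A set of functions invariant under adding constants. -/
def ShiftInv (E : Set (V → ℝ)) : Prop := ∀ ψ (c : ℝ), ψ ∈ E → (fun x => ψ x + c) ∈ E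

end Graph

/-! ### The torus and its boxes -/

/-- The discrete torus. -/
abbrev T (d N : ℕ) : Type := Fin d → ZMod N

/-- Unit vector. -/
def ev {d N : ℕ} (i : Fin d) : T d N := Pi.single i 1

/-- Adjacency on the torus. -/
def TAdj {d N : ℕ} (x y : T d N) : Prop := ∃ i : Fin d, y = x + ev i ∨ x = y + ev i

/-- The coarse grid. -/
abbrev Cell (d m : ℕ) : Type := Fin d → Fin m

section Boxes

variable {d N m : ℕ}

/-- Closed box of side `R` with index `b`. -/
def cbox [NeZero N] (R : ℕ) (b : Cell d m) : Finset (T d N) :=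
  Finset.univ.filter fun x => ∀ j, (b j : ℕ) * R ≤ (x j).val ∧ (x j).val ≤ ((b j : ℕ) + 1) * R

/-- Open box of side `R` with index `b`. -/
def obox [NeZero N] (R : ℕ) (b : Cell d m) : Finset (T d N) :=
  Finset.univ.filter fun x => ∀ j, (b j : ℕ) * R < (x j).val ∧ (x j).val < ((b j : ℕ) + 1) * R

/-- Points of the open box with an odd coordinate (these are integrated out). -/
def ibox [NeZero N] (R : ℕ) (b : Cell d m) : Finset (T d N) :=
  (obox R b).filter fun x => ∃ j, Odd (x j).val

/-- Centre of a box. -/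
def ctr (R : ℕ) (b : Cell d m) : T d N := fun j => (((b j : ℕ) * R + R / 2 : ℕ) : ZMod N)

/-- The point at height `s` on the axis in direction `i` through the centre of a box. -/
def ax (R : ℕ) (b : Cell d m) (i : Fin d) (s : ℕ) : T d N :=
  Function.update (ctr R b) i ((((b i : ℕ) * R + s : ℕ)) : ZMod N)

/-- A box is good for `ψ` if every link of the box is active with conditional probability
at least `p`, given the values outside `ibox`. -/
def Good [NeZero N] (R : ℕ) (p : ℝ) (b : Cell d m) (ψ : T d N → ℝ) : Prop :=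
  ∀ (i : Fin d) (k : ℕ), k < R / 2 →
    ENNReal.ofReal p * Zl TAdj (ibox R b) ψ ≤
      Zb TAdj (ibox R b) (ax R b i (2 * k + 1)) (ax R b i (2 * k)) (ax R b i (2 * k + 2)) ψ

/-- All edges `(x, x + e_i)` with `(x, i) ∈ F` are almost extremal. -/
def Ext (δ : ℝ) (F : Finset (T d N × Fin d)) : Set (T d N → ℝ) :=
  {ψ | ∀ p ∈ F, 1 - δ ≤ |ψ (p.1 + ev p.2) - ψ p.1|}

/-- All edges inside the closed box have slope at most `1 - ε`. -/
def G1 [NeZero N] (R : ℕ) (ε : ℝ) (b : Cell d m) (ψ : T d N → ℝ) : Prop :=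
  ∀ (x : T d N) (j : Fin d), x ∈ cbox R b → x + ev j ∈ cbox R b → |ψ (x + ev j) - ψ x| ≤ 1 - ε

/-- No almost extremal straight segment of length `R / 2` inside the closed box. -/
def G2 [NeZero N] (R : ℕ) (b : Cell d m) (ψ : T d N → ℝ) : Prop :=
  ∀ (x : T d N) (j : Fin d), x ∈ cbox R b → (x j).val + R / 2 ≤ ((b j : ℕ) + 1) * R →
    |ψ (x + ((R / 2 : ℕ) : ZMod N) • ev j) - ψ x| ≤ ((R / 2 : ℕ) : ℝ) - 3

/-- The two ends of every link have values at least `ε` apart. -/
def G3 (R : ℕ) (ε : ℝ) (b : Cell d m) (ψ : T d N → ℝ) : Prop :=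
  ∀ (i : Fin d) (k : ℕ), k < R / 2 → ε ≤ |ψ (ax R b i (2 * k)) - ψ (ax R b i (2 * k + 2))|

/-- Two different cells whose closed boxes do not touch. -/
def Apart (b b' : Cell d m) : Prop := ∃ j, (b j : ℕ) + 2 ≤ b' j ∨ (b' j : ℕ) + 2 ≤ b j

end Boxes

/-! ### The coarse grid as a graph -/

section Grid

variable {d m : ℕ}

/-- `b'` is the successor of `b` in some direction. -/
def Up (b b' : Cell d m) : Prop :=
  ∃ i, (b' i : ℕ) = b i + 1 ∧ ∀ j, j ≠ i → b' j = b j

instance (b b' : Cell d m) : Decidable (Up b b') := by unfold Up; infer_instance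

/-- Nearest neighbours. -/
def Nb (b b' : Cell d m) : Prop := Up b b' ∨ Up b' b

/-- Sup-distance at most one. -/
def Near (b b' : Cell d m) : Prop := ∀ j, (b j : ℕ) ≤ b' j + 1 ∧ (b' j : ℕ) ≤ b j + 1

instance (b b' : Cell d m) : Decidable (Near b b') := by unfold Near; infer_instance

/-- Edge boundary of a set of cells. -/
def bdry (U : Finset (Cell d m)) : Finset (Cell d m × Cell d m) :=
  Finset.univ.filter fun p => Up p.1 p.2 ∧ ¬ (p.1 ∈ U ↔ p.2 ∈ U)

/-- Dirichlet energy on the edges with no endpoint in `B`. -/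
noncomputable def energy (B : Finset (Cell d m)) (g : Cell d m → ℝ) : ℝ :=
  ∑ p ∈ Finset.univ.filter (fun p : Cell d m × Cell d m => Up p.1 p.2 ∧ p.1 ∉ B ∧ p.2 ∉ B),
    (g p.2 - g p.1) ^ 2

end Grid

/-- `W` contains `b` and every point of `W` is joined to `b` by an `r`-path inside `W`. -/
def Conn {α : Type} (r : α → α → Prop) (W : Finset α) (b : α) : Prop :=
  b ∈ W ∧ ∀ y ∈ W, Relation.ReflTransGen (fun a a' => a ∈ W ∧ a' ∈ W ∧ r a a') b y

end Pool.Agent.Lib.MP_adb013_pr
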