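import Pool.Agent.Lib.MP_adb013_pr.Levels
import Pool.Agent.Lib.MP_adb013_pr.Iso

set_option autoImplicit false
set_option linter.unusedSectionVars false

open MeasureTheory
open scoped ENNReal

namespace Pool.Agent.Lib.MP_adb013_pr

theorem energy_sum_clamp (a b : ℝ) (hab : a ≤ b) (r : ℕ) :
    ∑ j ∈ Finset.range r, max (min (b - j) 1 - max (a - j) 0) 0 ≤ min b r - min a r := by
  induction r with
  | zero =>
    simp only [Finset.range_zero, Finset.sum_empty, Nat.cast_zero, sub_nonneg]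
    exact min_le_min_right _ hab
  | succ r ih =>
    rw [Finset.sum_range_succ]
    push_cast
    have : max (min (b - r) 1 - max (a - r) 0) 0
        ≤ (min b (r + 1) - min a (r + 1)) - (min b r - min a r) := by
      simp only [min_def, max_def]
      split_ifs <;> linarith
    linarith

open Classical in
theorem energy_integrate {ι : Type} (G : Finset ι) (w a b : ι → ℝ) (hw : ∀ p ∈ G, 0 ≤ w p)
    (hab : ∀ p ∈ G, a p ≤ b p) (r : ℕ) (s0 A : ℝ)
    (h : ∀ σ ∈ Set.Ico (0 : ℝ) 1, A ≤ ∑ j ∈ Finset.range r, ∑ p ∈ G,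
      w p * (if a p ≤ s0 + σ + j ∧ s0 + σ + j < b p then 1 else 0)) :
    A ≤ ∑ p ∈ G, w p * (b p - a p) := by
  set f : ℕ → ι → ℝ → ℝ := fun j p =>
    (Set.Ico (a p - s0 - j) (b p - s0 - j)).indicator (fun _ => w p) with hf
  have hint : ∀ j p, IntegrableOn (f j p) (Set.Ico (0 : ℝ) 1) volume := by
    intro j p
    exact (integrableOn_const (by simp)).indicator measurableSet_Ico
  have hval : ∀ (j : ℕ) (p : ι), ∫ σ in Set.Ico (0 : ℝ) 1, f j p σ
      = w p * max (min (b p - s0 - j) 1 - max (a p - s0 - j) 0) 0 := by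
    intro j p
    simp only [hf]
    rw [integral_indicator measurableSet_Ico, Measure.restrict_restrict measurableSet_Ico,
      Set.Ico_inter_Ico, setIntegral_const, Real.volume_real_Ico, smul_eq_mul, mul_comm]
  have h1 : ∫ _σ in Set.Ico (0 : ℝ) 1, A ≤
      ∫ σ in Set.Ico (0 : ℝ) 1, ∑ j ∈ Finset.range r, ∑ p ∈ G, f j p σ := by
    refine setIntegral_mono_on (integrableOn_const (by simp)) ?_ measurableSet_Ico ?_
    · exact integrable_finsetSum _ fun j _ => integrable_finsetSum _ fun p _ => hint j p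
    · intro σ hσ
      refine (h σ hσ).trans (le_of_eq ?_)
      refine Finset.sum_congr rfl fun j _ => Finset.sum_congr rfl fun p _ => ?_
      simp only [hf, Set.indicator, Set.mem_Ico]
      by_cases hc : a p ≤ s0 + σ + j ∧ s0 + σ + j < b p
      · rw [if_pos hc, if_pos ⟨by linarith [hc.1], by linarith [hc.2]⟩, mul_one]
      · rw [if_neg hc, if_neg, mul_zero]
        intro hc'
        exact hc ⟨by linarith [hc'.1], by linarith [hc'.2]⟩
  rw [setIntegral_const, Real.volume_real_Ico, integral_finsetSum _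
    (fun j _ => integrable_finsetSum _ fun p _ => hint j p)] at h1
  simp only [sub_zero, zero_le_one, sup_of_le_left, smul_eq_mul, one_mul] at h1
  refine h1.trans ?_
  have h2 : ∀ j ∈ Finset.range r, ∫ σ in Set.Ico (0 : ℝ) 1, ∑ p ∈ G, f j p σ
      = ∑ p ∈ G, w p * max (min (b p - s0 - j) 1 - max (a p - s0 - j) 0) 0 := by
    intro j _
    rw [integral_finsetSum _ fun p _ => hint j p]
    exact Finset.sum_congr rfl fun p _ => hval j p
  rw [Finset.sum_congr rfl h2, Finset.sum_comm]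
  refine Finset.sum_le_sum fun p hp => ?_
  rw [← Finset.mul_sum]
  refine mul_le_mul_of_nonneg_left ?_ (hw p hp)
  refine (energy_sum_clamp (a p - s0) (b p - s0) (by linarith [hab p hp]) r).trans ?_
  have := hab p hp
  simp only [min_def]
  split_ifs <;> linarith

open Classical in
theorem energy_chain_card {α : Type} [Fintype α] (S : Set ℝ) (U : ℝ → Finset α)
    (hc : ∀ s s', s ∈ S → s' ∈ S → U s ⊆ U s' ∨ U s' ⊆ U s) (M : ℕ) :
    (Finset.univ.filter fun x => ∃ s ∈ S, (U s).card < M ∧ x ∈ U s).card ≤ M := by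
  by_cases hne : ∃ s ∈ S, (U s).card < M
  · have hne' : ((Finset.range M).filter fun n => ∃ s ∈ S, (U s).card = n).Nonempty := by
      obtain ⟨s, hs, hlt⟩ := hne
      exact ⟨(U s).card, Finset.mem_filter.2 ⟨Finset.mem_range.2 hlt, s, hs, rfl⟩⟩
    obtain ⟨n, hn, hmax⟩ := Finset.exists_max_image _ (fun n => n) hne'
    obtain ⟨hnM, s1, hs1, hcard⟩ := Finset.mem_filter.1 hn
    have hsub : (Finset.univ.filter fun x => ∃ s ∈ S, (U s).card < M ∧ x ∈ U s) ⊆ U s1 := by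
      intro x hx
      obtain ⟨s, hs, hlt, hxs⟩ := (Finset.mem_filter.1 hx).2
      rcases hc s s1 hs hs1 with h | h
      · exact h hxs
      · have hle : (U s).card ≤ (U s1).card := by
          rw [hcard]
          exact hmax _ (Finset.mem_filter.2 ⟨Finset.mem_range.2 hlt, s, hs, rfl⟩)
        rw [Finset.eq_of_subset_of_card_le h hle]
        exact hxs
    exact (Finset.card_le_card hsub).trans (hcard ▸ (Finset.mem_range.1 hnM).le)
  · have : (Finset.univ.filter fun x => ∃ s ∈ S, (U s).card < M ∧ x ∈ U s) = ∅ := by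
      refine Finset.filter_eq_empty_iff.2 fun x _ hx => hne ?_
      obtain ⟨s, hs, hlt, _⟩ := hx
      exact ⟨s, hs, hlt⟩
    rw [this]
    exact Nat.zero_le _

theorem energy_class {d r n : ℕ} (hd : 1 ≤ d) (hr : 1 ≤ r) (hn : r ^ d ≤ n) :
    ∃ k, k < n ∧ (2 ^ k * r) ^ d ≤ n ∧ n < (2 ^ (k + 1) * r) ^ d := by
  have hgrow : ∀ k : ℕ, k < (2 ^ k * r) ^ d := by
    intro k
    calc k < 2 ^ k := Nat.lt_two_pow_self
      _ ≤ 2 ^ k * r := Nat.le_mul_of_pos_right _ hr
      _ ≤ (2 ^ k * r) ^ d := Nat.le_self_pow (by omega) _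
  have hex : ∃ k, n < (2 ^ k * r) ^ d := ⟨n, hgrow n⟩
  classical
  have h0 : Nat.find hex ≠ 0 := by
    intro h0
    have := Nat.find_spec hex
    rw [h0] at this
    simp only [pow_zero, one_mul] at this
    omega
  obtain ⟨k, hk⟩ := Nat.exists_eq_succ_of_ne_zero h0
  have h1 := Nat.find_spec hex
  rw [hk] at h1
  have h2 : ¬ n < (2 ^ k * r) ^ d := Nat.find_min hex (by omega)
  exact ⟨k, (hgrow k).trans_le (not_lt.1 h2), not_lt.1 h2, h1⟩

theorem energy_geom {d r : ℕ} (hd : 3 ≤ d) (hr : 1 ≤ r) (K : ℕ) :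
    (∑ k ∈ Finset.range K, (4 * d / ((2 : ℝ) ^ k * r) ^ (d - 1)) ^ 2 *
      (2 * d * ((2 : ℝ) ^ (k + 1) * r) ^ d)) * (r : ℝ) ^ d ≤ 64 * d ^ 3 * 2 ^ d * (r : ℝ) ^ 2 := by
  obtain ⟨e, rfl⟩ : ∃ e, d = e + 3 := ⟨d - 3, by omega⟩
  have hr0 : (0 : ℝ) < r := by exact_mod_cast hr
  have hterm : ∀ k ∈ Finset.range K, (4 * ((e + 3 : ℕ) : ℝ) / ((2 : ℝ) ^ k * r) ^ (e + 3 - 1)) ^ 2 *
      (2 * ((e + 3 : ℕ) : ℝ) * ((2 : ℝ) ^ (k + 1) * r) ^ (e + 3)) * (r : ℝ) ^ (e + 3)
      ≤ (32 * ((e + 3 : ℕ) : ℝ) ^ 3 * 2 ^ (e + 3) * (r : ℝ) ^ 2) * (1 / 2) ^ k := by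
    intro k _
    have he : e + 3 - 1 = e + 2 := by omega
    rw [he]
    set D : ℝ := ((e + 3 : ℕ) : ℝ) with hD
    have hD0 : 0 ≤ D := Nat.cast_nonneg _
    set x : ℝ := (2 : ℝ) ^ k with hx
    have hx1 : 1 ≤ x := one_le_pow₀ (by norm_num)
    have hx0 : 0 < x := by linarith
    have hxe : 1 ≤ x ^ e := one_le_pow₀ hx1
    have h1 : (4 * D / (x * r) ^ (e + 2)) ^ 2 * (2 * D * ((2 : ℝ) ^ (k + 1) * r) ^ (e + 3)) *
        (r : ℝ) ^ (e + 3) = (32 * D ^ 3 * 2 ^ (e + 3) * (r : ℝ) ^ 2) * (1 / x) / x ^ e := by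
      rw [pow_succ (2 : ℝ) k, ← hx]
      field_simp
      ring
    rw [h1, one_div_pow, ← hx]
    exact div_le_self (by positivity) hxe
  rw [Finset.sum_mul]
  refine (Finset.sum_le_sum hterm).trans ?_
  rw [← Finset.mul_sum]
  have hg : ∑ k ∈ Finset.range K, ((1 : ℝ) / 2) ^ k ≤ 2 := sum_geometric_two_le K
  calc _ ≤ (32 * ((e + 3 : ℕ) : ℝ) ^ 3 * 2 ^ (e + 3) * (r : ℝ) ^ 2) * 2 :=
        mul_le_mul_of_nonneg_left hg (by positivity)
    _ = _ := by ring

/-- Co-area lower bound for the energy when most cutsets are good. -/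
theorem energy_lower {d : ℕ} (hd : 3 ≤ d) : ∃ c : ℝ, 0 < c ∧ ∀ (m r : ℕ), 1 ≤ r →
    ∀ (g : Cell d m → ℝ) (B : Finset (Cell d m)) (b : Cell d m) (s0 : ℝ)
      (U : ℝ → Finset (Cell d m)), Cuts g r b s0 U →
      (∀ σ ∈ Set.Ico (0 : ℝ) 1,
        r ≤ 2 * ((Finset.range r).filter fun j : ℕ => GoodCut B (U (s0 + σ + j))).card) →
      c * (r : ℝ) ^ d ≤ energy B g := by
  classical
  have hd0 : (0 : ℝ) < d := by exact_mod_cast (by omega : 0 < d)
  refine ⟨1 / (256 * d ^ 3 * 2 ^ d), by positivity, ?_⟩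
  intro m r hr g B b s0 U hU hgood
  have hr0 : (0 : ℝ) < r := by exact_mod_cast hr
  set S : Set ℝ := Set.Ico s0 (s0 + r) with hS
  set V : ℕ → Finset (Cell d m) := fun k => Finset.univ.filter fun x =>
    ∃ s ∈ S, (U s).card < (2 ^ (k + 1) * r) ^ d ∧ x ∈ U s with hV
  have hVcard : ∀ k, (V k).card ≤ (2 ^ (k + 1) * r) ^ d := fun k =>
    energy_chain_card S U hU.chain _
  set c : ℕ → ℝ := fun k => 4 * d / ((2 : ℝ) ^ k * r) ^ (d - 1) with hc
  have hc0 : ∀ k, 0 ≤ c k := fun k => by simp only [hc]; positivity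
  set G : Finset (Cell d m × Cell d m) :=
    Finset.univ.filter (fun p : Cell d m × Cell d m => Up p.1 p.2 ∧ p.1 ∉ B ∧ p.2 ∉ B) with hG
  set K : ℕ := m ^ d with hK
  set w2 : Cell d m × Cell d m → ℝ := fun p =>
    ∑ k ∈ Finset.range K, if p.1 ∈ V k ∨ p.2 ∈ V k then c k ^ 2 else 0 with hw2
  have hw20 : ∀ p, 0 ≤ w2 p := fun p =>
    Finset.sum_nonneg fun k _ => by split_ifs <;> positivity
  set w : Cell d m × Cell d m → ℝ := fun p => Real.sqrt (w2 p) with hw
  have hw0 : ∀ p, 0 ≤ w p := fun p => Real.sqrt_nonneg _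
  have hwc : ∀ p k, k < K → (p.1 ∈ V k ∨ p.2 ∈ V k) → c k ≤ w p := by
    intro p k hk hp
    refine Real.le_sqrt_of_sq_le ?_
    have := Finset.single_le_sum (s := Finset.range K)
      (f := fun k => if p.1 ∈ V k ∨ p.2 ∈ V k then c k ^ 2 else 0)
      (fun k _ => by split_ifs <;> positivity) (Finset.mem_range.2 hk)
    simp only [if_pos hp] at this
    exact this
  -- one good level
  have hlevel : ∀ s ∈ S, GoodCut B (U s) → (1 : ℝ) ≤ ∑ p ∈ G,
      w p * (if min (g p.1) (g p.2) ≤ s ∧ s < max (g p.1) (g p.2) then 1 else 0) := by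
    intro s hs hgc
    obtain ⟨k, hk, hk1, hk2⟩ := energy_class (by omega : 1 ≤ d) hr (hU.big s hs)
    have hsmall := hU.small s hs
    have hkK : k < K := by omega
    have hiso := iso (by omega : 2 ≤ d) (U s) hsmall
    have h1 : ((2 ^ k * r) ^ (d - 1)) ^ d ≤ (2 * d * (bdry (U s)).card) ^ d := by
      calc ((2 ^ k * r) ^ (d - 1)) ^ d = ((2 ^ k * r) ^ d) ^ (d - 1) := by
            rw [← pow_mul, ← pow_mul, mul_comm (d - 1) d]
        _ ≤ (U s).card ^ (d - 1) := Nat.pow_le_pow_left hk1 _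
        _ ≤ _ := hiso
    have h2 : (2 ^ k * r) ^ (d - 1) ≤ 2 * d * (bdry (U s)).card :=
      (Nat.pow_le_pow_iff_left (by omega)).1 h1
    set F := (bdry (U s)).filter fun p => p.1 ∉ B ∧ p.2 ∉ B with hF
    have h3 : (2 ^ k * r) ^ (d - 1) ≤ 4 * d * F.card := by
      unfold GoodCut at hgc
      calc _ ≤ 2 * d * (bdry (U s)).card := h2
        _ ≤ 2 * d * (2 * F.card) := Nat.mul_le_mul_left _ hgc
        _ = 4 * d * F.card := by ring
    have h3' : ((2 : ℝ) ^ k * r) ^ (d - 1) ≤ 4 * d * F.card := by exact_mod_cast h3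
    have h4 : (1 : ℝ) ≤ F.card * c k := by
      simp only [hc]
      rw [← mul_div_assoc, le_div_iff₀ (by positivity)]
      linarith
    have hFG : F ⊆ G := by
      intro p hp
      obtain ⟨hp1, hp2⟩ := Finset.mem_filter.1 hp
      exact Finset.mem_filter.2 ⟨Finset.mem_univ _, (Finset.mem_filter.1 hp1).2.1, hp2⟩
    calc (1 : ℝ) ≤ F.card * c k := h4
      _ = ∑ _p ∈ F, c k := by rw [Finset.sum_const, nsmul_eq_mul]
      _ ≤ ∑ p ∈ F, w p *
          (if min (g p.1) (g p.2) ≤ s ∧ s < max (g p.1) (g p.2) then 1 else 0) := by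
        refine Finset.sum_le_sum fun p hp => ?_
        have hp1 := (Finset.mem_filter.1 hp).1
        rw [if_pos (hU.cross s hs p hp1), mul_one]
        refine hwc p k hkK ?_
        have hne := (Finset.mem_filter.1 hp1).2.2
        have hor : p.1 ∈ U s ∨ p.2 ∈ U s := by tauto
        rcases hor with h | h
        · exact Or.inl (Finset.mem_filter.2 ⟨Finset.mem_univ _, s, hs, hk2, h⟩)
        · exact Or.inr (Finset.mem_filter.2 ⟨Finset.mem_univ _, s, hs, hk2, h⟩)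
      _ ≤ _ := Finset.sum_le_sum_of_subset_of_nonneg hFG fun p _ _ =>
          mul_nonneg (hw0 p) (by split_ifs <;> norm_num)
  -- integrate over the levels
  have hint : (r : ℝ) / 2 ≤ ∑ p ∈ G, w p * (max (g p.1) (g p.2) - min (g p.1) (g p.2)) := by
    refine energy_integrate G w _ _ (fun p _ => hw0 p) (fun p _ => min_le_max) r s0 _ ?_
    intro σ hσ
    have h1 : (r : ℝ) ≤
        2 * (((Finset.range r).filter fun j : ℕ => GoodCut B (U (s0 + σ + j))).card : ℝ) := by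
      exact_mod_cast hgood σ hσ
    calc (r : ℝ) / 2
        ≤ (((Finset.range r).filter fun j : ℕ => GoodCut B (U (s0 + σ + j))).card : ℝ) := by
          linarith
      _ = ∑ _j ∈ (Finset.range r).filter fun j : ℕ => GoodCut B (U (s0 + σ + j)), (1 : ℝ) := by
          rw [Finset.sum_const, nsmul_eq_mul, mul_one]
      _ ≤ ∑ j ∈ (Finset.range r).filter fun j : ℕ => GoodCut B (U (s0 + σ + j)), ∑ p ∈ G,
          w p * (if min (g p.1) (g p.2) ≤ s0 + σ + j ∧ s0 + σ + j < max (g p.1) (g p.2)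
            then 1 else 0) := by
          refine Finset.sum_le_sum fun j hj => ?_
          obtain ⟨hj1, hj2⟩ := Finset.mem_filter.1 hj
          have hj3 : (j : ℝ) + 1 ≤ r := by exact_mod_cast Finset.mem_range.1 hj1
          have hj4 : (0 : ℝ) ≤ j := Nat.cast_nonneg _
          exact hlevel _ ⟨by linarith [hσ.1], by linarith [hσ.2]⟩ hj2
      _ ≤ _ := Finset.sum_le_sum_of_subset_of_nonneg (Finset.filter_subset _ _) fun j _ _ =>
          Finset.sum_nonneg fun p _ => mul_nonneg (hw0 p) (by split_ifs <;> norm_num)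
  -- Cauchy-Schwarz
  have hcs := Finset.sum_mul_sq_le_sq_mul_sq G w
    (fun p => max (g p.1) (g p.2) - min (g p.1) (g p.2))
  have hen : ∑ p ∈ G, (max (g p.1) (g p.2) - min (g p.1) (g p.2)) ^ 2 = energy B g := by
    unfold energy
    refine Finset.sum_congr rfl fun p _ => ?_
    rw [max_sub_min_eq_abs, sq_abs]
  have hen0 : 0 ≤ energy B g := hen ▸ Finset.sum_nonneg fun p _ => sq_nonneg _
  have hsw : ∑ p ∈ G, w p ^ 2 ≤ ∑ k ∈ Finset.range K,
      c k ^ 2 * (2 * d * ((2 : ℝ) ^ (k + 1) * r) ^ d) := by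
    have : ∑ p ∈ G, w p ^ 2 = ∑ p ∈ G, w2 p :=
      Finset.sum_congr rfl fun p _ => Real.sq_sqrt (hw20 p)
    rw [this]
    simp only [hw2]
    rw [Finset.sum_comm]
    refine Finset.sum_le_sum fun k _ => ?_
    rw [← Finset.sum_filter, Finset.sum_const, nsmul_eq_mul, mul_comm]
    refine mul_le_mul_of_nonneg_left ?_ (sq_nonneg _)
    have h1 : (G.filter fun p => p.1 ∈ V k ∨ p.2 ∈ V k).card ≤ 2 * d * (2 ^ (k + 1) * r) ^ d := by
      refine le_trans (Finset.card_le_card ?_)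
        ((card_edges_le (V k)).trans (Nat.mul_le_mul_left _ (hVcard k)))
      intro p hp
      obtain ⟨hp1, hp2⟩ := Finset.mem_filter.1 hp
      exact Finset.mem_filter.2 ⟨Finset.mem_univ _, (Finset.mem_filter.1 hp1).2.1, hp2⟩
    exact_mod_cast h1
  have hgeom := energy_geom hd hr K
  set W := ∑ k ∈ Finset.range K, c k ^ 2 * (2 * d * ((2 : ℝ) ^ (k + 1) * r) ^ d) with hW
  have hgeom' : W * (r : ℝ) ^ d ≤ 64 * d ^ 3 * 2 ^ d * (r : ℝ) ^ 2 := hgeom
  have h5 : ((r : ℝ) / 2) ^ 2 ≤ W * energy B g := by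
    calc ((r : ℝ) / 2) ^ 2
        ≤ (∑ p ∈ G, w p * (max (g p.1) (g p.2) - min (g p.1) (g p.2))) ^ 2 :=
          pow_le_pow_left₀ (by positivity) hint 2
      _ ≤ (∑ p ∈ G, w p ^ 2) * energy B g := hen ▸ hcs
      _ ≤ W * energy B g := mul_le_mul_of_nonneg_right hsw hen0
  have h6 : ((r : ℝ) / 2) ^ 2 * (r : ℝ) ^ d
      ≤ (64 * d ^ 3 * 2 ^ d * (r : ℝ) ^ 2) * energy B g := by
    calc ((r : ℝ) / 2) ^ 2 * (r : ℝ) ^ d ≤ (W * energy B g) * (r : ℝ) ^ d :=
          mul_le_mul_of_nonneg_right h5 (by positivity)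
      _ = (W * (r : ℝ) ^ d) * energy B g := by ring
      _ ≤ _ := mul_le_mul_of_nonneg_right hgeom' hen0
  rw [div_mul_eq_mul_div, one_mul, div_le_iff₀ (by positivity)]
  have h7 : (r : ℝ) ^ 2 * (r : ℝ) ^ d
      ≤ (r : ℝ) ^ 2 * (energy B g * (256 * d ^ 3 * 2 ^ d)) := by nlinarith
  exact le_of_mul_le_mul_left h7 (by positivity)

end Pool.Agent.Lib.MP_adb013_pr
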