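import Pool.Agent.Lib.MP_adb013_pr.Defs

set_option autoImplicit false
set_option linter.unusedSectionVars false

open MeasureTheory
open scoped ENNReal

namespace Pool.Agent.Lib.MP_adb013_pr

variable {d m : ℕ}

theorem Nb.symm {b b' : Cell d m} (h : Nb b b') : Nb b' b := Or.symm h

theorem Near.refl (b : Cell d m) : Near b b := fun _ => ⟨Nat.le_succ _, Nat.le_succ _⟩

theorem Near.symm {b b' : Cell d m} (h : Near b b') : Near b' b := fun j => (h j).symm

theorem Up.near {b b' : Cell d m} (h : Up b b') : Near b b' := by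
  obtain ⟨i, hi, hj⟩ := h
  intro j
  by_cases e : j = i
  · subst e; omega
  · rw [hj j e]; omega

theorem card_up_le (b : Cell d m) : (Finset.univ.filter fun b' => Up b b').card ≤ d := by
  classical
  have key : ∀ b' : Cell d m, Up b b' → ∃ i, (b' i : ℕ) = b i + 1 ∧ ∀ j, j ≠ i → b' j = b j :=
    fun _ h => h
  rcases Nat.eq_zero_or_pos d with hd | hd
  · subst hd
    simp [Up]
  have : Nonempty (Fin d) := ⟨⟨0, hd⟩⟩
  choose! f hf1 hf2 using key
  calc _ ≤ (Finset.univ : Finset (Fin d)).card := by
        refine Finset.card_le_card_of_injOn f (fun _ _ => Finset.mem_coe.2 (Finset.mem_univ _)) ?_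
        intro x hx y hy hxy
        have hx' : Up b x := by simpa using hx
        have hy' : Up b y := by simpa using hy
        funext j
        by_cases e : j = f x
        · apply Fin.ext
          rw [e, hf1 x hx', hxy, hf1 y hy']
        · rw [hf2 x hx' j e, hf2 y hy' j (hxy ▸ e)]
    _ = d := by simp

theorem card_down_le (b : Cell d m) : (Finset.univ.filter fun b' => Up b' b).card ≤ d := by
  classical
  have key : ∀ b' : Cell d m, Up b' b → ∃ i, (b i : ℕ) = b' i + 1 ∧ ∀ j, j ≠ i → b j = b' j :=
    fun _ h => h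
  rcases Nat.eq_zero_or_pos d with hd | hd
  · subst hd
    simp [Up]
  have : Nonempty (Fin d) := ⟨⟨0, hd⟩⟩
  choose! f hf1 hf2 using key
  calc _ ≤ (Finset.univ : Finset (Fin d)).card := by
        refine Finset.card_le_card_of_injOn f (fun _ _ => Finset.mem_coe.2 (Finset.mem_univ _)) ?_
        intro x hx y hy hxy
        have hx' : Up x b := by simpa using hx
        have hy' : Up y b := by simpa using hy
        funext j
        by_cases e : j = f x
        · apply Fin.ext
          have h1 := hf1 x hx'
          have h2 := hf1 y hy'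
          rw [← hxy] at h2
          rw [e]
          omega
        · rw [← hf2 x hx' j e, ← hf2 y hy' j (hxy ▸ e)]
    _ = d := by simp

/-- At most `2 d |S|` edges meet `S`. -/
theorem card_edges_le (S : Finset (Cell d m)) :
    (Finset.univ.filter fun p : Cell d m × Cell d m =>
      Up p.1 p.2 ∧ (p.1 ∈ S ∨ p.2 ∈ S)).card ≤ 2 * d * S.card := by
  classical
  have hsub : (Finset.univ.filter fun p : Cell d m × Cell d m =>
      Up p.1 p.2 ∧ (p.1 ∈ S ∨ p.2 ∈ S)) ⊆
      S.biUnion (fun b => ((Finset.univ.filter fun b' => Up b b').image fun b' => (b, b')) ∪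
        ((Finset.univ.filter fun b' => Up b' b).image fun b' => (b', b))) := by
    intro p hp
    simp only [Finset.mem_filter, Finset.mem_univ, true_and] at hp
    simp only [Finset.mem_biUnion, Finset.mem_union, Finset.mem_image, Finset.mem_filter,
      Finset.mem_univ, true_and]
    rcases hp.2 with h | h
    · exact ⟨p.1, h, Or.inl ⟨p.2, hp.1, rfl⟩⟩
    · exact ⟨p.2, h, Or.inr ⟨p.1, hp.1, rfl⟩⟩
  refine (Finset.card_le_card hsub).trans ?_
  rw [mul_comm]
  apply Finset.card_biUnion_le_card_mul
  intro b _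
  refine (Finset.card_union_le _ _).trans ?_
  have h1 := (Finset.card_image_le (s := Finset.univ.filter fun b' => Up b b')
    (f := fun b' => (b, b'))).trans (card_up_le b)
  have h2 := (Finset.card_image_le (s := Finset.univ.filter fun b' => Up b' b)
    (f := fun b' => (b', b))).trans (card_down_le b)
  omega

theorem card_near_le (b : Cell d m) : (Finset.univ.filter fun b' => Near b b').card ≤ 3 ^ d := by
  classical
  calc _ ≤ (Finset.univ : Finset (Fin d → Fin 3)).card := by
        refine Finset.card_le_card_of_injOn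
          (fun b' j => ⟨((b' j : ℕ) + 1 - b j) % 3, Nat.mod_lt _ (by norm_num)⟩)
          (fun _ _ => Finset.mem_coe.2 (Finset.mem_univ _)) ?_
        intro x hx y hy hxy
        have hx' : Near b x := by simpa using hx
        have hy' : Near b y := by simpa using hy
        funext j
        have h := congrArg Fin.val (congrFun hxy j)
        simp only at h
        have h1 := hx' j
        have h2 := hy' j
        apply Fin.ext
        omega
    _ = 3 ^ d := by simp

theorem bdry_compl (U : Finset (Cell d m)) : bdry Uᶜ = bdry U := by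
  unfold bdry
  refine Finset.filter_congr fun p _ => ?_
  simp only [Finset.mem_compl]
  tauto

theorem gridMono {α : Type} {r r' : α → α → Prop} {a b : α}
    (h : Relation.ReflTransGen r a b) (hr : ∀ x y, r x y → r' x y) :
    Relation.ReflTransGen r' a b := by
  induction h with
  | refl => exact Relation.ReflTransGen.refl
  | tail _ h ih => exact ih.tail (hr _ _ h)

theorem Conn.mono_rel {α : Type} {r r' : α → α → Prop} (h : ∀ a a', r a a' → r' a a')
    {W : Finset α} {b : α} (hW : Conn r W b) : Conn r' W b := by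
  exact ⟨hW.1, fun y hy => gridMono (hW.2 y hy) fun a a' ha => ⟨ha.1, ha.2.1, h a a' ha.2.2⟩⟩

/-- Change of root. -/
theorem Conn.root {α : Type} {r : α → α → Prop} (hr : ∀ a a', r a a' → r a' a)
    {W : Finset α} {b b' : α} (hW : Conn r W b) (hb' : b' ∈ W) : Conn r W b' := by
  refine ⟨hb', fun y hy => ?_⟩
  have hsymm : ∀ x ∈ W, Relation.ReflTransGen (fun a a' => a ∈ W ∧ a' ∈ W ∧ r a a') x b := by
    intro x hx
    have := hW.2 x hx
    clear hx
    induction this with
    | refl => exact Relation.ReflTransGen.refl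
    | tail _ h ih => exact Relation.ReflTransGen.head ⟨h.2.1, h.1, hr _ _ h.2.2⟩ ih
  exact (hsymm b' hb').trans (hW.2 y hy)

theorem Conn.union {α : Type} [DecidableEq α] {r : α → α → Prop} {W W' : Finset α} {b b' : α}
    (hW : Conn r W b) (hW' : Conn r W' b') (hb' : b' ∈ W) : Conn r (W ∪ W') b := by
  refine ⟨Finset.mem_union_left _ hW.1, fun y hy => ?_⟩
  have m1 : ∀ x ∈ W, Relation.ReflTransGen (fun a a' => a ∈ W ∪ W' ∧ a' ∈ W ∪ W' ∧ r a a') b x :=
    fun x hx => gridMono (hW.2 x hx) fun a a' ha =>
      ⟨Finset.mem_union_left _ ha.1, Finset.mem_union_left _ ha.2.1, ha.2.2⟩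
  rcases Finset.mem_union.1 hy with h | h
  · exact m1 y h
  · exact (m1 b' hb').trans (gridMono (hW'.2 y h) fun a a' ha =>
      ⟨Finset.mem_union_right _ ha.1, Finset.mem_union_right _ ha.2.1, ha.2.2⟩)

theorem Conn.biUnion {α ι : Type} [DecidableEq α] {r : α → α → Prop} (J : Finset ι)
    (hJ : J.Nonempty) (W : ι → Finset α) {b : α} (hW : ∀ j ∈ J, Conn r (W j) b) :
    Conn r (J.biUnion W) b := by
  obtain ⟨j0, hj0⟩ := hJ
  refine ⟨Finset.mem_biUnion.2 ⟨j0, hj0, (hW j0 hj0).1⟩, fun y hy => ?_⟩
  obtain ⟨j, hj, hy⟩ := Finset.mem_biUnion.1 hy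
  exact gridMono ((hW j hj).2 y hy) fun a a' ha =>
    ⟨Finset.mem_biUnion.2 ⟨j, hj, ha.1⟩, Finset.mem_biUnion.2 ⟨j, hj, ha.2.1⟩, ha.2.2⟩

/-- Adding points adjacent to a connected set. -/
theorem Conn.union_adj {α : Type} [DecidableEq α] {r : α → α → Prop} {W A : Finset α} {b : α}
    (hW : Conn r W b) (hA : ∀ a ∈ A, a ∈ W ∨ ∃ w ∈ W, r w a) : Conn r (W ∪ A) b := by
  refine ⟨Finset.mem_union_left _ hW.1, fun y hy => ?_⟩
  have m1 : ∀ x ∈ W, Relation.ReflTransGen (fun a a' => a ∈ W ∪ A ∧ a' ∈ W ∪ A ∧ r a a') b x :=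
    fun x hx => gridMono (hW.2 x hx) fun a a' ha =>
      ⟨Finset.mem_union_left _ ha.1, Finset.mem_union_left _ ha.2.1, ha.2.2⟩
  rcases Finset.mem_union.1 hy with h | h
  · exact m1 y h
  · rcases hA y h with h' | ⟨w, hw, hwy⟩
    · exact m1 y h'
    · exact (m1 w hw).tail ⟨Finset.mem_union_left _ hw, hy, hwy⟩

/-- A property preserved along the edges inside a connected set holds on the whole set. -/
theorem Conn.induction {α : Type} {r : α → α → Prop} {W : Finset α} {b : α} (hW : Conn r W b)
    (P : α → Prop) (hb : P b) (hstep : ∀ a ∈ W, ∀ a' ∈ W, r a a' → P a → P a') :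
    ∀ y ∈ W, P y := by
  intro y hy
  have := hW.2 y hy
  clear hy
  induction this with
  | refl => exact hb
  | tail _ h ih => exact hstep _ h.1 _ h.2.1 h.2.2 ih

/-- The `l1` distance on the grid. -/
def gridDist (x y : Cell d m) : ℕ := ∑ j, (((x j : ℕ) - y j) + ((y j : ℕ) - x j))

theorem grid_step {x y : Cell d m} (h : x ≠ y) :
    ∃ z : Cell d m, Nb z y ∧ gridDist x z + 1 = gridDist x y ∧
      ∀ j, min (x j : ℕ) (y j) ≤ z j ∧ (z j : ℕ) ≤ max (x j : ℕ) (y j) := by
  classical
  obtain ⟨i, hi⟩ := Function.ne_iff.1 h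
  have hi' : (x i : ℕ) ≠ y i := fun e => hi (Fin.ext e)
  have hx := (x i).2
  have hy := (y i).2
  have key : ∀ v : Fin m, ((x i : ℕ) - v) + ((v : ℕ) - x i) + 1 = ((x i : ℕ) - y i) + (y i - x i) →
      gridDist x (Function.update y i v) + 1 = gridDist x y := by
    intro v hv
    unfold gridDist
    rw [← Finset.add_sum_erase _ _ (Finset.mem_univ i), ← Finset.add_sum_erase _ _ (Finset.mem_univ i)]
    have : ∑ j ∈ Finset.univ.erase i, (((x j : ℕ) - Function.update y i v j) +
        ((Function.update y i v j : ℕ) - x j)) =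
        ∑ j ∈ Finset.univ.erase i, (((x j : ℕ) - y j) + ((y j : ℕ) - x j)) :=
      Finset.sum_congr rfl fun j hj => by rw [Function.update_of_ne (Finset.ne_of_mem_erase hj)]
    rw [this, Function.update_self]
    omega
  rcases lt_or_gt_of_ne hi' with hlt | hlt
  · refine ⟨Function.update y i ⟨y i - 1, by omega⟩, Or.inl ⟨i, ?_, ?_⟩, key _ ?_, ?_⟩
    · simp only [Function.update_self]; omega
    · intro j hj; rw [Function.update_of_ne hj]
    · simp only; omega
    · intro j
      by_cases e : j = i
      · subst e; simp only [Function.update_self]; omega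
      · rw [Function.update_of_ne e]; omega
  · refine ⟨Function.update y i ⟨y i + 1, by omega⟩, Or.inr ⟨i, ?_, ?_⟩, key _ ?_, ?_⟩
    · simp only [Function.update_self]
    · intro j hj; rw [Function.update_of_ne hj]
    · simp only; omega
    · intro j
      by_cases e : j = i
      · subst e; simp only [Function.update_self]; omega
      · rw [Function.update_of_ne e]; omega

theorem grid_conn_box (lo hi : Fin d → ℕ) (Q : Finset (Cell d m))
    (hQ : ∀ y, y ∈ Q ↔ ∀ j, lo j ≤ y j ∧ (y j : ℕ) ≤ hi j) {b : Cell d m} (hb : b ∈ Q) :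
    Conn Nb Q b := by
  refine ⟨hb, ?_⟩
  have key : ∀ n, ∀ y ∈ Q, gridDist b y = n →
      Relation.ReflTransGen (fun a a' => a ∈ Q ∧ a' ∈ Q ∧ Nb a a') b y := by
    intro n
    induction n with
    | zero =>
      intro y _ h
      by_cases e : b = y
      · subst e; exact Relation.ReflTransGen.refl
      · obtain ⟨z, -, h2, -⟩ := grid_step e
        omega
    | succ n ih =>
      intro y hy h
      by_cases e : b = y
      · subst e; exact Relation.ReflTransGen.refl
      · obtain ⟨z, h1, h2, h3⟩ := grid_step e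
        have hz : z ∈ Q := (hQ z).2 fun j => by
          have := h3 j
          have := (hQ b).1 hb j
          have := (hQ y).1 hy j
          omega
        exact (ih z hz (by omega)).tail ⟨hz, hy, h1⟩
  exact fun y hy => key _ y hy rfl

/-- A subcube of side `r` around `b`. -/
theorem exists_subcube {r : ℕ} (hr : 1 ≤ r) (hrm : r ≤ m) (b : Cell d m) :
    ∃ Q : Finset (Cell d m), Conn Nb Q b ∧ Q.card = r ^ d ∧
      ∀ y ∈ Q, ∀ j, (y j : ℕ) < b j + r ∧ (b j : ℕ) < y j + r := by
  classical
  let lo : Fin d → ℕ := fun j => min (b j) (m - r)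
  have hlo : ∀ j, lo j + r ≤ m := fun j => by simp only [lo]; omega
  let f : (Fin d → Fin r) → Cell d m := fun c j => ⟨lo j + c j, by
    have := hlo j
    have := (c j).2
    omega⟩
  have hf : Function.Injective f := by
    intro c c' h
    funext j
    have := congrArg Fin.val (congrFun h j)
    simp only [f] at this
    apply Fin.ext
    omega
  have hQ : ∀ y, y ∈ Finset.univ.image f ↔ ∀ j, lo j ≤ y j ∧ (y j : ℕ) ≤ lo j + r - 1 := by
    intro y
    simp only [Finset.mem_image, Finset.mem_univ, true_and]
    constructor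
    · rintro ⟨c, rfl⟩ j
      have := (c j).2
      simp only [f]
      omega
    · intro h
      refine ⟨fun j => ⟨y j - lo j, by have := h j; omega⟩, ?_⟩
      funext j
      apply Fin.ext
      have := h j
      simp only [f]
      omega
  refine ⟨Finset.univ.image f, grid_conn_box lo _ _ hQ ((hQ b).2 fun j => ?_), ?_, ?_⟩
  · have := (b j).2
    simp only [lo]
    omega
  · rw [Finset.card_image_of_injective _ hf]
    simp
  · intro y hy j
    have h1 := (hQ y).1 hy j
    have := (b j).2
    simp only [lo] at h1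
    omega

theorem conn_univ (b : Cell d m) : Conn Nb (Finset.univ : Finset (Cell d m)) b := by
  exact grid_conn_box (fun _ => 0) (fun _ => m) _
    (fun y => by simp) (Finset.mem_univ b)

theorem grid_lip {g : Cell d m → ℝ} (hg : ∀ b b', Up b b' → |g b' - g b| ≤ 1) (x y : Cell d m) :
    |g x - g y| ≤ ∑ j, |((x j : ℕ) : ℝ) - ((y j : ℕ) : ℝ)| := by
  have key : ∀ n, ∀ y, gridDist x y = n → |g x - g y| ≤ n := by
    intro n
    induction n with
    | zero =>
      intro y h
      by_cases e : x = y
      · subst e; simp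
      · obtain ⟨z, -, h2, -⟩ := grid_step e
        omega
    | succ n ih =>
      intro y h
      by_cases e : x = y
      · subst e; simp; positivity
      · obtain ⟨z, h1, h2, -⟩ := grid_step e
        have h3 := ih z (by omega)
        have h4 : |g z - g y| ≤ 1 := by
          rcases h1 with h1 | h1
          · rw [abs_sub_comm]; exact hg _ _ h1
          · exact hg _ _ h1
        have := abs_sub_le (g x) (g z) (g y)
        push_cast
        linarith
  refine (key _ y rfl).trans (le_of_eq ?_)
  unfold gridDist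
  push_cast
  refine Finset.sum_congr rfl fun j _ => ?_
  rcases le_total (x j : ℕ) (y j) with h | h
  · have h' : ((x j : ℕ) : ℝ) ≤ ((y j : ℕ) : ℝ) := by exact_mod_cast h
    rw [Nat.sub_eq_zero_of_le h, Nat.cast_sub h, abs_of_nonpos (by linarith)]
    simp
  · have h' : ((y j : ℕ) : ℝ) ≤ ((x j : ℕ) : ℝ) := by exact_mod_cast h
    rw [Nat.sub_eq_zero_of_le h, Nat.cast_sub h, abs_of_nonneg (by linarith)]
    simp

theorem exists_near_path (ρ : ℕ) (x y : Cell d m)
    (h : ∀ j, (x j : ℕ) ≤ y j + ρ ∧ (y j : ℕ) ≤ x j + ρ) :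
    ∃ W : Finset (Cell d m), Conn Near W x ∧ y ∈ W ∧ W.card ≤ ρ + 1 := by
  classical
  induction ρ generalizing y with
  | zero =>
    have : y = x := funext fun j => Fin.ext (by have := h j; omega)
    subst this
    exact ⟨{y}, ⟨by simp, fun z hz => by
      rw [Finset.mem_singleton.1 hz]⟩, by simp, by simp⟩
  | succ ρ ih =>
    let z : Cell d m := fun j => ⟨max (x j - ρ) (min (y j) (x j + ρ)), by
      have := (x j).2
      have := (y j).2
      omega⟩
    obtain ⟨W, h1, h2, h3⟩ := ih z (fun j => by simp only [z]; omega)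
    refine ⟨W ∪ {y}, h1.union_adj fun a ha => Or.inr ⟨z, h2, ?_⟩, by simp, ?_⟩
    · rw [Finset.mem_singleton.1 ha]
      intro j
      have := h j
      simp only [z]
      omega
    · refine (Finset.card_union_le _ _).trans ?_
      simp only [Finset.card_singleton]
      omega

end Pool.Agent.Lib.MP_adb013_pr
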