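import Pool.Agent.Lib.MP_adb013_pr.Mu

set_option autoImplicit false
set_option linter.unusedSectionVars false

open MeasureTheory
open scoped ENNReal

namespace Pool.Agent.Lib.MP_adb013_pr

variable {d N m : ℕ}

theorem TAdj.symm {x y : T d N} (h : TAdj x y) : TAdj y x := by
  obtain ⟨i, h | h⟩ := h
  · exact ⟨i, Or.inr h⟩
  · exact ⟨i, Or.inl h⟩

theorem tadj_irrefl (hN : 2 ≤ N) (x : T d N) : ¬ TAdj x x := by
  rintro ⟨i, h⟩
  have h' : x = x + ev i := by rcases h with h | h <;> exact h
  have h1 : (ev i : T d N) = 0 := by simpa using h'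
  have h2 : (ev i : T d N) i = 0 := by rw [h1]; rfl
  have : Fact (1 < N) := ⟨hN⟩
  simp [ev] at h2

theorem lip_iff_ev (ψ : T d N → ℝ) :
    Lip TAdj ψ ↔ ∀ (x : T d N) (i : Fin d), |ψ (x + ev i) - ψ x| ≤ 1 := by
  constructor
  · intro h x i
    exact h _ _ ⟨i, Or.inr rfl⟩
  · rintro h x y ⟨i, rfl | rfl⟩
    · rw [abs_sub_comm]; exact h x i
    · exact h y i

theorem lip_straight {ψ : T d N → ℝ} (h : Lip TAdj ψ) (x : T d N) (j : Fin d) (k : ℕ) :
    |ψ (x + (k : ZMod N) • ev j) - ψ x| ≤ k := by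
  induction k with
  | zero => simp
  | succ k ih =>
    have h1 := (lip_iff_ev ψ).1 h (x + (k : ZMod N) • ev j) j
    have e : x + ((k + 1 : ℕ) : ZMod N) • ev j = x + (k : ZMod N) • ev j + ev j := by
      rw [Nat.cast_succ, add_smul, one_smul, add_assoc]
    rw [e, Nat.cast_succ]
    have h2 := abs_sub_le (ψ (x + (k : ZMod N) • ev j + ev j)) (ψ (x + (k : ZMod N) • ev j)) (ψ x)
    linarith

variable [NeZero N]

theorem val_add_ev (x : T d N) (j k : Fin d) (h : (x j).val + 1 < N) :
    ((x + ev j : T d N) k).val = (x k).val + if k = j then 1 else 0 := by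
  by_cases hk : k = j
  · subst hk
    have : Fact (1 < N) := ⟨by omega⟩
    have e : (x + ev k : T d N) k = x k + 1 := by simp [ev]
    rw [e, if_pos rfl, ZMod.val_add_of_lt (by rw [ZMod.val_one]; exact h), ZMod.val_one]
  · have e : (x + ev j : T d N) k = x k := by simp [ev, hk]
    rw [e, if_neg hk, add_zero]

theorem val_sub_ev (x : T d N) (j k : Fin d) (h : 0 < (x j).val) :
    ((x - ev j : T d N) k).val + (if k = j then 1 else 0) = (x k).val := by
  by_cases hk : k = j
  · subst hk
    have hlt := ZMod.val_lt (x k)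
    have : Fact (1 < N) := ⟨by omega⟩
    have e : (x - ev k : T d N) k = x k - 1 := by simp [ev]
    rw [e, if_pos rfl, ZMod.val_sub (by rw [ZMod.val_one]; exact h), ZMod.val_one]
    omega
  · have e : (x - ev j : T d N) k = x k := by simp [ev, hk]
    rw [e, if_neg hk, add_zero]

/-- A function with slope at most `lam` on the edges of a coordinate box `[lo, hi]`
is `lam`-Lipschitz for the `ℓ¹` distance of the coordinates on that box. -/
theorem lip_box (lo hi : Fin d → ℕ) (lam : ℝ) (ψ : T d N → ℝ)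
    (h : ∀ (x : T d N) (j : Fin d), (∀ k, lo k ≤ (x k).val ∧ (x k).val ≤ hi k) →
      (x j).val + 1 ≤ hi j → (x j).val + 1 < N → |ψ (x + ev j) - ψ x| ≤ lam)
    (x y : T d N) (hx : ∀ k, lo k ≤ (x k).val ∧ (x k).val ≤ hi k)
    (hy : ∀ k, lo k ≤ (y k).val ∧ (y k).val ≤ hi k) :
    |ψ x - ψ y| ≤ lam * ∑ k, |((x k).val : ℝ) - ((y k).val : ℝ)| := by
  have key : ∀ (n : ℕ) (x y : T d N), (∀ k, lo k ≤ (x k).val ∧ (x k).val ≤ hi k) →
      (∀ k, lo k ≤ (y k).val ∧ (y k).val ≤ hi k) →
      ∑ k, |((x k).val : ℝ) - ((y k).val : ℝ)| = n → |ψ x - ψ y| ≤ lam * n := by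
    intro n
    induction n with
    | zero =>
      intro x y _ _ hs
      have hxy : x = y := by
        funext k
        have h0 := (Finset.sum_eq_zero_iff_of_nonneg (fun k _ => abs_nonneg
          (((x k).val : ℝ) - ((y k).val : ℝ)))).1 (by simpa using hs) k (Finset.mem_univ k)
        have h1 : ((x k).val : ℝ) = ((y k).val : ℝ) := by
          have := abs_eq_zero.1 h0
          linarith
        exact ZMod.val_injective N (by exact_mod_cast h1)
      subst hxy
      simp
    | succ n ih =>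
      have step : ∀ (x y : T d N), (∀ k, lo k ≤ (x k).val ∧ (x k).val ≤ hi k) →
          (∀ k, lo k ≤ (y k).val ∧ (y k).val ≤ hi k) →
          ∑ k, |((x k).val : ℝ) - ((y k).val : ℝ)| = ((n + 1 : ℕ) : ℝ) →
          ∀ j, (x j).val < (y j).val → |ψ x - ψ y| ≤ lam * ((n + 1 : ℕ) : ℝ) := by
        intro x y hx hy hs j hj
        have hyN := ZMod.val_lt (y j)
        have hj1 : (x j).val + 1 ≤ hi j := le_trans hj (hy j).2
        have hj2 : (x j).val + 1 < N := by omega
        have h1 := h x j hx hj1 hj2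
        have hx' : ∀ k, lo k ≤ ((x + ev j : T d N) k).val ∧ ((x + ev j : T d N) k).val ≤ hi k := by
          intro k
          rw [val_add_ev x j k hj2]
          by_cases hk : k = j
          · subst hk
            rw [if_pos rfl]
            exact ⟨le_trans (hx k).1 (Nat.le_succ _), hj1⟩
          · rw [if_neg hk, add_zero]
            exact hx k
        have hs' : ∑ k, |((((x + ev j : T d N) k).val : ℕ) : ℝ) - ((y k).val : ℝ)| = n := by
          have e1 : ∀ k, |((x k).val : ℝ) - ((y k).val : ℝ)| =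
              |((((x + ev j : T d N) k).val : ℕ) : ℝ) - ((y k).val : ℝ)| +
                if k = j then (1 : ℝ) else 0 := by
            intro k
            rw [val_add_ev x j k hj2]
            by_cases hk : k = j
            · subst hk
              have hr : ((x k).val : ℝ) + 1 ≤ ((y k).val : ℝ) := by exact_mod_cast hj
              rw [if_pos rfl, if_pos rfl, Nat.cast_add, Nat.cast_one, abs_of_nonpos (by linarith),
                abs_of_nonpos (by linarith)]
              ring
            · rw [if_neg hk, if_neg hk, add_zero, add_zero]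
          rw [Finset.sum_congr rfl fun k _ => e1 k, Finset.sum_add_distrib] at hs
          simp only [Finset.sum_ite_eq', Finset.mem_univ, if_true, Nat.cast_succ] at hs
          linarith
        have h2 := ih (x + ev j) y hx' hy hs'
        have h3 := abs_sub_le (ψ x) (ψ (x + ev j)) (ψ y)
        rw [abs_sub_comm] at h1
        rw [Nat.cast_succ]
        linarith
      intro x y hx hy hs
      have hne : ∃ j, (x j).val ≠ (y j).val := by
        by_contra hcon
        push Not at hcon
        have h0 : ∑ k, |((x k).val : ℝ) - ((y k).val : ℝ)| = 0 :=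
          Finset.sum_eq_zero fun k _ => by rw [hcon k, sub_self, abs_zero]
        rw [h0] at hs
        have : (0 : ℝ) < ((n + 1 : ℕ) : ℝ) := by positivity
        linarith
      obtain ⟨j, hj⟩ := hne
      rcases lt_or_gt_of_ne hj with hj | hj
      · exact step x y hx hy hs j hj
      · rw [abs_sub_comm]
        refine step y x hy hx ?_ j hj
        rw [← hs]
        exact Finset.sum_congr rfl fun k _ => abs_sub_comm _ _
  have e : ∑ k, |((x k).val : ℝ) - ((y k).val : ℝ)| =
      ((∑ k, (((x k).val : ℤ) - ((y k).val : ℤ)).natAbs : ℕ) : ℝ) := by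
    rw [Nat.cast_sum]
    refine Finset.sum_congr rfl fun k _ => ?_
    rw [Nat.cast_natAbs, Int.cast_abs, Int.cast_sub, Int.cast_natCast, Int.cast_natCast]
  rw [e]
  exact key _ x y hx hy e

theorem lip_dist {ψ : T d N → ℝ} (h : Lip TAdj ψ) (x y : T d N) :
    |ψ x - ψ y| ≤ ∑ k, |((x k).val : ℝ) - ((y k).val : ℝ)| := by
  have h1 := lip_box (fun _ => 0) (fun _ => N) 1 ψ
    (fun x j _ _ _ => (lip_iff_ev ψ).1 h x j) x y
    (fun k => ⟨Nat.zero_le _, (ZMod.val_lt _).le⟩) (fun k => ⟨Nat.zero_le _, (ZMod.val_lt _).le⟩)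
  rwa [one_mul] at h1

theorem mu_univ_ne_top : mu (TAdj (d := d) (N := N)) 0 Set.univ ≠ ⊤ := by
  have hsub : {ψ : T d N → ℝ | Pinned TAdj 0 ψ} ⊆ Metric.closedBall 0 (1 + d * N) := by
    rintro ψ ⟨h0, h1, hl⟩
    rw [mem_closedBall_zero_iff, pi_norm_le_iff_of_nonneg (by positivity)]
    intro x
    have h2 := lip_dist hl x 0
    have h3 : ∑ k, |((x k).val : ℝ) - (((0 : T d N) k).val : ℝ)| ≤ ∑ _k : Fin d, (N : ℝ) := by
      refine Finset.sum_le_sum fun k _ => ?_
      have h4 : ((x k).val : ℝ) ≤ N := by exact_mod_cast (ZMod.val_lt (x k)).le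
      rw [Pi.zero_apply, ZMod.val_zero, Nat.cast_zero, sub_zero, abs_of_nonneg (Nat.cast_nonneg _)]
      exact h4
    rw [Finset.sum_const, Finset.card_univ, Fintype.card_fin, nsmul_eq_mul] at h3
    have h5 := abs_le.1 (h2.trans h3)
    rw [Real.norm_eq_abs, abs_le]
    constructor <;> linarith [h5.1, h5.2]
  unfold mu
  rw [Measure.restrict_apply MeasurableSet.univ, Set.univ_inter]
  exact ne_top_of_le_ne_top (measure_closedBall_lt_top).ne (measure_mono hsub)

theorem obox_subset_cbox (R : ℕ) (b : Cell d m) : obox (N := N) R b ⊆ cbox R b := by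
  intro x hx
  simp only [obox, cbox, Finset.mem_filter, Finset.mem_univ, true_and] at hx ⊢
  exact fun j => ⟨(hx j).1.le, (hx j).2.le⟩

theorem ibox_subset_obox (R : ℕ) (b : Cell d m) : ibox (N := N) R b ⊆ obox R b :=
  Finset.filter_subset _ _

theorem zero_notMem_obox (hd : 1 ≤ d) (R : ℕ) (b : Cell d m) : (0 : T d N) ∉ obox R b := by
  intro hx
  simp only [obox, Finset.mem_filter, Finset.mem_univ, true_and] at hx
  have h := (hx ⟨0, hd⟩).1
  rw [Pi.zero_apply, ZMod.val_zero] at h
  exact Nat.not_lt_zero _ h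

theorem card_cbox_le (R : ℕ) (b : Cell d m) : (cbox (N := N) R b).card ≤ (R + 1) ^ d := by
  have h := Finset.card_le_card_of_injOn (s := cbox (N := N) R b)
    (t := Fintype.piFinset fun j : Fin d => Finset.Icc ((b j : ℕ) * R) (((b j : ℕ) + 1) * R))
    (fun x j => (x j).val) ?_ ?_
  · refine h.trans (le_of_eq ?_)
    rw [Fintype.card_piFinset]
    have e : ∀ j : Fin d, (Finset.Icc ((b j : ℕ) * R) (((b j : ℕ) + 1) * R)).card = R + 1 := by
      intro j
      rw [Nat.card_Icc, add_mul, one_mul]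
      omega
    rw [Finset.prod_congr rfl fun j _ => e j, Finset.prod_const, Finset.card_univ,
      Fintype.card_fin]
  · intro x hx
    simp only [cbox, Finset.coe_filter, Finset.mem_univ, true_and, Set.mem_ofPred_eq] at hx
    simp only [Finset.mem_coe, Fintype.mem_piFinset, Finset.mem_Icc]
    exact hx
  · intro x _ y _ hxy
    funext j
    exact ZMod.val_injective N (congrFun hxy j)

theorem card_obox_le (R : ℕ) (b : Cell d m) : (obox (N := N) R b).card ≤ R ^ d := by
  have h := Finset.card_le_card_of_injOn (s := obox (N := N) R b)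
    (t := Fintype.piFinset fun j : Fin d => Finset.Ioc ((b j : ℕ) * R) (((b j : ℕ) + 1) * R))
    (fun x j => (x j).val) ?_ ?_
  · refine h.trans (le_of_eq ?_)
    rw [Fintype.card_piFinset]
    have e : ∀ j : Fin d, (Finset.Ioc ((b j : ℕ) * R) (((b j : ℕ) + 1) * R)).card = R := by
      intro j
      rw [Nat.card_Ioc, add_mul, one_mul]
      omega
    rw [Finset.prod_congr rfl fun j _ => e j, Finset.prod_const, Finset.card_univ,
      Fintype.card_fin]
  · intro x hx
    simp only [obox, Finset.coe_filter, Finset.mem_univ, true_and, Set.mem_ofPred_eq] at hx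
    simp only [Finset.mem_coe, Fintype.mem_piFinset, Finset.mem_Ioc]
    exact fun j => ⟨(hx j).1, (hx j).2.le⟩
  · intro x _ y _ hxy
    funext j
    exact ZMod.val_injective N (congrFun hxy j)

omit [NeZero N] in
theorem torus_succ_mul_le (R : ℕ) (b : Cell d m) (j : Fin d) : ((b j : ℕ) + 1) * R ≤ m * R :=
  Nat.mul_le_mul_right R (b j).2

/-- Neighbours of a point of the open box: one coordinate changes by one. -/
theorem adj_of_mem_obox {R : ℕ} (hm : m * R < N) {b : Cell d m} {x w : T d N}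
    (hx : x ∈ obox R b) (h : TAdj x w) :
    w ∈ cbox R b ∧ ∃ j, (∀ k, k ≠ j → w k = x k) ∧
      ((w j).val = (x j).val + 1 ∧ w = x + ev j ∨ (w j).val + 1 = (x j).val ∧ x = w + ev j) := by
  simp only [obox, Finset.mem_filter, Finset.mem_univ, true_and] at hx
  simp only [cbox, Finset.mem_filter, Finset.mem_univ, true_and]
  obtain ⟨i, rfl | h⟩ := h
  · have hi : (x i).val + 1 < N := by
      have h1 := (hx i).2
      have h2 := torus_succ_mul_le R b i
      omega
    refine ⟨fun k => ?_, i, fun k hk => by simp [ev, hk], Or.inl ⟨?_, rfl⟩⟩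
    · rw [val_add_ev x i k hi]
      have h1 := hx k
      split_ifs <;> omega
    · rw [val_add_ev x i i hi, if_pos rfl]
  · have hw : w = x - ev i := by rw [h, add_sub_cancel_right]
    have hi : 0 < (x i).val := lt_of_le_of_lt (Nat.zero_le _) (hx i).1
    refine ⟨fun k => ?_, i, fun k hk => by rw [hw]; simp [ev, hk], Or.inr ⟨?_, h⟩⟩
    · have h0 := val_sub_ev x i k hi
      rw [← hw] at h0
      have h1 := hx k
      split_ifs at h0 <;> omega
    · have h0 := val_sub_ev x i i hi
      rw [← hw, if_pos rfl] at h0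
      exact h0

theorem disjoint_obox_cbox (R : ℕ) {b b' : Cell d m} (h : b ≠ b') :
    Disjoint (obox (N := N) R b) (cbox R b') := by
  rw [Finset.disjoint_left]
  intro x hx hx'
  simp only [obox, cbox, Finset.mem_filter, Finset.mem_univ, true_and] at hx hx'
  obtain ⟨j, hj⟩ := Function.ne_iff.1 h
  have hj' : (b j : ℕ) ≠ b' j := fun e => hj (Fin.ext e)
  have h1 := hx j
  have h2 := hx' j
  rcases lt_or_gt_of_ne hj' with hlt | hlt
  · have h3 : ((b j : ℕ) + 1) * R ≤ (b' j : ℕ) * R := Nat.mul_le_mul_right R hlt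
    omega
  · have h3 : ((b' j : ℕ) + 1) * R ≤ (b j : ℕ) * R := Nat.mul_le_mul_right R hlt
    omega

theorem disjoint_cbox {R : ℕ} (hR : 0 < R) {b b' : Cell d m} (h : Apart b b') :
    Disjoint (cbox (N := N) R b) (cbox R b') := by
  rw [Finset.disjoint_left]
  intro x hx hx'
  simp only [cbox, Finset.mem_filter, Finset.mem_univ, true_and] at hx hx'
  obtain ⟨j, hj | hj⟩ := h
  · have h1 := hx j
    have h2 := hx' j
    have h3 : ((b j : ℕ) + 1 + 1) * R ≤ (b' j : ℕ) * R := Nat.mul_le_mul_right R hj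
    rw [add_mul _ 1, one_mul] at h3
    omega
  · have h1 := hx j
    have h2 := hx' j
    have h3 : ((b' j : ℕ) + 1 + 1) * R ≤ (b j : ℕ) * R := Nat.mul_le_mul_right R hj
    rw [add_mul _ 1, one_mul] at h3
    omega

/-- The Lipschitz constraints around a subset of an open box only involve the closed box. -/
theorem indep_lipOn {R : ℕ} (hm : m * R < N) {b : Cell d m} {I : Finset (T d N)}
    (hI : I ⊆ obox R b) : Indep (cbox R b)ᶜ (LipOn TAdj I) := by
  refine indep_of_imp fun x y hxy hx u v huv hI' => ?_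
  have hc : u ∈ cbox (N := N) R b ∧ v ∈ cbox (N := N) R b := by
    rcases hI' with hu | hv
    · exact ⟨obox_subset_cbox R b (hI hu), (adj_of_mem_obox hm (hI hu) huv).1⟩
    · exact ⟨(adj_of_mem_obox hm (hI hv) huv.symm).1, obox_subset_cbox R b (hI hv)⟩
  rw [← hxy u (by simpa using hc.1), ← hxy v (by simpa using hc.2)]
  exact hx u v huv hI'

theorem Zl_ne_top (hd : 1 ≤ d) {R : ℕ} {b : Cell d m} {I : Finset (T d N)}
    (hI : I ⊆ obox R b) (ψ : T d N → ℝ) : Zl TAdj I ψ ≠ ⊤ := by
  have hr : ∀ x ∈ I, ((x - ev ⟨0, hd⟩ : T d N) ⟨0, hd⟩).val < (x ⟨0, hd⟩).val := by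
    intro x hx
    have hx' := hI hx
    simp only [obox, Finset.mem_filter, Finset.mem_univ, true_and] at hx'
    have h0 := val_sub_ev x ⟨0, hd⟩ ⟨0, hd⟩ (lt_of_le_of_lt (Nat.zero_le _) (hx' _).1)
    rw [if_pos rfl] at h0
    omega
  have h1 := marg_tree I (fun x : T d N => x - ev ⟨0, hd⟩) (fun x => (x ⟨0, hd⟩).val) hr
    (fun _ => Set.Icc (-1 : ℝ) 1) (fun _ => measurableSet_Icc) ψ
  have h2 : Zl TAdj I ψ ≤ marg I (ind fun ψ : T d N → ℝ =>
      ∀ x ∈ I, ψ x - ψ (x - ev ⟨0, hd⟩) ∈ Set.Icc (-1 : ℝ) 1) ψ := by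
    refine marg_mono_agree I fun φ _ => ind_mono fun hφ x hx => ?_
    exact abs_le.1 (hφ x _ ⟨⟨0, hd⟩, Or.inr (sub_add_cancel _ _).symm⟩ (Or.inl hx))
  refine ne_top_of_le_ne_top ?_ (h2.trans h1.le)
  exact ENNReal.prod_ne_top fun _ _ => measure_Icc_lt_top.ne

theorem val_ctr {R : ℕ} (hm : m * R < N) (b : Cell d m) (j : Fin d) :
    (ctr (N := N) R b j).val = (b j : ℕ) * R + R / 2 := by
  have h2 := torus_succ_mul_le R b j
  rw [add_mul, one_mul] at h2
  exact ZMod.val_cast_of_lt (by omega)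

theorem val_ax {R : ℕ} (hm : m * R < N) (b : Cell d m) (i j : Fin d) {s : ℕ} (hs : s ≤ R) :
    (ax (N := N) R b i s j).val = (b j : ℕ) * R + if j = i then s else R / 2 := by
  by_cases hj : j = i
  · subst hj
    have h2 := torus_succ_mul_le R b j
    rw [add_mul, one_mul] at h2
    rw [if_pos rfl, ax, Function.update_self]
    exact ZMod.val_cast_of_lt (by omega)
  · rw [if_neg hj, ax, Function.update_of_ne hj]
    exact val_ctr hm b j

omit [NeZero N] in
theorem ax_half (R : ℕ) (b : Cell d m) (i : Fin d) : ax (N := N) R b i (R / 2) = ctr R b := by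
  exact Function.update_eq_self i _

omit [NeZero N] in
theorem ax_succ (R : ℕ) (b : Cell d m) (i : Fin d) (s : ℕ) :
    ax (N := N) R b i (s + 1) = ax R b i s + ev i := by
  funext j
  by_cases hj : j = i
  · subst hj
    simp [ax, ev, add_assoc]
  · simp [ax, ev, hj]

omit [NeZero N] in
theorem ax_up (R : ℕ) {b b' : Cell d m} {i : Fin d} (hi : (b' i : ℕ) = b i + 1)
    (hj : ∀ j, j ≠ i → b' j = b j) : ax (N := N) R b i R = ax R b' i 0 := by
  funext j
  by_cases h : j = i
  · subst h
    rw [ax, ax, Function.update_self, Function.update_self, hi, add_mul, one_mul, add_zero]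
  · rw [ax, ax, Function.update_of_ne h, Function.update_of_ne h, ctr, ctr, hj j h]

theorem ax_mem_cbox {R : ℕ} (hm : m * R < N) (b : Cell d m) (i : Fin d) {s : ℕ} (hs : s ≤ R) :
    ax (N := N) R b i s ∈ cbox R b := by
  simp only [cbox, Finset.mem_filter, Finset.mem_univ, true_and]
  intro j
  rw [val_ax hm b i j hs, add_mul, one_mul]
  split_ifs <;> omega

theorem ax_mem_obox {R : ℕ} (hR : 2 ≤ R) (hm : m * R < N) (b : Cell d m) (i : Fin d) {s : ℕ}
    (h0 : 0 < s) (hs : s < R) : ax (N := N) R b i s ∈ obox R b := by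
  simp only [obox, Finset.mem_filter, Finset.mem_univ, true_and]
  intro j
  rw [val_ax hm b i j hs.le, add_mul, one_mul]
  split_ifs <;> omega

theorem ax_odd_mem_ibox {R : ℕ} (hR : 4 ∣ R) (hm : m * R < N) (b : Cell d m) (i : Fin d) {k : ℕ}
    (hk : k < R / 2) : ax (N := N) R b i (2 * k + 1) ∈ ibox R b := by
  obtain ⟨r, rfl⟩ := hR
  refine Finset.mem_filter.2 ⟨ax_mem_obox (by omega) hm b i (by omega) (by omega), i, ?_⟩
  rw [val_ax hm b i i (by omega), if_pos rfl]
  exact ⟨(b i : ℕ) * (2 * r) + k, by ring⟩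

/-- Even points of an axis are in no `ibox`. -/
theorem ax_even_notMem_ibox {R : ℕ} (hR : 4 ∣ R) (hm : m * R < N) (b b' : Cell d m) (i : Fin d)
    {k : ℕ} (hk : k ≤ R / 2) : ax (N := N) R b i (2 * k) ∉ ibox R b' := by
  obtain ⟨r, rfl⟩ := hR
  intro h
  obtain ⟨j, hj⟩ := (Finset.mem_filter.1 h).2
  rw [val_ax hm b i j (by omega)] at hj
  refine Nat.not_odd_iff_even.2 ?_ hj
  split_ifs
  · exact ⟨(b j : ℕ) * (2 * r) + k, by ring⟩
  · have e : 4 * r / 2 = 2 * r := by omega
    rw [e]
    exact ⟨(b j : ℕ) * (2 * r) + r, by ring⟩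

theorem ctr_notMem_ibox {R : ℕ} (hR : 4 ∣ R) (hm : m * R < N) (b b' : Cell d m) :
    ctr (N := N) R b ∉ ibox R b' := by
  obtain ⟨r, rfl⟩ := hR
  intro h
  obtain ⟨j, hj⟩ := (Finset.mem_filter.1 h).2
  rw [val_ctr hm b j] at hj
  refine Nat.not_odd_iff_even.2 ?_ hj
  have e : 4 * r / 2 = 2 * r := by omega
  rw [e]
  exact ⟨(b j : ℕ) * (2 * r) + r, by ring⟩

theorem measurableSet_Good (R : ℕ) (p : ℝ) (b : Cell d m) :
    MeasurableSet {ψ : T d N → ℝ | Good R p b ψ} := by
  have e : {ψ : T d N → ℝ | Good R p b ψ} = ⋂ (i : Fin d), ⋂ (k : ℕ), ⋂ (_ : k < R / 2),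
      {ψ : T d N → ℝ | ENNReal.ofReal p * Zl TAdj (ibox R b) ψ ≤
        Zb TAdj (ibox R b) (ax R b i (2 * k + 1)) (ax R b i (2 * k)) (ax R b i (2 * k + 2)) ψ} := by
    ext ψ
    simp only [Good, Set.mem_ofPred_eq, Set.mem_iInter]
  rw [e]
  refine MeasurableSet.iInter fun i => MeasurableSet.iInter fun k =>
    MeasurableSet.iInter fun _ => ?_
  exact measurableSet_le ((measurable_Zl _ _).const_mul _) (measurable_Zb _ _ _ _ _)

theorem torus_biUnion_subset (R : ℕ) (b : Cell d m) :
    (Finset.univ.biUnion fun b' : Cell d m => ibox (N := N) R b') ⊆ (cbox R b)ᶜ ∪ ibox R b := by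
  intro x hx
  obtain ⟨b', _, hx'⟩ := Finset.mem_biUnion.1 hx
  by_cases hb : b' = b
  · subst hb
    exact Finset.mem_union_right _ hx'
  · refine Finset.mem_union_left _ (Finset.mem_compl.2 ?_)
    exact Finset.disjoint_left.1 (disjoint_obox_cbox R hb) (ibox_subset_obox R b' hx')

theorem torus_indep_Zl {R : ℕ} (hm : m * R < N) (b : Cell d m) :
    Indep (Finset.univ.biUnion fun b' : Cell d m => ibox (N := N) R b')
      (Zl TAdj (ibox R b)) :=
  Indep.mono (Indep.union (Indep.marg (indep_lipOn hm (ibox_subset_obox R b)).ind _)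
    (marg_indep _ _)) (torus_biUnion_subset R b)

/-- Goodness of a box does not depend on any integrated coordinate. -/
theorem indep_Good {R : ℕ} (hm : m * R < N) (p : ℝ) (b : Cell d m) :
    Indep (Finset.univ.biUnion fun b' : Cell d m => ibox (N := N) R b') (Good R p b) := by
  have hZ := torus_indep_Zl hm b
  refine indep_of_imp fun x y hxy hx i k hk => ?_
  have hB : Indep (Finset.univ.biUnion fun b' : Cell d m => ibox (N := N) R b')
      (Zb TAdj (ibox R b) (ax R b i (2 * k + 1)) (ax R b i (2 * k)) (ax R b i (2 * k + 2))) := by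
    refine Indep.mono ?_ (torus_biUnion_subset R b)
    refine Indep.union (Indep.marg (Indep.ind ?_) _) (marg_indep _ _)
    have hv : ax (N := N) R b i (2 * k + 1) ∈ obox R b :=
      ax_mem_obox (by omega) hm b i (by omega) (by omega)
    have hu : ax (N := N) R b i (2 * k) ∈ cbox R b := ax_mem_cbox hm b i (by omega)
    have hu' : ax (N := N) R b i (2 * k + 2) ∈ cbox R b := ax_mem_cbox hm b i (by omega)
    refine indep_of_imp fun φ φ' hφ h => ⟨?_, fun w hw => ?_⟩
    · rw [← indep_lipOn hm (ibox_subset_obox R b) φ φ' hφ]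
      exact h.1
    · have hw' := (adj_of_mem_obox hm hv hw).1
      rw [← hφ _ (by simpa using hu), ← hφ _ (by simpa using hu'), ← hφ _ (by simpa using hw')]
      exact h.2 w hw
  rw [← hZ x y hxy, ← hB x y hxy]
  exact hx i k hk

theorem indep_Zl {R : ℕ} (hm : m * R < N) (b : Cell d m) :
    Indep (Finset.univ.biUnion fun b' : Cell d m => ibox (N := N) R b')
      (Zl TAdj (ibox R b)) := by
  exact torus_indep_Zl hm b

/-- Every vertex is close to the centre of some box. -/
theorem exists_near_ctr {R : ℕ} (hm0 : 1 ≤ m) (hm : m * R < N) (hm' : N ≤ (m + 1) * R)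
    (v : T d N) : ∃ b : Cell d m, ∀ ψ : T d N → ℝ, Lip TAdj ψ →
      |ψ v - ψ (ctr R b)| ≤ 2 * d * R := by
  have hR : 0 < R := by
    rcases Nat.eq_zero_or_pos R with h | h
    · subst h
      omega
    · exact h
  refine ⟨fun j => ⟨min ((v j).val / R) (m - 1), by omega⟩, fun ψ hψ => ?_⟩
  refine (lip_dist hψ _ _).trans ?_
  have key : ∀ j : Fin d, |((v j).val : ℝ) -
      (((ctr (N := N) R (fun j => (⟨min ((v j).val / R) (m - 1), by omega⟩ : Fin m)) j).val : ℕ) : ℝ)|
        ≤ 2 * (R : ℝ) := by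
    intro j
    rw [val_ctr hm]
    have h1 : min ((v j).val / R) (m - 1) * R ≤ (v j).val :=
      le_trans (Nat.mul_le_mul_right R (min_le_left _ _)) (Nat.div_mul_le_self _ _)
    have h2 : (v j).val ≤ min ((v j).val / R) (m - 1) * R + 2 * R := by
      rcases le_total ((v j).val / R) (m - 1) with h | h
      · rw [min_eq_left h]
        have h3 := Nat.lt_div_mul_add (a := (v j).val) hR
        omega
      · rw [min_eq_right h]
        have h3 := ZMod.val_lt (v j)
        have h4 : (m - 1) * R + 2 * R = (m + 1) * R := by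
          rw [← add_mul]
          congr 1
          omega
        omega
    have h3 : R / 2 ≤ R := Nat.div_le_self _ _
    have h1' : ((min ((v j).val / R) (m - 1) * R : ℕ) : ℝ) ≤ ((v j).val : ℝ) := by
      exact_mod_cast h1
    have h2' : ((v j).val : ℝ) ≤ ((min ((v j).val / R) (m - 1) * R : ℕ) : ℝ) + 2 * (R : ℝ) := by
      exact_mod_cast h2
    have h3' : ((R / 2 : ℕ) : ℝ) ≤ (R : ℝ) := by exact_mod_cast h3
    have h4' : (0 : ℝ) ≤ ((R / 2 : ℕ) : ℝ) := Nat.cast_nonneg _
    rw [Nat.cast_add, abs_le]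
    constructor <;> linarith
  refine (Finset.sum_le_sum fun j _ => key j).trans (le_of_eq ?_)
  rw [Finset.sum_const, Finset.card_univ, Fintype.card_fin, nsmul_eq_mul]
  ring

end Pool.Agent.Lib.MP_adb013_pr
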