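import Pool.Agent.Lib.MP_adb013_pr.Link
import Pool.Agent.Lib.MP_adb013_pr.Torus
import Pool.Agent.Lib.MP_adb013_pr.Grid

set_option autoImplicit false
set_option linter.unusedSectionVars false

open MeasureTheory
open scoped ENNReal

namespace Pool.Agent.Lib.MP_adb013_pr

variable {d N m : ℕ} [NeZero N]

/-- The coarse displacement field. -/
noncomputable def disp (R : ℕ) (x y : T d N → ℝ) (b : Cell d m) : ℝ :=
  (x (ctr R b) - y (ctr R b)) / (2 * R)

theorem gain_telescope (f : ℕ → ℝ) (a : ℝ) (lo q : ℕ)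
    (h : ∀ k, lo ≤ k → k < lo + q → |f k - f (k + 1)| ≤ a) :
    |f lo - f (lo + q)| ≤ q * a := by
  induction q with
  | zero => simp
  | succ q ih =>
    have h1 := ih fun k hk hk' => h k hk (by omega)
    have h2 := h (lo + q) (by omega) (by omega)
    have h3 := abs_sub_le (f lo) (f (lo + q)) (f (lo + q + 1))
    have h4 : lo + (q + 1) = lo + q + 1 := by omega
    rw [h4]
    push_cast
    linarith

theorem gain_ax_step {R : ℕ} {ψ : T d N → ℝ} (hψ : Lip TAdj ψ) (b : Cell d m) (i : Fin d)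
    (s : ℕ) : |ψ (ax R b i s) - ψ (ax R b i (s + 1))| ≤ 1 :=
  hψ _ _ ⟨i, Or.inl (ax_succ R b i s)⟩

theorem gain_ctr_lip {R : ℕ} {ψ : T d N → ℝ} (hψ : Lip TAdj ψ) (b b' : Cell d m) (h : Up b b') :
    |ψ (ctr R b) - ψ (ctr R b')| ≤ R := by
  obtain ⟨i, hi, hj⟩ := h
  have h1 := gain_telescope (fun s => ψ (ax R b i s)) 1 (R / 2) (R - R / 2)
    fun k _ _ => gain_ax_step hψ b i k
  have h2 := gain_telescope (fun s => ψ (ax R b' i s)) 1 0 (R / 2)
    fun k _ _ => gain_ax_step hψ b' i k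
  have e1 : R / 2 + (R - R / 2) = R := by omega
  simp only [e1, zero_add, mul_one] at h1 h2
  rw [ax_half, ax_up R hi hj] at h1
  rw [ax_half] at h2
  have h3 := abs_sub_le (ψ (ctr R b)) (ψ (ax R b' i 0)) (ψ (ctr R b'))
  have h4 : ((R - R / 2 : ℕ) : ℝ) + ((R / 2 : ℕ) : ℝ) = R := by
    rw [← Nat.cast_add]
    congr 1
    omega
  linarith

theorem disp_lip {R : ℕ} (hR : 0 < R) (hm : m * R < N) {x y : T d N → ℝ} (hx : Lip TAdj x)
    (hy : Lip TAdj y) (b b' : Cell d m) (h : Up b b') :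
    |disp R x y b' - disp R x y b| ≤ 1 := by
  have _ := hm
  have h1 := gain_ctr_lip (R := R) hx b b' h
  have h2 := gain_ctr_lip (R := R) hy b b' h
  have hR' : (0 : ℝ) < 2 * R := by positivity
  unfold disp
  rw [← sub_div, abs_div, abs_of_pos hR', div_le_one hR']
  rw [abs_le] at h1 h2 ⊢
  constructor <;> linarith [h1.1, h1.2, h2.1, h2.2]

/-- Displacement across a link. -/
noncomputable def gainD (R : ℕ) (x y : T d N → ℝ) (b : Cell d m) (i : Fin d) (k : ℕ) : ℝ :=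
  (x (ax R b i (2 * k)) - y (ax R b i (2 * k))) / 2 -
    (x (ax R b i (2 * k + 2)) - y (ax R b i (2 * k + 2))) / 2

theorem gainD_le {R : ℕ} {x y : T d N → ℝ} (hx : Lip TAdj x) (hy : Lip TAdj y) (b : Cell d m)
    (i : Fin d) (k : ℕ) : |gainD R x y b i k| ≤ 2 := by
  have a1 := gain_ax_step (R := R) hx b i (2 * k)
  have a2 := gain_ax_step (R := R) hx b i (2 * k + 1)
  have a3 := gain_ax_step (R := R) hy b i (2 * k)
  have a4 := gain_ax_step (R := R) hy b i (2 * k + 1)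
  unfold gainD
  have e : 2 * k + 1 + 1 = 2 * k + 2 := by omega
  rw [e] at a2 a4
  rw [abs_le] at a1 a2 a3 a4 ⊢
  constructor <;> linarith [a1.1, a1.2, a2.1, a2.2, a3.1, a3.2, a4.1, a4.2]

/-- The gain of one box. -/
theorem gain_box (hd : 1 ≤ d) {R : ℕ} (hR0 : 0 < R) (hR : 4 ∣ R) (hm : m * R < N) {p : ℝ}
    (hp0 : 0 ≤ p) (hp1 : p ≤ 1) {x y : T d N → ℝ} (hx : Lip TAdj x) (hy : Lip TAdj y)
    (B : Finset (Cell d m)) (hB : ∀ b, b ∉ B → Good R p b (mid x y)) (b : Cell d m) :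
    ∃ a : ℝ, (b ∉ B → ∀ i k, k < R / 2 → |gainD R x y b i k| ≤ a) ∧
      Zl TAdj (ibox R b) x * Zl TAdj (ibox R b) y ≤
        Zl TAdj (ibox R b) (mid x y) ^ 2 * ENNReal.ofReal (Real.exp (-(p * a ^ 2 / 4))) := by
  by_cases hb : b ∈ B
  · refine ⟨0, fun h => absurd hb h, ?_⟩
    simpa using Zl_logconcave TAdj (ibox R b) x y
  · have hR4 : 4 ≤ R := Nat.le_of_dvd hR0 hR
    have hm1 : 1 ≤ m := by
      have := (b ⟨0, hd⟩).2
      omega
    have hN : 2 ≤ N := by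
      have : R ≤ m * R := Nat.le_mul_of_pos_left R hm1
      omega
    have hne : ((Finset.univ : Finset (Fin d)) ×ˢ Finset.range (R / 2)).Nonempty :=
      ⟨(⟨0, hd⟩, 0), by
        simp only [Finset.mem_product, Finset.mem_univ, Finset.mem_range, true_and]
        omega⟩
    obtain ⟨q, hq, hmax⟩ := Finset.exists_max_image _
      (fun q : Fin d × ℕ => |gainD R x y b q.1 q.2|) hne
    have hk : q.2 < R / 2 := by
      simpa only [Finset.mem_product, Finset.mem_univ, Finset.mem_range, true_and] using hq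
    refine ⟨|gainD R x y b q.1 q.2|, fun _ i k hk' => hmax (i, k) ?_, ?_⟩
    · simpa only [Finset.mem_product, Finset.mem_univ, Finset.mem_range, true_and] using hk'
    · rw [sq_abs]
      have hu' : ax (N := N) R b q.1 (2 * q.2 + 2) ∉ ibox R b :=
        ax_even_notMem_ibox hR hm b b q.1 (k := q.2 + 1) hk
      exact link_gain TAdj (fun _ _ h => h.symm) (ibox R b) (ax R b q.1 (2 * q.2 + 1))
        (ax R b q.1 (2 * q.2)) (ax R b q.1 (2 * q.2 + 2)) (tadj_irrefl hN _)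
        (ax_odd_mem_ibox hR hm b q.1 hk) (ax_even_notMem_ibox hR hm b b q.1 hk.le) hu'
        ⟨q.1, Or.inr (ax_succ R b q.1 (2 * q.2))⟩ ⟨q.1, Or.inl (ax_succ R b q.1 (2 * q.2 + 1))⟩
        p hp0 hp1 x y (Zl_ne_top hd (ibox_subset_obox R b) _) (hB b hb q.1 q.2 hk)
        (gainD_le hx hy b q.1 q.2)

theorem gain_edge {R : ℕ} (hR0 : 0 < R) (hR : 4 ∣ R) {x y : T d N → ℝ} {b b' : Cell d m}
    (h : Up b b') {a a' : ℝ} (ha : ∀ i k, k < R / 2 → |gainD R x y b i k| ≤ a)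
    (ha' : ∀ i k, k < R / 2 → |gainD R x y b' i k| ≤ a') :
    (disp R x y b' - disp R x y b) ^ 2 ≤ (a ^ 2 + a' ^ 2) / 8 := by
  obtain ⟨i, hi, hj⟩ := h
  obtain ⟨q, rfl⟩ := hR
  have hq : 0 < q := by omega
  have h1 := gain_telescope
    (fun k => (x (ax (4 * q) b i (2 * k)) - y (ax (4 * q) b i (2 * k))) / 2) a q q
    fun k _ hk => ha i k (by omega)
  have h2 := gain_telescope
    (fun k => (x (ax (4 * q) b' i (2 * k)) - y (ax (4 * q) b' i (2 * k))) / 2) a' 0 q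
    fun k _ hk => ha' i k (by omega)
  have e1 : 2 * (q + q) = 4 * q := by omega
  have e2 : 2 * q = 4 * q / 2 := by omega
  simp only [e1, zero_add, mul_zero] at h1 h2
  rw [e2, ax_half, ax_up (4 * q) hi hj] at h1
  rw [e2, ax_half] at h2
  have hq' : (0 : ℝ) < q := by exact_mod_cast hq
  have h3 : |disp (4 * q) x y b' - disp (4 * q) x y b| ≤ (a + a') / 4 := by
    unfold disp
    have hpos : (0 : ℝ) < 2 * ((4 * q : ℕ) : ℝ) := by positivity
    rw [← sub_div, abs_div, abs_of_pos hpos, div_le_iff₀ hpos]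
    push_cast
    rw [abs_le] at h1 h2 ⊢
    constructor <;> nlinarith [h1.1, h1.2, h2.1, h2.2]
  have h4 : (disp (4 * q) x y b' - disp (4 * q) x y b) ^ 2 ≤ ((a + a') / 4) ^ 2 := by
    rw [← sq_abs (disp (4 * q) x y b' - disp (4 * q) x y b)]
    exact pow_le_pow_left₀ (abs_nonneg _) h3 2
  nlinarith [sq_nonneg (a - a')]

theorem gain_sum_fst (G : Cell d m → ℝ) (hG : ∀ b, 0 ≤ G b) :
    ∑ p ∈ Finset.univ.filter (fun p : Cell d m × Cell d m => Up p.1 p.2), G p.1 ≤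
      d * ∑ b, G b := by
  rw [Finset.sum_filter, Fintype.sum_prod_type, Finset.mul_sum]
  refine Finset.sum_le_sum fun b _ => ?_
  dsimp only
  rw [← Finset.sum_filter, Finset.sum_const, nsmul_eq_mul]
  exact mul_le_mul_of_nonneg_right (by exact_mod_cast card_up_le b) (hG b)

theorem gain_sum_snd (G : Cell d m → ℝ) (hG : ∀ b, 0 ≤ G b) :
    ∑ p ∈ Finset.univ.filter (fun p : Cell d m × Cell d m => Up p.1 p.2), G p.2 ≤
      d * ∑ b, G b := by
  rw [Finset.sum_filter, Fintype.sum_prod_type_right, Finset.mul_sum]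
  refine Finset.sum_le_sum fun b _ => ?_
  dsimp only
  rw [← Finset.sum_filter, Finset.sum_const, nsmul_eq_mul]
  exact mul_le_mul_of_nonneg_right (by exact_mod_cast card_down_le b) (hG b)

theorem gain_energy {R : ℕ} (hR0 : 0 < R) (hR : 4 ∣ R) {x y : T d N → ℝ}
    (B : Finset (Cell d m)) (a : Cell d m → ℝ)
    (ha : ∀ b, b ∉ B → ∀ i k, k < R / 2 → |gainD R x y b i k| ≤ a b) :
    energy B (disp R x y) ≤ d / 4 * ∑ b, a b ^ 2 := by
  unfold energy
  have h1 : ∑ p ∈ Finset.univ.filter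
      (fun p : Cell d m × Cell d m => Up p.1 p.2 ∧ p.1 ∉ B ∧ p.2 ∉ B),
        (disp R x y p.2 - disp R x y p.1) ^ 2 ≤
      ∑ p ∈ Finset.univ.filter
        (fun p : Cell d m × Cell d m => Up p.1 p.2 ∧ p.1 ∉ B ∧ p.2 ∉ B),
          (a p.1 ^ 2 + a p.2 ^ 2) / 8 := by
    refine Finset.sum_le_sum fun p hp => ?_
    obtain ⟨h, h1, h2⟩ := (Finset.mem_filter.1 hp).2
    exact gain_edge hR0 hR h (ha _ h1) (ha _ h2)
  have h2 : ∑ p ∈ Finset.univ.filter
        (fun p : Cell d m × Cell d m => Up p.1 p.2 ∧ p.1 ∉ B ∧ p.2 ∉ B),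
          (a p.1 ^ 2 + a p.2 ^ 2) / 8 ≤
      ∑ p ∈ Finset.univ.filter (fun p : Cell d m × Cell d m => Up p.1 p.2),
          (a p.1 ^ 2 + a p.2 ^ 2) / 8 := by
    refine Finset.sum_le_sum_of_subset_of_nonneg (fun p hp => ?_) fun p _ _ => by positivity
    exact Finset.mem_filter.2 ⟨Finset.mem_univ _, (Finset.mem_filter.1 hp).2.1⟩
  have h3 := gain_sum_fst (fun b => a b ^ 2) fun b => sq_nonneg _
  have h4 := gain_sum_snd (fun b => a b ^ 2) fun b => sq_nonneg _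
  have h5 := h1.trans h2
  rw [← Finset.sum_div, Finset.sum_add_distrib] at h5
  linarith

/-- Total gain in the log-concavity inequality. -/
theorem gain (hd : 1 ≤ d) {R : ℕ} (hR0 : 0 < R) (hR : 4 ∣ R) (hm : m * R < N) {p : ℝ}
    (hp0 : 0 ≤ p) (hp1 : p ≤ 1) {x y : T d N → ℝ} (hx : Lip TAdj x) (hy : Lip TAdj y)
    (B : Finset (Cell d m)) (hB : ∀ b, b ∉ B → Good R p b (mid x y)) :
    (∏ b : Cell d m, Zl TAdj (ibox R b) x) * (∏ b : Cell d m, Zl TAdj (ibox R b) y) ≤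
      (∏ b : Cell d m, Zl TAdj (ibox R b) (mid x y)) ^ 2 *
        ENNReal.ofReal (Real.exp (-(p / d * energy B (disp R x y)))) := by
  choose a ha hZ using gain_box hd hR0 hR hm hp0 hp1 hx hy B hB
  have hE := gain_energy hR0 hR B a ha
  have hd' : (0 : ℝ) < d := by exact_mod_cast hd
  have hexp : ∏ b : Cell d m, ENNReal.ofReal (Real.exp (-(p * a b ^ 2 / 4))) ≤
      ENNReal.ofReal (Real.exp (-(p / d * energy B (disp R x y)))) := by
    rw [← ENNReal.ofReal_prod_of_nonneg fun b _ => (Real.exp_pos _).le, ← Real.exp_sum]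
    refine ENNReal.ofReal_le_ofReal (Real.exp_le_exp.2 ?_)
    rw [Finset.sum_neg_distrib, neg_le_neg_iff, ← Finset.sum_div, ← Finset.mul_sum]
    have h1 : p / d * energy B (disp R x y) ≤ p / d * (d / 4 * ∑ b, a b ^ 2) :=
      mul_le_mul_of_nonneg_left hE (div_nonneg hp0 hd'.le)
    have h2 : p / d * (d / 4 * ∑ b, a b ^ 2) = (p * ∑ b, a b ^ 2) / 4 := by
      field_simp
    linarith
  calc (∏ b : Cell d m, Zl TAdj (ibox R b) x) * (∏ b : Cell d m, Zl TAdj (ibox R b) y)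
      = ∏ b : Cell d m, (Zl TAdj (ibox R b) x * Zl TAdj (ibox R b) y) :=
        Finset.prod_mul_distrib.symm
    _ ≤ ∏ b : Cell d m, (Zl TAdj (ibox R b) (mid x y) ^ 2 *
          ENNReal.ofReal (Real.exp (-(p * a b ^ 2 / 4)))) :=
        Finset.prod_le_prod' fun b _ => hZ b
    _ = (∏ b : Cell d m, Zl TAdj (ibox R b) (mid x y)) ^ 2 *
          ∏ b : Cell d m, ENNReal.ofReal (Real.exp (-(p * a b ^ 2 / 4))) := by
        rw [Finset.prod_mul_distrib, Finset.prod_pow]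
    _ ≤ _ := by gcongr

end Pool.Agent.Lib.MP_adb013_pr
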