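import Pool.Agent.Lib.MP_adb013_pr.Torus

set_option autoImplicit false
set_option linter.unusedSectionVars false

open MeasureTheory
open scoped ENNReal

namespace Pool.Agent.Lib.MP_adb013_pr

variable {d N m : ℕ} [NeZero N]

/-- Coordinate distance. -/
private noncomputable def gbA (v x : T d N) (l : Fin d) : ℝ :=
  |((x l).val : ℝ) - ((v l).val : ℝ)|

/-- Transverse distance. -/
private noncomputable def gbT (v : T d N) (i : Fin d) (x : T d N) : ℝ :=
  ∑ l ∈ Finset.univ.erase i, gbA v x l

/-- Distance to the set of transverse neighbours of `v`. -/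
private noncomputable def gbD (v : T d N) (i : Fin d) (x : T d N) : ℝ :=
  gbA v x i + |gbT v i x - 1|

private theorem gbA_nonneg (v x : T d N) (l : Fin d) : 0 ≤ gbA v x l := abs_nonneg _

private theorem gbT_nonneg (v : T d N) (i : Fin d) (x : T d N) : 0 ≤ gbT v i x :=
  Finset.sum_nonneg fun l _ => gbA_nonneg v x l

private theorem gbA_lip (v x w : T d N) (l : Fin d) :
    |gbA v x l - gbA v w l| ≤ |((x l).val : ℝ) - ((w l).val : ℝ)| := by
  have h := abs_abs_sub_abs_le_abs_sub (((x l).val : ℝ) - ((v l).val : ℝ))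
    (((w l).val : ℝ) - ((v l).val : ℝ))
  have e : (((x l).val : ℝ) - ((v l).val : ℝ)) - (((w l).val : ℝ) - ((v l).val : ℝ)) =
      ((x l).val : ℝ) - ((w l).val : ℝ) := by ring
  rw [e] at h
  exact h

private theorem gbD_lip (v : T d N) (i : Fin d) (x w : T d N) :
    |gbD v i x - gbD v i w| ≤ ∑ l, |((x l).val : ℝ) - ((w l).val : ℝ)| := by
  have h1 := gbA_lip v x w i
  have h2 : |gbT v i x - gbT v i w| ≤
      ∑ l ∈ Finset.univ.erase i, |((x l).val : ℝ) - ((w l).val : ℝ)| := by
    unfold gbT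
    rw [← Finset.sum_sub_distrib]
    exact (Finset.abs_sum_le_sum_abs _ _).trans (Finset.sum_le_sum fun l _ => gbA_lip v x w l)
  have h3 := abs_abs_sub_abs_le_abs_sub (gbT v i x - 1) (gbT v i w - 1)
  have e : (gbT v i x - 1) - (gbT v i w - 1) = gbT v i x - gbT v i w := by ring
  rw [e] at h3
  have h4 := Finset.add_sum_erase Finset.univ
    (fun l => |((x l).val : ℝ) - ((w l).val : ℝ)|) (Finset.mem_univ i)
  have e2 : gbD v i x - gbD v i w =
      (gbA v x i - gbA v w i) + (|gbT v i x - 1| - |gbT v i w - 1|) := by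
    unfold gbD; ring
  rw [e2]
  refine (abs_add_le _ _).trans ?_
  rw [← h4]
  linarith

private theorem gb_sum_adj {x w : T d N} {j : Fin d} (h1 : ∀ k, k ≠ j → w k = x k)
    (h2 : (w j).val = (x j).val + 1 ∨ (w j).val + 1 = (x j).val) :
    ∑ l, |((x l).val : ℝ) - ((w l).val : ℝ)| = 1 := by
  rw [Finset.sum_eq_single j]
  · rcases h2 with h | h
    · rw [h]; push_cast; simp
    · rw [← h]; push_cast; simp
  · intro l _ hl
    rw [h1 l hl]; simp
  · intro h; exact absurd (Finset.mem_univ j) h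

private theorem gbT_zero_or (v : T d N) (i : Fin d) (x : T d N) :
    gbT v i x = 0 ∨ 1 ≤ gbT v i x := by
  by_cases h : ∀ l ∈ Finset.univ.erase i, (x l).val = (v l).val
  · left
    refine Finset.sum_eq_zero fun l hl => ?_
    unfold gbA
    rw [h l hl]; simp
  · right
    push Not at h
    obtain ⟨l, hl, hne⟩ := h
    refine le_trans ?_ (Finset.single_le_sum (fun l _ => gbA_nonneg v x l) hl)
    unfold gbA
    rcases lt_or_gt_of_ne hne with h | h
    · have : ((x l).val : ℝ) + 1 ≤ ((v l).val : ℝ) := by exact_mod_cast h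
      rw [abs_sub_comm]
      exact le_trans (by linarith) (le_abs_self _)
    · have : ((v l).val : ℝ) + 1 ≤ ((x l).val : ℝ) := by exact_mod_cast h
      exact le_trans (by linarith) (le_abs_self _)

private theorem gb_mem_cbox {R : ℕ} {b : Cell d m} {x : T d N} :
    x ∈ cbox R b ↔ ∀ j, (b j : ℕ) * R ≤ (x j).val ∧ (x j).val ≤ ((b j : ℕ) + 1) * R := by
  simp [cbox]

private theorem gb_mem_obox {R : ℕ} {b : Cell d m} {x : T d N} :
    x ∈ obox R b ↔ ∀ j, (b j : ℕ) * R < (x j).val ∧ (x j).val < ((b j : ℕ) + 1) * R := by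
  simp [obox]

private theorem gb_mem_ibox {R : ℕ} {b : Cell d m} {x : T d N} :
    x ∈ ibox R b ↔ x ∈ obox R b ∧ ∃ j, Odd (x j).val := by
  simp [ibox]

/-- `G1` gives a Lipschitz bound on the closed box. -/
private theorem gb_lip_G1 {R : ℕ} {ε : ℝ} {b : Cell d m} {ψ : T d N → ℝ} (g1 : G1 R ε b ψ)
    {x y : T d N} (hx : x ∈ cbox R b) (hy : y ∈ cbox R b) :
    |ψ x - ψ y| ≤ (1 - ε) * ∑ k, |((x k).val : ℝ) - ((y k).val : ℝ)| := by
  refine lip_box (fun k => (b k : ℕ) * R) (fun k => ((b k : ℕ) + 1) * R) (1 - ε) ψ ?_ x y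
    (gb_mem_cbox.1 hx) (gb_mem_cbox.1 hy)
  intro z j hz hj hN
  refine g1 z j (gb_mem_cbox.2 hz) (gb_mem_cbox.2 fun l => ?_)
  rw [val_add_ev z j l hN]
  have := hz l
  by_cases hl : l = j
  · subst hl
    simp only [if_true]
    omega
  · simp only [hl, if_false]
    omega

/-- Distance from `z` to a point `u` which differs from `v` only in the coordinate `i`. -/
private theorem gb_dist_end {v u z : T d N} {i : Fin d}
    (huv : ∀ l, l ≠ i → (u l).val = (v l).val) :
    ∑ l, |((z l).val : ℝ) - ((u l).val : ℝ)| =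
      |((z i).val : ℝ) - ((u i).val : ℝ)| + gbT v i z := by
  rw [← Finset.add_sum_erase Finset.univ
    (fun l => |((z l).val : ℝ) - ((u l).val : ℝ)|) (Finset.mem_univ i)]
  congr 1
  refine Finset.sum_congr rfl fun l hl => ?_
  rw [huv l (Finset.ne_of_mem_erase hl)]
  rfl

/-- The estimate on the same side as an end of the link. -/
private theorem gb_side {R : ℕ} {ε ε' : ℝ} (h0 : 0 < ε') (h1 : ε' ≤ ε) (h2 : ε ≤ 1)
    {b : Cell d m} {ψ : T d N → ℝ} (g1 : G1 R ε b ψ) {v u z : T d N} {i : Fin d}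
    (hu : u ∈ cbox R b) (hz : z ∈ cbox R b) (huv : ∀ l, l ≠ i → (u l).val = (v l).val)
    (hi : |((z i).val : ℝ) - ((u i).val : ℝ)| + 1 = gbA v z i) :
    |ψ z - ψ u| + ε' / 3 ≤ gbD v i z := by
  have h := gb_lip_G1 g1 hz hu
  rw [gb_dist_end huv] at h
  have hn : 0 ≤ |((z i).val : ℝ) - ((u i).val : ℝ)| := abs_nonneg _
  unfold gbD
  rw [← hi]
  rcases gbT_zero_or v i z with hT | hT
  · rw [hT] at h ⊢
    have e : |(0 : ℝ) - 1| = 1 := by norm_num
    rw [e]
    nlinarith
  · rw [abs_of_nonneg (by linarith : 0 ≤ gbT v i z - 1)]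
    nlinarith

/-- The estimate on a wall. -/
private theorem gb_wall {R : ℕ} (hR : 4 ∣ R) {b : Cell d m} {ψ : T d N → ℝ}
    (hψ : Lip TAdj ψ) (g2 : G2 R b ψ) {v u z : T d N} {i j : Fin d} (hji : j ≠ i)
    (hu : u ∈ cbox R b) (huv : ∀ l, l ≠ i → (u l).val = (v l).val)
    (hi : |((z i).val : ℝ) - ((u i).val : ℝ)| = 1)
    (huj : (u j).val = (b j : ℕ) * R + R / 2)
    (hzj : (z j).val = (b j : ℕ) * R ∨ (z j).val = ((b j : ℕ) + 1) * R) :
    |ψ z - ψ u| + 1 ≤ gbT v i z - 1 := by
  obtain ⟨r, rfl⟩ := hR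
  have hr : 4 * r / 2 = 2 * r := by omega
  set p : T d N := Function.update u j (z j) with hp
  have hpj : p j = z j := by simp [hp]
  have hpl : ∀ l, l ≠ j → p l = u l := fun l hl => by simp [hp, hl]
  have hexp : ((b j : ℕ) + 1) * (4 * r) = (b j : ℕ) * (4 * r) + 4 * r := by ring
  have hA : |ψ p - ψ u| ≤ ((2 * r : ℕ) : ℝ) - 3 := by
    rcases hzj with h | h
    · have hpc : p ∈ cbox (4 * r) b := by
        refine gb_mem_cbox.2 fun l => ?_
        by_cases hl : l = j
        · subst hl
          rw [hpj, h]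
          omega
        · rw [hpl l hl]
          exact gb_mem_cbox.1 hu l
      have h3 := g2 p j hpc (by rw [hpj, h]; omega)
      have e : p + ((4 * r / 2 : ℕ) : ZMod N) • ev j = u := by
        funext l
        by_cases hl : l = j
        · subst hl
          have e1 : u l = (((u l).val : ℕ) : ZMod N) := (ZMod.natCast_zmod_val _).symm
          have e2 : z l = (((z l).val : ℕ) : ZMod N) := (ZMod.natCast_zmod_val _).symm
          simp only [Pi.add_apply, Pi.smul_apply, ev, Pi.single_eq_same, smul_eq_mul, mul_one]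
          rw [hpj, e1, e2, huj, h, ← Nat.cast_add]
        · simp [ev, hl, hpl l hl]
      rw [e, hr, abs_sub_comm] at h3
      exact h3
    · have h3 := g2 u j hu (by rw [huj]; omega)
      have e : u + ((4 * r / 2 : ℕ) : ZMod N) • ev j = p := by
        funext l
        by_cases hl : l = j
        · subst hl
          have e1 : u l = (((u l).val : ℕ) : ZMod N) := (ZMod.natCast_zmod_val _).symm
          have e2 : z l = (((z l).val : ℕ) : ZMod N) := (ZMod.natCast_zmod_val _).symm
          simp only [Pi.add_apply, Pi.smul_apply, ev, Pi.single_eq_same, smul_eq_mul, mul_one]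
          rw [hpj, e1, e2, huj, h, ← Nat.cast_add]
          congr 1
          omega
        · simp [ev, hl, hpl l hl]
      rw [e, hr] at h3
      exact h3
  have hB := lip_dist hψ z p
  have hC : ∑ l, |((z l).val : ℝ) - ((p l).val : ℝ)| + ((2 * r : ℕ) : ℝ) =
      ∑ l, |((z l).val : ℝ) - ((u l).val : ℝ)| := by
    rw [← Finset.add_sum_erase Finset.univ
      (fun l => |((z l).val : ℝ) - ((p l).val : ℝ)|) (Finset.mem_univ j),
      ← Finset.add_sum_erase Finset.univ
      (fun l => |((z l).val : ℝ) - ((u l).val : ℝ)|) (Finset.mem_univ j)]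
    have e1 : ∑ l ∈ Finset.univ.erase j, |((z l).val : ℝ) - ((p l).val : ℝ)| =
        ∑ l ∈ Finset.univ.erase j, |((z l).val : ℝ) - ((u l).val : ℝ)| :=
      Finset.sum_congr rfl fun l hl => by rw [hpl l (Finset.ne_of_mem_erase hl)]
    have e2 : |((z j).val : ℝ) - ((u j).val : ℝ)| = ((2 * r : ℕ) : ℝ) := by
      rcases hzj with h | h
      · rw [h, huj, hr, abs_sub_comm]
        push_cast
        rw [abs_of_nonneg] <;> [ring; skip]
        have : (0 : ℝ) ≤ r := Nat.cast_nonneg r
        linarith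
      · rw [h, huj, hr]
        push_cast
        have : (0 : ℝ) ≤ r := Nat.cast_nonneg r
        rw [abs_of_nonneg] <;> [ring; skip]
        nlinarith
    rw [e1, e2, hpj]
    simp only [sub_self, abs_zero]
    ring
  rw [gb_dist_end huv, hi] at hC
  have hD : |ψ z - ψ u| ≤ |ψ z - ψ p| + |ψ p - ψ u| := abs_sub_le _ _ _
  linarith

/-- A filling of `ibox` in which all other neighbours of a link vertex are well between the
values at the two ends of the link. -/
theorem exists_btw_filling {R : ℕ} (hR : 4 ∣ R) (hm : m * R < N) {ε ε' : ℝ} (h0 : 0 < ε')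
    (h1 : ε' ≤ ε) (h2 : ε ≤ 1) (b : Cell d m) (ψ : T d N → ℝ) (hψ : Lip TAdj ψ)
    (g1 : G1 R ε b ψ) (g2 : G2 R b ψ) (g3 : G3 R ε' b ψ) (i : Fin d) {k : ℕ} (hk : k < R / 2) :
    ∃ φ : T d N → ℝ, Agree (ibox R b) φ ψ ∧ LipOn TAdj (ibox R b) φ ∧
      ∀ w, TAdj (ax R b i (2 * k + 1)) w → w ≠ ax R b i (2 * k) → w ≠ ax R b i (2 * k + 2) →
        min (ψ (ax R b i (2 * k))) (ψ (ax R b i (2 * k + 2))) + ε' / 3 ≤ φ w ∧
        φ w ≤ max (ψ (ax R b i (2 * k))) (ψ (ax R b i (2 * k + 2))) - ε' / 3 := by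
  classical
  have hR4 : 4 ≤ R := by omega
  have hRe : R = 2 * (R / 2) := by omega
  set v : T d N := ax R b i (2 * k + 1) with hv
  set u : T d N := ax R b i (2 * k) with hu
  set u' : T d N := ax R b i (2 * k + 2) with hu'
  set a : ℝ := min (ψ u) (ψ u') + ε' / 3 with ha
  set c : ℝ := max (ψ u) (ψ u') - ε' / 3 with hc
  have hvv : ∀ l, (v l).val = (b l : ℕ) * R + if l = i then 2 * k + 1 else R / 2 :=
    fun l => val_ax hm b i l (by omega)
  have huu : ∀ l, (u l).val = (b l : ℕ) * R + if l = i then 2 * k else R / 2 :=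
    fun l => val_ax hm b i l (by omega)
  have huu' : ∀ l, (u' l).val = (b l : ℕ) * R + if l = i then 2 * k + 2 else R / 2 :=
    fun l => val_ax hm b i l (by omega)
  have hvi : (v i).val = (b i : ℕ) * R + (2 * k + 1) := by rw [hvv i, if_pos rfl]
  have hui : (u i).val = (b i : ℕ) * R + 2 * k := by rw [huu i, if_pos rfl]
  have hui' : (u' i).val = (b i : ℕ) * R + (2 * k + 2) := by rw [huu' i, if_pos rfl]
  have huv : ∀ l, l ≠ i → (u l).val = (v l).val := fun l hl => by
    rw [huu l, hvv l, if_neg hl, if_neg hl]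
  have huv' : ∀ l, l ≠ i → (u' l).val = (v l).val := fun l hl => by
    rw [huu' l, hvv l, if_neg hl, if_neg hl]
  have huc : u ∈ cbox R b := ax_mem_cbox hm b i (by omega)
  have huc' : u' ∈ cbox R b := ax_mem_cbox hm b i (by omega)
  have hvo : v ∈ obox R b := ax_mem_obox (by omega) hm b i (by omega) (by omega)
  have hodd : Odd (v i).val := by
    rw [hvi, hRe]
    exact ⟨(b i : ℕ) * (R / 2) + k, by ring⟩
  have hac : a ≤ c := by
    have h3 : ε' ≤ |ψ u - ψ u'| := g3 i k hk
    have h4 : max (ψ u) (ψ u') - min (ψ u) (ψ u') = |ψ u - ψ u'| := by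
      rw [max_sub_min_eq_abs, abs_sub_comm]
    rw [ha, hc]
    linarith
  have hau : a ≤ ψ u + ε' / 3 := by
    have := min_le_left (ψ u) (ψ u'); rw [ha]; linarith
  have hau' : a ≤ ψ u' + ε' / 3 := by
    have := min_le_right (ψ u) (ψ u'); rw [ha]; linarith
  have hcu : ψ u - ε' / 3 ≤ c := by
    have := le_max_left (ψ u) (ψ u'); rw [hc]; linarith
  have hcu' : ψ u' - ε' / 3 ≤ c := by
    have := le_max_right (ψ u) (ψ u'); rw [hc]; linarith
  -- the key estimate on the frozen part of the closed box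
  have key : ∀ z, z ∈ cbox R b → z ∉ ibox R b →
      a - gbD v i z ≤ ψ z ∧ ψ z ≤ c + gbD v i z := by
    intro z hz hzi
    rcases lt_trichotomy (z i).val (v i).val with hlt | heq | hgt
    · have h5 : |ψ z - ψ u| + ε' / 3 ≤ gbD v i z := by
        refine gb_side h0 h1 h2 g1 huc hz huv ?_
        have e : (v i).val = (u i).val + 1 := by omega
        have hle : ((z i).val : ℝ) ≤ ((u i).val : ℝ) := by
          have : (z i).val ≤ (u i).val := by omega
          exact_mod_cast this
        unfold gbA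
        rw [e]
        push_cast
        rw [abs_of_nonpos (by linarith), abs_of_nonpos (by linarith)]
        ring
      have h6 := abs_le.1 (show |ψ z - ψ u| ≤ gbD v i z - ε' / 3 by linarith)
      constructor <;> linarith [h6.1, h6.2]
    · have hzo : z ∉ obox R b := fun ho => hzi (gb_mem_ibox.2 ⟨ho, i, heq ▸ hodd⟩)
      rw [gb_mem_obox] at hzo
      push Not at hzo
      obtain ⟨j, hj⟩ := hzo
      have hjc := gb_mem_cbox.1 hz j
      have hzj : (z j).val = (b j : ℕ) * R ∨ (z j).val = ((b j : ℕ) + 1) * R := by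
        by_cases h : (b j : ℕ) * R < (z j).val
        · right; exact le_antisymm hjc.2 (hj h)
        · left; omega
      have hji : j ≠ i := by
        rintro rfl
        have := gb_mem_obox.1 hvo j
        omega
      have h5 : |ψ z - ψ u| + 1 ≤ gbT v i z - 1 := by
        refine gb_wall hR hψ g2 hji huc huv ?_ (by rw [huu j, if_neg hji]) hzj
        have e : (z i).val = (u i).val + 1 := by omega
        rw [e]
        push_cast
        simp
      have h7 : gbT v i z - 1 ≤ gbD v i z := by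
        have := gbA_nonneg v z i
        have := le_abs_self (gbT v i z - 1)
        unfold gbD
        linarith
      have h6 := abs_le.1 (show |ψ z - ψ u| ≤ gbD v i z - 1 by linarith)
      constructor <;> linarith [h6.1, h6.2]
    · have h5 : |ψ z - ψ u'| + ε' / 3 ≤ gbD v i z := by
        refine gb_side h0 h1 h2 g1 huc' hz huv' ?_
        have e : (u' i).val = (v i).val + 1 := by omega
        have hle : ((v i).val : ℝ) + 1 ≤ ((z i).val : ℝ) := by
          have : (v i).val + 1 ≤ (z i).val := by omega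
          exact_mod_cast this
        unfold gbA
        rw [e]
        push_cast
        rw [abs_of_nonneg (by linarith), abs_of_nonneg (by linarith)]
        ring
      have h6 := abs_le.1 (show |ψ z - ψ u'| ≤ gbD v i z - ε' / 3 by linarith)
      constructor <;> linarith [h6.1, h6.2]
  let F : T d N → ℝ := fun x => max (a - gbD v i x) (min (ψ x) (c + gbD v i x))
  let φ : T d N → ℝ := fun x => if x ∈ ibox R b then F x else ψ x
  have hφF : ∀ z, z ∈ cbox R b → φ z = F z := by
    intro z hz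
    by_cases hzi : z ∈ ibox R b
    · simp only [φ, hzi, if_true]
    · obtain ⟨h5, h6⟩ := key z hz hzi
      simp only [φ, F, hzi, if_false]
      rw [min_eq_left h6, max_eq_right h5]
  have hlip : ∀ x y, TAdj x y → x ∈ ibox R b → |φ x - φ y| ≤ 1 := by
    intro x y hxy hx
    have hxo := ibox_subset_obox R b hx
    obtain ⟨hyc, j, hj1, hj2⟩ := adj_of_mem_obox hm hxo hxy
    have hD : |gbD v i x - gbD v i y| ≤ 1 := by
      have := gbD_lip v i x y
      rw [gb_sum_adj hj1 (hj2.imp And.left And.left)] at this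
      exact this
    have hx1 := hψ x y hxy
    rw [hφF x (obox_subset_cbox R b hxo), hφF y hyc]
    refine (abs_max_sub_max_le_max _ _ _ _).trans (max_le ?_ ?_)
    · have e : a - gbD v i x - (a - gbD v i y) = -(gbD v i x - gbD v i y) := by ring
      rw [e, abs_neg]; exact hD
    · refine (abs_min_sub_min_le_max _ _ _ _).trans (max_le hx1 ?_)
      have e : c + gbD v i x - (c + gbD v i y) = gbD v i x - gbD v i y := by ring
      rw [e]; exact hD
  refine ⟨φ, fun x hx => by simp only [φ, hx, if_false], ?_, ?_⟩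
  · intro x y hxy h
    rcases h with h | h
    · exact hlip x y hxy h
    · rw [abs_sub_comm]; exact hlip y x hxy.symm h
  · intro w hw hwu hwu'
    obtain ⟨hwc, j, hj1, hj2⟩ := adj_of_mem_obox hm hvo hw
    have hji : j ≠ i := by
      rintro rfl
      rcases hj2 with ⟨_, h⟩ | ⟨_, h⟩
      · exact hwu' (by rw [h, hu', hv]; exact (ax_succ R b j (2 * k + 1)).symm)
      · refine hwu (add_right_cancel (b := ev j) ?_)
        rw [← h, hv, hu]
        exact ax_succ R b j (2 * k)
    have hD : gbD v i w = 0 := by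
      have hAi : gbA v w i = 0 := by
        unfold gbA
        rw [hj1 i hji.symm]; simp
      have hs := gb_sum_adj hj1 (hj2.imp And.left And.left)
      have hT : gbT v i w = 1 := by
        have h8 := gb_dist_end (v := v) (u := v) (z := w) (i := i) fun _ _ => rfl
        have h9 : ∑ l, |((w l).val : ℝ) - ((v l).val : ℝ)| = 1 := by
          rw [← hs]
          exact Finset.sum_congr rfl fun l _ => abs_sub_comm _ _
        have h10 : |((w i).val : ℝ) - ((v i).val : ℝ)| = 0 := hAi
        rw [h9, h10] at h8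
        linarith
      unfold gbD
      rw [hAi, hT]; simp
    rw [hφF w hwc]
    simp only [F, hD, sub_zero, add_zero]
    exact ⟨le_max_left _ _, max_le hac (min_le_right _ _)⟩

theorem good_of_G {R : ℕ} (hR : 4 ∣ R) (hm : m * R < N) {ε ε' : ℝ} (h0 : 0 < ε')
    (h1 : ε' ≤ ε) (h2 : ε ≤ 1) (b : Cell d m) (ψ : T d N → ℝ) (hψ : Lip TAdj ψ)
    (g1 : G1 R ε b ψ) (g2 : G2 R b ψ) (g3 : G3 R ε' b ψ) :
    Good R ((ε' / 12) ^ (R ^ d)) b ψ := by
  intro i k hk
  obtain ⟨φ, hag, hlip, hw⟩ := exists_btw_filling hR hm h0 h1 h2 b ψ hψ g1 g2 g3 i hk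
  have hθ0 : 0 < ε' / 12 := by positivity
  have hθ1 : ε' / 12 ≤ 1 := by linarith
  set v : T d N := ax R b i (2 * k + 1) with hv
  set u : T d N := ax R b i (2 * k) with hu
  set u' : T d N := ax R b i (2 * k + 2) with hu'
  have hvi : v ∈ ibox R b := ax_odd_mem_ibox hR hm b i hk
  have hui : u ∉ ibox R b := ax_even_notMem_ibox hR hm b b i hk.le
  have hui' : u' ∉ ibox R b := ax_even_notMem_ibox (k := k + 1) hR hm b b i hk
  have hvu : TAdj v u := ⟨i, Or.inr (ax_succ R b i (2 * k))⟩
  have hmain := marg_homothety (ibox R b) (p := LipOn TAdj (ibox R b))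
    (q := fun χ => LipOn TAdj (ibox R b) χ ∧ Btw TAdj v u u' χ)
    (measurableSet_LipOn _ _)
    ((measurableSet_LipOn TAdj (ibox R b)).inter (measurableSet_Btw TAdj v u u')) ψ φ hag
    (ε' / 12) hθ0 (by
      intro χ hχ hχl
      refine ⟨hlip.convex hχl hθ0.le hθ1, ?_⟩
      intro w hvw
      have e1 : (1 - ε' / 12) * φ u + ε' / 12 * χ u = ψ u := by
        rw [hag u hui, hχ u hui]; ring
      have e2 : (1 - ε' / 12) * φ u' + ε' / 12 * χ u' = ψ u' := by
        rw [hag u' hui', hχ u' hui']; ring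
      simp only [e1, e2]
      by_cases hwu : w = u
      · rw [hwu, e1]; exact ⟨min_le_left _ _, le_max_left _ _⟩
      by_cases hwu' : w = u'
      · rw [hwu', e2]; exact ⟨min_le_right _ _, le_max_right _ _⟩
      obtain ⟨h3, h4⟩ := hw w hvw hwu hwu'
      have a1 := abs_le.1 (hχl v w hvw (Or.inl hvi))
      have a2 := abs_le.1 (hχl v u hvu (Or.inl hvi))
      have a3 := abs_le.1 (hlip v w hvw (Or.inl hvi))
      have a4 := abs_le.1 (hlip v u hvu (Or.inl hvi))
      have a5 : φ u = χ u := by rw [hag u hui, hχ u hui]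
      have b1 : χ w - φ w ≤ 4 := by linarith [a1.1, a2.2, a3.2, a4.1]
      have b2 : -4 ≤ χ w - φ w := by linarith [a1.2, a2.1, a3.1, a4.2]
      have c1 : ε' / 12 * (χ w - φ w) ≤ ε' / 12 * 4 := mul_le_mul_of_nonneg_left b1 hθ0.le
      have c2 : ε' / 12 * (-4) ≤ ε' / 12 * (χ w - φ w) := mul_le_mul_of_nonneg_left b2 hθ0.le
      constructor <;> linarith)
  refine le_trans ?_ hmain
  have hcard : (ibox (N := N) R b).card ≤ R ^ d :=
    (Finset.card_le_card (ibox_subset_obox R b)).trans (card_obox_le R b)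
  exact mul_le_mul_left (ENNReal.ofReal_le_ofReal (pow_le_pow_of_le_one hθ0.le hθ1 hcard)) _

end Pool.Agent.Lib.MP_adb013_pr
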