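import Pool.Agent.Lib.MP_adb013_pr.Grid

set_option autoImplicit false
set_option linter.unusedSectionVars false

open MeasureTheory
open scoped ENNReal

namespace Pool.Agent.Lib.MP_adb013_pr

/-- A chain of cutsets, one for each level in an interval of length `r`. -/
structure Cuts {d m : ℕ} (g : Cell d m → ℝ) (r : ℕ) (b : Cell d m) (s0 : ℝ)
    (U : ℝ → Finset (Cell d m)) : Prop where
  chain : ∀ s s', s ∈ Set.Ico s0 (s0 + r) → s' ∈ Set.Ico s0 (s0 + r) → U s ⊆ U s' ∨ U s' ⊆ U s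
  conn : ∀ s ∈ Set.Ico s0 (s0 + r), Conn Nb (U s) b
  connc : ∀ s ∈ Set.Ico s0 (s0 + r), ∃ a, Conn Nb (U s)ᶜ a
  big : ∀ s ∈ Set.Ico s0 (s0 + r), r ^ d ≤ (U s).card
  small : ∀ s ∈ Set.Ico s0 (s0 + r), 2 * (U s).card ≤ m ^ d
  cross : ∀ s ∈ Set.Ico s0 (s0 + r), ∀ p ∈ bdry (U s),
    min (g p.1) (g p.2) ≤ s ∧ s < max (g p.1) (g p.2)

/-- At least half of the boundary edges of `U` avoid `B`. -/
def GoodCut {d m : ℕ} (B U : Finset (Cell d m)) : Prop :=
  (bdry U).card ≤ 2 * ((bdry U).filter fun p => p.1 ∉ B ∧ p.2 ∉ B).card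

instance {d m : ℕ} (B U : Finset (Cell d m)) : Decidable (GoodCut B U) := by
  unfold GoodCut; infer_instance

section LevelsAux

variable {d m : ℕ}

open Classical in
/-- Points reachable from `b` by nearest neighbour steps inside `{P}`. -/
noncomputable def levReach (P : Cell d m → Prop) (b : Cell d m) : Finset (Cell d m) :=
  Finset.univ.filter fun x => Relation.ReflTransGen (fun a a' => P a ∧ P a' ∧ Nb a a') b x

theorem mem_levReach {P : Cell d m → Prop} {b x : Cell d m} :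
    x ∈ levReach P b ↔ Relation.ReflTransGen (fun a a' => P a ∧ P a' ∧ Nb a a') b x := by
  simp [levReach]

theorem levReach_prop {P : Cell d m → Prop} {b x : Cell d m} (hb : P b) (hx : x ∈ levReach P b) :
    P x := by
  rw [mem_levReach] at hx
  induction hx with
  | refl => exact hb
  | tail _ h _ => exact h.2.1

theorem levReach_step {P : Cell d m → Prop} {b x y : Cell d m} (hb : P b) (hx : x ∈ levReach P b)
    (hy : P y) (hn : Nb x y) : y ∈ levReach P b :=
  mem_levReach.2 ((mem_levReach.1 hx).tail ⟨levReach_prop hb hx, hy, hn⟩)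

theorem levReach_self (P : Cell d m → Prop) (b : Cell d m) : b ∈ levReach P b :=
  mem_levReach.2 Relation.ReflTransGen.refl

theorem levReach_conn (P : Cell d m → Prop) (b : Cell d m) : Conn Nb (levReach P b) b := by
  refine ⟨levReach_self P b, fun y hy => ?_⟩
  rw [mem_levReach] at hy
  induction hy with
  | refl => exact Relation.ReflTransGen.refl
  | tail h1 h ih => exact ih.tail ⟨mem_levReach.2 h1, mem_levReach.2 (h1.tail h), h.2.2⟩

theorem levReach_mono {P P' : Cell d m → Prop} (h : ∀ x, P x → P' x) (b : Cell d m) :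
    levReach P b ⊆ levReach P' b := fun _ hx =>
  mem_levReach.2 (gridMono (mem_levReach.1 hx) fun _ _ ha => ⟨h _ ha.1, h _ ha.2.1, ha.2.2⟩)

theorem subset_levReach {P : Cell d m → Prop} {b : Cell d m} {Q : Finset (Cell d m)}
    (hQ : Conn Nb Q b) (h : ∀ x ∈ Q, P x) : Q ⊆ levReach P b := fun x hx =>
  mem_levReach.2 (gridMono (hQ.2 x hx) fun _ _ ha => ⟨h _ ha.1, h _ ha.2.1, ha.2.2⟩)

/-- The component of the super-level set. -/
noncomputable def levC (g : Cell d m → ℝ) (b1 : Cell d m) (s : ℝ) : Finset (Cell d m) :=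
  levReach (fun x => s < g x) b1

/-- The component of its complement. -/
noncomputable def levD (g : Cell d m → ℝ) (b0 b1 : Cell d m) (s : ℝ) : Finset (Cell d m) :=
  levReach (fun x => x ∉ levC g b1 s) b0

variable {g : Cell d m → ℝ} {b0 b1 : Cell d m} {s s' : ℝ}

theorem levD_mono (h : s ≤ s') : levD g b0 b1 s ⊆ levD g b0 b1 s' :=
  levReach_mono (fun _ hx hx' => hx (levReach_mono (fun _ hy => lt_of_le_of_lt h hy) b1 hx')) b0

theorem b0_notMem_levC (h0 : g b0 ≤ s) (h1 : s < g b1) : b0 ∉ levC g b1 s := fun h =>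
  absurd (levReach_prop (P := fun x => s < g x) h1 h) (not_lt.2 h0)

theorem levC_subset (h0 : g b0 ≤ s) (h1 : s < g b1) : levC g b1 s ⊆ (levD g b0 b1 s)ᶜ :=
  fun _ hx => Finset.mem_compl.2 fun hx' =>
    levReach_prop (P := fun x => x ∉ levC g b1 s) (b0_notMem_levC h0 h1) hx' hx

theorem levD_exit (h0 : g b0 ≤ s) (h1 : s < g b1) {x y : Cell d m} (hx : x ∈ levD g b0 b1 s)
    (hy : y ∉ levD g b0 b1 s) (hn : Nb x y) : y ∈ levC g b1 s := by
  by_contra hc
  exact hy (levReach_step (P := fun x => x ∉ levC g b1 s) (b0_notMem_levC h0 h1) hx hc hn)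

theorem levF_conn (h0 : g b0 ≤ s) (h1 : s < g b1) : Conn Nb (levD g b0 b1 s)ᶜ b1 := by
  have hC : ∀ y ∈ levC g b1 s, Relation.ReflTransGen
      (fun a a' => a ∈ (levD g b0 b1 s)ᶜ ∧ a' ∈ (levD g b0 b1 s)ᶜ ∧ Nb a a') b1 y := fun y hy =>
    gridMono ((levReach_conn _ b1).2 y hy) fun _ _ ha =>
      ⟨levC_subset h0 h1 ha.1, levC_subset h0 h1 ha.2.1, ha.2.2⟩
  refine ⟨levC_subset h0 h1 (levReach_self _ _), fun y hy => ?_⟩
  refine (conn_univ b1).induction (fun y => y ∈ (levD g b0 b1 s)ᶜ → Relation.ReflTransGen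
      (fun a a' => a ∈ (levD g b0 b1 s)ᶜ ∧ a' ∈ (levD g b0 b1 s)ᶜ ∧ Nb a a') b1 y)
    (fun _ => Relation.ReflTransGen.refl) ?_ y (Finset.mem_univ y) hy
  intro a _ a' _ hn ih ha'
  by_cases ha : a ∈ levD g b0 b1 s
  · exact hC a' (levD_exit h0 h1 ha (Finset.mem_compl.1 ha') hn)
  · exact (ih (Finset.mem_compl.2 ha)).tail ⟨Finset.mem_compl.2 ha, ha', hn⟩

theorem levD_cross (h0 : g b0 ≤ s) (h1 : s < g b1) : ∀ p ∈ bdry (levD g b0 b1 s),
    min (g p.1) (g p.2) ≤ s ∧ s < max (g p.1) (g p.2) := by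
  have key : ∀ x y, x ∈ levD g b0 b1 s → y ∉ levD g b0 b1 s → Nb x y → g x ≤ s ∧ s < g y := by
    intro x y hx hy hn
    have hyC := levD_exit h0 h1 hx hy hn
    refine ⟨?_, levReach_prop (P := fun x => s < g x) h1 hyC⟩
    by_contra hlt
    exact levReach_prop (P := fun x => x ∉ levC g b1 s) (b0_notMem_levC h0 h1) hx
      (levReach_step (P := fun x => s < g x) h1 hyC (not_le.1 hlt) hn.symm)
  intro p hp
  simp only [bdry, Finset.mem_filter, Finset.mem_univ, true_and] at hp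
  by_cases hx : p.1 ∈ levD g b0 b1 s
  · have hy : p.2 ∉ levD g b0 b1 s := fun hy => hp.2 ⟨fun _ => hy, fun _ => hx⟩
    obtain ⟨k1, k2⟩ := key _ _ hx hy (Or.inl hp.1)
    exact ⟨(min_le_left _ _).trans k1, k2.trans_le (le_max_right _ _)⟩
  · have hy : p.2 ∈ levD g b0 b1 s := by
      by_contra hy
      exact hp.2 ⟨fun h => absurd h hx, fun h => absurd h hy⟩
    obtain ⟨k1, k2⟩ := key _ _ hy hx (Or.inr hp.1)
    exact ⟨(min_le_right _ _).trans k1, k2.trans_le (le_max_left _ _)⟩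

theorem lev_cube (hg : ∀ b b', Up b b' → |g b' - g b| ≤ 1) {r : ℕ} (hr : 1 ≤ r) (hrm : r ≤ m)
    (b : Cell d m) : ∃ Q : Finset (Cell d m), Conn Nb Q b ∧ Q.card = r ^ d ∧
      ∀ y ∈ Q, |g y - g b| ≤ d * r := by
  obtain ⟨Q, h1, h2, h3⟩ := exists_subcube hr hrm b
  refine ⟨Q, h1, h2, fun y hy => (grid_lip hg y b).trans ?_⟩
  calc _ ≤ ∑ _j : Fin d, (r : ℝ) := by
        refine Finset.sum_le_sum fun j _ => ?_
        obtain ⟨k1, k2⟩ := h3 y hy j
        have k1' : ((y j : ℕ) : ℝ) < (b j : ℕ) + r := by exact_mod_cast k1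
        have k2' : ((b j : ℕ) : ℝ) < (y j : ℕ) + r := by exact_mod_cast k2
        rw [abs_le]
        constructor <;> linarith
    _ = d * r := by simp

end LevelsAux

theorem levels {d m : ℕ} (hd : 1 ≤ d) (g : Cell d m → ℝ)
    (hg : ∀ b b', Up b b' → |g b' - g b| ≤ 1) (b0 b1 : Cell d m) {r : ℕ} (hr : 1 ≤ r)
    (hrm : r ≤ m) (ht : (5 * d * r : ℝ) ≤ g b1 - g b0) :
    ∃ (b : Cell d m) (s0 : ℝ) (U : ℝ → Finset (Cell d m)),
      (b = b0 ∨ b = b1) ∧ Cuts g r b s0 U := by
  have hd' : (1 : ℝ) ≤ d := by exact_mod_cast hd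
  have hr' : (1 : ℝ) ≤ r := by exact_mod_cast hr
  have hdr : (r : ℝ) ≤ d * r := by nlinarith
  set s1 : ℝ := (g b0 + g b1) / 2 with hs1
  have hcard : ∀ U : Finset (Cell d m), U.card + Uᶜ.card = m ^ d := by
    intro U
    rw [Finset.card_add_card_compl]
    simp
  by_cases hc : 2 * (levD g b0 b1 s1)ᶜ.card ≤ m ^ d
  · refine ⟨b1, s1, fun s => (levD g b0 b1 s)ᶜ, Or.inr rfl, ?_⟩
    have h0 : ∀ s ∈ Set.Ico s1 (s1 + r), g b0 ≤ s := fun s hs => by
      have := hs.1; linarith
    have h1 : ∀ s ∈ Set.Ico s1 (s1 + r), s < g b1 := fun s hs => by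
      have := hs.2; linarith
    refine ⟨fun s s' _ _ => ?_, fun s hs => levF_conn (h0 s hs) (h1 s hs), fun s _ => ⟨b0, ?_⟩,
      fun s hs => ?_, fun s hs => ?_, fun s hs => ?_⟩
    · rcases le_total s s' with h | h
      · exact Or.inr (Finset.compl_subset_compl.2 (levD_mono h))
      · exact Or.inl (Finset.compl_subset_compl.2 (levD_mono h))
    · rw [compl_compl]
      exact levReach_conn _ _
    · obtain ⟨Q, k1, k2, k3⟩ := lev_cube hg hr hrm b1
      rw [← k2]
      refine Finset.card_le_card ((subset_levReach k1 fun y hy => ?_).trans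
        (levC_subset (h0 s hs) (h1 s hs)))
      have := (abs_le.1 (k3 y hy)).1
      have := hs.2
      linarith
    · have := Finset.card_le_card (Finset.compl_subset_compl.2
        (levD_mono (g := g) (b0 := b0) (b1 := b1) hs.1))
      omega
    · rw [bdry_compl]
      exact levD_cross (h0 s hs) (h1 s hs)
  · refine ⟨b0, s1 - r, fun s => levD g b0 b1 s, Or.inl rfl, ?_⟩
    have h0 : ∀ s ∈ Set.Ico (s1 - r) (s1 - r + r), g b0 ≤ s := fun s hs => by
      have := hs.1; linarith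
    have h1 : ∀ s ∈ Set.Ico (s1 - r) (s1 - r + r), s < g b1 := fun s hs => by
      have := hs.2; linarith
    refine ⟨fun s s' _ _ => ?_, fun s _ => levReach_conn _ _,
      fun s hs => ⟨b1, levF_conn (h0 s hs) (h1 s hs)⟩,
      fun s hs => ?_, fun s hs => ?_, fun s hs => levD_cross (h0 s hs) (h1 s hs)⟩
    · rcases le_total s s' with h | h
      · exact Or.inl (levD_mono h)
      · exact Or.inr (levD_mono h)
    · obtain ⟨Q, k1, k2, k3⟩ := lev_cube hg hr hrm b0
      rw [← k2]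
      refine Finset.card_le_card (subset_levReach k1 fun y hy hyC => ?_)
      have := levReach_prop (P := fun x => s < g x) (h1 s hs) hyC
      have := (abs_le.1 (k3 y hy)).2
      have := hs.1
      linarith
    · have := Finset.card_le_card (levD_mono (g := g) (b0 := b0) (b1 := b1)
        (show s ≤ s1 by have := hs.2; linarith))
      have := hcard (levD g b0 b1 s1)
      omega

end Pool.Agent.Lib.MP_adb013_pr
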