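import Pool.Agent.Lib.MP_adb013_pr.Marg

set_option autoImplicit false
set_option linter.unusedSectionVars false

open MeasureTheory
open scoped ENNReal

namespace Pool.Agent.Lib.MP_adb013_pr

variable {V : Type} [DecidableEq V] [Fintype V]

omit [DecidableEq V] [Fintype V] in
theorem isClosed_edge_mu (x y : V) : IsClosed {ψ : V → ℝ | |ψ x - ψ y| ≤ 1} :=
  isClosed_le (by fun_prop) continuous_const

theorem measurableSet_pin_mu (o : V) : MeasurableSet {ψ : V → ℝ | 0 ≤ ψ o ∧ ψ o ≤ 1} :=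
  ((isClosed_le continuous_const (continuous_apply o)).inter
    (isClosed_le (continuous_apply o) continuous_const)).measurableSet

theorem measurableSet_Lip (A : V → V → Prop) : MeasurableSet {ψ : V → ℝ | Lip A ψ} := by
  have : {ψ : V → ℝ | Lip A ψ} = ⋂ x, ⋂ y, ⋂ (_ : A x y), {ψ : V → ℝ | |ψ x - ψ y| ≤ 1} := by
    ext ψ; simp [Lip]
  rw [this]
  exact (isClosed_iInter fun x => isClosed_iInter fun y => isClosed_iInter fun _ =>
    isClosed_edge_mu x y).measurableSet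

theorem measurableSet_LipOn (A : V → V → Prop) (I : Finset V) :
    MeasurableSet {ψ : V → ℝ | LipOn A I ψ} := by
  have : {ψ : V → ℝ | LipOn A I ψ} =
      ⋂ x, ⋂ y, ⋂ (_ : A x y), ⋂ (_ : x ∈ I ∨ y ∈ I), {ψ : V → ℝ | |ψ x - ψ y| ≤ 1} := by
    ext ψ; simp only [LipOn, Set.mem_ofPred_eq, Set.mem_iInter]
  rw [this]
  exact (isClosed_iInter fun x => isClosed_iInter fun y => isClosed_iInter fun _ =>
    isClosed_iInter fun _ => isClosed_edge_mu x y).measurableSet

theorem measurableSet_LipOff (A : V → V → Prop) (I : Finset V) :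
    MeasurableSet {ψ : V → ℝ | LipOff A I ψ} := by
  have : {ψ : V → ℝ | LipOff A I ψ} =
      ⋂ x, ⋂ y, ⋂ (_ : A x y), ⋂ (_ : x ∉ I), ⋂ (_ : y ∉ I),
        {ψ : V → ℝ | |ψ x - ψ y| ≤ 1} := by
    ext ψ; simp only [LipOff, Set.mem_ofPred_eq, Set.mem_iInter]
  rw [this]
  exact (isClosed_iInter fun x => isClosed_iInter fun y => isClosed_iInter fun _ =>
    isClosed_iInter fun _ => isClosed_iInter fun _ => isClosed_edge_mu x y).measurableSet

theorem measurableSet_Pinned (A : V → V → Prop) (o : V) :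
    MeasurableSet {ψ : V → ℝ | Pinned A o ψ} := by
  have : {ψ : V → ℝ | Pinned A o ψ} =
      {ψ : V → ℝ | 0 ≤ ψ o ∧ ψ o ≤ 1} ∩ {ψ : V → ℝ | Lip A ψ} := by
    ext ψ; simp only [Pinned, Set.mem_ofPred_eq, Set.mem_inter_iff, and_assoc]
  rw [this]
  exact (measurableSet_pin_mu o).inter (measurableSet_Lip A)

theorem measurableSet_Btw (A : V → V → Prop) (v u u' : V) :
    MeasurableSet {ψ : V → ℝ | Btw A v u u' ψ} := by
  have : {ψ : V → ℝ | Btw A v u u' ψ} = ⋂ w, ⋂ (_ : A v w),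
      ({ψ : V → ℝ | min (ψ u) (ψ u') ≤ ψ w} ∩ {ψ : V → ℝ | ψ w ≤ max (ψ u) (ψ u')}) := by
    ext ψ; simp only [Btw, Set.mem_ofPred_eq, Set.mem_iInter, Set.mem_inter_iff]
  rw [this]
  exact (isClosed_iInter fun w => isClosed_iInter fun _ =>
    (isClosed_le (by fun_prop) (by fun_prop)).inter
      (isClosed_le (by fun_prop) (by fun_prop))).measurableSet

theorem measurable_Zl (A : V → V → Prop) (I : Finset V) : Measurable (Zl A I) := by
  exact measurable_marg I (measurable_ind (measurableSet_LipOn A I))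

theorem measurable_Zb (A : V → V → Prop) (I : Finset V) (v u u' : V) :
    Measurable (Zb A I v u u') := by
  exact measurable_marg I (measurable_ind
    ((measurableSet_LipOn A I).inter (measurableSet_Btw A v u u')))

omit [Fintype V] in
theorem lip_iff (A : V → V → Prop) (I : Finset V) (ψ : V → ℝ) :
    Lip A ψ ↔ LipOn A I ψ ∧ LipOff A I ψ := by
  constructor
  · intro h
    exact ⟨fun x y hxy _ => h x y hxy, fun x y hxy _ _ => h x y hxy⟩
  · rintro ⟨h1, h2⟩ x y hxy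
    by_cases hx : x ∈ I
    · exact h1 x y hxy (Or.inl hx)
    · by_cases hy : y ∈ I
      · exact h1 x y hxy (Or.inr hy)
      · exact h2 x y hxy hx hy

omit [Fintype V] in
theorem indep_lipOff (A : V → V → Prop) (I : Finset V) : Indep I (LipOff A I) := by
  refine indep_of_imp fun x y hxy h a b hab ha hb => ?_
  rw [← hxy a ha, ← hxy b hb]
  exact h a b hab ha hb

omit [Fintype V] in
theorem lipOn_biUnion {ι : Type} (A : V → V → Prop) (B : Finset ι) (I : ι → Finset V)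
    (ψ : V → ℝ) : LipOn A (B.biUnion I) ψ ↔ ∀ b ∈ B, LipOn A (I b) ψ := by
  constructor
  · intro h b hb x y hxy hI
    refine h x y hxy ?_
    rcases hI with hI | hI
    · exact Or.inl (Finset.mem_biUnion.2 ⟨b, hb, hI⟩)
    · exact Or.inr (Finset.mem_biUnion.2 ⟨b, hb, hI⟩)
  · intro h x y hxy hI
    rcases hI with hI | hI
    · obtain ⟨b, hb, hI⟩ := Finset.mem_biUnion.1 hI
      exact h b hb x y hxy (Or.inl hI)
    · obtain ⟨b, hb, hI⟩ := Finset.mem_biUnion.1 hI
      exact h b hb x y hxy (Or.inr hI)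

omit [Fintype V] in
theorem LipOn.mid {A : V → V → Prop} {I : Finset V} {x y : V → ℝ} (hx : LipOn A I x)
    (hy : LipOn A I y) : LipOn A I (mid x y) := by
  intro a b hab hI
  have h1 := abs_le.1 (hx a b hab hI)
  have h2 := abs_le.1 (hy a b hab hI)
  simp only [Pool.Agent.Lib.MP_adb013_pr.mid]
  rw [abs_le]
  constructor <;> linarith [h1.1, h1.2, h2.1, h2.2]

omit [Fintype V] in
theorem LipOff.mid {A : V → V → Prop} {I : Finset V} {x y : V → ℝ} (hx : LipOff A I x)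
    (hy : LipOff A I y) : LipOff A I (mid x y) := by
  intro a b hab ha hb
  have h1 := abs_le.1 (hx a b hab ha hb)
  have h2 := abs_le.1 (hy a b hab ha hb)
  simp only [Pool.Agent.Lib.MP_adb013_pr.mid]
  rw [abs_le]
  constructor <;> linarith [h1.1, h1.2, h2.1, h2.2]

omit [Fintype V] in
theorem LipOn.convex {A : V → V → Prop} {I : Finset V} {x y : V → ℝ} (hx : LipOn A I x)
    (hy : LipOn A I y) {θ : ℝ} (h0 : 0 ≤ θ) (h1 : θ ≤ 1) :
    LipOn A I fun i => (1 - θ) * x i + θ * y i := by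
  intro a b hab hI
  have h1' := abs_le.1 (hx a b hab hI)
  have h2 := abs_le.1 (hy a b hab hI)
  have h3 : 0 ≤ 1 - θ := by linarith
  rw [abs_le]
  constructor <;> nlinarith [h1'.1, h1'.2, h2.1, h2.2, mul_le_mul_of_nonneg_left h1'.1 h3,
    mul_le_mul_of_nonneg_left h1'.2 h3, mul_le_mul_of_nonneg_left h2.1 h0,
    mul_le_mul_of_nonneg_left h2.2 h0]

theorem mu_apply (A : V → V → Prop) (o : V) (E : Set (V → ℝ)) :
    mu A o E = volume {ψ | Pinned A o ψ ∧ ψ ∈ E} := by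
  unfold mu
  rw [Measure.restrict_apply' (measurableSet_Pinned A o)]
  refine congrArg _ ?_
  ext ψ
  simp only [Set.mem_inter_iff, Set.mem_ofPred_eq, and_comm]

theorem mu_mono_lip (A : V → V → Prop) (o : V) {E E' : Set (V → ℝ)}
    (h : ∀ ψ, Lip A ψ → ψ ∈ E → ψ ∈ E') : mu A o E ≤ mu A o E' := by
  rw [mu_apply, mu_apply]
  exact measure_mono fun ψ hψ => ⟨hψ.1, h ψ hψ.1.2.2 hψ.2⟩

theorem lintegral_mu (A : V → V → Prop) (o : V) (f : (V → ℝ) → ℝ≥0∞) :
    ∫⁻ ψ, f ψ ∂(mu A o) = ∫⁻ ψ, ind (Pinned A o) ψ * f ψ := by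
  unfold mu
  rw [← lintegral_indicator (measurableSet_Pinned A o)]
  refine lintegral_congr fun ψ => ?_
  by_cases h : Pinned A o ψ
  · rw [ind_pos h, one_mul, Set.indicator_of_mem (by exact h)]
  · rw [ind_neg h, zero_mul, Set.indicator_of_notMem (by exact h)]

theorem one_le_mu_univ (A : V → V → Prop) (o : V) : 1 ≤ mu A o Set.univ := by
  rw [mu_apply]
  have h1 : volume (Set.Icc (fun _ : V => (0 : ℝ)) (fun _ => 1)) = 1 := by
    rw [Real.volume_Icc_pi]; simp
  rw [← h1]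
  refine measure_mono fun ψ hψ => ⟨⟨hψ.1 o, hψ.2 o, fun x y _ => ?_⟩, Set.mem_univ _⟩
  have := hψ.1 x
  have := hψ.2 x
  have := hψ.1 y
  have := hψ.2 y
  rw [abs_le]
  constructor <;> linarith

theorem smear_mu (f : (V → ℝ) → ℝ≥0∞) (hf : Measurable f) (w : V) (k : ℝ → ℝ → ℝ≥0∞)
    (hk : Measurable fun p : ℝ × ℝ => k p.1 p.2) (h1 : ∀ t, ∫⁻ s, k t s = 1) :
    ∫⁻ s, ∫⁻ ψ, f ψ * k (ψ w) s = ∫⁻ ψ, f ψ := by
  rw [lintegral_lintegral_swap]
  · refine lintegral_congr fun ψ => ?_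
    have hm : Measurable fun s => k (ψ w) s := hk.comp (measurable_const.prodMk measurable_id)
    rw [lintegral_const_mul _ hm, h1, mul_one]
  · refine Measurable.aemeasurable ?_
    have hm : Measurable fun a : ℝ × (V → ℝ) => k (a.2 w) a.1 :=
      hk.comp (f := fun a : ℝ × (V → ℝ) => (a.2 w, a.1))
        (((measurable_pi_apply w).comp measurable_snd).prodMk measurable_fst)
    exact (hf.comp measurable_snd).mul hm

/-- For events invariant under adding constants the pinning vertex is irrelevant. -/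
theorem mu_pin (A : V → V → Prop) (o o' : V) {E : Set (V → ℝ)} (hE : MeasurableSet E)
    (hs : ShiftInv E) : mu A o E = mu A o' E := by
  let χ : ℝ → ℝ≥0∞ := ind fun t : ℝ => 0 ≤ t ∧ t ≤ 1
  have hχ : Measurable χ := measurable_ind (by exact measurableSet_Icc (a := (0 : ℝ)) (b := 1))
  have hχ1 : ∫⁻ t, χ t = 1 := by
    rw [lintegral_ind _ (by exact measurableSet_Icc (a := (0 : ℝ)) (b := 1))]
    have : {x : ℝ | 0 ≤ x ∧ x ≤ 1} = Set.Icc 0 1 := rfl
    rw [this, Real.volume_Icc]; simp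
  let S : (V → ℝ) → ℝ≥0∞ := ind fun ψ => Lip A ψ ∧ ψ ∈ E
  have hS : Measurable S := measurable_ind ((measurableSet_Lip A).inter hE)
  have hSs : ∀ (ψ : V → ℝ) (c : ℝ), S (fun x => ψ x + c) = S ψ := by
    intro ψ c
    refine ind_congr ⟨fun h => ⟨fun x y hxy => ?_, ?_⟩, fun h => ⟨fun x y hxy => ?_, ?_⟩⟩
    · have := h.1 x y hxy
      simpa only [add_sub_add_right_eq_sub] using this
    · have := hs _ (-c) h.2
      simpa only [add_neg_cancel_right] using this
    · have := h.1 x y hxy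
      simpa only [add_sub_add_right_eq_sub] using this
    · exact hs _ c h.2
  have hmu : ∀ w : V, mu A w E = ∫⁻ ψ, S ψ * χ (ψ w) := by
    intro w
    rw [mu_apply, ← lintegral_ind _ (by exact (measurableSet_Pinned A w).inter hE)]
    refine lintegral_congr fun ψ => ?_
    by_cases h1 : Lip A ψ ∧ ψ ∈ E
    · by_cases h2 : 0 ≤ ψ w ∧ ψ w ≤ 1
      · have e1 : S ψ = 1 := ind_pos h1
        have e2 : χ (ψ w) = 1 := ind_pos h2
        rw [e1, e2, mul_one]
        exact ind_pos (p := fun ψ => Pinned A w ψ ∧ ψ ∈ E) ⟨⟨h2.1, h2.2, h1.1⟩, h1.2⟩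
      · have e2 : χ (ψ w) = 0 := ind_neg h2
        rw [e2, mul_zero]
        exact ind_neg (p := fun ψ => Pinned A w ψ ∧ ψ ∈ E) fun h => h2 ⟨h.1.1, h.1.2.1⟩
    · have e1 : S ψ = 0 := ind_neg h1
      rw [e1, zero_mul]
      exact ind_neg (p := fun ψ => Pinned A w ψ ∧ ψ ∈ E) fun h => h1 ⟨h.1.2.2, h.2⟩
  rw [hmu o, hmu o']
  have e1 := smear_mu (fun ψ => S ψ * χ (ψ o)) (hS.mul (hχ.comp (measurable_pi_apply o))) o'
    (fun t s => χ (t - s)) (hχ.comp (measurable_fst.sub measurable_snd))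
    (fun t => by rw [lintegral_sub_left_eq_self χ t, hχ1])
  have e2 := smear_mu (fun ψ => S ψ * χ (ψ o')) (hS.mul (hχ.comp (measurable_pi_apply o'))) o
    (fun t s => χ (t + s)) (hχ.comp (measurable_fst.add measurable_snd))
    (fun t => by rw [lintegral_add_left_eq_self χ t, hχ1])
  rw [← e1, ← e2]
  refine lintegral_congr fun s => ?_
  rw [← lintegral_add_right_eq_self (μ := (volume : Measure (V → ℝ)))
    (fun ψ => S ψ * χ (ψ o) * χ (ψ o' - s)) (fun _ => s)]
  refine lintegral_congr fun ψ => ?_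
  have e3 : S (ψ + fun _ => s) = S ψ := hSs ψ s
  simp only [e3, Pi.add_apply, add_sub_cancel_right]
  ring

/-- Symmetry under `ψ ↦ 1 - ψ`. -/
theorem mu_neg (A : V → V → Prop) (o : V) {E : Set (V → ℝ)} (hE : MeasurableSet E) :
    mu A o {ψ | (fun x => 1 - ψ x) ∈ E} = mu A o E := by
  rw [mu_apply, mu_apply]
  have hp : MeasurePreserving (fun ψ : V → ℝ => (fun _ => (1 : ℝ)) - ψ) volume volume :=
    Measure.measurePreserving_sub_left _ _
  rw [← hp.measure_preimage (s := {ψ | Pinned A o ψ ∧ ψ ∈ E})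
    (by exact ((measurableSet_Pinned A o).inter hE).nullMeasurableSet)]
  refine congrArg _ ?_
  ext ψ
  have e : ((fun _ => (1 : ℝ)) - ψ) = fun x => 1 - ψ x := rfl
  simp only [Set.mem_ofPred_eq, Set.mem_preimage, e]
  refine and_congr_left fun _ => ?_
  have hl : Lip A ψ ↔ Lip A fun x => 1 - ψ x := by
    refine forall_congr' fun x => forall_congr' fun y => imp_congr_right fun _ => ?_
    rw [show 1 - ψ x - (1 - ψ y) = -(ψ x - ψ y) by ring, abs_neg]
  simp only [Pinned, ← hl]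
  constructor
  · rintro ⟨h1, h2, h3⟩
    exact ⟨by linarith, by linarith, h3⟩
  · rintro ⟨h1, h2, h3⟩
    exact ⟨by linarith, by linarith, h3⟩

theorem step_mu (A : V → V → Prop) (o : V) (I : Finset V) (K g g' : (V → ℝ) → ℝ≥0∞)
    (hK : Measurable K) (hg : Measurable g) (hg' : Measurable g') (ho : o ∉ I) (hKi : Indep I K)
    (hle : ∀ η, marg I (fun ψ => ind (LipOn A I) ψ * g ψ) η ≤
      marg I (fun ψ => ind (LipOn A I) ψ * g' ψ) η) :
    ∫⁻ ψ, K ψ * g ψ ∂(mu A o) ≤ ∫⁻ ψ, K ψ * g' ψ ∂(mu A o) := by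
  let c : (V → ℝ) → ℝ≥0∞ := fun ψ =>
    ind (fun ψ : V → ℝ => (0 ≤ ψ o ∧ ψ o ≤ 1) ∧ LipOff A I ψ) ψ * K ψ
  have hc : Measurable c :=
    (measurable_ind ((measurableSet_pin_mu o).inter (measurableSet_LipOff A I))).mul hK
  have hci : Indep I c := by
    intro x y hxy
    show _ * K x = _ * K y
    rw [hKi x y hxy]
    refine congrArg (· * K y) (ind_congr ?_)
    show (0 ≤ x o ∧ x o ≤ 1) ∧ LipOff A I x ↔ (0 ≤ y o ∧ y o ≤ 1) ∧ LipOff A I y
    rw [hxy o ho, indep_lipOff A I x y hxy]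
  have hL := measurable_ind (measurableSet_LipOn A I)
  have e : ∀ f : (V → ℝ) → ℝ≥0∞, ∫⁻ ψ, K ψ * f ψ ∂(mu A o) =
      ∫⁻ ψ, c ψ * (ind (LipOn A I) ψ * f ψ) := by
    intro f
    rw [lintegral_mu]
    refine lintegral_congr fun ψ => ?_
    have : ind (Pinned A o) ψ =
        ind (fun ψ : V → ℝ => (0 ≤ ψ o ∧ ψ o ≤ 1) ∧ LipOff A I ψ) ψ * ind (LipOn A I) ψ := by
      rw [ind_mul]
      refine ind_congr ?_
      simp only [Pinned, lip_iff A I ψ]
      tauto
    rw [this]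
    simp only [c]
    ring
  rw [e g, e g']
  refine lintegral_le_of_marg_le I (hc.mul (hL.mul hg)) (hc.mul (hL.mul hg')) fun x => ?_
  rw [marg_mul_indep I (f := fun ψ => ind (LipOn A I) ψ * g ψ) hci (hL.mul hg),
    marg_mul_indep I (f := fun ψ => ind (LipOn A I) ψ * g' ψ) hci (hL.mul hg')]
  exact mul_le_mul_right (hle x) _

/-- Markov comparison: local factors may be replaced one at a time. -/
theorem mu_prod_le {ι : Type} [DecidableEq ι] (A : V → V → Prop) (o : V) (B : Finset ι)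
    (I : ι → Finset V) (G G' : ι → (V → ℝ) → ℝ≥0∞) (H : (V → ℝ) → ℝ≥0∞)
    (hG : ∀ b ∈ B, Measurable (G b)) (hG' : ∀ b ∈ B, Measurable (G' b)) (hH : Measurable H)
    (ho : ∀ b ∈ B, o ∉ I b)
    (hind : ∀ b ∈ B, ∀ b' ∈ B, b ≠ b' → Indep (I b) (G b') ∧ Indep (I b) (G' b'))
    (hHi : ∀ b ∈ B, Indep (I b) H)
    (hle : ∀ b ∈ B, ∀ η, marg (I b) (fun ψ => ind (LipOn A (I b)) ψ * G b ψ) η ≤
      marg (I b) (fun ψ => ind (LipOn A (I b)) ψ * G' b ψ) η) :
    ∫⁻ ψ, H ψ * ∏ b ∈ B, G b ψ ∂(mu A o) ≤ ∫⁻ ψ, H ψ * ∏ b ∈ B, G' b ψ ∂(mu A o) := by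
  induction B using Finset.induction_on generalizing H with
  | empty => simp
  | insert a B ha ih =>
    have hne : ∀ b ∈ B, b ≠ a := fun b hb e => ha (e ▸ hb)
    have hm := Finset.mem_insert_self a B
    have hs : ∀ b ∈ B, b ∈ insert a B := fun b hb => Finset.mem_insert_of_mem hb
    simp only [Finset.prod_insert ha]
    have h1 := ih (fun ψ => H ψ * G a ψ) (fun b hb => hG b (hs b hb))
      (fun b hb => hG' b (hs b hb)) (hH.mul (hG a hm)) (fun b hb => ho b (hs b hb))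
      (fun b hb b' hb' => hind b (hs b hb) b' (hs b' hb'))
      (fun b hb x y hxy => by
        show H x * G a x = H y * G a y
        rw [hHi b (hs b hb) x y hxy, (hind b (hs b hb) a hm (hne b hb)).1 x y hxy])
      (fun b hb => hle b (hs b hb))
    have h2 := step_mu A o (I a) (fun ψ => H ψ * ∏ b ∈ B, G' b ψ) (G a) (G' a)
      (hH.mul (Finset.measurable_prod B fun b hb => hG' b (hs b hb))) (hG a hm) (hG' a hm)
      (ho a hm)
      (fun x y hxy => by
        show H x * ∏ b ∈ B, G' b x = H y * ∏ b ∈ B, G' b y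
        rw [hHi a hm x y hxy]
        refine congrArg _ (Finset.prod_congr rfl fun b hb => ?_)
        exact (hind a hm b (hs b hb) (hne b hb).symm).2 x y hxy)
      (hle a hm)
    calc _ = ∫⁻ ψ, H ψ * G a ψ * ∏ b ∈ B, G b ψ ∂(mu A o) :=
          lintegral_congr fun ψ => by ring
      _ ≤ ∫⁻ ψ, H ψ * G a ψ * ∏ b ∈ B, G' b ψ ∂(mu A o) := h1
      _ = ∫⁻ ψ, (H ψ * ∏ b ∈ B, G' b ψ) * G a ψ ∂(mu A o) :=
          lintegral_congr fun ψ => by ring
      _ ≤ ∫⁻ ψ, (H ψ * ∏ b ∈ B, G' b ψ) * G' a ψ ∂(mu A o) := h2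
      _ = _ := lintegral_congr fun ψ => by ring

end Pool.Agent.Lib.MP_adb013_pr
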