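import Pool.Agent.Lib.MP_adb013_pr.PL
import Pool.Agent.Lib.MP_adb013_pr.Mu

set_option autoImplicit false
set_option linter.unusedSectionVars false

open MeasureTheory
open scoped ENNReal

namespace Pool.Agent.Lib.MP_adb013_pr

variable {V : Type} [DecidableEq V] [Fintype V]

omit [Fintype V] in
theorem ind_mid_link (A : V → V → Prop) (I : Finset V) (x y : V → ℝ) :
    ind (LipOn A I) x * ind (LipOn A I) y ≤ ind (LipOn A I) (mid x y) ^ 2 := by
  by_cases hx : LipOn A I x
  · by_cases hy : LipOn A I y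
    · rw [ind_pos hx, ind_pos hy, ind_pos (hx.mid hy)]; simp
    · rw [ind_neg hy, mul_zero]; exact zero_le
  · rw [ind_neg hx, zero_mul]; exact zero_le

/-- Log-concavity of the local partition function. -/
theorem Zl_logconcave (A : V → V → Prop) (I : Finset V) (x y : V → ℝ) :
    Zl A I x * Zl A I y ≤ Zl A I (mid x y) ^ 2 := by
  have hL := measurable_ind (measurableSet_LipOn A I)
  exact pl_marg I hL hL hL x y fun x' y' _ _ => ind_mid_link A I x' y'

theorem ind_mono_link {Ω Ω' : Type} {p : Ω → Prop} {q : Ω' → Prop} {x : Ω} {y : Ω'}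
    (h : p x → q y) : ind p x ≤ ind q y := by
  by_cases hp : p x
  · rw [ind_pos hp, ind_pos (h hp)]
  · rw [ind_neg hp]; exact zero_le

theorem site_upper_link (A : V → V → Prop) (I : Finset V) (v u u' : V) (hv : v ∈ I)
    (huv : u ≠ v) (huv' : u' ≠ v) (hvu : A v u) (hvu' : A v u') (x : V → ℝ) :
    marg {v} (ind (LipOn A I)) x ≤ ENNReal.ofReal (2 - |x u - x u'|) := by
  rw [marg_singleton]
  have h1 : ∫⁻ a : ℝ, ind (LipOn A I) (Function.update x v a) ≤
      ∫⁻ a : ℝ, ind (fun a => a ∈ Set.Icc (max (x u) (x u') - 1) (min (x u) (x u') + 1)) a := by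
    refine lintegral_mono fun a => ind_mono_link fun h => ?_
    have h1 := abs_le.1 (h v u hvu (Or.inl hv))
    have h2 := abs_le.1 (h v u' hvu' (Or.inl hv))
    rw [Function.update_self, Function.update_of_ne huv] at h1
    rw [Function.update_self, Function.update_of_ne huv'] at h2
    constructor
    · rw [sub_le_iff_le_add, max_le_iff]
      constructor <;> linarith [h1.1, h2.1]
    · rw [← sub_le_iff_le_add, le_min_iff]
      constructor <;> linarith [h1.2, h2.2]
  refine h1.trans (le_of_eq ?_)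
  rw [lintegral_ind _ (by exact measurableSet_Icc)]
  show volume (Set.Icc _ _) = _
  rw [Real.volume_Icc, ← max_sub_min_eq_abs']
  refine congrArg _ ?_
  ring

theorem site_lower_link (A : V → V → Prop) (hA : ∀ x y, A x y → A y x) (I : Finset V)
    (v u u' : V) (hirr : ¬ A v v) (z w : V → ℝ) (hw : Agree {v} w z) (hL : LipOn A I w)
    (hB : Btw A v u u' z) :
    ENNReal.ofReal (2 - |z u - z u'|) ≤ marg {v} (ind (LipOn A I)) z := by
  rw [marg_singleton]
  have h1 : ∫⁻ a : ℝ, ind (fun a => a ∈ Set.Icc (max (z u) (z u') - 1) (min (z u) (z u') + 1)) a ≤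
      ∫⁻ a : ℝ, ind (LipOn A I) (Function.update z v a) := by
    refine lintegral_mono fun a => ind_mono_link fun h => ?_
    have hn : ∀ q, A v q → |a - Function.update z v a q| ≤ 1 := by
      intro q hq
      have hqv : q ≠ v := fun e => hirr (e ▸ hq)
      rw [Function.update_of_ne hqv, abs_le]
      have := hB q hq
      constructor <;> linarith [h.1, h.2, this.1, this.2]
    intro q r hqr hI
    by_cases hq : q = v
    · subst hq
      rw [Function.update_self]
      exact hn r hqr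
    · by_cases hr : r = v
      · subst hr
        rw [Function.update_self, abs_sub_comm]
        exact hn q (hA _ _ hqr)
      · rw [Function.update_of_ne hq, Function.update_of_ne hr, ← hw q (by simpa using hq),
          ← hw r (by simpa using hr)]
        exact hL q r hqr hI
  refine le_trans (le_of_eq ?_) h1
  rw [lintegral_ind _ (by exact measurableSet_Icc)]
  show _ = volume (Set.Icc _ _)
  rw [Real.volume_Icc, ← max_sub_min_eq_abs']
  refine congrArg _ ?_
  ring

theorem real_link (a b D : ℝ) (ha : |a| ≤ 2) (hb : |b| ≤ 2) (hD : D = (a - b) / 2) :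
    (2 - |a|) * (2 - |b|) ≤ ((1 - D ^ 2 / 8) * (2 - |(a + b) / 2|)) ^ 2 := by
  have h1 : (2 - |a|) * (2 - |b|) ≤ (2 - |(a + b) / 2|) ^ 2 - D ^ 2 := by
    rcases le_total 0 ((a + b) / 2) with h | h
    · rw [abs_of_nonneg h]
      have : (2 - |a|) * (2 - |b|) ≤ (2 - a) * (2 - b) :=
        mul_le_mul (by linarith [le_abs_self a]) (by linarith [le_abs_self b]) (by linarith)
          (by linarith [le_abs_self a])
      refine this.trans (le_of_eq ?_)
      rw [hD]; ring
    · rw [abs_of_nonpos h]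
      have : (2 - |a|) * (2 - |b|) ≤ (2 + a) * (2 + b) :=
        mul_le_mul (by linarith [neg_abs_le a]) (by linarith [neg_abs_le b]) (by linarith)
          (by linarith [neg_abs_le a])
      refine this.trans (le_of_eq ?_)
      rw [hD]; ring
  have h2 : |(a + b) / 2| ≤ 2 := by
    have := abs_le.1 ha
    have := abs_le.1 hb
    rw [abs_le]; constructor <;> linarith
  have h3 : 0 ≤ |(a + b) / 2| := abs_nonneg _
  generalize |(a + b) / 2| = o at *
  have h4 : (2 - o) ^ 2 ≤ 4 := by nlinarith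
  have h5 : (2 - o) ^ 2 * D ^ 2 ≤ 4 * D ^ 2 := mul_le_mul_of_nonneg_right h4 (sq_nonneg D)
  have h6 : 0 ≤ (2 - o) ^ 2 * (D ^ 2) ^ 2 := by positivity
  refine h1.trans ?_
  have e : ((1 - D ^ 2 / 8) * (2 - o)) ^ 2 =
      (2 - o) ^ 2 - (2 - o) ^ 2 * D ^ 2 / 4 + (2 - o) ^ 2 * (D ^ 2) ^ 2 / 64 := by ring
  rw [e]
  linarith

theorem one_site_link (A : V → V → Prop) (hA : ∀ x y, A x y → A y x) (I : Finset V)
    (v u u' : V) (hirr : ¬ A v v) (hv : v ∈ I) (huv : u ≠ v) (huv' : u' ≠ v) (hvu : A v u)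
    (hvu' : A v u') (x y : V → ℝ) (hB : Btw A v u u' (mid x y)) (D : ℝ)
    (hD : D = (x u - y u) / 2 - (x u' - y u') / 2) (hD2 : D ^ 2 ≤ 4) :
    marg {v} (ind (LipOn A I)) x * marg {v} (ind (LipOn A I)) y ≤
      (ENNReal.ofReal (1 - D ^ 2 / 8) * marg {v} (ind (LipOn A I)) (mid x y)) ^ 2 := by
  by_cases hx : marg {v} (ind (LipOn A I)) x = 0
  · rw [hx, zero_mul]; exact zero_le
  by_cases hy : marg {v} (ind (LipOn A I)) y = 0
  · rw [hy, mul_zero]; exact zero_le
  obtain ⟨x', hx', hLx⟩ := exists_of_marg_ne_zero hx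
  obtain ⟨y', hy', hLy⟩ := exists_of_marg_ne_zero hy
  rw [ind_ne_zero] at hLx hLy
  have hb : ∀ z z' : V → ℝ, Agree {v} z' z → LipOn A I z' → |z u - z u'| ≤ 2 := by
    intro z z' hz hL
    have h1 := abs_le.1 (hL v u hvu (Or.inl hv))
    have h2 := abs_le.1 (hL v u' hvu' (Or.inl hv))
    rw [hz u (by simpa using huv)] at h1
    rw [hz u' (by simpa using huv')] at h2
    rw [abs_le]
    constructor <;> linarith [h1.1, h1.2, h2.1, h2.2]
  have ha := hb x x' hx' hLx
  have hb' := hb y y' hy' hLy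
  have hlow := site_lower_link A hA I v u u' hirr (mid x y) (mid x' y') (hx'.mid hy')
    (hLx.mid hLy) hB
  have e : mid x y u - mid x y u' = (x u - x u' + (y u - y u')) / 2 := by
    simp only [mid]; ring
  rw [e] at hlow
  have hr := real_link (x u - x u') (y u - y u') D ha hb' (by rw [hD]; ring)
  have h0 : 0 ≤ 1 - D ^ 2 / 8 := by linarith
  have h2 : 0 ≤ 2 - |(x u - x u' + (y u - y u')) / 2| := by
    have := abs_le.1 ha
    have := abs_le.1 hb'
    rw [sub_nonneg, abs_le]; constructor <;> linarith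
  calc _ ≤ ENNReal.ofReal (2 - |x u - x u'|) * ENNReal.ofReal (2 - |y u - y u'|) :=
        mul_le_mul' (site_upper_link A I v u u' hv huv huv' hvu hvu' x)
          (site_upper_link A I v u u' hv huv huv' hvu hvu' y)
    _ = ENNReal.ofReal ((2 - |x u - x u'|) * (2 - |y u - y u'|)) :=
        (ENNReal.ofReal_mul (by linarith)).symm
    _ ≤ ENNReal.ofReal (((1 - D ^ 2 / 8) * (2 - |(x u - x u' + (y u - y u')) / 2|)) ^ 2) :=
        ENNReal.ofReal_le_ofReal hr
    _ = (ENNReal.ofReal (1 - D ^ 2 / 8) *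
          ENNReal.ofReal (2 - |(x u - x u' + (y u - y u')) / 2|)) ^ 2 := by
        rw [ENNReal.ofReal_pow (mul_nonneg h0 h2), ENNReal.ofReal_mul h0]
    _ ≤ _ := pow_le_pow_left' (mul_le_mul_right hlow _) 2

/-- Quantitative log-concavity across a link `u - v - u'`. -/
theorem link_gain (A : V → V → Prop) (hA : ∀ x y, A x y → A y x) (I : Finset V) (v u u' : V)
    (hirr : ¬ A v v) (hv : v ∈ I) (hu : u ∉ I) (hu' : u' ∉ I) (hvu : A v u) (hvu' : A v u')
    (p : ℝ) (hp0 : 0 ≤ p) (hp1 : p ≤ 1) (x y : V → ℝ)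
    (hfin : Zl A I (mid x y) ≠ ⊤)
    (hgood : ENNReal.ofReal p * Zl A I (mid x y) ≤ Zb A I v u u' (mid x y))
    (hd : |(x u - y u) / 2 - (x u' - y u') / 2| ≤ 2) :
    Zl A I x * Zl A I y ≤ Zl A I (mid x y) ^ 2 *
      ENNReal.ofReal (Real.exp (-(p * ((x u - y u) / 2 - (x u' - y u') / 2) ^ 2 / 4))) := by
  set D : ℝ := (x u - y u) / 2 - (x u' - y u') / 2 with hD
  have hD2 : D ^ 2 ≤ 4 := by
    have := abs_le.1 hd
    nlinarith [this.1, this.2]
  have hL := measurable_ind (measurableSet_LipOn A I)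
  have huv : u ≠ v := fun e => hu (e ▸ hv)
  have huv' : u' ≠ v := fun e => hu' (e ▸ hv)
  let c : (V → ℝ) → ℝ≥0∞ := fun ψ =>
    ind (Btw A v u u') ψ * ENNReal.ofReal (1 - D ^ 2 / 8) + ind (fun ψ => ¬ Btw A v u u' ψ) ψ
  have hc : Measurable c :=
    ((measurable_ind (measurableSet_Btw A v u u')).mul measurable_const).add
      (measurable_ind (measurableSet_Btw A v u u').compl)
  have hc1 : ∀ ψ, Btw A v u u' ψ → c ψ = ENNReal.ofReal (1 - D ^ 2 / 8) := by
    intro ψ h
    simp only [c]
    rw [ind_pos h, ind_neg (p := fun ψ => ¬ Btw A v u u' ψ) (not_not.2 h), one_mul, add_zero]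
  have hc0 : ∀ ψ, ¬ Btw A v u u' ψ → c ψ = 1 := by
    intro ψ h
    simp only [c]
    rw [ind_neg h, ind_pos (p := fun ψ => ¬ Btw A v u u' ψ) h, zero_mul, zero_add]
  have hBi : Indep {v} (Btw A v u u') := by
    refine indep_of_imp fun a b hab h w hw => ?_
    have hwv : w ≠ v := fun e => hirr (e ▸ hw)
    rw [← hab u (by simpa using huv), ← hab u' (by simpa using huv'),
      ← hab w (by simpa using hwv)]
    exact h w hw
  have hci : Indep {v} c := by
    intro a b hab
    by_cases h : Btw A v u u' a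
    · rw [hc1 a h, hc1 b (hBi a b hab ▸ h)]
    · rw [hc0 a h, hc0 b (hBi a b hab ▸ h)]
  let h : (V → ℝ) → ℝ≥0∞ := fun ψ => c ψ * ind (LipOn A I) ψ
  have hh : Measurable h := hc.mul hL
  have hI : I = I.erase v ∪ {v} := by
    ext w
    by_cases hw : w = v
    · simp [hw, hv]
    · simp [hw]
  have hdisj : Disjoint (I.erase v) {v} := by simp
  have hsplit : ∀ f : (V → ℝ) → ℝ≥0∞, Measurable f →
      marg I f = marg (I.erase v) (marg {v} f) := by
    intro f hf
    rw [← marg_union hf hdisj, ← hI]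
  have key : Zl A I x * Zl A I y ≤ marg I h (mid x y) ^ 2 := by
    unfold Zl
    rw [hsplit _ hL, hsplit _ hh]
    refine pl_marg _ (measurable_marg _ hL) (measurable_marg _ hL) (measurable_marg _ hh) x y ?_
    intro x' y' hx' hy'
    rw [marg_mul_indep {v} hci hL]
    by_cases hB : Btw A v u u' (mid x' y')
    · rw [hc1 _ hB]
      have e1 : x' u = x u := hx' u fun hh => hu (Finset.mem_of_mem_erase hh)
      have e2 : x' u' = x u' := hx' u' fun hh => hu' (Finset.mem_of_mem_erase hh)
      have e3 : y' u = y u := hy' u fun hh => hu (Finset.mem_of_mem_erase hh)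
      have e4 : y' u' = y u' := hy' u' fun hh => hu' (Finset.mem_of_mem_erase hh)
      refine one_site_link A hA I v u u' hirr hv huv huv' hvu hvu' x' y' hB D ?_ hD2
      rw [hD, e1, e2, e3, e4]
    · rw [hc0 _ hB, one_mul]
      exact pl_marg {v} hL hL hL x' y' fun a b _ _ => ind_mid_link A I a b
  have hsum : marg I h (mid x y) + ENNReal.ofReal (D ^ 2 / 8) * Zb A I v u u' (mid x y) =
      Zl A I (mid x y) := by
    have hB := measurable_ind ((measurableSet_LipOn A I).inter (measurableSet_Btw A v u u'))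
    unfold Zb Zl
    rw [← marg_mul_indep I (c := fun _ => ENNReal.ofReal (D ^ 2 / 8)) (fun _ _ _ => rfl)
      (by exact hB), ← marg_add I _ hh]
    refine marg_congr_agree I fun ψ _ => ?_
    simp only [h]
    by_cases h1 : LipOn A I ψ
    · by_cases h2 : Btw A v u u' ψ
      · rw [hc1 ψ h2, ind_pos h1,
          ind_pos (p := fun ψ => LipOn A I ψ ∧ Btw A v u u' ψ) ⟨h1, h2⟩, mul_one, mul_one,
          ← ENNReal.ofReal_add (by linarith) (by positivity)]
        simp
      · rw [hc0 ψ h2, ind_pos h1,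
          ind_neg (p := fun ψ => LipOn A I ψ ∧ Btw A v u u' ψ) fun hh => h2 hh.2]
        simp
    · rw [ind_neg h1, ind_neg (p := fun ψ => LipOn A I ψ ∧ Btw A v u u' ψ) fun hh => h1 hh.1]
      simp
  have hq0 : 0 ≤ p * D ^ 2 / 8 := by positivity
  have hq1 : p * D ^ 2 / 8 ≤ 1 := by nlinarith [sq_nonneg D]
  have hle : marg I h (mid x y) ≤
      Zl A I (mid x y) * ENNReal.ofReal (Real.exp (-(p * D ^ 2 / 8))) := by
    have h1 : marg I h (mid x y) + ENNReal.ofReal (p * D ^ 2 / 8) * Zl A I (mid x y) ≤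
        ENNReal.ofReal (1 - p * D ^ 2 / 8) * Zl A I (mid x y) +
          ENNReal.ofReal (p * D ^ 2 / 8) * Zl A I (mid x y) := by
      rw [← add_mul, ← ENNReal.ofReal_add (by linarith) hq0, sub_add_cancel, ENNReal.ofReal_one,
        one_mul]
      refine le_trans ?_ hsum.le
      refine add_le_add le_rfl ?_
      rw [show p * D ^ 2 / 8 = D ^ 2 / 8 * p by ring, ENNReal.ofReal_mul (by positivity),
        mul_assoc]
      exact mul_le_mul_right hgood _
    have h2 := (ENNReal.add_le_add_iff_right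
      (ENNReal.mul_ne_top ENNReal.ofReal_ne_top hfin)).1 h1
    refine h2.trans ?_
    rw [mul_comm]
    refine mul_le_mul_right (ENNReal.ofReal_le_ofReal ?_) _
    have := Real.add_one_le_exp (-(p * D ^ 2 / 8))
    linarith
  refine key.trans ((pow_le_pow_left' hle 2).trans (le_of_eq ?_))
  rw [mul_pow, ← ENNReal.ofReal_pow (Real.exp_pos _).le, ← Real.exp_nat_mul]
  refine congrArg (fun t => _ * ENNReal.ofReal (Real.exp t)) ?_
  push_cast
  ring

end Pool.Agent.Lib.MP_adb013_pr
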