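import Pool.Agent.Lib.MP_adb013_pr.LitDefs
import Pool.Agent.Lib.MP_adb013_pr.Torus

set_option autoImplicit false
set_option linter.unusedSectionVars false

open MeasureTheory
open scoped ENNReal

namespace Pool.Agent.Lib.MP_adb013_pr.Lit

section Pin

variable {V : Type} [Fintype V] [DecidableEq V]

/-- Extension by zero at `o`. -/
def ext0 (o : V) (x : {v : V // v ≠ o} → ℝ) (v : V) : ℝ := if h : v = o then 0 else x ⟨v, h⟩

theorem measurable_ext0 (o : V) : Measurable (ext0 o) := by
  refine measurable_pi_lambda _ fun v => ?_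
  by_cases h : v = o
  · simp only [ext0, dif_pos h]; exact measurable_const
  · simp only [ext0, dif_neg h]; exact measurable_pi_apply _

theorem pin (o : V) {F : Set (V → ℝ)} (hF : MeasurableSet F) :
    volume {ψ : V → ℝ | 0 ≤ ψ o ∧ ψ o ≤ 1 ∧ (fun v => ψ v - ψ o) ∈ F} =
      volume {x : {v : V // v ≠ o} → ℝ | ext0 o x ∈ F} := by
  have h1 : MeasurePreserving
      (MeasurableEquiv.piEquivPiSubtypeProd (fun _ : V => ℝ) (fun v => v = o)) volume
      (volume.prod volume) := by
    convert measurePreserving_piEquivPiSubtypeProd (fun _ : V => (volume : Measure ℝ))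
      (fun v => v = o) using 2
    all_goals first | rfl | (rw [volume_pi]; congr; exact Subsingleton.elim _ _)
  have h2 : MeasurePreserving
      (fun p : ({v : V // v = o} → ℝ) × ({v : V // ¬ v = o} → ℝ) =>
        (id p.1, p.2 - fun _ => p.1 ⟨o, rfl⟩)) (volume.prod volume) (volume.prod volume) := by
    refine MeasurePreserving.skew_product (g := fun (a : {v : V // v = o} → ℝ)
      (y : {v : V // ¬ v = o} → ℝ) => y - fun _ => a ⟨o, rfl⟩) (MeasurePreserving.id volume) ?_ ?_
    · refine measurable_pi_lambda _ fun v => ?_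
      exact ((measurable_pi_apply v).comp measurable_snd).sub
        ((measurable_pi_apply _).comp measurable_fst)
    · exact Filter.Eventually.of_forall fun a => (measurePreserving_sub_right volume _).map_eq
  have h3 := h2.comp h1
  set A : Set ({v : V // v = o} → ℝ) := Set.Icc (fun _ => 0) (fun _ => 1) with hA
  set B : Set ({v : V // ¬ v = o} → ℝ) := {x | ext0 o x ∈ F} with hB
  have hBm : MeasurableSet B := measurable_ext0 o hF
  have hAm : MeasurableSet A := measurableSet_Icc
  have h4 := h3.measure_preimage (s := A ×ˢ B) (hAm.prod hBm).nullMeasurableSet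
  have h5 : volume A = 1 := by rw [hA, Real.volume_Icc_pi]; simp
  rw [Measure.prod_prod, h5, one_mul] at h4
  rw [← h4]
  refine congrArg volume (Set.ext fun ψ => ?_)
  have e : ext0 o ((fun v : {v : V // ¬ v = o} => ψ v) - fun _ => ψ o) = fun v => ψ v - ψ o := by
    funext v
    by_cases h : v = o
    · simp [ext0, h]
    · simp [ext0, h]
  simp only [Set.mem_ofPred_eq, Set.mem_preimage, Function.comp, Set.mem_prod, hA, hB, id,
    Set.mem_Icc, Pi.le_def]
  change _ ↔ ((∀ i : {v : V // v = o}, 0 ≤ ψ i) ∧ ∀ i : {v : V // v = o}, ψ i ≤ 1) ∧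
    ext0 o ((fun v : {v : V // ¬ v = o} => ψ v) - fun _ => ψ o) ∈ F
  rw [e]
  constructor
  · rintro ⟨a, b, c⟩
    exact ⟨⟨fun i => by rw [i.2]; exact a, fun i => by rw [i.2]; exact b⟩, c⟩
  · rintro ⟨⟨a, b⟩, c⟩
    exact ⟨a ⟨o, rfl⟩, b ⟨o, rfl⟩, c⟩

theorem reindex {W : Type} [Fintype W] (e : V ≃ W) {S : Set (V → ℝ)} (hS : MeasurableSet S) :
    volume {ψ : W → ℝ | (fun v => ψ (e v)) ∈ S} = volume S := by
  have h := volume_preserving_arrowCongr' e.symm (MeasurableEquiv.refl ℝ)
    (MeasurePreserving.id volume)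
  rw [← h.measure_preimage hS.nullMeasurableSet]
  rfl

end Pin

section Torus

variable {d : ℕ} {n : ℕ+} {N : ℕ} [NeZero N]

/-- The coordinate bijection. -/
def coordEquiv (hN : N = 2 * (n : ℕ)) :
    Set.Icc (-((n : ℕ) : ℤ) + 1) ((n : ℕ) : ℤ) ≃ ZMod N where
  toFun a := ((a : ℤ) : ZMod N)
  invFun x := ⟨x.valMinAbs, by
    have h := x.valMinAbs_mem_Ioc
    have h2 : (N : ℤ) = 2 * ((n : ℕ) : ℤ) := by exact_mod_cast hN
    rw [h2] at h
    constructor
    · have := h.1; omega
    · have := h.2; omega⟩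
  left_inv a := by
    refine Subtype.ext ((ZMod.valMinAbs_spec _ _).2 ⟨rfl, ?_⟩)
    have h2 : (N : ℤ) = 2 * ((n : ℕ) : ℤ) := by exact_mod_cast hN
    rw [h2]
    have h3 := a.2.1
    have h4 := a.2.2
    constructor <;> omega
  right_inv x := ZMod.coe_valMinAbs x

/-- The vertex bijection. -/
def vtxEquiv (d : ℕ) (hN : N = 2 * (n : ℕ)) : Vtx d n ≃ T d N :=
  Equiv.piCongrRight fun _ => coordEquiv hN

theorem vtxEquiv_apply (hN : N = 2 * (n : ℕ)) (v : Vtx d n) (i : Fin d) :
    vtxEquiv d hN v i = ((v i : ℤ) : ZMod N) := rfl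

theorem vtxEquiv_origin (hN : N = 2 * (n : ℕ)) : vtxEquiv d hN (origin d n) = 0 := by
  funext i
  rw [vtxEquiv_apply]
  simp [origin]

theorem modEq_iff (hN : N = 2 * (n : ℕ)) (a b : ℤ) :
    Int.ModEq (2 * ((n : ℕ) : ℤ)) a b ↔ (a : ZMod N) = (b : ZMod N) := by
  have h2 : (N : ℤ) = 2 * ((n : ℕ) : ℤ) := by exact_mod_cast hN
  rw [← h2, ZMod.intCast_eq_intCast_iff]

theorem eq_add_ev_iff (x y : T d N) (i : Fin d) :
    x = y + ev i ↔ x i = y i + 1 ∧ ∀ j, j ≠ i → x j = y j := by
  constructor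
  · rintro rfl
    refine ⟨by simp [ev], fun j hj => by simp [ev, hj]⟩
  · rintro ⟨h1, h2⟩
    funext j
    by_cases hj : j = i
    · subst hj; simp [ev, h1]
    · simp [ev, hj, h2 j hj]

theorem adj_iff (hN : N = 2 * (n : ℕ)) (v w : Vtx d n) :
    Adj v w ↔ TAdj (vtxEquiv d hN v) (vtxEquiv d hN w) := by
  have hinj : ∀ j, v j = w j ↔ vtxEquiv d hN v j = vtxEquiv d hN w j := fun j =>
    (coordEquiv hN).injective.eq_iff.symm
  unfold Adj TAdj
  refine exists_congr fun i => ?_
  rw [eq_add_ev_iff, eq_add_ev_iff, modEq_iff hN, modEq_iff hN]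
  simp only [hinj, Int.cast_sub, Int.cast_one, Int.cast_neg, ← vtxEquiv_apply hN]
  constructor
  · rintro ⟨h | h, h2⟩
    · exact Or.inr ⟨by rw [← h]; ring, h2⟩
    · exact Or.inl ⟨by linear_combination -h, fun j hj => (h2 j hj).symm⟩
  · rintro (⟨h, h2⟩ | ⟨h, h2⟩)
    · exact ⟨Or.inr (by rw [h]; ring), fun j hj => (h2 j hj).symm⟩
    · exact ⟨Or.inl (by rw [h]; ring), h2⟩

theorem phi_eq (x : Coord d n) : phi x = ext0 (origin d n) x := rfl

theorem measurable_phi : Measurable (phi : Coord d n → Vtx d n → ℝ) := measurable_ext0 _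

theorem measurableSet_LipSet : MeasurableSet (LipSet d n) :=
  measurable_phi (measurableSet_Lip (Adj (d := d) (n := n)))

/-- The bridge between the literal model and the thickly pinned one. -/
theorem bridge (hN : N = 2 * (n : ℕ)) {F : Set (Vtx d n → ℝ)} (hF : MeasurableSet F) :
    volume (LipSet d n ∩ {x | phi x ∈ F}) =
      mu TAdj 0 {ψ : T d N → ℝ | (fun v => ψ (vtxEquiv d hN v) - ψ 0) ∈ F} := by
  have hG : MeasurableSet ({χ : Vtx d n → ℝ | Lip Adj χ} ∩ F) := (measurableSet_Lip _).inter hF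
  have h1 := pin (origin d n) hG
  have hm : Measurable fun ψ : Vtx d n → ℝ => fun v => ψ v - ψ (origin d n) :=
    measurable_pi_lambda _ fun v => (measurable_pi_apply v).sub (measurable_pi_apply _)
  have hS : MeasurableSet {ψ : Vtx d n → ℝ | 0 ≤ ψ (origin d n) ∧ ψ (origin d n) ≤ 1 ∧
      (fun v => ψ v - ψ (origin d n)) ∈ {χ : Vtx d n → ℝ | Lip Adj χ} ∩ F} :=
    (measurableSet_le measurable_const (measurable_pi_apply _)).inter
      ((measurableSet_le (measurable_pi_apply _) measurable_const).inter (hm hG))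
  have h2 := reindex (vtxEquiv d hN) hS
  rw [h1] at h2
  rw [mu_apply]
  refine Eq.trans ?_ (h2.symm.trans ?_)
  · rfl
  · refine congrArg volume (Set.ext fun ψ => ?_)
    simp only [Set.mem_ofPred_eq, vtxEquiv_origin, Set.mem_inter_iff, Pinned, and_assoc]
    refine and_congr_right fun _ => and_congr_right fun _ => and_congr_left fun _ => ?_
    constructor
    · intro h x y hxy
      obtain ⟨v, rfl⟩ := (vtxEquiv d hN).surjective x
      obtain ⟨w, rfl⟩ := (vtxEquiv d hN).surjective y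
      have := h v w ((adj_iff hN v w).2 hxy)
      rwa [sub_sub_sub_cancel_right] at this
    · intro h v w hvw
      rw [sub_sub_sub_cancel_right]
      exact h _ _ ((adj_iff hN v w).1 hvw)

theorem volume_LipSet (hN : N = 2 * (n : ℕ)) :
    volume (LipSet d n) = mu (TAdj (d := d) (N := N)) 0 Set.univ := by
  have h := bridge (d := d) hN MeasurableSet.univ
  simpa using h

theorem unif_apply (hN : N = 2 * (n : ℕ)) {F : Set (Vtx d n → ℝ)} (hF : MeasurableSet F) :
    unif d n {x | phi x ∈ F} = (mu (TAdj (d := d) (N := N)) 0 Set.univ)⁻¹ *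
      mu TAdj 0 {ψ : T d N → ℝ | (fun v => ψ (vtxEquiv d hN v) - ψ 0) ∈ F} := by
  rw [← bridge hN hF, ← volume_LipSet hN, unif, Measure.smul_apply,
    Measure.restrict_apply' measurableSet_LipSet, Set.inter_comm, smul_eq_mul]

theorem unif_real (hN : N = 2 * (n : ℕ)) {F : Set (Vtx d n → ℝ)} (hF : MeasurableSet F) :
    (unif d n).real {x | phi x ∈ F} =
      (mu TAdj 0 {ψ : T d N → ℝ | (fun v => ψ (vtxEquiv d hN v) - ψ 0) ∈ F}).toReal /
        (mu (TAdj (d := d) (N := N)) 0 Set.univ).toReal := by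
  rw [Measure.real, unif_apply hN hF, ENNReal.toReal_mul, ENNReal.toReal_inv, div_eq_inv_mul]

end Torus

theorem isProb (d : ℕ) (n : ℕ+) : IsProbabilityMeasure (unif d n) := by
  have : NeZero (2 * (n : ℕ)) := ⟨by have := n.pos; omega⟩
  have h := volume_LipSet (d := d) (n := n) (N := 2 * (n : ℕ)) rfl
  refine ProbabilityTheory.cond_isProbabilityMeasure_of_finite (μ := volume) (s := LipSet d n) ?_ ?_
  · rw [h]
    exact (lt_of_lt_of_le zero_lt_one (one_le_mu_univ _ _)).ne'
  · rw [h]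
    exact mu_univ_ne_top

end Pool.Agent.Lib.MP_adb013_pr.Lit
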