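import Mathlib

/-!
Literal definitions for the uniform random Lipschitz function on the discrete torus with
vertex set `{-n+1, ..., n}^d`.
-/

set_option autoImplicit false

namespace Pool.Agent.Lib.MP_adb013_pr.Lit

open MeasureTheory

/-- The vertex set `{-n+1, ..., n}^d` of the torus. -/
abbrev Vtx (d : ℕ) (n : ℕ+) : Type := Fin d → Set.Icc (-((n : ℕ) : ℤ) + 1) ((n : ℕ) : ℤ)

/-- Two vertices are adjacent when they differ by `1` or `-1` modulo `2 n` in exactly one
coordinate (and agree in all others). -/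
def Adj {d : ℕ} {n : ℕ+} (v w : Vtx d n) : Prop :=
  ∃ i : Fin d, (Int.ModEq (2 * ((n : ℕ) : ℤ)) ((v i : ℤ) - (w i : ℤ)) 1 ∨
    Int.ModEq (2 * ((n : ℕ) : ℤ)) ((v i : ℤ) - (w i : ℤ)) (-1)) ∧ ∀ j : Fin d, j ≠ i → v j = w j

/-- The origin. -/
def origin (d : ℕ) (n : ℕ+) : Vtx d n :=
  fun _ => ⟨0, Int.le_of_lt_add_one (by have := n.pos; omega), Int.natCast_nonneg _⟩

/-- The free coordinates: the values at the vertices other than the origin. -/
abbrev Coord (d : ℕ) (n : ℕ+) : Type := {v : Vtx d n // v ≠ origin d n} → ℝ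

/-- The function on the torus with the given free coordinates and value `0` at the origin. -/
def phi {d : ℕ} {n : ℕ+} (x : Coord d n) (v : Vtx d n) : ℝ :=
  if h : v = origin d n then 0 else x ⟨v, h⟩

/-- The polytope of `1`-Lipschitz functions vanishing at the origin, in the free coordinates. -/
def LipSet (d : ℕ) (n : ℕ+) : Set (Coord d n) :=
  {x | ∀ v w : Vtx d n, Adj v w → |phi x v - phi x w| ≤ 1}

/-- Normalised Lebesgue measure on the polytope. -/
noncomputable def unif (d : ℕ) (n : ℕ+) : Measure (Coord d n) :=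
  (volume (LipSet d n))⁻¹ • volume.restrict (LipSet d n)

/-- The maximum of the function over all vertices. -/
noncomputable def maxv {d : ℕ} {n : ℕ+} (x : Coord d n) : ℝ :=
  Finset.univ.sup' ⟨origin d n, Finset.mem_univ _⟩ (phi x)

end Pool.Agent.Lib.MP_adb013_pr.Lit
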