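import Pool.Agent.Lib.MP_adb013_pr.Torus

set_option autoImplicit false
set_option linter.unusedSectionVars false

open MeasureTheory
open scoped ENNReal

namespace Pool.Agent.Lib.MP_adb013_pr

variable {d N m : ℕ} [NeZero N]

/-- `ℓ¹` distance (in coordinates) to the centre of the box of side `2 l`. -/
noncomputable def cdistLower (l : ℕ) (b : Cell d m) (x : T d N) : ℝ :=
  ∑ k, |((x k).val : ℝ) - (((b k : ℕ) * (2 * l) + l : ℕ) : ℝ)|

theorem cdistLower_adj {l : ℕ} (hm : m * (2 * l) < N) {b : Cell d m} {x w : T d N}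
    (hx : x ∈ obox (2 * l) b) (h : TAdj x w) :
    |cdistLower l b x - cdistLower l b w| ≤ 1 := by
  obtain ⟨-, j, hk, hj⟩ := adj_of_mem_obox hm hx h
  unfold cdistLower
  rw [← Finset.sum_sub_distrib, Finset.sum_eq_single j]
  · refine (abs_abs_sub_abs_le_abs_sub _ _).trans ?_
    rcases hj with ⟨h1, -⟩ | ⟨h1, -⟩
    · rw [h1]; push_cast
      rw [abs_le]; constructor <;> linarith
    · rw [← h1]; push_cast
      rw [abs_le]; constructor <;> linarith
  · intro k _ hkj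
    rw [hk k hkj, sub_self]
  · intro h; exact absurd (Finset.mem_univ j) h

theorem cdistLower_bdry {l : ℕ} {b : Cell d m} {y : T d N}
    (hy : y ∈ cbox (2 * l) b) (hy' : y ∉ obox (2 * l) b) : (l : ℝ) ≤ cdistLower l b y := by
  simp only [cbox, obox, Finset.mem_filter, Finset.mem_univ, true_and, not_forall] at hy hy'
  obtain ⟨k, hk⟩ := hy'
  have h1 := hy k
  have h2 : (y k).val = (b k : ℕ) * (2 * l) ∨ (y k).val = (b k : ℕ) * (2 * l) + 2 * l := by
    have : ((b k : ℕ) + 1) * (2 * l) = (b k : ℕ) * (2 * l) + 2 * l := by ring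
    omega
  have h3 : (l : ℝ) ≤ |((y k).val : ℝ) - (((b k : ℕ) * (2 * l) + l : ℕ) : ℝ)| := by
    rcases h2 with h2 | h2
    · rw [h2]; push_cast
      rw [le_abs]; right; linarith
    · rw [h2]; push_cast
      rw [le_abs]; left; linarith
  refine h3.trans ?_
  unfold cdistLower
  exact Finset.single_le_sum
    (f := fun k => |((y k).val : ℝ) - (((b k : ℕ) * (2 * l) + l : ℕ) : ℝ)|)
    (fun k _ => abs_nonneg _) (Finset.mem_univ k)

theorem cdistLower_ctr {l : ℕ} (hm : m * (2 * l) < N) (b : Cell d m) :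
    cdistLower l b (ctr (N := N) (2 * l) b) = 0 := by
  unfold cdistLower
  refine Finset.sum_eq_zero fun k _ => ?_
  rw [val_ctr hm b k]
  have : 2 * l / 2 = l := by omega
  rw [this, sub_self, abs_zero]

theorem ctr_mem_obox_lower (hd : 1 ≤ d) {l : ℕ} (hl : 1 ≤ l) (hm : m * (2 * l) < N)
    (b : Cell d m) : ctr (N := N) (2 * l) b ∈ obox (2 * l) b := by
  rw [← ax_half (2 * l) b ⟨0, hd⟩]
  exact ax_mem_obox (by omega) hm b _ (by omega) (by omega)

theorem ax_zero_notMem_obox_lower {l : ℕ} (hm : m * (2 * l) < N) (b : Cell d m) (i : Fin d) :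
    ax (N := N) (2 * l) b i 0 ∉ obox (2 * l) b := by
  intro h
  simp only [obox, Finset.mem_filter, Finset.mem_univ, true_and] at h
  have h1 := (h i).1
  rw [val_ax hm b i i (Nat.zero_le _)] at h1
  simp at h1

theorem ctr_ge_lower {l : ℕ} (hm : m * (2 * l) < N) (b : Cell d m) (i : Fin d)
    {ψ : T d N → ℝ} (hψ : LipOn TAdj (obox (2 * l) b) ψ) :
    ψ (ax (2 * l) b i 0) - l ≤ ψ (ctr (2 * l) b) := by
  have key : ∀ s : ℕ, s ≤ l → ψ (ax (2 * l) b i 0) - s ≤ ψ (ax (2 * l) b i s) := by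
    intro s
    induction s with
    | zero => intro _; simp
    | succ s ih =>
      intro hs
      have h1 := ih (by omega)
      have h2 : ax (N := N) (2 * l) b i (s + 1) ∈ obox (2 * l) b :=
        ax_mem_obox (by omega) hm b i (by omega) (by omega)
      have h3 := hψ (ax (2 * l) b i s) (ax (2 * l) b i (s + 1))
        ⟨i, Or.inl (ax_succ (2 * l) b i s)⟩ (Or.inr h2)
      rw [abs_le] at h3
      push_cast
      linarith [h3.2]
  have h := key l le_rfl
  have e : 2 * l / 2 = l := by omega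
  have e2 := ax_half (N := N) (2 * l) b i
  rw [e] at e2
  rwa [e2] at h

theorem measurableSet_high_lower (c : ℝ) (x y : T d N) :
    MeasurableSet {ψ : T d N → ℝ | c ≤ ψ x - ψ y} :=
  measurableSet_le measurable_const ((measurable_pi_apply x).sub (measurable_pi_apply y))

/-- Given reasonable boundary values, the centre of a box of side `2 l` is high with
conditional probability at least `5 ^ (-(2 l) ^ d)`. -/
theorem high_cond (hd : 1 ≤ d) {l : ℕ} (hl : 1 ≤ l) (hm : m * (2 * l) < N) (b : Cell d m)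
    (η : T d N → ℝ)
    (hOK : ∀ z ∈ cbox (2 * l) b, z ∉ obox (2 * l) b → -((l : ℝ) / 2) ≤ η z - η 0) :
    ENNReal.ofReal ((1 / 5 : ℝ) ^ ((2 * l) ^ d)) * Zl TAdj (obox (2 * l) b) η ≤
      marg (obox (2 * l) b) (ind fun ψ => LipOn TAdj (obox (2 * l) b) ψ ∧
        (l : ℝ) / 10 ≤ ψ (ctr (2 * l) b) - ψ 0) η := by
  by_cases hZ : Zl TAdj (obox (2 * l) b) η = 0
  · rw [hZ, mul_zero]; exact zero_le
  obtain ⟨ψ0, hag, hne⟩ := exists_of_marg_ne_zero hZ
  have hlip0 : LipOn TAdj (obox (2 * l) b) ψ0 := ind_ne_zero.1 hne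
  set c : T d N → ℝ := fun x => η 0 + l / 2 - cdistLower l b x with hc
  set z : T d N → ℝ := fun x => if x ∈ obox (2 * l) b then max (ψ0 x) (c x) else η x with hz
  have hzag : Agree (obox (2 * l) b) z η := fun x hx => by simp [hz, hx]
  have hzc : ∀ x ∈ cbox (2 * l) b, z x = max (ψ0 x) (c x) := by
    intro x hx
    by_cases hxo : x ∈ obox (2 * l) b
    · simp [hz, hxo]
    · have h1 := hOK x hx hxo
      have h2 := cdistLower_bdry hx hxo
      have h3 : z x = η x := hzag x hxo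
      rw [h3, hag x hxo, max_eq_left]
      simp only [hc]
      linarith
  have hz1 : ∀ x y, TAdj x y → x ∈ obox (2 * l) b → |z x - z y| ≤ 1 := by
    intro x y hxy hx
    have hy := (adj_of_mem_obox hm hx hxy).1
    rw [hzc x (obox_subset_cbox _ _ hx), hzc y hy]
    refine (abs_max_sub_max_le_max _ _ _ _).trans (max_le (hlip0 x y hxy (Or.inl hx)) ?_)
    have h1 := cdistLower_adj hm hx hxy
    have e : c x - c y = -(cdistLower l b x - cdistLower l b y) := by simp only [hc]; ring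
    rw [e, abs_neg]; exact h1
  have hzlip : LipOn TAdj (obox (2 * l) b) z := by
    intro x y hxy h
    rcases h with h | h
    · exact hz1 x y hxy h
    · rw [abs_sub_comm]; exact hz1 y x hxy.symm h
  have hctr := ctr_mem_obox_lower (N := N) hd hl hm b
  have hzctr : η 0 + l / 2 ≤ z (ctr (2 * l) b) := by
    rw [hzc _ (obox_subset_cbox _ _ hctr)]
    refine le_trans ?_ (le_max_right _ _)
    simp only [hc]
    rw [cdistLower_ctr hm b]; linarith
  have h0 := zero_notMem_obox (N := N) hd (2 * l) b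
  have hmain := marg_homothety (obox (2 * l) b) (p := LipOn TAdj (obox (2 * l) b))
    (q := fun ψ => LipOn TAdj (obox (2 * l) b) ψ ∧ (l : ℝ) / 10 ≤ ψ (ctr (2 * l) b) - ψ 0)
    (measurableSet_LipOn _ _)
    ((measurableSet_LipOn _ _).inter (measurableSet_high_lower _ _ _)) η z hzag (1 / 5)
    (by norm_num) (by
      intro ψ hψ hp
      refine ⟨LipOn.convex hzlip hp (by norm_num) (by norm_num), ?_⟩
      have h1 := ctr_ge_lower hm b ⟨0, hd⟩ hp
      have h2 := ax_zero_notMem_obox_lower (N := N) hm b ⟨0, hd⟩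
      have h3 := hOK _ (ax_mem_cbox hm b ⟨0, hd⟩ (Nat.zero_le _)) h2
      rw [hψ _ h2] at h1
      show (l : ℝ) / 10 ≤ ((1 - 1 / 5) * z (ctr (2 * l) b) + 1 / 5 * ψ (ctr (2 * l) b)) -
        ((1 - 1 / 5) * z 0 + 1 / 5 * ψ 0)
      rw [hzag 0 h0, hψ 0 h0]
      linarith)
  refine le_trans ?_ hmain
  unfold Zl
  refine mul_le_mul_left (ENNReal.ofReal_le_ofReal ?_) _
  exact pow_le_pow_of_le_one (by norm_num) (by norm_num) (card_obox_le _ _)

/-- Reasonable boundary values on the box `b`. -/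
def OKLower (l : ℕ) (b : Cell d m) (ψ : T d N → ℝ) : Prop :=
  ∀ z ∈ cbox (2 * l) b, z ∉ obox (2 * l) b → -((l : ℝ) / 2) ≤ ψ z - ψ 0

theorem measurableSet_OKLower (l : ℕ) (b : Cell d m) :
    MeasurableSet {ψ : T d N → ℝ | OKLower l b ψ} := by
  have : {ψ : T d N → ℝ | OKLower l b ψ} =
      ⋂ z ∈ ((cbox (2 * l) b).filter fun z => z ∉ obox (2 * l) b),
        {ψ : T d N → ℝ | -((l : ℝ) / 2) ≤ ψ z - ψ 0} := by
    ext ψ
    simp only [OKLower, Set.mem_ofPred_eq, Set.mem_iInter, Finset.mem_filter, and_imp]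
  rw [this]
  exact Finset.measurableSet_biInter _ fun z _ => measurableSet_high_lower _ _ _

theorem indep_OKLower (hd : 1 ≤ d) (l : ℕ) (b b' : Cell d m) :
    Indep (obox (N := N) (2 * l) b) (OKLower l b') := by
  refine indep_of_imp fun x y hxy hx z hz hz' => ?_
  have h0 := zero_notMem_obox (N := N) hd (2 * l) b
  have hzb : z ∉ obox (2 * l) b := by
    by_cases hb : b = b'
    · rw [hb]; exact hz'
    · exact fun h => Finset.disjoint_left.1 (disjoint_obox_cbox (2 * l) hb) h hz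
  rw [← hxy z hzb, ← hxy 0 h0]
  exact hx z hz hz'

theorem mu_notOK_lower {l : ℕ} {β : ℝ}
    (htail : ∀ z : T d N, mu TAdj 0 {ψ : T d N → ℝ | (l : ℝ) / 2 ≤ ψ z - ψ 0} ≤
      ENNReal.ofReal β * mu (TAdj (d := d) (N := N)) 0 Set.univ) (b : Cell d m) :
    mu TAdj 0 {ψ : T d N → ℝ | ¬ OKLower l b ψ} ≤
      ENNReal.ofReal ((2 * l + 1 : ℝ) ^ d * β) * mu (TAdj (d := d) (N := N)) 0 Set.univ := by
  have h1 : {ψ : T d N → ℝ | ¬ OKLower l b ψ} ⊆ ⋃ z ∈ cbox (2 * l) b,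
      {ψ : T d N → ℝ | (fun x => 1 - ψ x) ∈ {ψ : T d N → ℝ | (l : ℝ) / 2 ≤ ψ z - ψ 0}} := by
    intro ψ hψ
    simp only [OKLower, Set.mem_ofPred_eq, not_forall, not_le] at hψ
    obtain ⟨z, hz, -, hlt⟩ := hψ
    simp only [Set.mem_iUnion, Set.mem_ofPred_eq]
    exact ⟨z, hz, by linarith⟩
  refine (measure_mono h1).trans ((measure_biUnion_finset_le _ _).trans ?_)
  have h2 : ∀ z ∈ cbox (N := N) (2 * l) b, mu TAdj 0
      {ψ : T d N → ℝ | (fun x => 1 - ψ x) ∈ {ψ : T d N → ℝ | (l : ℝ) / 2 ≤ ψ z - ψ 0}} ≤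
      ENNReal.ofReal β * mu (TAdj (d := d) (N := N)) 0 Set.univ := by
    intro z _
    rw [mu_neg TAdj 0 (measurableSet_high_lower _ _ _)]
    exact htail z
  refine (Finset.sum_le_card_nsmul _ _ _ h2).trans ?_
  rw [nsmul_eq_mul, ← mul_assoc, ENNReal.ofReal_mul (by positivity)]
  gcongr
  have h3 := card_cbox_le (N := N) (2 * l) b
  rw [← ENNReal.ofReal_natCast]
  apply ENNReal.ofReal_le_ofReal
  exact_mod_cast h3

open Classical in
/-- Number of boxes with reasonable boundary values. -/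
noncomputable def nOKLower (m l : ℕ) (ψ : T d N → ℝ) : ℕ :=
  (Finset.univ.filter fun b : Cell d m => OKLower l b ψ).card

theorem nOKLower_eq (l : ℕ) (ψ : T d N → ℝ) :
    (nOKLower m l ψ : ℝ≥0∞) = ∑ b : Cell d m, ind (OKLower l b) ψ := by
  classical
  unfold nOKLower
  rw [Finset.card_filter]
  push_cast
  refine Finset.sum_congr rfl fun b _ => ?_
  by_cases h : OKLower l b ψ
  · rw [ind_pos h]; simp [h]
  · rw [ind_neg h]; simp [h]

theorem measurable_nOKLower (l : ℕ) : Measurable (nOKLower (d := d) (N := N) m l) := by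
  classical
  have : nOKLower (d := d) (N := N) m l =
      fun ψ => ∑ b : Cell d m, if OKLower l b ψ then 1 else 0 := by
    funext ψ
    unfold nOKLower
    rw [Finset.card_filter]
  rw [this]
  exact Finset.measurable_sum _ fun b _ =>
    Measurable.ite (measurableSet_OKLower l b) measurable_const measurable_const

theorem indep_nOKLower (hd : 1 ≤ d) (l : ℕ) (b : Cell d m) :
    Indep (obox (N := N) (2 * l) b) (nOKLower m l) := by
  intro x y hxy
  unfold nOKLower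
  congr 1
  ext b'
  simp only [Finset.mem_filter, Finset.mem_univ, true_and]
  rw [indep_OKLower hd l b b' x y hxy]

theorem card_notOK_lower (l : ℕ) (ψ : T d N → ℝ) :
    (nOKLower m l ψ : ℝ≥0∞) + ∑ b : Cell d m, ind (fun φ => ¬ OKLower l b φ) ψ =
      ((m ^ d : ℕ) : ℝ≥0∞) := by
  rw [nOKLower_eq, ← Finset.sum_add_distrib]
  have : ∀ b : Cell d m, ind (OKLower l b) ψ + ind (fun φ => ¬ OKLower l b φ) ψ = 1 := by
    intro b
    by_cases h : OKLower l b ψ
    · rw [ind_pos h, ind_neg (p := fun φ => ¬ OKLower l b φ) (not_not.2 h), add_zero]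
    · rw [ind_neg h, ind_pos (p := fun φ => ¬ OKLower l b φ) h, zero_add]
  simp only [this, Finset.sum_const, Finset.card_univ, Fintype.card_pi, Fintype.card_fin,
    Finset.prod_const, nsmul_eq_mul, mul_one]

theorem mu_fewOK_lower (hm0 : 0 < m) {l : ℕ} {β : ℝ}
    (htail : ∀ z : T d N, mu TAdj 0 {ψ : T d N → ℝ | (l : ℝ) / 2 ≤ ψ z - ψ 0} ≤
      ENNReal.ofReal β * mu (TAdj (d := d) (N := N)) 0 Set.univ) :
    mu TAdj 0 {ψ : T d N → ℝ | 2 * nOKLower m l ψ < m ^ d} ≤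
      ENNReal.ofReal (2 * (2 * l + 1 : ℝ) ^ d * β) * mu (TAdj (d := d) (N := N)) 0 Set.univ := by
  have hM : ((m ^ d : ℕ) : ℝ≥0∞) ≠ 0 := by
    have : 0 < m ^ d := pow_pos hm0 d
    exact_mod_cast this.ne'
  have hM' : ((m ^ d : ℕ) : ℝ≥0∞) ≠ ⊤ := ENNReal.natCast_ne_top _
  have hmeas : MeasurableSet {ψ : T d N → ℝ | 2 * nOKLower m l ψ < m ^ d} :=
    measurable_nOKLower l (MeasurableSet.of_discrete (s := {k : ℕ | 2 * k < m ^ d}))
  have hpt : ∀ ψ : T d N → ℝ,
      ((m ^ d : ℕ) : ℝ≥0∞) * ind (fun φ : T d N → ℝ => 2 * nOKLower m l φ < m ^ d) ψ ≤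
        2 * ∑ b : Cell d m, ind (fun φ => ¬ OKLower l b φ) ψ := by
    intro ψ
    by_cases h : 2 * nOKLower m l ψ < m ^ d
    · rw [ind_pos (p := fun φ : T d N → ℝ => 2 * nOKLower m l φ < m ^ d) h, mul_one]
      have h1 := card_notOK_lower (m := m) l ψ
      have h2 : 2 * (nOKLower m l ψ : ℝ≥0∞) ≤ ((m ^ d : ℕ) : ℝ≥0∞) := by exact_mod_cast h.le
      have h3 : ((m ^ d : ℕ) : ℝ≥0∞) + ((m ^ d : ℕ) : ℝ≥0∞) ≤
          2 * (∑ b : Cell d m, ind (fun φ => ¬ OKLower l b φ) ψ) + ((m ^ d : ℕ) : ℝ≥0∞) := by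
        calc ((m ^ d : ℕ) : ℝ≥0∞) + ((m ^ d : ℕ) : ℝ≥0∞)
            = 2 * ((nOKLower m l ψ : ℝ≥0∞) +
              ∑ b : Cell d m, ind (fun φ => ¬ OKLower l b φ) ψ) := by rw [h1, two_mul]
          _ = 2 * (∑ b : Cell d m, ind (fun φ => ¬ OKLower l b φ) ψ) +
              2 * (nOKLower m l ψ : ℝ≥0∞) := by rw [mul_add, add_comm]
          _ ≤ _ := by gcongr
      exact (ENNReal.add_le_add_iff_right hM').1 h3
    · rw [ind_neg (p := fun φ : T d N → ℝ => 2 * nOKLower m l φ < m ^ d) h, mul_zero]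
      exact zero_le
  have hint := lintegral_mono (μ := mu (TAdj (d := d) (N := N)) 0) hpt
  have hmb : ∀ b : Cell d m, Measurable (ind (fun φ : T d N → ℝ => ¬ OKLower l b φ)) :=
    fun b => measurable_ind (measurableSet_OKLower l b).compl
  rw [lintegral_const_mul _ (measurable_ind hmeas), lintegral_ind _ hmeas,
    lintegral_const_mul _ (Finset.measurable_sum _ fun b _ => hmb b),
    lintegral_finsetSum _ fun b _ => hmb b] at hint
  have hb : ∀ b ∈ (Finset.univ : Finset (Cell d m)),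
      ∫⁻ ψ, ind (fun φ : T d N → ℝ => ¬ OKLower l b φ) ψ ∂(mu (TAdj (d := d) (N := N)) 0) ≤
        ENNReal.ofReal ((2 * l + 1 : ℝ) ^ d * β) * mu (TAdj (d := d) (N := N)) 0 Set.univ := by
    intro b _
    rw [lintegral_ind _ (p := fun φ : T d N → ℝ => ¬ OKLower l b φ)
      (measurableSet_OKLower l b).compl]
    exact mu_notOK_lower htail b
  have hs := Finset.sum_le_card_nsmul _ _ _ hb
  simp only [Finset.card_univ, Fintype.card_pi, Fintype.card_fin, Finset.prod_const,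
    nsmul_eq_mul] at hs
  have hfin : ((m ^ d : ℕ) : ℝ≥0∞) * mu TAdj 0 {ψ : T d N → ℝ | 2 * nOKLower m l ψ < m ^ d} ≤
      ((m ^ d : ℕ) : ℝ≥0∞) * (ENNReal.ofReal (2 * (2 * l + 1 : ℝ) ^ d * β) *
        mu (TAdj (d := d) (N := N)) 0 Set.univ) := by
    refine hint.trans ?_
    have e : ENNReal.ofReal (2 * (2 * l + 1 : ℝ) ^ d * β) =
        2 * ENNReal.ofReal ((2 * l + 1 : ℝ) ^ d * β) := by
      rw [mul_assoc, ENNReal.ofReal_mul (by norm_num)]
      simp
    rw [e]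
    calc 2 * ∑ b : Cell d m, ∫⁻ ψ, ind (fun φ : T d N → ℝ => ¬ OKLower l b φ) ψ
          ∂(mu (TAdj (d := d) (N := N)) 0)
        ≤ 2 * (((m ^ d : ℕ) : ℝ≥0∞) * (ENNReal.ofReal ((2 * l + 1 : ℝ) ^ d * β) *
          mu (TAdj (d := d) (N := N)) 0 Set.univ)) := by gcongr
      _ = _ := by ring
  exact (ENNReal.mul_le_mul_iff_right hM hM').1 hfin

open Classical in
/-- Replacement factor. -/
noncomputable def gLower (l : ℕ) (b : Cell d m) (ψ : T d N → ℝ) : ℝ≥0∞ :=
  if OKLower l b ψ then ENNReal.ofReal (1 - (1 / 5 : ℝ) ^ ((2 * l) ^ d)) else 1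

theorem measurable_gLower (l : ℕ) (b : Cell d m) : Measurable (gLower (N := N) l b) := by
  classical
  exact Measurable.ite (measurableSet_OKLower l b) measurable_const measurable_const

theorem indep_gLower (hd : 1 ≤ d) (l : ℕ) (b b' : Cell d m) :
    Indep (obox (N := N) (2 * l) b) (gLower l b') := by
  intro x y hxy
  unfold gLower
  rw [indep_OKLower hd l b b' x y hxy]

theorem step_lower (hd : 1 ≤ d) {l : ℕ} (hl : 1 ≤ l) (hm : m * (2 * l) < N) (b : Cell d m)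
    (η : T d N → ℝ) :
    marg (obox (2 * l) b) (fun ψ => ind (LipOn TAdj (obox (2 * l) b)) ψ *
        ind (fun φ : T d N → ℝ => ¬ (l : ℝ) / 10 ≤ φ (ctr (2 * l) b) - φ 0) ψ) η ≤
      marg (obox (2 * l) b) (fun ψ => ind (LipOn TAdj (obox (2 * l) b)) ψ * gLower l b ψ) η := by
  have hmL : Measurable (ind (LipOn TAdj (obox (N := N) (2 * l) b))) :=
    measurable_ind (measurableSet_LipOn _ _)
  have e1 : marg (obox (2 * l) b)
      (fun ψ => ind (LipOn TAdj (obox (2 * l) b)) ψ * gLower l b ψ) η =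
      gLower l b η * Zl TAdj (obox (2 * l) b) η := by
    simp only [mul_comm (ind (LipOn TAdj (obox (2 * l) b)) _)]
    exact marg_mul_indep _ (indep_gLower hd l b b) hmL η
  rw [e1]
  set θ : ℝ := (1 / 5 : ℝ) ^ ((2 * l) ^ d) with hθ
  have hθ0 : 0 ≤ θ := by positivity
  have hθ1 : θ ≤ 1 := pow_le_one₀ (by norm_num) (by norm_num)
  have hsum : marg (obox (2 * l) b) (fun ψ => ind (LipOn TAdj (obox (2 * l) b)) ψ *
        ind (fun φ : T d N → ℝ => ¬ (l : ℝ) / 10 ≤ φ (ctr (2 * l) b) - φ 0) ψ) η +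
      marg (obox (2 * l) b) (ind fun ψ => LipOn TAdj (obox (2 * l) b) ψ ∧
        (l : ℝ) / 10 ≤ ψ (ctr (2 * l) b) - ψ 0) η = Zl TAdj (obox (2 * l) b) η := by
    have hmm : Measurable fun ψ : T d N → ℝ => ind (LipOn TAdj (obox (2 * l) b)) ψ *
        ind (fun φ : T d N → ℝ => ¬ (l : ℝ) / 10 ≤ φ (ctr (2 * l) b) - φ 0) ψ :=
      hmL.mul (measurable_ind (measurableSet_high_lower _ _ _).compl)
    rw [← marg_add _ _ hmm]
    unfold Zl
    congr 1
    funext ψ
    by_cases h1 : LipOn TAdj (obox (2 * l) b) ψ <;>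
      by_cases h2 : (l : ℝ) / 10 ≤ ψ (ctr (2 * l) b) - ψ 0 <;> simp [ind, h1, h2]
  by_cases hOK : OKLower l b η
  · have hh := high_cond hd hl hm b η hOK
    have hZ := Zl_ne_top (N := N) hd (Finset.Subset.refl (obox (2 * l) b)) η
    have hg : gLower l b η = ENNReal.ofReal (1 - θ) := by simp [gLower, hOK, hθ]
    rw [hg]
    have hne : ENNReal.ofReal θ * Zl TAdj (obox (2 * l) b) η ≠ ⊤ :=
      ENNReal.mul_ne_top ENNReal.ofReal_ne_top hZ
    refine (ENNReal.add_le_add_iff_right hne).1 ?_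
    rw [← add_mul, ← ENNReal.ofReal_add (by linarith) hθ0, sub_add_cancel, ENNReal.ofReal_one,
      one_mul]
    calc _ ≤ marg (obox (2 * l) b) (fun ψ => ind (LipOn TAdj (obox (2 * l) b)) ψ *
          ind (fun φ : T d N → ℝ => ¬ (l : ℝ) / 10 ≤ φ (ctr (2 * l) b) - φ 0) ψ) η +
        marg (obox (2 * l) b) (ind fun ψ => LipOn TAdj (obox (2 * l) b) ψ ∧
          (l : ℝ) / 10 ≤ ψ (ctr (2 * l) b) - ψ 0) η := by gcongr
      _ = _ := hsum
  · have hg : gLower l b η = 1 := by simp [gLower, hOK]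
    rw [hg, one_mul, ← hsum]
    exact le_self_add

theorem prod_gLower (l : ℕ) (ψ : T d N → ℝ) (h : m ^ d ≤ 2 * nOKLower m l ψ) :
    ∏ b : Cell d m, gLower l b ψ ≤
      ENNReal.ofReal (Real.exp (-((m : ℝ) ^ d * (1 / 5 : ℝ) ^ ((2 * l) ^ d) / 2))) := by
  classical
  set θ : ℝ := (1 / 5 : ℝ) ^ ((2 * l) ^ d) with hθ
  have hθ0 : 0 ≤ θ := by positivity
  have hθ1 : θ ≤ 1 := pow_le_one₀ (by norm_num) (by norm_num)
  have e : ∏ b : Cell d m, gLower l b ψ = ENNReal.ofReal (1 - θ) ^ nOKLower m l ψ := by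
    unfold gLower nOKLower
    rw [Finset.prod_ite]
    simp [hθ]
  rw [e, ← ENNReal.ofReal_pow (by linarith)]
  apply ENNReal.ofReal_le_ofReal
  have h1 : 1 - θ ≤ Real.exp (-θ) := by linarith [Real.add_one_le_exp (-θ)]
  have h2 : (1 - θ) ^ nOKLower m l ψ ≤ Real.exp (-θ) ^ nOKLower m l ψ :=
    pow_le_pow_left₀ (by linarith) h1 _
  refine h2.trans ?_
  rw [← Real.exp_nat_mul]
  apply Real.exp_le_exp.2
  have h3 : (m : ℝ) ^ d ≤ 2 * (nOKLower m l ψ : ℝ) := by exact_mod_cast h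
  nlinarith

theorem mu_manyOK_lower (hd : 1 ≤ d) {l : ℕ} (hl : 1 ≤ l) (hm : m * (2 * l) < N) :
    mu TAdj 0 {ψ : T d N → ℝ | m ^ d ≤ 2 * nOKLower m l ψ ∧
        ∀ b : Cell d m, ¬ (l : ℝ) / 10 ≤ ψ (ctr (2 * l) b) - ψ 0} ≤
      ENNReal.ofReal (Real.exp (-((m : ℝ) ^ d * (1 / 5 : ℝ) ^ ((2 * l) ^ d) / 2))) *
        mu (TAdj (d := d) (N := N)) 0 Set.univ := by
  have hmH : MeasurableSet {ψ : T d N → ℝ | m ^ d ≤ 2 * nOKLower m l ψ} :=
    measurable_nOKLower l (MeasurableSet.of_discrete (s := {k : ℕ | m ^ d ≤ 2 * k}))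
  have h0 := fun b : Cell d m => zero_notMem_obox (N := N) hd (2 * l) b
  have hmain := mu_prod_le (TAdj (d := d) (N := N)) 0 (Finset.univ : Finset (Cell d m))
    (fun b => obox (2 * l) b)
    (fun b => ind (fun φ : T d N → ℝ => ¬ (l : ℝ) / 10 ≤ φ (ctr (2 * l) b) - φ 0))
    (fun b => gLower l b) (ind fun ψ : T d N → ℝ => m ^ d ≤ 2 * nOKLower m l ψ)
    (fun b _ => measurable_ind (measurableSet_high_lower _ _ _).compl)
    (fun b _ => measurable_gLower l b) (measurable_ind hmH) (fun b _ => h0 b)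
    (fun b _ b' _ hbb' => ⟨Indep.ind fun x y hxy => by
        have h1 : ctr (N := N) (2 * l) b' ∉ obox (2 * l) b := fun h =>
          Finset.disjoint_left.1 (disjoint_obox_cbox (2 * l) hbb') h
            (obox_subset_cbox _ _ (ctr_mem_obox_lower hd hl hm b'))
        rw [hxy _ h1, hxy 0 (h0 b)], indep_gLower hd l b b'⟩)
    (fun b _ => Indep.ind fun x y hxy => by rw [indep_nOKLower hd l b x y hxy])
    (fun b _ η => step_lower hd hl hm b η)
  have hmE : MeasurableSet {ψ : T d N → ℝ | m ^ d ≤ 2 * nOKLower m l ψ ∧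
      ∀ b : Cell d m, ¬ (l : ℝ) / 10 ≤ ψ (ctr (2 * l) b) - ψ 0} := by
    refine hmH.inter ?_
    have : {ψ : T d N → ℝ | ∀ b : Cell d m, ¬ (l : ℝ) / 10 ≤ ψ (ctr (2 * l) b) - ψ 0} =
        ⋂ b : Cell d m, {ψ : T d N → ℝ | (l : ℝ) / 10 ≤ ψ (ctr (2 * l) b) - ψ 0}ᶜ := by
      ext ψ; simp
    change MeasurableSet
      {ψ : T d N → ℝ | ∀ b : Cell d m, ¬ (l : ℝ) / 10 ≤ ψ (ctr (2 * l) b) - ψ 0}
    rw [this]
    exact MeasurableSet.iInter fun b => (measurableSet_high_lower _ _ _).compl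
  rw [← lintegral_ind _ hmE]
  calc _ = ∫⁻ ψ, ind (fun ψ : T d N → ℝ => m ^ d ≤ 2 * nOKLower m l ψ) ψ *
        ∏ b : Cell d m, ind (fun φ : T d N → ℝ => ¬ (l : ℝ) / 10 ≤ φ (ctr (2 * l) b) - φ 0) ψ
          ∂(mu (TAdj (d := d) (N := N)) 0) := by
        refine lintegral_congr fun ψ => ?_
        rw [prod_ind, ind_mul]
        exact ind_congr (by simp)
    _ ≤ _ := hmain
    _ ≤ ∫⁻ _ψ, ENNReal.ofReal (Real.exp (-((m : ℝ) ^ d * (1 / 5 : ℝ) ^ ((2 * l) ^ d) / 2)))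
          ∂(mu (TAdj (d := d) (N := N)) 0) := by
        refine lintegral_mono fun ψ => ?_
        by_cases h : m ^ d ≤ 2 * nOKLower m l ψ
        · rw [ind_pos (p := fun ψ : T d N → ℝ => m ^ d ≤ 2 * nOKLower m l ψ) h, one_mul]
          exact prod_gLower l ψ h
        · rw [ind_neg (p := fun ψ : T d N → ℝ => m ^ d ≤ 2 * nOKLower m l ψ) h, zero_mul]
          exact zero_le
    _ = _ := lintegral_const _

/-- Lower bound for the maximum. -/
theorem lower (hd : 1 ≤ d) {l : ℕ} (hl : 1 ≤ l) (hm : m * (2 * l) < N) {β : ℝ} (hβ : 0 ≤ β)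
    (htail : ∀ z : T d N, mu TAdj 0 {ψ : T d N → ℝ | (l : ℝ) / 2 ≤ ψ z - ψ 0} ≤
      ENNReal.ofReal β * mu (TAdj (d := d) (N := N)) 0 Set.univ) :
    mu TAdj 0 {ψ : T d N → ℝ | ∀ x, ψ x - ψ 0 < (l : ℝ) / 10} ≤
      ENNReal.ofReal (2 * (2 * l + 1 : ℝ) ^ d * β +
        Real.exp (-((m : ℝ) ^ d * (1 / 5 : ℝ) ^ ((2 * l) ^ d) / 2))) *
        mu (TAdj (d := d) (N := N)) 0 Set.univ := by
  have hsub : {ψ : T d N → ℝ | ∀ x, ψ x - ψ 0 < (l : ℝ) / 10} ⊆
      {ψ : T d N → ℝ | 2 * nOKLower m l ψ < m ^ d} ∪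
        {ψ : T d N → ℝ | m ^ d ≤ 2 * nOKLower m l ψ ∧
          ∀ b : Cell d m, ¬ (l : ℝ) / 10 ≤ ψ (ctr (2 * l) b) - ψ 0} := by
    intro ψ hψ
    by_cases h : 2 * nOKLower m l ψ < m ^ d
    · exact Or.inl h
    · exact Or.inr ⟨not_lt.1 h, fun b => not_le.2 (hψ _)⟩
  have hfew : mu TAdj 0 {ψ : T d N → ℝ | 2 * nOKLower m l ψ < m ^ d} ≤
      ENNReal.ofReal (2 * (2 * l + 1 : ℝ) ^ d * β) * mu (TAdj (d := d) (N := N)) 0 Set.univ := by
    rcases Nat.eq_zero_or_pos m with hm0 | hm0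
    · have : {ψ : T d N → ℝ | 2 * nOKLower m l ψ < m ^ d} = ∅ := by
        ext ψ
        have : m ^ d = 0 := by rw [hm0]; exact zero_pow (by omega)
        simp [this]
      rw [this, measure_empty]
      exact zero_le
    · exact mu_fewOK_lower hm0 htail
  refine (measure_mono hsub).trans ((measure_union_le _ _).trans ?_)
  rw [ENNReal.ofReal_add (by positivity) (Real.exp_pos _).le, add_mul]
  exact add_le_add hfew (mu_manyOK_lower hd hl hm)

end Pool.Agent.Lib.MP_adb013_pr
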