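import Pool.Agent.Lib.MP_adb013_pr.Defs

set_option autoImplicit false
set_option linter.unusedSectionVars false

open MeasureTheory
open scoped ENNReal

namespace Pool.Agent.Lib.MP_adb013_pr

variable {V : Type} [DecidableEq V]

theorem ind_pos {Ω : Type} {p : Ω → Prop} {x : Ω} (h : p x) : ind p x = 1 := by
  simp [ind, h]

theorem ind_neg {Ω : Type} {p : Ω → Prop} {x : Ω} (h : ¬ p x) : ind p x = 0 := by
  simp [ind, h]

theorem ind_le_one {Ω : Type} (p : Ω → Prop) (x : Ω) : ind p x ≤ 1 := by
  by_cases h : p x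
  · rw [ind_pos h]
  · rw [ind_neg h]; exact zero_le

theorem ind_ne_zero {Ω : Type} {p : Ω → Prop} {x : Ω} : ind p x ≠ 0 ↔ p x := by
  by_cases h : p x
  · simp [ind_pos h, h]
  · simp [ind_neg h, h]

theorem ind_mul {Ω : Type} (p q : Ω → Prop) (x : Ω) :
    ind p x * ind q x = ind (fun y => p y ∧ q y) x := by
  by_cases hp : p x <;> by_cases hq : q x <;> simp [ind, hp, hq]

theorem ind_mono {Ω : Type} {p q : Ω → Prop} {x y : Ω} (h : p x → q y) : ind p x ≤ ind q y := by
  by_cases hp : p x
  · rw [ind_pos hp, ind_pos (h hp)]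
  · rw [ind_neg hp]; exact zero_le

theorem ind_congr {Ω : Type} {p q : Ω → Prop} {x y : Ω} (h : p x ↔ q y) : ind p x = ind q y :=
  le_antisymm (ind_mono h.1) (ind_mono h.2)

theorem ind_eq_indicator {Ω : Type} (p : Ω → Prop) :
    ind p = Set.indicator {x | p x} (fun _ => (1 : ℝ≥0∞)) := by
  funext x
  by_cases h : p x
  · rw [ind_pos h, Set.indicator_of_mem (by exact h)]
  · rw [ind_neg h, Set.indicator_of_notMem (by exact h)]

theorem prod_ind {Ω ι : Type} (B : Finset ι) (p : ι → Ω → Prop) (x : Ω) :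
    ∏ b ∈ B, ind (p b) x = ind (fun y => ∀ b ∈ B, p b y) x := by
  by_cases h : ∀ b ∈ B, p b x
  · rw [ind_pos (p := fun y => ∀ b ∈ B, p b y) h]
    exact Finset.prod_eq_one fun b hb => ind_pos (h b hb)
  · rw [ind_neg (p := fun y => ∀ b ∈ B, p b y) h]
    push Not at h
    obtain ⟨b, hb, hp⟩ := h
    exact Finset.prod_eq_zero hb (ind_neg hp)

theorem measurable_ind {Ω : Type} [MeasurableSpace Ω] {p : Ω → Prop}
    (hp : MeasurableSet {x | p x}) : Measurable (ind p) := by
  rw [ind_eq_indicator]; exact measurable_const.indicator hp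

theorem lintegral_ind {Ω : Type} [MeasurableSpace Ω] (μ : Measure Ω) {p : Ω → Prop}
    (hp : MeasurableSet {x | p x}) : ∫⁻ x, ind p x ∂μ = μ {x | p x} := by
  rw [ind_eq_indicator, lintegral_indicator hp]; simp

theorem Agree.refl (s : Finset V) (x : V → ℝ) : Agree s x x := fun _ _ => rfl

theorem Agree.symm {s : Finset V} {x y : V → ℝ} (h : Agree s x y) : Agree s y x :=
  fun i hi => (h i hi).symm

theorem Agree.trans {s : Finset V} {x y z : V → ℝ} (h : Agree s x y) (h' : Agree s y z) :
    Agree s x z := fun i hi => (h i hi).trans (h' i hi)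

theorem Agree.mono {s t : Finset V} {x y : V → ℝ} (h : Agree s x y) (hst : s ⊆ t) :
    Agree t x y := fun i hi => h i fun hs => hi (hst hs)

theorem Agree.mid {s : Finset V} {x y x' y' : V → ℝ} (h : Agree s x x') (h' : Agree s y y') :
    Agree s (mid x y) (mid x' y') := fun i hi => by
  simp only [Pool.Agent.Lib.MP_adb013_pr.mid, h i hi, h' i hi]

theorem Indep.mono {β : Type} {s t : Finset V} {f : (V → ℝ) → β} (h : Indep t f) (hst : s ⊆ t) :
    Indep s f := fun x y hxy => h x y (hxy.mono hst)

theorem Indep.union {β : Type} {s t : Finset V} {f : (V → ℝ) → β} (hs : Indep s f)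
    (ht : Indep t f) : Indep (s ∪ t) f := by
  intro x y hxy
  have h1 : f x = f (fun i => if i ∈ s then y i else x i) :=
    hs _ _ fun i hi => by simp [hi]
  have h2 : f (fun i => if i ∈ s then y i else x i) = f y := by
    refine ht _ _ fun i hi => ?_
    by_cases his : i ∈ s
    · simp [his]
    · simp only [his, if_false]
      exact hxy i (by simp [his, hi])
  exact h1.trans h2

theorem Indep.ind {s : Finset V} {p : (V → ℝ) → Prop} (h : Indep s p) : Indep s (ind p) :=
  fun x y hxy => ind_congr (by rw [h x y hxy])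

theorem indep_of_imp {s : Finset V} {p : (V → ℝ) → Prop}
    (h : ∀ x y, Agree s x y → p x → p y) : Indep s p :=
  fun x y hxy => propext ⟨h x y hxy, h y x hxy.symm⟩

theorem marg_def (s : Finset V) (f : (V → ℝ) → ℝ≥0∞) (x : V → ℝ) :
    marg s f x = ∫⁻ y : s → ℝ, f (Function.updateFinset x s y) := rfl

theorem agree_updateFinset (s : Finset V) (x : V → ℝ) (y : s → ℝ) :
    Agree s (Function.updateFinset x s y) x := fun i hi => by
  simp [Function.updateFinset, hi]

theorem measurable_comp_updateFinset (s : Finset V) {f : (V → ℝ) → ℝ≥0∞} (hf : Measurable f)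
    (x : V → ℝ) : Measurable fun y : s → ℝ => f (Function.updateFinset x s y) :=
  hf.comp measurable_updateFinset

theorem measurable_marg (s : Finset V) {f : (V → ℝ) → ℝ≥0∞} (hf : Measurable f) :
    Measurable (marg s f) := by
  exact Measurable.lmarginal _ hf

theorem marg_indep (s : Finset V) (f : (V → ℝ) → ℝ≥0∞) : Indep s (marg s f) := by
  intro x y hxy
  exact lmarginal_congr _ f hxy

theorem Indep.marg {t : Finset V} {f : (V → ℝ) → ℝ≥0∞} (h : Indep t f) (s : Finset V) :
    Indep t (marg s f) := by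
  intro x y hxy
  rw [marg_def, marg_def]
  refine lintegral_congr fun w => h _ _ fun i hi => ?_
  by_cases his : i ∈ s
  · simp [Function.updateFinset, his]
  · simp [Function.updateFinset, his, hxy i hi]

theorem marg_mono_agree (s : Finset V) {f g : (V → ℝ) → ℝ≥0∞} {x : V → ℝ}
    (h : ∀ x', Agree s x' x → f x' ≤ g x') : marg s f x ≤ marg s g x := by
  rw [marg_def, marg_def]
  exact lintegral_mono fun w => h _ (agree_updateFinset s x w)

theorem marg_congr_agree (s : Finset V) {f g : (V → ℝ) → ℝ≥0∞} {x : V → ℝ}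
    (h : ∀ x', Agree s x' x → f x' = g x') : marg s f x = marg s g x :=
  le_antisymm (marg_mono_agree s fun x' hx => (h x' hx).le)
    (marg_mono_agree s fun x' hx => (h x' hx).ge)

theorem marg_mul_indep (s : Finset V) {c f : (V → ℝ) → ℝ≥0∞} (hc : Indep s c)
    (hf : Measurable f) (x : V → ℝ) :
    marg s (fun ψ => c ψ * f ψ) x = c x * marg s f x := by
  rw [marg_def, marg_def, ← lintegral_const_mul _ (measurable_comp_updateFinset s hf x)]
  refine lintegral_congr fun w => ?_
  rw [hc _ _ (agree_updateFinset s x w)]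

theorem marg_add (s : Finset V) {f : (V → ℝ) → ℝ≥0∞} (g : (V → ℝ) → ℝ≥0∞) (hf : Measurable f)
    (x : V → ℝ) : marg s (fun ψ => f ψ + g ψ) x = marg s f x + marg s g x := by
  rw [marg_def, marg_def, marg_def]
  exact lintegral_add_left (measurable_comp_updateFinset s hf x) _

theorem exists_of_marg_ne_zero {s : Finset V} {f : (V → ℝ) → ℝ≥0∞} {x : V → ℝ}
    (h : marg s f x ≠ 0) : ∃ x', Agree s x' x ∧ f x' ≠ 0 := by
  by_contra hc
  push Not at hc
  apply h
  rw [marg_def]
  have h0 : (fun y : s → ℝ => f (Function.updateFinset x s y)) = fun _ => 0 :=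
    funext fun y => hc _ (agree_updateFinset s x y)
  rw [h0, lintegral_zero]

theorem marg_empty (f : (V → ℝ) → ℝ≥0∞) : marg ∅ f = f := by
  exact lmarginal_empty _ f

theorem marg_union {s t : Finset V} {f : (V → ℝ) → ℝ≥0∞} (hf : Measurable f)
    (hst : Disjoint s t) : marg (s ∪ t) f = marg s (marg t f) := by
  exact lmarginal_union _ f hf hst

theorem marg_singleton (i : V) (f : (V → ℝ) → ℝ≥0∞) (x : V → ℝ) :
    marg {i} f x = ∫⁻ a : ℝ, f (Function.update x i a) := by
  exact congrFun (lmarginal_singleton f i) x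

theorem lintegral_eq_marg [Fintype V] (f : (V → ℝ) → ℝ≥0∞) (x : V → ℝ) :
    ∫⁻ ψ, f ψ = marg Finset.univ f x := by
  exact lintegral_eq_lmarginal_univ (μ := fun _ => (volume : Measure ℝ)) x

theorem lintegral_eq_marg_compl [Fintype V] (s : Finset V) {f : (V → ℝ) → ℝ≥0∞}
    (hf : Measurable f) (x : V → ℝ) : ∫⁻ ψ, f ψ = marg sᶜ (marg s f) x := by
  rw [← marg_union hf disjoint_compl_left, lintegral_eq_marg f x]
  congr 1
  ext i
  by_cases hi : i ∈ s <;> simp [hi]

theorem lintegral_le_of_marg_le [Fintype V] (s : Finset V) {f g : (V → ℝ) → ℝ≥0∞}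
    (hf : Measurable f) (hg : Measurable g) (h : ∀ x, marg s f x ≤ marg s g x) :
    ∫⁻ ψ, f ψ ≤ ∫⁻ ψ, g ψ := by
  exact lintegral_le_of_lmarginal_le (μ := fun _ => (volume : Measure ℝ)) s hf hg h

/-- Cauchy-Schwarz for marginals. -/
theorem marg_mul_sq_le (s : Finset V) {f g : (V → ℝ) → ℝ≥0∞} (hf : Measurable f)
    (hg : Measurable g) (x : V → ℝ) :
    marg s (fun ψ => f ψ * g ψ) x ^ 2 ≤
      marg s (fun ψ => f ψ * f ψ) x * marg s (fun ψ => g ψ * g ψ) x := by
  rw [marg_def, marg_def, marg_def]
  have hf' := (measurable_comp_updateFinset s hf x).aemeasurable (μ := volume)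
  have hg' := (measurable_comp_updateFinset s hg x).aemeasurable (μ := volume)
  have h := ENNReal.lintegral_mul_le_Lp_mul_Lq (volume : Measure (s → ℝ))
    Real.HolderConjugate.two_two hf' hg'
  have e : ∀ a : ℝ≥0∞, a ^ (2 : ℝ) = a * a := fun a => by
    rw [ENNReal.rpow_two, sq]
  have e2 : ∀ a : ℝ≥0∞, (a ^ (1 / (2 : ℝ))) ^ 2 = a := fun a => by
    rw [← ENNReal.rpow_two, ← ENNReal.rpow_mul]; norm_num
  simp only [Pi.mul_apply, e] at h
  refine (pow_le_pow_left' h 2).trans_eq ?_
  rw [mul_pow, e2, e2]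

/-- Product formula (conditional independence). -/
theorem marg_prod {ι : Type} [DecidableEq ι] (B : Finset ι) (I : ι → Finset V)
    (F0 : (V → ℝ) → ℝ≥0∞) (F : ι → (V → ℝ) → ℝ≥0∞)
    (hdisj : ∀ b ∈ B, ∀ b' ∈ B, b ≠ b' → Disjoint (I b) (I b'))
    (hF0 : Measurable F0) (hF : ∀ b ∈ B, Measurable (F b))
    (h0 : ∀ b ∈ B, Indep (I b) F0)
    (hind : ∀ b ∈ B, ∀ b' ∈ B, b ≠ b' → Indep (I b) (F b')) (x : V → ℝ) :
    marg (B.biUnion I) (fun ψ => F0 ψ * ∏ b ∈ B, F b ψ) x =
      F0 x * ∏ b ∈ B, marg (I b) (F b) x := by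
  induction B using Finset.induction_on generalizing F0 x with
  | empty => simp [marg_empty]
  | insert a B ha ih =>
    have hFa : Measurable (F a) := hF a (Finset.mem_insert_self _ _)
    have hsub : ∀ b ∈ B, b ∈ insert a B := fun b hb => Finset.mem_insert_of_mem hb
    have hne : ∀ b ∈ B, b ≠ a := fun b hb h => ha (h ▸ hb)
    have hd : Disjoint (I a) (B.biUnion I) := by
      rw [Finset.disjoint_biUnion_right]
      exact fun b hb => hdisj a (Finset.mem_insert_self _ _) b (hsub b hb) (hne b hb).symm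
    have hmeas : Measurable fun ψ => F0 ψ * ∏ b ∈ insert a B, F b ψ :=
      hF0.mul (Finset.measurable_prod _ fun b hb => hF b hb)
    rw [Finset.biUnion_insert, marg_union hmeas hd, Finset.prod_insert ha]
    have hin : marg (B.biUnion I) (fun ψ => F0 ψ * ∏ b ∈ insert a B, F b ψ) =
        fun y => (F0 y * ∏ b ∈ B, marg (I b) (F b) y) * F a y := by
      funext y
      have := ih (fun ψ => F0 ψ * F a ψ)
        (fun b hb b' hb' => hdisj b (hsub b hb) b' (hsub b' hb')) (hF0.mul hFa)
        (fun b hb => hF b (hsub b hb))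
        (fun b hb u v huv => by
          show F0 u * F a u = F0 v * F a v
          rw [h0 b (hsub b hb) u v huv,
            hind b (hsub b hb) a (Finset.mem_insert_self _ _) (hne b hb) u v huv])
        (fun b hb b' hb' => hind b (hsub b hb) b' (hsub b' hb')) y
      simp only [Finset.prod_insert ha, ← mul_assoc]
      rw [this]; ring
    rw [hin, marg_mul_indep (I a) _ hFa]
    · ring
    · intro u v huv
      show F0 u * ∏ b ∈ B, marg (I b) (F b) u = F0 v * ∏ b ∈ B, marg (I b) (F b) v
      rw [h0 a (Finset.mem_insert_self _ _) u v huv]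
      congr 1
      refine Finset.prod_congr rfl fun b hb => ?_
      exact (hind a (Finset.mem_insert_self _ _) b (hsub b hb) (hne b hb).symm).marg (I b) u v huv

/-- Homothety towards a point `z` contracts volumes by `θ ^ card`. -/
theorem marg_homothety (s : Finset V) {p q : (V → ℝ) → Prop}
    (hp : MeasurableSet {ψ | p ψ}) (hq : MeasurableSet {ψ | q ψ}) (x z : V → ℝ)
    (hz : Agree s z x) (θ : ℝ) (hθ : 0 < θ)
    (h : ∀ ψ, Agree s ψ x → p ψ → q fun i => (1 - θ) * z i + θ * ψ i) :
    ENNReal.ofReal (θ ^ s.card) * marg s (ind p) x ≤ marg s (ind q) x := by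
  have hP : MeasurableSet {y : s → ℝ | p (Function.updateFinset x s y)} :=
    measurable_updateFinset hp
  have hQ : MeasurableSet {y : s → ℝ | q (Function.updateFinset x s y)} :=
    measurable_updateFinset hq
  have e1 : marg s (ind p) x = volume {y : s → ℝ | p (Function.updateFinset x s y)} := by
    rw [marg_def, ← lintegral_ind volume hP]; rfl
  have e2 : marg s (ind q) x = volume {y : s → ℝ | q (Function.updateFinset x s y)} := by
    rw [marg_def, ← lintegral_ind volume hQ]; rfl
  rw [e1, e2]
  have h3 := Measure.addHaar_image_homothety (volume : Measure (s → ℝ)) (fun i : s => z i) θ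
    {y : s → ℝ | p (Function.updateFinset x s y)}
  have h4 : Module.finrank ℝ (s → ℝ) = s.card := by simp
  rw [h4, abs_of_pos (pow_pos hθ _)] at h3
  rw [← h3]
  refine measure_mono ?_
  rintro _ ⟨y, hy, rfl⟩
  have h5 := h _ (agree_updateFinset s x y) hy
  have h6 : (Function.updateFinset x s (AffineMap.homothety (fun i : s => z i) θ y)) =
      fun i => (1 - θ) * z i + θ * Function.updateFinset x s y i := by
    funext i
    by_cases hi : i ∈ s
    · simp only [Function.updateFinset, hi, dif_pos, AffineMap.homothety_apply, vsub_eq_sub,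
        vadd_eq_add, Pi.add_apply, Pi.smul_apply, Pi.sub_apply, smul_eq_mul]
      ring
    · simp only [Function.updateFinset, hi, dif_neg, not_false_eq_true, hz i hi]
      ring
  show q _
  rw [h6]
  exact h5

/-- Volume of a forest-structured set. -/
theorem marg_tree (W : Finset V) (π : V → V) (r : V → ℕ) (hr : ∀ x ∈ W, r (π x) < r x)
    (S : V → Set ℝ) (hS : ∀ x, MeasurableSet (S x)) (η : V → ℝ) :
    marg W (ind fun ψ => ∀ x ∈ W, ψ x - ψ (π x) ∈ S x) η = ∏ x ∈ W, volume (S x) := by
  have hm : ∀ U : Finset V, Measurable (ind fun ψ : V → ℝ => ∀ x ∈ U, ψ x - ψ (π x) ∈ S x) := by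
    intro U
    refine measurable_ind ?_
    have : {ψ : V → ℝ | ∀ x ∈ U, ψ x - ψ (π x) ∈ S x} =
        ⋂ x ∈ U, (fun ψ : V → ℝ => ψ x - ψ (π x)) ⁻¹' S x := by
      ext ψ; simp
    rw [this]
    exact Finset.measurableSet_biInter U fun x _ =>
      ((measurable_pi_apply x).sub (measurable_pi_apply (π x))) (hS x)
  induction W using Finset.induction_on_max_value r generalizing η with
  | empty =>
    rw [marg_empty, Finset.prod_empty]
    exact ind_pos (by simp)
  | insert a s ha hmax ih =>
    have hr' : ∀ x ∈ s, r (π x) < r x := fun x hx => hr x (Finset.mem_insert_of_mem hx)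
    have hpa : π a ≠ a := fun h => by
      have := hr a (Finset.mem_insert_self _ _)
      rw [h] at this
      exact lt_irrefl _ this
    have hps : ∀ x ∈ s, π x ≠ a := fun x hx h => by
      have h1 := hr' x hx
      rw [h] at h1
      exact absurd (hmax x hx) (not_le.mpr h1)
    have hxs : ∀ x ∈ s, x ≠ a := fun x hx h => ha (h ▸ hx)
    have hd : Disjoint s {a} := by simpa using ha
    have hu : insert a s = s ∪ {a} := by
      rw [Finset.union_comm]; rfl
    have hin : marg {a} (ind fun ψ : V → ℝ => ∀ x ∈ insert a s, ψ x - ψ (π x) ∈ S x) =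
        fun y => volume (S a) * (ind fun ψ : V → ℝ => ∀ x ∈ s, ψ x - ψ (π x) ∈ S x) y := by
      funext y
      rw [marg_singleton]
      have hT : MeasurableSet {t : ℝ | t - y (π a) ∈ S a} := (measurable_sub_const _) (hS a)
      have hv : volume {t : ℝ | t - y (π a) ∈ S a} = volume (S a) := by
        have := measure_preimage_add_right (volume : Measure ℝ) (-y (π a)) (S a)
        rw [← this]
        congr 1
      rw [← hv, ← lintegral_ind volume hT, ← lintegral_mul_const _ (measurable_ind hT)]
      refine lintegral_congr fun t => ?_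
      by_cases h1 : t - y (π a) ∈ S a
      · rw [ind_pos (p := fun t : ℝ => t - y (π a) ∈ S a) h1, one_mul]
        refine ind_congr ?_
        rw [Finset.forall_mem_insert]
        simp only [Function.update_self, Function.update_of_ne hpa, h1, true_and]
        refine forall₂_congr fun x hx => ?_
        rw [Function.update_of_ne (hxs x hx), Function.update_of_ne (hps x hx)]
      · rw [ind_neg (p := fun t : ℝ => t - y (π a) ∈ S a) h1, zero_mul]
        refine ind_neg fun h2 => h1 ?_
        have := h2 a (Finset.mem_insert_self _ _)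
        rwa [Function.update_self, Function.update_of_ne hpa] at this
    rw [Finset.prod_insert ha, ← ih hr' η, ← marg_mul_indep s (c := fun _ => volume (S a))
      (fun _ _ _ => rfl) (hm s), ← hin, ← marg_union (hm _) hd, ← hu]

end Pool.Agent.Lib.MP_adb013_pr
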