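import Pool.Agent.Lib.MP_adb013_pr.Marg

set_option autoImplicit false
set_option linter.unusedSectionVars false

open MeasureTheory
open scoped ENNReal

namespace Pool.Agent.Lib.MP_adb013_pr

private theorem pl_vol_pre (c : ℝ) (S : Set ℝ) :
    volume ((fun a : ℝ => (a + c) / 2) ⁻¹' S) = 2 * volume S := by
  have h1 : (fun a : ℝ => (a + c) / 2) ⁻¹' S
      = (fun a : ℝ => a + c) ⁻¹' ((fun a : ℝ => a * (2 : ℝ)⁻¹) ⁻¹' S) := by
    ext a; simp [div_eq_mul_inv]
  rw [h1, measure_preimage_add_right, Real.volume_preimage_mul_right (by norm_num)]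
  norm_num

/-- Brunn-Minkowski on the line, compact sets. -/
private theorem pl_bm_compact {K L C : Set ℝ} (hK : IsCompact K) (hL : IsCompact L)
    (hKn : K.Nonempty) (hLn : L.Nonempty)
    (H : ∀ a ∈ K, ∀ b ∈ L, (a + b) / 2 ∈ C) : volume K + volume L ≤ 2 * volume C := by
  obtain ⟨k, hk, hkm⟩ := hK.exists_isGreatest hKn
  obtain ⟨l, hl, hlm⟩ := hL.exists_isLeast hLn
  have h1 : K ⊆ (fun a : ℝ => (a + l) / 2) ⁻¹' (C ∩ Set.Iic ((k + l) / 2)) := by
    intro a ha
    refine ⟨H a ha l hl, ?_⟩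
    have := hkm ha
    simp only [Set.mem_Iic]
    linarith
  have h2 : L ⊆ (fun b : ℝ => (b + k) / 2) ⁻¹' (C ∩ Set.Ici ((k + l) / 2)) := by
    intro b hb
    refine ⟨by have := H k hk b hb; rwa [add_comm k b] at this, ?_⟩
    have := hlm hb
    simp only [Set.mem_Ici]
    linarith
  have h3 : volume (C ∩ Set.Ici ((k + l) / 2)) = volume (C \ Set.Iic ((k + l) / 2)) := by
    rw [Set.sdiff_eq, Set.compl_Iic]
    exact measure_congr ((ae_eq_refl C).inter (Ioi_ae_eq_Ici (μ := volume)).symm)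
  calc volume K + volume L
      ≤ volume ((fun a : ℝ => (a + l) / 2) ⁻¹' (C ∩ Set.Iic ((k + l) / 2))) +
        volume ((fun b : ℝ => (b + k) / 2) ⁻¹' (C ∩ Set.Ici ((k + l) / 2))) :=
        add_le_add (measure_mono h1) (measure_mono h2)
    _ = 2 * (volume (C ∩ Set.Iic ((k + l) / 2)) + volume (C \ Set.Iic ((k + l) / 2))) := by
        rw [pl_vol_pre, pl_vol_pre, h3, mul_add]
    _ = 2 * volume C := by rw [measure_inter_add_sdiff C measurableSet_Iic]

/-- Brunn-Minkowski on the line, measurable sets. -/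
private theorem pl_bm {A B C : Set ℝ} (hA : MeasurableSet A) (hB : MeasurableSet B)
    (hAn : A.Nonempty) (hBn : B.Nonempty)
    (H : ∀ a ∈ A, ∀ b ∈ B, (a + b) / 2 ∈ C) : volume A + volume B ≤ 2 * volume C := by
  obtain ⟨a0, ha0⟩ := hAn
  obtain ⟨b0, hb0⟩ := hBn
  have key : ∀ K ⊆ A, IsCompact K → ∀ L ⊆ B, IsCompact L →
      volume K + volume L ≤ 2 * volume C := by
    intro K hKA hK L hLB hL
    have h := pl_bm_compact (C := C) (hK.insert a0) (hL.insert b0) (Set.insert_nonempty _ _)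
      (Set.insert_nonempty _ _) (fun a ha b hb => H a
        (by rcases ha with rfl | ha; exacts [ha0, hKA ha]) b
        (by rcases hb with rfl | hb; exacts [hb0, hLB hb]))
    exact (add_le_add (measure_mono (Set.subset_insert _ _))
      (measure_mono (Set.subset_insert _ _))).trans h
  rw [hA.measure_eq_iSup_isCompact volume, hB.measure_eq_iSup_isCompact volume]
  have e1 : (⨆ (K : Set ℝ) (_ : K ⊆ A) (_ : IsCompact K), volume K)
      = ⨆ K : {K : Set ℝ // K ⊆ A ∧ IsCompact K}, volume K.1 := by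
    rw [iSup_subtype]; simp only [iSup_and]
  have e2 : (⨆ (K : Set ℝ) (_ : K ⊆ B) (_ : IsCompact K), volume K)
      = ⨆ K : {K : Set ℝ // K ⊆ B ∧ IsCompact K}, volume K.1 := by
    rw [iSup_subtype]; simp only [iSup_and]
  rw [e1, e2]
  have : Nonempty {K : Set ℝ // K ⊆ A ∧ IsCompact K} := ⟨⟨∅, by simp⟩⟩
  have : Nonempty {K : Set ℝ // K ⊆ B ∧ IsCompact K} := ⟨⟨∅, by simp⟩⟩
  exact ENNReal.iSup_add_iSup_le fun K L => key K.1 K.2.1 K.2.2 L.1 L.2.1 L.2.2

/-- Layer cake for a truncated function. -/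
private theorem pl_cake {f : ℝ → ℝ≥0∞} (hf : Measurable f) :
    ∫⁻ a, min (f a) 1 = ∫⁻ t in Set.Ioi (0 : ℝ), volume {a | ENNReal.ofReal t < min (f a) 1} := by
  have hm : Measurable fun a => (min (f a) 1).toReal := (hf.min measurable_const).ennreal_toReal
  have h := lintegral_eq_lintegral_meas_lt (volume : Measure ℝ)
    (f := fun a => (min (f a) 1).toReal) (Filter.Eventually.of_forall fun a => ENNReal.toReal_nonneg)
    hm.aemeasurable
  have hne : ∀ a, min (f a) 1 ≠ ⊤ := fun a => ne_top_of_le_ne_top ENNReal.one_ne_top (min_le_right _ _)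
  simp only [ENNReal.ofReal_toReal (hne _)] at h
  rw [h]
  refine setLIntegral_congr_fun measurableSet_Ioi fun t ht => ?_
  have : {a | t < (min (f a) 1).toReal} = {a | ENNReal.ofReal t < min (f a) 1} := by
    ext a
    simp only [Set.mem_ofPred_eq]
    rw [ENNReal.ofReal_lt_iff_lt_toReal (le_of_lt ht) (hne a)]
  simp only [this]

/-- The normalised inequality. -/
private theorem pl_norm {f g h : ℝ → ℝ≥0∞} (hf : Measurable f) (hg : Measurable g)
    (hh : Measurable h) (H : ∀ a b : ℝ, f a * g b ≤ h ((a + b) / 2) ^ 2)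
    (hf1 : 1 ≤ ⨆ a, f a) (hg1 : 1 ≤ ⨆ a, g a) :
    (∫⁻ a, min (f a) 1) + (∫⁻ b, min (g b) 1) ≤ 2 * ∫⁻ c, h c := by
  have step : ∀ t : ℝ, volume {a | ENNReal.ofReal t < min (f a) 1} +
      volume {a | ENNReal.ofReal t < min (g a) 1} ≤
      2 * volume {a | ENNReal.ofReal t < min (h a) 1} := by
    intro t
    by_cases ht : ENNReal.ofReal t < 1
    · refine pl_bm (measurableSet_lt measurable_const (hf.min measurable_const))
        (measurableSet_lt measurable_const (hg.min measurable_const)) ?_ ?_ ?_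
      · obtain ⟨a, ha⟩ := lt_iSup_iff.1 (ht.trans_le hf1)
        exact ⟨a, lt_min ha ht⟩
      · obtain ⟨a, ha⟩ := lt_iSup_iff.1 (ht.trans_le hg1)
        exact ⟨a, lt_min ha ht⟩
      · intro a ha b hb
        have ha' : ENNReal.ofReal t < f a := (lt_min_iff.1 ha).1
        have hb' : ENNReal.ofReal t < g b := (lt_min_iff.1 hb).1
        refine lt_min ?_ ht
        by_contra hc
        have hc' : h ((a + b) / 2) ≤ ENNReal.ofReal t := not_lt.1 hc
        have h1 : ENNReal.ofReal t * ENNReal.ofReal t < f a * g b := ENNReal.mul_lt_mul ha' hb'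
        have h2 : h ((a + b) / 2) ^ 2 ≤ ENNReal.ofReal t * ENNReal.ofReal t := by
          rw [sq]; exact mul_le_mul' hc' hc'
        exact absurd (h1.trans_le ((H a b).trans h2)) (lt_irrefl _)
    · have e : ∀ u : ℝ → ℝ≥0∞, {a | ENNReal.ofReal t < min (u a) 1} = ∅ := fun u =>
        Set.eq_empty_of_forall_notMem fun a ha => ht (lt_min_iff.1 ha).2
      rw [e f, e g]; simp
  rw [pl_cake hf, pl_cake hg]
  refine (le_lintegral_add _ _).trans ?_
  refine (lintegral_mono fun t => step t).trans ?_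
  rw [lintegral_const_mul' _ _ (by norm_num), ← pl_cake hh]
  exact mul_le_mul' le_rfl (lintegral_mono fun c => min_le_left _ _)

private theorem pl_amgm {x y z : ℝ≥0∞} (h : x + y ≤ 2 * z) : x * y ≤ z ^ 2 := by
  by_cases hz : z = ⊤
  · simp [hz]
  have h2 : 2 * z ≠ ⊤ := ENNReal.mul_ne_top (by norm_num) hz
  have hx : x ≠ ⊤ := ne_top_of_le_ne_top h2 (le_self_add.trans h)
  have hy : y ≠ ⊤ := ne_top_of_le_ne_top h2 (le_add_self.trans h)
  lift x to NNReal using hx
  lift y to NNReal using hy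
  lift z to NNReal using hz
  have h' : (x : ℝ) + y ≤ 2 * z := by exact_mod_cast h
  have h3 : (x : ℝ) * y ≤ z ^ 2 := by
    nlinarith [sq_nonneg ((x : ℝ) - y), x.2, y.2, z.2, mul_self_le_mul_self (add_nonneg x.2 y.2) h']
  exact_mod_cast h3

private theorem pl_min_scale (u α : ℝ≥0∞) (h0 : α ≠ 0) (ht : α ≠ ⊤) :
    min u α = α * min (α⁻¹ * u) 1 := by
  rw [mul_min, mul_one, ← mul_assoc, ENNReal.mul_inv_cancel h0 ht, one_mul]

/-- The inequality for truncations below the suprema. -/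
private theorem pl_trunc {f g h : ℝ → ℝ≥0∞} (hf : Measurable f) (hg : Measurable g)
    (hh : Measurable h) (H : ∀ a b : ℝ, f a * g b ≤ h ((a + b) / 2) ^ 2)
    (α β : ℝ≥0∞) (hαt : α ≠ ⊤) (hβt : β ≠ ⊤) (hf1 : α ≤ ⨆ a, f a) (hg1 : β ≤ ⨆ a, g a) :
    (∫⁻ a, min (f a) α) * (∫⁻ b, min (g b) β) ≤ (∫⁻ c, h c) ^ 2 := by
  by_cases hα : α = 0
  · simp [hα]
  by_cases hβ : β = 0
  · simp [hβ]
  obtain ⟨γ, hγ⟩ : ∃ γ : ℝ≥0∞, γ ^ 2 = α * β :=
    ⟨(α * β) ^ ((2 : ℕ) : ℝ)⁻¹, ENNReal.rpow_inv_natCast_pow two_ne_zero _⟩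
  have hγ0 : γ ≠ 0 := by
    rintro rfl
    exact mul_ne_zero hα hβ (by rw [← hγ]; simp)
  have hγt : γ ≠ ⊤ := by
    rintro rfl
    exact ENNReal.mul_ne_top hαt hβt (by rw [← hγ]; simp)
  have hinv : α⁻¹ * β⁻¹ = γ⁻¹ ^ 2 := by
    rw [← ENNReal.inv_pow, hγ, ENNReal.mul_inv (Or.inl hα) (Or.inl hαt)]
  have hn := pl_norm (f := fun a => α⁻¹ * f a) (g := fun a => β⁻¹ * g a) (h := fun a => γ⁻¹ * h a)
    (hf.const_mul _) (hg.const_mul _) (hh.const_mul _)
    (fun a b => by
      calc α⁻¹ * f a * (β⁻¹ * g b) = α⁻¹ * β⁻¹ * (f a * g b) := by ring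
        _ ≤ γ⁻¹ ^ 2 * h ((a + b) / 2) ^ 2 := by rw [hinv]; exact mul_le_mul' le_rfl (H a b)
        _ = (γ⁻¹ * h ((a + b) / 2)) ^ 2 := by ring)
    (by
      rw [← ENNReal.mul_iSup]
      calc (1 : ℝ≥0∞) = α⁻¹ * α := (ENNReal.inv_mul_cancel hα hαt).symm
        _ ≤ _ := mul_le_mul' le_rfl hf1)
    (by
      rw [← ENNReal.mul_iSup]
      calc (1 : ℝ≥0∞) = β⁻¹ * β := (ENNReal.inv_mul_cancel hβ hβt).symm
        _ ≤ _ := mul_le_mul' le_rfl hg1)
  have h2 := pl_amgm hn
  have e1 : ∫⁻ a, min (f a) α = α * ∫⁻ a, min (α⁻¹ * f a) 1 := by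
    rw [← lintegral_const_mul' _ _ hαt]
    exact lintegral_congr fun a => pl_min_scale _ _ hα hαt
  have e2 : ∫⁻ a, min (g a) β = β * ∫⁻ a, min (β⁻¹ * g a) 1 := by
    rw [← lintegral_const_mul' _ _ hβt]
    exact lintegral_congr fun a => pl_min_scale _ _ hβ hβt
  have e3 : ∫⁻ c, h c = γ * ∫⁻ c, γ⁻¹ * h c := by
    rw [← lintegral_const_mul' _ _ hγt]
    exact lintegral_congr fun a => by
      rw [← mul_assoc, ENNReal.mul_inv_cancel hγ0 hγt, one_mul]
  rw [e1, e2, e3, mul_pow, hγ, mul_mul_mul_comm]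
  exact mul_le_mul' le_rfl h2

private theorem pl_iSup {f : ℝ → ℝ≥0∞} (hf : Measurable f) :
    ∫⁻ a, f a = ⨆ n : ℕ, ∫⁻ a, min (f a) (min (⨆ a, f a) n) := by
  rw [← lintegral_iSup (fun n => hf.min measurable_const)
    (fun m n hmn a => min_le_min le_rfl (min_le_min le_rfl (by exact_mod_cast hmn)))]
  refine lintegral_congr fun a => ?_
  have e : ∀ n : ℕ, min (f a) (min (⨆ a, f a) n) = f a ⊓ (n : ℝ≥0∞) := fun n => by
    rw [← min_assoc, min_eq_left (le_iSup f a)]
  simp only [e]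
  rw [← inf_iSup_eq, ENNReal.iSup_natCast, inf_top_eq]

/-- One-dimensional Prekopa-Leindler inequality (midpoint form). -/
theorem pl_one {f g h : ℝ → ℝ≥0∞} (hf : Measurable f) (hg : Measurable g) (hh : Measurable h)
    (H : ∀ a b : ℝ, f a * g b ≤ h ((a + b) / 2) ^ 2) :
    (∫⁻ a, f a) * (∫⁻ b, g b) ≤ (∫⁻ c, h c) ^ 2 := by
  rw [pl_iSup hf, pl_iSup hg, ENNReal.iSup_mul]
  refine iSup_le fun m => ?_
  rw [ENNReal.mul_iSup]
  refine iSup_le fun n => ?_
  exact pl_trunc hf hg hh H _ _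
    (ne_top_of_le_ne_top (ENNReal.natCast_ne_top m) (min_le_right _ _))
    (ne_top_of_le_ne_top (ENNReal.natCast_ne_top n) (min_le_right _ _))
    (min_le_left _ _) (min_le_left _ _)

/-- Prekopa-Leindler inequality for marginals. -/
theorem pl_marg {V : Type} [DecidableEq V] (s : Finset V) {f g h : (V → ℝ) → ℝ≥0∞}
    (hf : Measurable f) (hg : Measurable g) (hh : Measurable h) (x y : V → ℝ)
    (H : ∀ x' y', Agree s x' x → Agree s y' y → f x' * g y' ≤ h (mid x' y') ^ 2) :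
    marg s f x * marg s g y ≤ marg s h (mid x y) ^ 2 := by
  induction s using Finset.induction_on generalizing x y with
  | empty =>
    simp only [marg, lmarginal_empty]
    exact H x y (Agree.refl _ _) (Agree.refl _ _)
  | insert i s hi ih =>
    have hag : ∀ (x x' : V → ℝ) (a : ℝ), Agree s x' (Function.update x i a) →
        Agree (insert i s) x' x := by
      intro x x' a hx j hj
      rw [Finset.mem_insert, not_or] at hj
      rw [hx j hj.2, Function.update_of_ne hj.1]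
    have hmid : ∀ a b : ℝ, mid (Function.update x i a) (Function.update y i b)
        = Function.update (mid x y) i ((a + b) / 2) := by
      intro a b
      funext j
      by_cases hj : j = i
      · subst hj; simp [mid]
      · simp [mid, Function.update_of_ne hj]
    have hm : ∀ {u : (V → ℝ) → ℝ≥0∞}, Measurable u → ∀ z : V → ℝ,
        Measurable fun a : ℝ => marg s u (Function.update z i a) := fun hu z =>
      (hu.lmarginal _).comp (measurable_update z)
    have he : ∀ {u : (V → ℝ) → ℝ≥0∞}, Measurable u → ∀ z : V → ℝ,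
        marg (insert i s) u z = ∫⁻ a : ℝ, marg s u (Function.update z i a) := fun hu z =>
      lmarginal_insert _ hu hi z
    rw [he hf, he hg, he hh]
    refine pl_one (hm hf x) (hm hg y) (hm hh _) fun a b => ?_
    rw [← hmid]
    exact ih _ _ fun x' y' hx hy => H x' y' (hag _ _ _ hx) (hag _ _ _ hy)

end Pool.Agent.Lib.MP_adb013_pr
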