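import Pool.Agent.Lib.MP_adb013_pr.Torus

set_option autoImplicit false
set_option linter.unusedSectionVars false

open MeasureTheory
open scoped ENNReal

namespace Pool.Agent.Lib.MP_adb013_pr

variable {d N m : ℕ} [NeZero N]

/-- A family of events, one per box, is `q`-sparse on pairwise non-touching boxes. -/
def Sparse (E : Cell d m → Set (T d N → ℝ)) (q : ℝ) : Prop :=
  ∀ B : Finset (Cell d m), (∀ b ∈ B, ∀ b' ∈ B, b ≠ b' → Apart b b') →
    mu TAdj 0 {ψ | ∀ b ∈ B, ψ ∈ E b} ≤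
      ENNReal.ofReal (q ^ B.card) * mu (TAdj (d := d) (N := N)) 0 Set.univ

theorem Sparse.mono {E E' : Cell d m → Set (T d N → ℝ)} {q q' : ℝ} (h : Sparse E q)
    (hq : 0 ≤ q) (hqq : q ≤ q') (hE : ∀ b ψ, Lip TAdj ψ → ψ ∈ E' b → ψ ∈ E b) :
    Sparse E' q' := by
  intro B hB
  refine le_trans ?_ ((h B hB).trans ?_)
  · exact mu_mono_lip _ _ fun ψ hψ hx b hb => hE b ψ hψ (hx b hb)
  · gcongr

theorem Sparse.union {E E' : Cell d m → Set (T d N → ℝ)} {q : ℝ} (hq : 0 ≤ q)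
    (h : Sparse E (q ^ 2)) (h' : Sparse E' (q ^ 2)) (hq1 : q ≤ 1) :
    Sparse (fun b => E b ∪ E' b) (2 * q) := by
  classical
  intro B hB
  have sub : {ψ | ∀ b ∈ B, ψ ∈ E b ∪ E' b} ⊆
      ⋃ S ∈ B.powerset, {ψ | ∀ b ∈ S, ψ ∈ E b} ∩ {ψ | ∀ b ∈ B \ S, ψ ∈ E' b} := by
    intro ψ hψ
    refine Set.mem_iUnion₂.2 ⟨B.filter fun b => ψ ∈ E b,
      Finset.mem_powerset.2 (Finset.filter_subset _ _), fun b hb => (Finset.mem_filter.1 hb).2,
      fun b hb => ?_⟩
    rw [Finset.mem_sdiff, Finset.mem_filter] at hb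
    exact (hψ b hb.1).resolve_left fun h => hb.2 ⟨hb.1, h⟩
  refine (measure_mono sub).trans ((measure_biUnion_finset_le _ _).trans ?_)
  have each : ∀ S ∈ B.powerset, mu TAdj 0 ({ψ | ∀ b ∈ S, ψ ∈ E b} ∩ {ψ | ∀ b ∈ B \ S, ψ ∈ E' b}) ≤
      ENNReal.ofReal (q ^ B.card) * mu (TAdj (d := d) (N := N)) 0 Set.univ := by
    intro S hS
    rw [Finset.mem_powerset] at hS
    have hc := Finset.card_sdiff_add_card_eq_card hS
    rcases le_total B.card (2 * S.card) with hle | hle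
    · refine (measure_mono Set.inter_subset_left).trans
        ((h S fun b hb b' hb' => hB b (hS hb) b' (hS hb')).trans ?_)
      rw [← pow_mul]
      exact mul_le_mul_left (ENNReal.ofReal_le_ofReal (pow_le_pow_of_le_one hq hq1 hle)) _
    · refine (measure_mono Set.inter_subset_right).trans
        ((h' (B \ S) fun b hb b' hb' =>
          hB b (Finset.sdiff_subset hb) b' (Finset.sdiff_subset hb')).trans ?_)
      rw [← pow_mul]
      exact mul_le_mul_left (ENNReal.ofReal_le_ofReal (pow_le_pow_of_le_one hq hq1 (by omega))) _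
  refine (Finset.sum_le_card_nsmul _ _ _ each).trans (le_of_eq ?_)
  rw [Finset.card_powerset, nsmul_eq_mul, ← mul_assoc, mul_pow,
    ENNReal.ofReal_mul (by positivity), ← ENNReal.ofReal_natCast]
  push_cast
  rfl

/-- From non-touching boxes to arbitrary sets of boxes (parity classes). -/
theorem Sparse.all {E : Cell d m → Set (T d N → ℝ)} {q : ℝ} (hq : 0 ≤ q) (hq1 : q ≤ 1)
    (h : Sparse E (q ^ (2 ^ d))) (B : Finset (Cell d m)) :
    mu TAdj 0 {ψ | ∀ b ∈ B, ψ ∈ E b} ≤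
      ENNReal.ofReal (q ^ B.card) * mu (TAdj (d := d) (N := N)) 0 Set.univ := by
  classical
  set f : Cell d m → (Fin d → Fin 2) := fun b j => ⟨(b j : ℕ) % 2, Nat.mod_lt _ two_pos⟩ with hf
  obtain ⟨c, -, hc⟩ := Finset.exists_max_image (Finset.univ : Finset (Fin d → Fin 2))
    (fun c => (B.filter fun b => f b = c).card) Finset.univ_nonempty
  have hcard : B.card ≤ 2 ^ d * (B.filter fun b => f b = c).card := by
    rw [Finset.card_eq_sum_card_fiberwise (f := f) (t := Finset.univ) fun _ _ => Finset.mem_univ _]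
    refine (Finset.sum_le_card_nsmul _ _ _ hc).trans (le_of_eq ?_)
    simp
  refine le_trans ?_ ((h (B.filter fun b => f b = c) ?_).trans ?_)
  · exact measure_mono fun ψ hψ b hb => hψ b (Finset.mem_filter.1 hb).1
  · intro b hb b' hb' hne
    obtain ⟨j, hj⟩ := Function.ne_iff.1 hne
    have e := congrFun ((Finset.mem_filter.1 hb).2.trans (Finset.mem_filter.1 hb').2.symm) j
    simp only [hf, Fin.mk.injEq] at e
    have := Fin.val_ne_of_ne hj
    exact ⟨j, by omega⟩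
  · rw [← pow_mul]
    exact mul_le_mul_left (ENNReal.ofReal_le_ofReal (pow_le_pow_of_le_one hq hq1 hcard)) _

/-- Union bound over the choices of one witness per box. -/
theorem sparse_choice {κ : Type} (𝓕 : Cell d m → Finset κ) (M : ℕ) (hM : ∀ b, (𝓕 b).card ≤ M)
    (E : Cell d m → κ → Set (T d N → ℝ)) {r : ℝ}
    (h : ∀ f : Cell d m → κ, ∀ B : Finset (Cell d m),
      (∀ b ∈ B, ∀ b' ∈ B, b ≠ b' → Apart b b') → (∀ b ∈ B, f b ∈ 𝓕 b) →
      mu TAdj 0 {ψ | ∀ b ∈ B, ψ ∈ E b (f b)} ≤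
        ENNReal.ofReal (r ^ B.card) * mu (TAdj (d := d) (N := N)) 0 Set.univ) :
    Sparse (fun b : Cell d m => {ψ | ∃ F ∈ 𝓕 b, ψ ∈ E b F}) (M * r) := by
  classical
  intro B hB
  rcases isEmpty_or_nonempty κ with hκ | ⟨⟨a⟩⟩
  · rcases B.eq_empty_or_nonempty with rfl | ⟨b, hb⟩
    · simp
    · refine (measure_mono (t := ∅) fun ψ hψ => ?_).trans (by simp)
      obtain ⟨F, -⟩ := hψ b hb
      exact hκ.elim F
  set P := Fintype.piFinset fun b => if b ∈ B then 𝓕 b else {a} with hP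
  have sub : {ψ | ∀ b ∈ B, ψ ∈ {ψ | ∃ F ∈ 𝓕 b, ψ ∈ E b F}} ⊆
      ⋃ f ∈ P, {ψ | ∀ b ∈ B, ψ ∈ E b (f b)} := by
    intro ψ hψ
    choose g hg hg' using hψ
    refine Set.mem_iUnion₂.2 ⟨fun b => if hb : b ∈ B then g b hb else a, ?_, fun b hb => ?_⟩
    · rw [hP, Fintype.mem_piFinset]
      intro b
      by_cases hb : b ∈ B
      · simp only [hb, dite_true, if_true]; exact hg b hb
      · simp [hb]
    · simp only [hb, dite_true]; exact hg' b hb
  have card : P.card ≤ M ^ B.card := by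
    rw [hP, Fintype.card_piFinset]
    simp only [apply_ite Finset.card, Finset.card_singleton]
    rw [Finset.prod_ite_mem, Finset.univ_inter]
    exact Finset.prod_le_pow_card _ _ _ fun b _ => hM b
  refine (measure_mono sub).trans ((measure_biUnion_finset_le _ _).trans
    ((Finset.sum_le_card_nsmul _ _ _ fun f hf => h f B hB fun b hb => ?_).trans ?_))
  · have := Fintype.mem_piFinset.1 hf b
    rwa [if_pos hb] at this
  · rw [nsmul_eq_mul, ← mul_assoc, mul_pow, ENNReal.ofReal_mul (by positivity),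
      ← ENNReal.ofReal_natCast]
    gcongr
    exact_mod_cast card

/-- Union bound over witnesses made of almost extremal edges. -/
theorem sparse_ext {R : ℕ} (hR : 0 < R) {δ ρ : ℝ} (hρ0 : 0 ≤ ρ) (hρ1 : ρ ≤ 1)
    (hext : ∀ F : Finset (T d N × Fin d), mu TAdj 0 (Ext δ F) ≤
      ENNReal.ofReal (ρ ^ F.card) * mu (TAdj (d := d) (N := N)) 0 Set.univ)
    (k M : ℕ) (𝓕 : Cell d m → Finset (Finset (T d N × Fin d)))
    (hM : ∀ b, (𝓕 b).card ≤ M)
    (hF : ∀ b, ∀ F ∈ 𝓕 b, k ≤ F.card ∧ ∀ p ∈ F, p.1 ∈ cbox R b) :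
    Sparse (fun b : Cell d m => {ψ | ∃ F ∈ 𝓕 b, ψ ∈ Ext δ F}) (M * ρ ^ k) := by
  classical
  refine sparse_choice 𝓕 M hM (fun _ F => Ext δ F) fun f B hB hf => ?_
  refine (measure_mono (t := Ext δ (B.biUnion f)) fun ψ hψ p hp => ?_).trans ((hext _).trans ?_)
  · obtain ⟨b, hb, hp⟩ := Finset.mem_biUnion.1 hp
    exact hψ b hb p hp
  · rw [← pow_mul]
    refine mul_le_mul_left (ENNReal.ofReal_le_ofReal (pow_le_pow_of_le_one hρ0 hρ1 ?_)) _
    rw [Finset.card_biUnion, mul_comm]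
    · exact Finset.card_nsmul_le_sum _ _ _ fun b hb => (hF b _ (hf b hb)).1
    · intro b hb b' hb' hne
      refine Finset.disjoint_left.2 fun p hp hp' => ?_
      exact Finset.disjoint_left.1 (disjoint_cbox (N := N) hR (hB b hb b' hb' hne))
        ((hF b _ (hf b hb)).2 p hp) ((hF b' _ (hf b' hb')).2 p hp')

end Pool.Agent.Lib.MP_adb013_pr
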