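import Pool.Agent.Lib.MP_adb013_pr.SparseG3
import Pool.Agent.Lib.MP_adb013_pr.Chess
import Pool.Agent.Lib.MP_adb013_pr.GoodBox

set_option autoImplicit false
set_option linter.unusedSectionVars false

open MeasureTheory
open scoped ENNReal

namespace Pool.Agent.Lib.MP_adb013_pr

theorem sparse_G1 (d R : ℕ) (hR : 0 < R) (q : ℝ) (hq : 0 < q) :
    ∃ ε : ℝ, 0 < ε ∧ ε ≤ 1 ∧ ∃ N0 : ℕ, ∀ (N : ℕ) [NeZero N], Even N → N0 ≤ N → ∀ m : ℕ,
      m * R < N → Sparse (fun b : Cell d m => {ψ : T d N → ℝ | ¬ G1 R ε b ψ}) q := by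
  classical
  obtain ⟨M, hMdef⟩ : ∃ M : ℕ, M = (R + 1) ^ d * d := ⟨_, rfl⟩
  have hM0 : (0 : ℝ) ≤ M := Nat.cast_nonneg M
  have hρ : 0 < min 1 (q / (M + 1)) := lt_min one_pos (by positivity)
  obtain ⟨δ, hδ0, hδ1, N0, hext⟩ := ext_bound d _ hρ
  refine ⟨δ, hδ0, hδ1, N0, fun N _ hN hN0 m _ => ?_⟩
  have h := sparse_ext (d := d) (N := N) (m := m) hR hρ.le (min_le_left _ _) (hext N hN hN0) 1 M
    (fun b => (cbox R b ×ˢ (Finset.univ : Finset (Fin d))).image fun p => {p})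
    (fun b => by
      refine Finset.card_image_le.trans ?_
      rw [Finset.card_product, Finset.card_univ, Fintype.card_fin, hMdef]
      exact Nat.mul_le_mul_right _ (card_cbox_le R b))
    (fun b F hF => by
      obtain ⟨p, hp, rfl⟩ := Finset.mem_image.1 hF
      refine ⟨by simp, fun p' hp' => ?_⟩
      rw [Finset.mem_singleton.1 hp']
      exact (Finset.mem_product.1 hp).1)
  refine h.mono (by positivity) ?_ ?_
  · rw [pow_one]
    calc (M : ℝ) * min 1 (q / (M + 1)) ≤ (M + 1) * (q / (M + 1)) :=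
          mul_le_mul (by linarith) (min_le_right _ _) hρ.le (by linarith)
      _ = q := by field_simp
  · intro b ψ _ hψ
    simp only [Set.mem_ofPred_eq, G1, not_forall, not_le] at hψ
    obtain ⟨x, j, hx, -, hlt⟩ := hψ
    refine ⟨{(x, j)}, Finset.mem_image.2 ⟨(x, j), Finset.mem_product.2 ⟨hx, Finset.mem_univ _⟩,
      rfl⟩, fun p hp => ?_⟩
    rw [Finset.mem_singleton.1 hp]
    exact hlt.le

private theorem sparseB_val {d N : ℕ} [NeZero N] (x : T d N) (j k : Fin d) (s : ℕ)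
    (h : (x j).val + s < N) :
    ((x + (s : ZMod N) • ev j : T d N) k).val = (x k).val + if k = j then s else 0 := by
  by_cases hk : k = j
  · subst hk
    have hs : ((s : ZMod N)).val = s := ZMod.val_cast_of_lt (by omega)
    simp only [ev, Pi.add_apply, Pi.smul_apply, Pi.single_eq_same, smul_eq_mul, mul_one, if_true]
    rw [ZMod.val_add_of_lt (by rw [hs]; exact h), hs]
  · simp [ev, hk]

private theorem sparseB_tele {d N : ℕ} (ψ : T d N → ℝ) (x : T d N) (j : Fin d) (k : ℕ) :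
    |ψ (x + (k : ZMod N) • ev j) - ψ x| ≤ ∑ s ∈ Finset.range k,
      |ψ (x + (s : ZMod N) • ev j + ev j) - ψ (x + (s : ZMod N) • ev j)| := by
  induction k with
  | zero => simp
  | succ k ih =>
    rw [Finset.sum_range_succ]
    have e : x + ((k + 1 : ℕ) : ZMod N) • ev j = x + (k : ZMod N) • ev j + ev j := by
      push_cast
      rw [add_smul, one_smul, add_assoc]
    rw [e]
    have := abs_sub_le (ψ (x + (k : ZMod N) • ev j + ev j)) (ψ (x + (k : ZMod N) • ev j)) (ψ x)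
    linarith

private theorem sparseB_choose (d : ℕ) (q : ℝ) (hq : 0 < q) (δ : ℝ) (hδ : 0 < δ) :
    ∃ n : ℕ, 0 < n ∧ 3 ≤ δ * n ∧
      (((4 * n + 1) ^ d * d * 2 ^ (2 * n) : ℕ) : ℝ) * (1 / 16 : ℝ) ^ n ≤ q := by
  have hr : |(1 / 4 : ℝ)| < 1 := by rw [abs_of_pos (by norm_num)]; norm_num
  have h0 := (tendsto_pow_const_mul_const_pow_of_abs_lt_one d hr).const_mul ((5 : ℝ) ^ d * d)
  rw [mul_zero] at h0
  have h1 := h0.eventually_le_const hq
  have h2 := (tendsto_natCast_atTop_atTop (R := ℝ)).eventually_ge_atTop (3 / δ)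
  obtain ⟨n, hn1, hn2, hn3⟩ := (h1.and (h2.and (Filter.eventually_ge_atTop 1))).exists
  refine ⟨n, hn3, ?_, le_trans ?_ hn1⟩
  · rw [div_le_iff₀ hδ] at hn2
    linarith
  · have hn : (1 : ℝ) ≤ n := by exact_mod_cast hn3
    have e1 : (4 * (n : ℝ) + 1) ^ d ≤ 5 ^ d * (n : ℝ) ^ d := by
      rw [← mul_pow]
      exact pow_le_pow_left₀ (by positivity) (by linarith) d
    have e2 : (2 : ℝ) ^ (2 * n) * (1 / 16 : ℝ) ^ n = (1 / 4 : ℝ) ^ n := by
      rw [pow_mul, ← mul_pow]; norm_num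
    push_cast
    calc (4 * (n : ℝ) + 1) ^ d * d * 2 ^ (2 * n) * (1 / 16 : ℝ) ^ n
        = (4 * (n : ℝ) + 1) ^ d * (d * (1 / 4 : ℝ) ^ n) := by rw [← e2]; ring
      _ ≤ 5 ^ d * (n : ℝ) ^ d * (d * (1 / 4 : ℝ) ^ n) :=
          mul_le_mul_of_nonneg_right e1 (by positivity)
      _ = _ := by ring

theorem sparse_G2 (d : ℕ) (q : ℝ) (hq : 0 < q) :
    ∃ R : ℕ, 0 < R ∧ 4 ∣ R ∧ ∃ N0 : ℕ, ∀ (N : ℕ) [NeZero N], Even N → N0 ≤ N → ∀ m : ℕ,
      m * R < N → Sparse (fun b : Cell d m => {ψ : T d N → ℝ | ¬ G2 R b ψ}) q := by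
  classical
  obtain ⟨δ, hδ0, hδ1, N0, hext⟩ := ext_bound d (1 / 16) (by norm_num)
  obtain ⟨n, hn0, hn1, hn2⟩ := sparseB_choose d q hq δ hδ0
  refine ⟨4 * n, by omega, Dvd.intro _ rfl, N0, fun N _ hN hN0 m hm => ?_⟩
  have hhalf : 4 * n / 2 = 2 * n := by omega
  have hlt : ∀ (b : Cell d m) (j : Fin d), ((b j : ℕ) + 1) * (4 * n) < N := fun b j =>
    lt_of_le_of_lt (Nat.mul_le_mul_right _ (b j).2) hm
  have h := sparse_ext (d := d) (N := N) (m := m) (R := 4 * n) (by omega) (by norm_num)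
    (by norm_num) (hext N hN hN0) n ((4 * n + 1) ^ d * d * 2 ^ (2 * n))
    (fun b => (((cbox (4 * n) b ×ˢ (Finset.univ : Finset (Fin d))) ×ˢ
        (Finset.range (2 * n)).powerset).filter fun z =>
          (z.1.1 z.1.2).val + 2 * n ≤ ((b z.1.2 : ℕ) + 1) * (4 * n) ∧ n ≤ z.2.card).image
        fun z => z.2.image fun s : ℕ => (z.1.1 + (s : ZMod N) • ev z.1.2, z.1.2))
    (fun b => by
      refine Finset.card_image_le.trans ((Finset.card_filter_le _ _).trans ?_)
      rw [Finset.card_product, Finset.card_product, Finset.card_univ, Fintype.card_fin,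
        Finset.card_powerset, Finset.card_range]
      exact Nat.mul_le_mul_right _ (Nat.mul_le_mul_right _ (card_cbox_le _ b)))
    (fun b F hF => by
      obtain ⟨⟨⟨x, j⟩, S⟩, hz, rfl⟩ := Finset.mem_image.1 hF
      simp only [Finset.mem_filter, Finset.mem_product, Finset.mem_univ, and_true,
        Finset.mem_powerset] at hz
      obtain ⟨⟨hx, hS⟩, hv, hc⟩ := hz
      have hS' : ∀ s ∈ S, s < 2 * n := fun s hs => Finset.mem_range.1 (hS hs)
      have hb := hlt b j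
      constructor
      · rw [Finset.card_image_of_injOn]
        · exact hc
        · intro s hs t ht hst
          have hs' := hS' s hs
          have ht' := hS' t ht
          have e : (x + (s : ZMod N) • ev j : T d N) = x + (t : ZMod N) • ev j :=
            congrArg Prod.fst hst
          have e1 := sparseB_val x j j s (by omega)
          have e2 := sparseB_val x j j t (by omega)
          rw [e, e2] at e1
          simp at e1
          omega
      · intro p hp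
        obtain ⟨s, hs, rfl⟩ := Finset.mem_image.1 hp
        have hs' := hS' s hs
        simp only [cbox, Finset.mem_filter, Finset.mem_univ, true_and] at hx ⊢
        intro k
        rw [sparseB_val x j k s (by omega)]
        have := hx k
        split_ifs with hk
        · subst hk; omega
        · omega)
  refine h.mono (by positivity) hn2 ?_
  intro b ψ hlip hψ
  simp only [Set.mem_ofPred_eq, G2, not_forall, not_le, hhalf] at hψ
  obtain ⟨x, j, hx, hv, hgt⟩ := hψ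
  let D : ℕ → ℝ := fun s => |ψ (x + (s : ZMod N) • ev j + ev j) - ψ (x + (s : ZMod N) • ev j)|
  have hD : ∀ s, D s ≤ 1 := fun s => (lip_iff_ev ψ).1 hlip _ _
  let S := (Finset.range (2 * n)).filter fun s => 1 - δ ≤ D s
  have hcard : n ≤ S.card := by
    by_contra hc
    have hc' : S.card + 1 ≤ n := by omega
    have h1 : ∑ s ∈ Finset.range (2 * n), D s ≤
        ∑ s ∈ Finset.range (2 * n), ((1 - δ) + if 1 - δ ≤ D s then δ else 0) := by
      refine Finset.sum_le_sum fun s _ => ?_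
      have := hD s
      split_ifs with hs
      · linarith
      · linarith
    rw [Finset.sum_add_distrib, ← Finset.sum_filter, Finset.sum_const, Finset.sum_const,
      Finset.card_range, nsmul_eq_mul, nsmul_eq_mul] at h1
    have h2 := (sparseB_tele ψ x j (2 * n)).trans h1
    have h3 : (S.card : ℝ) + 1 ≤ n := by exact_mod_cast hc'
    have h4 := hgt.trans_le h2
    change ((2 * n : ℕ) : ℝ) - 3 < ((2 * n : ℕ) : ℝ) * (1 - δ) + (S.card : ℝ) * δ at h4
    push_cast at h4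
    nlinarith
  refine ⟨_, Finset.mem_image.2 ⟨((x, j), S), ?_, rfl⟩, fun p hp => ?_⟩
  · simp only [Finset.mem_filter, Finset.mem_product, Finset.mem_univ, and_true,
      Finset.mem_powerset]
    exact ⟨⟨hx, Finset.filter_subset _ _⟩, hv, hcard⟩
  · obtain ⟨s, hs, rfl⟩ := Finset.mem_image.1 hp
    exact (Finset.mem_filter.1 hs).2

/-- Bad boxes are sparse. -/
theorem bad_sparse (d : ℕ) (q : ℝ) (hq : 0 < q) :
    ∃ (R : ℕ) (p : ℝ) (N0 : ℕ), 0 < R ∧ 4 ∣ R ∧ 0 < p ∧ p ≤ 1 ∧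
      ∀ (N : ℕ) [NeZero N], Even N → N0 ≤ N → ∀ m : ℕ, m * R < N →
        ∀ B : Finset (Cell d m), mu TAdj 0 {ψ : T d N → ℝ | ∀ b ∈ B, ¬ Good R p b ψ} ≤
          ENNReal.ofReal (q ^ B.card) * mu (TAdj (d := d) (N := N)) 0 Set.univ := by
  obtain ⟨q0, hq0, hq1, hqq⟩ : ∃ q0 : ℝ, 0 < q0 ∧ q0 ≤ 1 ∧ q0 ≤ q :=
    ⟨min q 1, lt_min hq one_pos, min_le_right _ _, min_le_left _ _⟩
  obtain ⟨a, ha⟩ : ∃ a : ℝ, a = q0 ^ (2 ^ d) / 2 := ⟨_, rfl⟩
  have hQ1 : q0 ^ (2 ^ d) ≤ 1 := pow_le_one₀ hq0.le hq1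
  have ha0 : 0 < a := by rw [ha]; positivity
  have ha1 : a ≤ 1 := by rw [ha]; linarith
  obtain ⟨a', ha'⟩ : ∃ a' : ℝ, a' = a ^ 2 / 2 := ⟨_, rfl⟩
  have ha'0 : 0 < a' := by rw [ha']; positivity
  have ha'1 : a' ≤ 1 := by rw [ha']; nlinarith
  obtain ⟨R, hR, hR4, N2, h2⟩ := sparse_G2 d (a ^ 2) (by positivity)
  obtain ⟨ε, hε0, hε1, N1, h1⟩ := sparse_G1 d R hR (a' ^ 2) (by positivity)
  obtain ⟨ε', hε'⟩ : ∃ ε' : ℝ, ε' = ε * (a' ^ 2 / (d * R + 1)) := ⟨_, rfl⟩
  have hdR : (0 : ℝ) ≤ d * R := by positivity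
  have hε'0 : 0 < ε' := by rw [hε']; positivity
  have hfr : a' ^ 2 / (d * R + 1) ≤ 1 := by
    rw [div_le_one (by positivity)]
    nlinarith
  have hε'1 : ε' ≤ ε := by
    rw [hε']
    exact mul_le_of_le_one_right hε0.le hfr
  have hε'2 : d * R * (ε' / ε) ≤ a' ^ 2 := by
    have : ε' / ε = a' ^ 2 / (d * R + 1) := by rw [hε']; field_simp
    rw [this]
    calc (d : ℝ) * R * (a' ^ 2 / (d * R + 1)) ≤ (d * R + 1) * (a' ^ 2 / (d * R + 1)) :=
          mul_le_mul_of_nonneg_right (by linarith) (by positivity)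
      _ = a' ^ 2 := by field_simp
  refine ⟨R, (ε' / 12) ^ (R ^ d), max N1 N2, hR, hR4, by positivity,
    pow_le_one₀ (by positivity) (by linarith), fun N _ hN hN0 m hm B => ?_⟩
  have s1 := h1 N hN (le_trans (le_max_left _ _) hN0) m hm
  have s2 := h2 N hN (le_trans (le_max_right _ _) hN0) m hm
  have s3 := (sparse_G3 (d := d) (N := N) (m := m) hR4 hm hε'0 hε0).mono (by positivity) hε'2
    (fun _ _ _ h => h)
  have s13 := (Sparse.union ha'0.le s1 s3 ha'1).mono (q' := a ^ 2) (by positivity)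
    (by rw [ha']; linarith) (fun _ _ _ h => h)
  have s := (Sparse.union ha0.le s2 s13 ha1).mono (q' := q0 ^ (2 ^ d))
    (E' := fun b : Cell d m => {ψ : T d N → ℝ | ¬ Good R ((ε' / 12) ^ (R ^ d)) b ψ})
    (by positivity) (by rw [ha]; linarith) (by
      intro b ψ hlip hψ
      by_contra hc
      simp only [Set.mem_union, Set.mem_ofPred_eq, not_or, not_not, not_and] at hc
      exact hψ (good_of_G hR4 hm hε'0 hε'1 hε1 b ψ hlip hc.2.1 hc.1 (hc.2.2 hc.2.1)))
  refine (Sparse.all hq0.le hq1 s B).trans ?_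
  exact mul_le_mul' (ENNReal.ofReal_le_ofReal (pow_le_pow_left₀ hq0.le hqq _)) le_rfl

end Pool.Agent.Lib.MP_adb013_pr
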