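import Pool.Agent.Lib.MP_adb013_pr.SparseA

set_option autoImplicit false
set_option linter.unusedSectionVars false

open MeasureTheory
open scoped ENNReal

namespace Pool.Agent.Lib.MP_adb013_pr

/-- The neighbours of `u` are close to each other and the values at `u`, `u'` are close. -/
def CloseG3 {d N : ℕ} (ε ε' : ℝ) (u u' : T d N) (ψ : T d N → ℝ) : Prop :=
  (∀ w w', TAdj u w → TAdj u w' → ψ w - ψ w' ≤ 2 - 2 * ε) ∧ |ψ u - ψ u'| < ε'

theorem ind_mono_G3 {Ω Ω' : Type} {p : Ω → Prop} {q : Ω' → Prop} {x : Ω} {y : Ω'}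
    (h : p x → q y) : ind p x ≤ ind q y := by
  by_cases hp : p x
  · rw [ind_pos hp, ind_pos (h hp)]
  · rw [ind_neg hp]; exact zero_le

theorem measurableSet_closeG3 {d N : ℕ} [NeZero N] (ε ε' : ℝ) (u u' : T d N) :
    MeasurableSet {ψ : T d N → ℝ | CloseG3 ε ε' u u' ψ} := by
  refine MeasurableSet.inter (IsClosed.measurableSet ?_) (IsOpen.measurableSet ?_)
  · change IsClosed {ψ : T d N → ℝ | ∀ w w', TAdj u w → TAdj u w' → ψ w - ψ w' ≤ 2 - 2 * ε}
    simp only [Set.ofPred_forall]
    exact isClosed_iInter fun w => isClosed_iInter fun w' => isClosed_iInter fun _ =>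
      isClosed_iInter fun _ => isClosed_le (by fun_prop) continuous_const
  · exact isOpen_lt (f := fun ψ : T d N → ℝ => |ψ u - ψ u'|) (by fun_prop) continuous_const

theorem marg_closeG3 {d N : ℕ} [NeZero N] (hN : 2 ≤ N) (i : Fin d) {ε ε' : ℝ} (h0 : 0 < ε')
    (hε : 0 < ε) {u u' : T d N} (hne : u' ≠ u) (η : T d N → ℝ) :
    marg {u} (fun ψ => ind (LipOn TAdj {u}) ψ * ind (CloseG3 ε ε' u u') ψ) η ≤
      marg {u} (fun ψ => ind (LipOn TAdj {u}) ψ * ENNReal.ofReal (ε' / ε)) η := by
  classical
  rw [marg_singleton, marg_singleton]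
  have nb : ∀ w, TAdj u w → w ≠ u := fun w hw e => tadj_irrefl hN u (e ▸ hw)
  by_cases hL : ∀ w w', TAdj u w → TAdj u w' → η w - η w' ≤ 2 - 2 * ε
  · obtain ⟨w1, hw1, hmax⟩ := Finset.exists_max_image (Finset.univ.filter fun w => TAdj u w) η
      ⟨u + ev i, Finset.mem_filter.2 ⟨Finset.mem_univ _, i, Or.inl rfl⟩⟩
    have hw1 := (Finset.mem_filter.1 hw1).2
    have a1 : ∫⁻ a : ℝ, ind (LipOn TAdj {u}) (Function.update η u a) *
        ind (CloseG3 ε ε' u u') (Function.update η u a) ≤ ENNReal.ofReal (2 * ε') := by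
      refine (lintegral_mono (g := ind fun a : ℝ => a ∈ Set.Ioo (η u' - ε') (η u' + ε'))
        fun a => ?_).trans ?_
      · simp only [ind_mul]
        refine ind_mono_G3 fun h => ?_
        have := h.2.2
        rw [Function.update_self, Function.update_of_ne hne, abs_lt] at this
        constructor <;> linarith [this.1, this.2]
      · rw [lintegral_ind (p := fun a : ℝ => a ∈ Set.Ioo (η u' - ε') (η u' + ε')) _
          measurableSet_Ioo]
        simp only [Set.ofPred_mem_eq, Real.volume_Ioo]
        exact le_of_eq (by congr 1; ring)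
    have a2 : ENNReal.ofReal (2 * ε) ≤
        ∫⁻ a : ℝ, ind (LipOn TAdj {u}) (Function.update η u a) := by
      refine le_trans ?_ (lintegral_mono
        (f := ind fun a : ℝ => a ∈ Set.Icc (η w1 - 1) (η w1 - 1 + 2 * ε)) fun a => ?_)
      · rw [lintegral_ind (p := fun a : ℝ => a ∈ Set.Icc (η w1 - 1) (η w1 - 1 + 2 * ε)) _
          measurableSet_Icc]
        simp only [Set.ofPred_mem_eq, Real.volume_Icc]
        exact le_of_eq (by congr 1; ring)
      · refine ind_mono_G3 fun h => ?_
        have key : ∀ w, TAdj u w →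
            |Function.update η u a u - Function.update η u a w| ≤ 1 := fun w hw => by
          rw [Function.update_self, Function.update_of_ne (nb w hw), abs_le]
          have := hmax w (Finset.mem_filter.2 ⟨Finset.mem_univ _, hw⟩)
          have := hL w1 w hw1 hw
          constructor <;> linarith [h.1, h.2]
        rintro x y hxy (hx | hy)
        · rw [Finset.mem_singleton.1 hx] at hxy ⊢
          exact key y hxy
        · rw [Finset.mem_singleton.1 hy] at hxy ⊢
          rw [abs_sub_comm]
          exact key x hxy.symm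
    rw [lintegral_mul_const' _ _ ENNReal.ofReal_ne_top]
    refine a1.trans (le_trans (le_of_eq ?_) (mul_le_mul_left a2 _))
    rw [← ENNReal.ofReal_mul (by positivity)]
    congr 1
    field_simp
  · refine le_trans (le_of_eq ?_) zero_le
    refine (lintegral_congr fun a => ?_).trans lintegral_zero
    rw [ind_neg (p := CloseG3 ε ε' u u'), mul_zero]
    refine fun h => hL fun w w' hw hw' => ?_
    have := h.1 w w' hw hw'
    rwa [Function.update_of_ne (nb w hw), Function.update_of_ne (nb w' hw')] at this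

/-- Resampling one vertex: the two ends of a link rarely have close values. -/
theorem sparse_G3 {d N m : ℕ} [NeZero N] {R : ℕ} (hR : 4 ∣ R) (hm : m * R < N) {ε ε' : ℝ}
    (h0 : 0 < ε') (hε : 0 < ε) :
    Sparse (fun b : Cell d m => {ψ : T d N → ℝ | G1 R ε b ψ ∧ ¬ G3 R ε' b ψ})
      (d * R * (ε' / ε)) := by
  classical
  set s0 : ℕ → ℕ := fun k => if k = 0 then 2 else 2 * k with hs0
  set s1 : ℕ → ℕ := fun k => if k = 0 then 0 else 2 * k + 2 with hs1
  have hs : ∀ k < R / 2, 0 < s0 k ∧ s0 k < R ∧ s1 k ≤ R ∧ s1 k ≠ s0 k ∧ 4 ≤ R := by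
    intro k hk
    simp only [hs0, hs1]
    split_ifs <;> omega
  have hq : 0 ≤ ε' / ε := by positivity
  have main := sparse_choice (N := N)
    (fun _ : Cell d m => (Finset.univ : Finset (Fin d)) ×ˢ Finset.range (R / 2)) (d * R)
    (fun _ => by
      rw [Finset.card_product, Finset.card_univ, Fintype.card_fin, Finset.card_range]
      exact Nat.mul_le_mul_left _ (Nat.div_le_self _ _))
    (fun b p => {ψ | CloseG3 ε ε' (ax R b p.1 (s0 p.2)) (ax R b p.1 (s1 p.2)) ψ}) (r := ε' / ε)
    fun f B _ hf => by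
      have hk : ∀ b ∈ B, (f b).2 < R / 2 := fun b hb =>
        Finset.mem_range.1 (Finset.mem_product.1 (hf b hb)).2
      have ho : ∀ b ∈ B, ax (N := N) R b (f b).1 (s0 (f b).2) ∈ obox R b := fun b hb => by
        obtain ⟨h1, h2, -, -, h4⟩ := hs _ (hk b hb)
        exact ax_mem_obox (by omega) hm b _ h1 h2
      have key := mu_prod_le (TAdj (d := d) (N := N)) 0 B
        (fun b => {ax R b (f b).1 (s0 (f b).2)})
        (fun b => ind (CloseG3 ε ε' (ax R b (f b).1 (s0 (f b).2)) (ax R b (f b).1 (s1 (f b).2))))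
        (fun _ _ => ENNReal.ofReal (ε' / ε)) (fun _ => 1)
        (fun b _ => measurable_ind (measurableSet_closeG3 _ _ _ _)) (fun _ _ => measurable_const)
        measurable_const
        (fun b hb h => zero_notMem_obox (Fin.pos (f b).1) R b
          (Finset.mem_singleton.1 h ▸ ho b hb))
        (fun b hb b' hb' hne => ⟨Indep.ind (indep_of_imp fun x y hxy h => ?_), fun _ _ _ => rfl⟩)
        (fun _ _ _ _ _ => rfl) fun b hb η => ?_
      · simp only [one_mul, prod_ind, Finset.prod_const, lintegral_const] at key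
        rw [lintegral_ind] at key
        · rw [ENNReal.ofReal_pow hq]
          exact key
        · simp only [Set.ofPred_forall]
          exact B.measurableSet_biInter fun b _ => measurableSet_closeG3 _ _ _ _
      · have e : ∀ w ∈ cbox (N := N) R b', x w = y w := fun w hw => hxy w fun h' =>
          Finset.disjoint_left.1 (disjoint_obox_cbox R hne) (ho b hb)
            (Finset.mem_singleton.1 h' ▸ hw)
        refine ⟨fun w w' hw hw' => ?_, ?_⟩
        · rw [← e w (adj_of_mem_obox hm (ho b' hb') hw).1,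
            ← e w' (adj_of_mem_obox hm (ho b' hb') hw').1]
          exact h.1 w w' hw hw'
        · rw [← e _ (obox_subset_cbox R b' (ho b' hb')),
            ← e _ (ax_mem_cbox hm b' _ (hs _ (hk b' hb')).2.2.1)]
          exact h.2
      · obtain ⟨h1, h2, h3, h4, h5⟩ := hs _ (hk b hb)
        have hm1 : 1 ≤ m := Fin.pos (b (f b).1)
        refine marg_closeG3 (by nlinarith) (f b).1 h0 hε (fun e => h4 ?_) η
        have e' := congrArg (fun x : T d N => (x (f b).1).val) e
        simp only [val_ax hm b _ _ h3, val_ax hm b _ _ h2.le, if_true] at e'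
        omega
  push_cast at main
  refine main.mono (by positivity) le_rfl fun b ψ _ h => ?_
  obtain ⟨h1, h3⟩ := h
  simp only [G3, not_forall, not_le] at h3
  obtain ⟨i, k, hk, h3⟩ := h3
  obtain ⟨a1, a2, -, -, a4⟩ := hs k hk
  have ho : ax (N := N) R b i (s0 k) ∈ obox R b := ax_mem_obox (by omega) hm b _ a1 a2
  have nb : ∀ w, TAdj (ax R b i (s0 k)) w → |ψ w - ψ (ax R b i (s0 k))| ≤ 1 - ε := by
    intro w hw
    obtain ⟨hc, j, -, hj | hj⟩ := adj_of_mem_obox hm ho hw
    · rw [hj.2] at hc ⊢
      exact h1 _ j (obox_subset_cbox R b ho) hc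
    · rw [abs_sub_comm, hj.2]
      exact h1 w j hc (hj.2 ▸ obox_subset_cbox R b ho)
  refine ⟨(i, k), Finset.mem_product.2 ⟨Finset.mem_univ _, Finset.mem_range.2 hk⟩,
    fun w w' hw hw' => ?_, ?_⟩
  · linarith [(abs_le.1 (nb w hw)).2, (abs_le.1 (nb w' hw')).1]
  · simp only [hs0, hs1]
    split_ifs with h
    · subst h
      rw [abs_sub_comm]
      exact h3
    · exact h3

end Pool.Agent.Lib.MP_adb013_pr
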