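import Pool.Agent.Lib.MP_adb013_pr.Upper

set_option autoImplicit false
set_option linter.unusedSectionVars false

open MeasureTheory
open scoped ENNReal

namespace Pool.Agent.Lib.MP_adb013_pr

/-- Tail bound `P(φ_v ≥ t) ≤ C exp(-c t^d)`. -/
theorem tail {d : ℕ} (hd : 3 ≤ d) : ∃ (c C : ℝ) (N0 : ℕ), 0 < c ∧ 0 < C ∧
    ∀ (N : ℕ) [NeZero N], Even N → N0 ≤ N → ∀ (v : T d N) (t : ℝ), 0 ≤ t → t ≤ N →
      mu TAdj 0 {ψ : T d N → ℝ | t ≤ ψ v - ψ 0} ≤
        ENNReal.ofReal (C * Real.exp (-(c * t ^ d))) *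
          mu (TAdj (d := d) (N := N)) 0 Set.univ := by
  obtain ⟨c, R, N0, hc, hR, H⟩ := tail_ctr hd
  have hd0 : (3 : ℝ) ≤ d := by exact_mod_cast hd
  have hR1 : (1 : ℝ) ≤ R := by exact_mod_cast hR
  have hK : (0 : ℝ) < d * R := by positivity
  set K : ℝ := d * R with hKdef
  set c' : ℝ := c / (10 * K) ^ d with hc'
  have hc'0 : 0 < c' := by positivity
  refine ⟨c', max 2 (Real.exp (c' * (18 * K) ^ d)), max N0 (R + 1), hc'0,
    lt_max_of_lt_left (by norm_num), ?_⟩
  intro N _ hE hN v t ht0 htN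
  have hN0 : N0 ≤ N := le_of_max_le_left hN
  have hNR : R + 1 ≤ N := le_of_max_le_right hN
  by_cases ht : t < 18 * K
  · have h1 : (1 : ℝ) ≤ max 2 (Real.exp (c' * (18 * K) ^ d)) * Real.exp (-(c' * t ^ d)) := by
      have h2 : c' * t ^ d ≤ c' * (18 * K) ^ d := by gcongr
      calc (1 : ℝ) = Real.exp (c' * t ^ d) * Real.exp (-(c' * t ^ d)) := by
            rw [← Real.exp_add]; simp
        _ ≤ Real.exp (c' * (18 * K) ^ d) * Real.exp (-(c' * t ^ d)) := by gcongr
        _ ≤ _ := by gcongr; exact le_max_right _ _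
    calc mu TAdj 0 {ψ : T d N → ℝ | t ≤ ψ v - ψ 0}
        ≤ mu (TAdj (d := d) (N := N)) 0 Set.univ := measure_mono (Set.subset_univ _)
      _ = 1 * mu (TAdj (d := d) (N := N)) 0 Set.univ := (one_mul _).symm
      _ ≤ _ := by
        gcongr
        exact ENNReal.one_le_ofReal.2 h1
  · push Not at ht
    set m : ℕ := (N - 1) / R with hm
    have hm1 : 1 ≤ m := by
      rw [hm, Nat.le_div_iff_mul_le hR]; omega
    have hmR : m * R < N := by
      have := Nat.div_mul_le_self (N - 1) R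
      rw [← hm] at this
      omega
    have hmR' : N ≤ (m + 1) * R := by
      have := Nat.lt_div_mul_add (a := N - 1) hR
      rw [← hm] at this
      have e : (m + 1) * R = m * R + R := by ring
      omega
    obtain ⟨b1, hb1⟩ := exists_near_ctr (d := d) hm1 hmR hmR' v
    obtain ⟨b0, hb0⟩ := exists_near_ctr (d := d) hm1 hmR hmR' (0 : T d N)
    set s : ℝ := (t - 4 * K) / (5 * K) with hs
    have hs5 : s * (5 * K) = t - 4 * K := by rw [hs]; field_simp
    have hs2 : 2 ≤ s := by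
      rw [hs, le_div_iff₀ (by positivity)]; linarith
    set r : ℕ := ⌊s⌋₊ with hr
    have hrs : (r : ℝ) ≤ s := Nat.floor_le (by linarith)
    have hsr : s < r + 1 := Nat.lt_floor_add_one s
    have hr1 : 1 ≤ r := by
      have : (1 : ℝ) < r := by linarith
      exact_mod_cast this.le
    have hrt : 5 * K * r ≤ t - 4 * K := by nlinarith
    have hrt' : t / (10 * K) ≤ r := by
      rw [div_le_iff₀ (by positivity)]; nlinarith
    have hrm : r ≤ m := by
      have h1 : (N : ℝ) ≤ (m + 1) * R := by exact_mod_cast hmR'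
      have hm1' : (1 : ℝ) ≤ m := by exact_mod_cast hm1
      have hr0 : (0 : ℝ) ≤ r := Nat.cast_nonneg r
      have h2 : 3 * (R : ℝ) ≤ K := by rw [hKdef]; nlinarith
      have h3 : (r : ℝ) * R ≤ m * R := by nlinarith
      have h4 : (r : ℝ) ≤ m := le_of_mul_le_mul_right h3 (by linarith)
      exact_mod_cast h4
    have H1 := H N hE hN0 m hmR r hr1 hrm b0 b1
    have H2 : mu TAdj 0 {ψ : T d N → ℝ | t ≤ ψ v - ψ 0} ≤
        mu TAdj 0 {ψ : T d N → ℝ | (5 * d * r * R : ℝ) ≤ ψ (ctr R b1) - ψ (ctr R b0)} := by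
      refine mu_mono_lip _ _ fun ψ hψ hmem => ?_
      have a1 := abs_le.1 (hb1 ψ hψ)
      have a0 := abs_le.1 (hb0 ψ hψ)
      have hmem' : t ≤ ψ v - ψ 0 := hmem
      have e1 : (5 * d * r * R : ℝ) = 5 * K * r := by rw [hKdef]; ring
      have e2 : (2 * d * R : ℝ) = 2 * K := by rw [hKdef]; ring
      change (5 * d * r * R : ℝ) ≤ ψ (ctr R b1) - ψ (ctr R b0)
      rw [e1]
      rw [e2] at a1 a0
      linarith [a1.1, a1.2, a0.1, a0.2]
    refine H2.trans (H1.trans ?_)
    have h5 : c' * t ^ d ≤ c * (r : ℝ) ^ d := by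
      have h6 : (t / (10 * K)) ^ d ≤ (r : ℝ) ^ d := pow_le_pow_left₀ (by positivity) hrt' d
      calc c' * t ^ d = c * (t / (10 * K)) ^ d := by rw [hc', div_pow]; ring
        _ ≤ _ := by gcongr
    have h7 : 2 * Real.exp (-(c * (r : ℝ) ^ d)) ≤
        max 2 (Real.exp (c' * (18 * K) ^ d)) * Real.exp (-(c' * t ^ d)) :=
      mul_le_mul (le_max_left _ _) (Real.exp_le_exp.2 (by linarith)) (Real.exp_pos _).le
        (le_trans (by norm_num) (le_max_left _ _))
    gcongr

end Pool.Agent.Lib.MP_adb013_pr
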