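import Pool.Agent.Lib.MP_adb013_pr.Gain
import Pool.Agent.Lib.MP_adb013_pr.Cap
import Pool.Agent.Lib.MP_adb013_pr.SparseB

set_option autoImplicit false
set_option linter.unusedSectionVars false

open MeasureTheory
open scoped ENNReal

namespace Pool.Agent.Lib.MP_adb013_pr

section

variable {d N m : ℕ} [NeZero N]

/-- All integrated vertices. -/
def allI (N : ℕ) [NeZero N] (d m R : ℕ) : Finset (T d N) :=
  Finset.univ.biUnion fun b : Cell d m => ibox (N := N) R b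

theorem zero_notMem_allI (hd : 1 ≤ d) (R : ℕ) : (0 : T d N) ∉ allI N d m R := by
  intro h
  obtain ⟨b, -, hb⟩ := Finset.mem_biUnion.1 h
  exact zero_notMem_obox hd R b (ibox_subset_obox R b hb)

theorem ctr_notMem_allI {R : ℕ} (hR : 4 ∣ R) (hm : m * R < N) (b : Cell d m) :
    ctr (N := N) R b ∉ allI N d m R := by
  intro h
  obtain ⟨b', -, hb⟩ := Finset.mem_biUnion.1 h
  exact ctr_notMem_ibox hR hm b b' hb

/-- The marginal of the pinned polytope on the skeleton. -/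
theorem marg_pinned (hd : 1 ≤ d) {R : ℕ} (hm : m * R < N) (x : T d N → ℝ) :
    marg (allI N d m R) (ind (Pinned TAdj 0)) x =
      ind (fun ψ => 0 ≤ ψ 0 ∧ ψ 0 ≤ 1 ∧ LipOff TAdj (allI N d m R) ψ) x *
        ∏ b : Cell d m, Zl TAdj (ibox R b) x := by
  have hmeas0 : Measurable (ind fun ψ : T d N → ℝ =>
      0 ≤ ψ 0 ∧ ψ 0 ≤ 1 ∧ LipOff TAdj (allI N d m R) ψ) := by
    refine measurable_ind ?_
    refine (measurableSet_le measurable_const (measurable_pi_apply _)).inter ?_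
    exact (measurableSet_le (measurable_pi_apply _) measurable_const).inter
      (measurableSet_LipOff _ _)
  have hI0 : Indep (allI N d m R) (ind fun ψ : T d N → ℝ =>
      0 ≤ ψ 0 ∧ ψ 0 ≤ 1 ∧ LipOff TAdj (allI N d m R) ψ) := by
    refine Indep.ind fun x y hxy => ?_
    rw [hxy 0 (zero_notMem_allI hd R), indep_lipOff TAdj _ x y hxy]
  have key := marg_prod (Finset.univ : Finset (Cell d m)) (fun b => ibox (N := N) R b)
    (ind fun ψ : T d N → ℝ => 0 ≤ ψ 0 ∧ ψ 0 ≤ 1 ∧ LipOff TAdj (allI N d m R) ψ)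
    (fun b => ind (LipOn TAdj (ibox R b)))
    (fun b _ b' _ hbb => (disjoint_obox_cbox R hbb).mono (ibox_subset_obox R b)
      ((ibox_subset_obox R b').trans (obox_subset_cbox R b')))
    hmeas0 (fun b _ => measurable_ind (measurableSet_LipOn _ _))
    (fun b _ => hI0.mono (Finset.subset_biUnion_of_mem (fun b' : Cell d m => ibox (N := N) R b')
      (Finset.mem_univ b)))
    (fun b _ b' _ hbb => (Indep.ind (indep_lipOn hm (ibox_subset_obox R b'))).mono (by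
      intro v hv
      rw [Finset.mem_compl]
      exact fun hv' => Finset.disjoint_left.1 (disjoint_obox_cbox R hbb)
        (ibox_subset_obox R b hv) hv')) x
  refine Eq.trans ?_ key
  refine marg_congr_agree _ fun ψ _ => ?_
  rw [prod_ind, ind_mul]
  refine ind_congr ?_
  rw [← lipOn_biUnion, Pinned, lip_iff TAdj (allI N d m R)]
  unfold allI
  tauto

theorem marg_pinned_and_le (hd : 1 ≤ d) {R : ℕ} (hm : m * R < N)
    (E : (T d N → ℝ) → Prop) (x : T d N → ℝ) :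
    marg (allI N d m R) (ind fun ψ => Pinned TAdj 0 ψ ∧ E ψ) x ≤
      ∏ b : Cell d m, Zl TAdj (ibox R b) x := by
  calc _ ≤ marg (allI N d m R) (ind (Pinned TAdj 0)) x :=
        marg_mono_agree _ fun _ _ => ind_mono fun h => h.1
    _ = _ := marg_pinned hd hm x
    _ ≤ 1 * ∏ b : Cell d m, Zl TAdj (ibox R b) x := by
        gcongr; exact ind_le_one _ _
    _ = _ := one_mul _

theorem energy_nonneg (B : Finset (Cell d m)) (g : Cell d m → ℝ) : 0 ≤ energy B g :=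
  Finset.sum_nonneg fun _ _ => sq_nonneg _

/-- The weight in the outer Prekopa-Leindler step. -/
noncomputable def wgt (R : ℕ) (p : ℝ) (𝒜 : Finset (Finset (Cell d m))) (e : ℝ)
    (ψ : T d N → ℝ) : ℝ≥0∞ :=
  ind (fun φ => ∃ A ∈ 𝒜, ∀ b ∈ A, ¬ Good R p b φ) ψ + ENNReal.ofReal e

theorem measurableSet_env (R : ℕ) (p : ℝ) (𝒜 : Finset (Finset (Cell d m))) :
    MeasurableSet {φ : T d N → ℝ | ∃ A ∈ 𝒜, ∀ b ∈ A, ¬ Good R p b φ} := by
  have : {φ : T d N → ℝ | ∃ A ∈ 𝒜, ∀ b ∈ A, ¬ Good R p b φ} =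
      ⋃ A ∈ 𝒜, ⋂ b ∈ A, {φ : T d N → ℝ | Good R p b φ}ᶜ := by
    ext φ; simp
  rw [this]
  exact Finset.measurableSet_biUnion _ fun A _ =>
    Finset.measurableSet_biInter _ fun b _ => (measurableSet_Good R p b).compl

theorem measurable_wgt (R : ℕ) (p : ℝ) (𝒜 : Finset (Finset (Cell d m))) (e : ℝ) :
    Measurable (wgt (N := N) R p 𝒜 e) :=
  (measurable_ind (measurableSet_env R p 𝒜)).add measurable_const

theorem indep_wgt {R : ℕ} (hm : m * R < N) (p : ℝ) (𝒜 : Finset (Finset (Cell d m))) (e : ℝ) :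
    Indep (allI N d m R) (wgt (N := N) R p 𝒜 e) := by
  intro x y hxy
  unfold wgt
  congr 1
  refine ind_congr ?_
  have : ∀ b : Cell d m, Good R p b x = Good R p b y := fun b => indep_Good hm p b x y hxy
  simp only [this]

/-- The pointwise inequality for the outer Prekopa-Leindler step. -/
theorem outer_step (hd : 1 ≤ d) {R : ℕ} (hR0 : 0 < R) (hR : 4 ∣ R) (hm : m * R < N) {p : ℝ}
    (hp0 : 0 ≤ p) (hp1 : p ≤ 1) (b0 b1 : Cell d m) (𝒜 : Finset (Finset (Cell d m)))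
    (t κ : ℝ)
    (hcap : ∀ (B : Finset (Cell d m)) (g : Cell d m → ℝ),
      (∀ b b', Up b b' → |g b' - g b| ≤ 1) → t ≤ g b1 - g b0 → (∀ A ∈ 𝒜, ¬ A ⊆ B) →
        κ ≤ energy B g) (x y : T d N → ℝ) :
    marg (allI N d m R) (ind fun ψ => Pinned TAdj 0 ψ ∧
        t * R ≤ ψ (ctr R b1) - ψ (ctr R b0)) x *
      marg (allI N d m R) (ind fun ψ => Pinned TAdj 0 ψ ∧
        t * R ≤ ψ (ctr R b0) - ψ (ctr R b1)) y ≤
      marg (allI N d m R) (fun ψ => wgt R p 𝒜 (Real.exp (-(p / d * κ / 2))) ψ *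
        ind (Pinned TAdj 0) ψ) (mid x y) ^ 2 := by
  classical
  by_cases hx : marg (allI N d m R) (ind fun ψ => Pinned TAdj 0 ψ ∧
        t * R ≤ ψ (ctr R b1) - ψ (ctr R b0)) x = 0
  · rw [hx, zero_mul]; exact zero_le
  by_cases hy : marg (allI N d m R) (ind fun ψ => Pinned TAdj 0 ψ ∧
        t * R ≤ ψ (ctr R b0) - ψ (ctr R b1)) y = 0
  · rw [hy, mul_zero]; exact zero_le
  obtain ⟨x', hxx, hx'⟩ := exists_of_marg_ne_zero hx
  obtain ⟨y', hyy, hy'⟩ := exists_of_marg_ne_zero hy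
  rw [ind_ne_zero] at hx' hy'
  obtain ⟨⟨hx0, hx1, hxl⟩, hxt⟩ := hx'
  obtain ⟨⟨hy0, hy1, hyl⟩, hyt⟩ := hy'
  rw [← marg_indep _ _ x' x hxx, ← marg_indep _ _ y' y hyy,
    ← marg_indep _ _ _ _ (hxx.mid hyy),
    marg_mul_indep _ (indep_wgt hm p 𝒜 _) (measurable_ind (measurableSet_Pinned _ _)),
    marg_pinned hd hm]
  have hpin : 0 ≤ mid x' y' 0 ∧ mid x' y' 0 ≤ 1 ∧ LipOff TAdj (allI N d m R) (mid x' y') := by
    refine ⟨?_, ?_, ((lip_iff TAdj _ x').1 hxl).2.mid ((lip_iff TAdj _ y').1 hyl).2⟩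
    · unfold mid; linarith
    · unfold mid; linarith
  rw [ind_pos (p := fun ψ : T d N → ℝ => 0 ≤ ψ 0 ∧ ψ 0 ≤ 1 ∧ LipOff TAdj (allI N d m R) ψ) hpin,
    one_mul]
  set B : Finset (Cell d m) := Finset.univ.filter fun b => ¬ Good R p b (mid x' y') with hB
  have hg := gain hd hR0 hR hm hp0 hp1 hxl hyl B (fun b hb => by
    by_contra h
    exact hb (Finset.mem_filter.2 ⟨Finset.mem_univ _, h⟩))
  refine (mul_le_mul' (marg_pinned_and_le hd hm _ x') (marg_pinned_and_le hd hm _ y')).trans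
    (hg.trans ?_)
  rw [mul_pow, mul_comm]
  gcongr
  have hd0 : (0 : ℝ) < d := by exact_mod_cast hd
  by_cases hE : ∃ A ∈ 𝒜, ∀ b ∈ A, ¬ Good R p b (mid x' y')
  · have h1 : ENNReal.ofReal (Real.exp (-(p / d * energy B (disp R x' y')))) ≤ 1 := by
      rw [ENNReal.ofReal_le_one, Real.exp_le_one_iff, neg_nonpos]
      exact mul_nonneg (div_nonneg hp0 hd0.le) (energy_nonneg _ _)
    refine h1.trans (one_le_pow₀ ?_)
    unfold wgt
    rw [ind_pos (p := fun φ : T d N → ℝ => ∃ A ∈ 𝒜, ∀ b ∈ A, ¬ Good R p b φ) hE]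
    exact le_self_add
  · have hR' : (0 : ℝ) < R := by exact_mod_cast hR0
    have hκ : κ ≤ energy B (disp R x' y') := by
      refine hcap B _ (disp_lip hR0 hm hxl hyl) ?_ ?_
      · unfold disp
        rw [← sub_div, le_div_iff₀ (by positivity)]
        linarith
      · intro A hA hAB
        exact hE ⟨A, hA, fun b hb => (Finset.mem_filter.1 (hAB hb)).2⟩
    unfold wgt
    rw [ind_neg (p := fun φ : T d N → ℝ => ∃ A ∈ 𝒜, ∀ b ∈ A, ¬ Good R p b φ) hE, zero_add,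
      ← ENNReal.ofReal_pow (Real.exp_pos _).le, ← Real.exp_nat_mul]
    refine ENNReal.ofReal_le_ofReal (Real.exp_le_exp.2 ?_)
    have : p / d * κ ≤ p / d * energy B (disp R x' y') :=
      mul_le_mul_of_nonneg_left hκ (div_nonneg hp0 hd0.le)
    push_cast
    linarith

theorem mu_eq_lintegral (E : (T d N → ℝ) → Prop) (hE : MeasurableSet {ψ | E ψ}) :
    mu TAdj 0 {ψ | E ψ} = ∫⁻ ψ, ind (fun φ => Pinned TAdj 0 φ ∧ E φ) ψ := by
  rw [mu_apply, lintegral_ind]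
  · rfl
  · exact (measurableSet_Pinned _ _).inter hE

end

/-- Tail bound between centres of boxes. -/
theorem tail_ctr {d : ℕ} (hd : 3 ≤ d) : ∃ (c : ℝ) (R N0 : ℕ), 0 < c ∧ 0 < R ∧
    ∀ (N : ℕ) [NeZero N], Even N → N0 ≤ N → ∀ m : ℕ, m * R < N → ∀ r : ℕ, 1 ≤ r → r ≤ m →
      ∀ b0 b1 : Cell d m,
        mu TAdj 0 {ψ : T d N → ℝ | (5 * d * r * R : ℝ) ≤ ψ (ctr R b1) - ψ (ctr R b0)} ≤
          ENNReal.ofReal (2 * Real.exp (-(c * (r : ℝ) ^ d))) *
            mu (TAdj (d := d) (N := N)) 0 Set.univ := by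
  obtain ⟨q, c, hq, hc, hcap⟩ := cap hd
  obtain ⟨R, p, N0, hR0, hR4, hp0, hp1, hsp⟩ := bad_sparse d q hq
  have hd1 : 1 ≤ d := by omega
  have hd0 : (1 : ℝ) ≤ d := by exact_mod_cast hd1
  refine ⟨p / d * c / 2, R, N0, by positivity, hR0, ?_⟩
  intro N _ hN hN0 m hm r hr hrm b0 b1
  obtain ⟨𝒜, hsum, hen⟩ := hcap m r hr hrm b0 b1
  set t : ℝ := 5 * d * r with ht
  set κ : ℝ := c * (r : ℝ) ^ d with hκ
  set e : ℝ := Real.exp (-(p / d * κ / 2)) with he
  set Z := mu (TAdj (d := d) (N := N)) 0 Set.univ with hZ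
  have hmp : MeasurableSet {ψ : T d N → ℝ | t * R ≤ ψ (ctr R b1) - ψ (ctr R b0)} :=
    measurableSet_le measurable_const (by fun_prop)
  have hmm : MeasurableSet {ψ : T d N → ℝ | t * R ≤ ψ (ctr R b0) - ψ (ctr R b1)} :=
    measurableSet_le measurable_const (by fun_prop)
  have hf : Measurable (ind fun ψ : T d N → ℝ => Pinned TAdj 0 ψ ∧
      t * R ≤ ψ (ctr R b1) - ψ (ctr R b0)) :=
    measurable_ind ((measurableSet_Pinned _ _).inter hmp)
  have hg : Measurable (ind fun ψ : T d N → ℝ => Pinned TAdj 0 ψ ∧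
      t * R ≤ ψ (ctr R b0) - ψ (ctr R b1)) :=
    measurable_ind ((measurableSet_Pinned _ _).inter hmm)
  have hh : Measurable (fun ψ : T d N → ℝ => wgt R p 𝒜 e ψ * ind (Pinned TAdj 0) ψ) :=
    (measurable_wgt R p 𝒜 e).mul (measurable_ind (measurableSet_Pinned _ _))
  have hpl := pl_marg (allI N d m R)ᶜ (measurable_marg (allI N d m R) hf)
    (measurable_marg (allI N d m R) hg) (measurable_marg (allI N d m R) hh) 0 0
    (fun x y _ _ => outer_step hd1 hR0 hR4 hm hp0.le hp1 b0 b1 𝒜 t κ hen x y)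
  rw [← lintegral_eq_marg_compl _ hf, ← lintegral_eq_marg_compl _ hg,
    ← lintegral_eq_marg_compl _ hh, ← mu_eq_lintegral _ hmp, ← mu_eq_lintegral _ hmm] at hpl
  have hsymm : mu TAdj 0 {ψ : T d N → ℝ | t * R ≤ ψ (ctr R b0) - ψ (ctr R b1)} =
      mu TAdj 0 {ψ : T d N → ℝ | t * R ≤ ψ (ctr R b1) - ψ (ctr R b0)} := by
    rw [← mu_neg TAdj 0 hmp]
    congr 1
    ext ψ
    simp only [Set.mem_ofPred_eq]
    constructor <;> intro h <;> linarith
  rw [hsymm, ← sq] at hpl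
  have hle := (ENNReal.pow_le_pow_left_iff (by norm_num)).1 hpl
  refine hle.trans ?_
  have hint : ∫⁻ ψ : T d N → ℝ, wgt R p 𝒜 e ψ * ind (Pinned TAdj 0) ψ =
      mu TAdj 0 {φ : T d N → ℝ | ∃ A ∈ 𝒜, ∀ b ∈ A, ¬ Good R p b φ} + ENNReal.ofReal e * Z := by
    have : ∫⁻ ψ : T d N → ℝ, wgt R p 𝒜 e ψ * ind (Pinned TAdj 0) ψ =
        ∫⁻ ψ : T d N → ℝ, wgt R p 𝒜 e ψ ∂(mu TAdj 0) := by
      rw [lintegral_mu]; simp only [mul_comm]
    rw [this]
    unfold wgt
    rw [lintegral_add_left (measurable_ind (measurableSet_env R p 𝒜)),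
      lintegral_ind _ (measurableSet_env R p 𝒜), lintegral_const]
  rw [hint]
  have henv : mu TAdj 0 {φ : T d N → ℝ | ∃ A ∈ 𝒜, ∀ b ∈ A, ¬ Good R p b φ} ≤
      ENNReal.ofReal (Real.exp (-κ)) * Z := by
    have h1 : {φ : T d N → ℝ | ∃ A ∈ 𝒜, ∀ b ∈ A, ¬ Good R p b φ} =
        ⋃ A ∈ 𝒜, {φ : T d N → ℝ | ∀ b ∈ A, ¬ Good R p b φ} := by
      ext φ; simp
    rw [h1]
    refine (measure_biUnion_finset_le _ _).trans ?_
    refine (Finset.sum_le_sum fun A _ => hsp N hN hN0 m hm A).trans ?_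
    rw [← Finset.sum_mul, ← ENNReal.ofReal_sum_of_nonneg fun A _ => pow_nonneg hq.le _]
    gcongr
  have hκ0 : 0 ≤ κ := by positivity
  have hpd : p / d / 2 ≤ 1 := by
    have : p / d ≤ 1 := (div_le_one (by linarith)).2 (hp1.trans hd0)
    linarith
  have he1 : Real.exp (-κ) ≤ e := by
    rw [he]
    refine Real.exp_le_exp.2 ?_
    nlinarith
  have he2 : Real.exp (-(p / d * c / 2 * (r : ℝ) ^ d)) = e := by
    rw [he, hκ]; congr 1; ring
  rw [he2, two_mul, ENNReal.ofReal_add (Real.exp_pos _).le (Real.exp_pos _).le, add_mul]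
  gcongr
  exact henv.trans (by gcongr)

end Pool.Agent.Lib.MP_adb013_pr
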